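import Pool.Agent.TSC.Defs

set_option autoImplicit false

open Classical

namespace TSC

variable {V : Type}

theorem dg_empty (h : V → V → ℕ) (v : V) : dg h v ∅ = 0 := by simp [dg]

theorem dg_mono (h : V → V → ℕ) (v : V) {A B : Finset V} (hAB : A ⊆ B) : dg h v A ≤ dg h v B :=
  Finset.sum_le_sum_of_subset hAB

theorem dg_union (h : V → V → ℕ) (v : V) {A B : Finset V} (hd : Disjoint A B) :
    dg h v (A ∪ B) = dg h v A + dg h v B := Finset.sum_union hd

theorem dg_singleton (h : V → V → ℕ) (v u : V) : dg h v {u} = h v u := by simp [dg]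

theorem dg_sdiff (h : V → V → ℕ) (v : V) {A B : Finset V} (hAB : A ⊆ B) :
    dg h v (B \ A) + dg h v A = dg h v B := Finset.sum_sdiff hAB

theorem dg_erase (h : V → V → ℕ) (v : V) {A : Finset V} {u : V} (hu : u ∈ A) :
    dg h v (A.erase u) + h v u = dg h v A := Finset.sum_erase_add A (h v) hu

theorem dg_insert (h : V → V → ℕ) (v : V) {A : Finset V} {u : V} (hu : u ∉ A) :
    dg h v (insert u A) = h v u + dg h v A := Finset.sum_insert hu

theorem h_le_dg (h : V → V → ℕ) (v : V) {A : Finset V} {u : V} (hu : u ∈ A) :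
    h v u ≤ dg h v A := Finset.single_le_sum (f := h v) (fun _ _ => Nat.zero_le _) hu

theorem dg_le (h : V → V → ℕ) (hg : HG h) (v : V) (A : Finset V) : dg h v A ≤ 2 * A.card := by
  have := Finset.sum_le_card_nsmul A (h v) 2 (fun u _ => hg.le2 v u)
  simpa [dg, mul_comm] using this

theorem card_le_dg (h : V → V → ℕ) (v : V) (A : Finset V) (hA : ∀ u ∈ A, 1 ≤ h v u) :
    A.card ≤ dg h v A := by
  have := Finset.card_nsmul_le_sum A (h v) 1 hA
  simpa [dg] using this

theorem mul_card_le_dg (h : V → V → ℕ) (v : V) (A : Finset V) (m : ℕ) (hA : ∀ u ∈ A, m ≤ h v u) :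
    m * A.card ≤ dg h v A := by
  have := Finset.card_nsmul_le_sum A (h v) m hA
  simpa [dg, mul_comm] using this

theorem exists_heavy (h : V → V → ℕ) (v : V) (A : Finset V) (hA : dg h v A < A.card) :
    ∃ u ∈ A, h v u = 0 := by
  by_contra hc
  push Not at hc
  have := card_le_dg h v A (fun u hu => Nat.one_le_iff_ne_zero.2 (hc u hu))
  omega

/-- If the total of two degrees is less than `2 |A|`, some vertex has at most one edge to the
pair. -/
theorem exists_pair (h : V → V → ℕ) (a b : V) (A : Finset V)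
    (hA : dg h a A + dg h b A < 2 * A.card) :
    ∃ w ∈ A, h a w + h b w ≤ 1 := by
  by_contra hc
  push Not at hc
  have := Finset.card_nsmul_le_sum A (fun w => h a w + h b w) 2 (fun w hw => hc w hw)
  rw [Finset.sum_add_distrib] at this
  simp only [dg, smul_eq_mul] at *
  omega

theorem pair_sum (h : V → V → ℕ) (a b : V) (A : Finset V) (hA : ∀ w ∈ A, 2 ≤ h a w + h b w) :
    2 * A.card ≤ dg h a A + dg h b A := by
  by_contra hc
  obtain ⟨w, hw, h1⟩ := exists_pair h a b A (by omega)
  have := hA w hw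
  omega

/-- Number of vertices of `A` joined to `v`. -/
theorem card_filter_le_dg (h : V → V → ℕ) (v : V) (A : Finset V) :
    (A.filter (fun u => 1 ≤ h v u)).card ≤ dg h v A := by
  refine (card_le_dg h v _ ?_).trans (dg_mono h v (Finset.filter_subset _ _))
  intro u hu
  exact (Finset.mem_filter.1 hu).2

/-- Number of heavy neighbours. -/
theorem card_heavy (h : V → V → ℕ) (v : V) (A : Finset V) :
    A.card ≤ (A.filter (fun u => h v u = 0)).card + dg h v A := by
  have h1 := card_filter_le_dg h v A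
  have h2 := Finset.card_filter_add_card_filter_not (s := A) (fun u => h v u = 0)
  have h3 : (A.filter (fun u => ¬ h v u = 0)) = (A.filter (fun u => 1 ≤ h v u)) := by
    ext u
    simp [Nat.one_le_iff_ne_zero]
  rw [h3] at h2
  omega

theorem cr_empty_left (h : V → V → ℕ) (B : Finset V) : cr h ∅ B = 0 := by simp [cr]
theorem cr_empty_right (h : V → V → ℕ) (A : Finset V) : cr h A ∅ = 0 := by simp [cr, dg]

theorem cr_symm {h : V → V → ℕ} (hg : HG h) (A B : Finset V) : cr h A B = cr h B A := by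
  unfold cr dg
  rw [Finset.sum_comm]
  exact Finset.sum_congr rfl (fun u _ => Finset.sum_congr rfl (fun v _ => hg.symm v u))

theorem cr_singleton_left (h : V → V → ℕ) (v : V) (B : Finset V) : cr h {v} B = dg h v B := by
  simp [cr]

theorem cr_union_left (h : V → V → ℕ) {A A' : Finset V} (B : Finset V) (hd : Disjoint A A') :
    cr h (A ∪ A') B = cr h A B + cr h A' B := Finset.sum_union hd

theorem cr_union_right (h : V → V → ℕ) (A : Finset V) {B B' : Finset V} (hd : Disjoint B B') :
    cr h A (B ∪ B') = cr h A B + cr h A B' := by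
  unfold cr
  rw [← Finset.sum_add_distrib]
  exact Finset.sum_congr rfl (fun v _ => dg_union h v hd)

theorem cr_insert_left (h : V → V → ℕ) {A : Finset V} {a : V} (B : Finset V) (ha : a ∉ A) :
    cr h (insert a A) B = dg h a B + cr h A B := Finset.sum_insert ha

theorem cr_mono (h : V → V → ℕ) {A A' B B' : Finset V} (hA : A ⊆ A') (hB : B ⊆ B') :
    cr h A B ≤ cr h A' B' :=
  (Finset.sum_le_sum (fun v _ => dg_mono h v hB)).trans (Finset.sum_le_sum_of_subset hA)

theorem mul_card_le_cr (h : V → V → ℕ) (A B : Finset V) (hAB : ∀ a ∈ A, ∀ b ∈ B, 1 ≤ h a b) :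
    A.card * B.card ≤ cr h A B := by
  have := Finset.card_nsmul_le_sum A (fun v => dg h v B) B.card
    (fun v hv => card_le_dg h v B (hAB v hv))
  simpa [cr] using this

theorem cr_le_mul (h : V → V → ℕ) (A B : Finset V) (m : ℕ) (hA : ∀ a ∈ A, dg h a B ≤ m) :
    cr h A B ≤ A.card * m := by
  have := Finset.sum_le_card_nsmul A (fun v => dg h v B) m hA
  simpa [cr] using this

theorem mul_le_cr (h : V → V → ℕ) (A B : Finset V) (m : ℕ) (hA : ∀ a ∈ A, m ≤ dg h a B) :
    A.card * m ≤ cr h A B := by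
  have := Finset.card_nsmul_le_sum A (fun v => dg h v B) m hA
  simpa [cr] using this

theorem cr_triple {h : V → V → ℕ} (hg : HG h) {a b c : V} (hab : a ≠ b) (hac : a ≠ c)
    (hbc : b ≠ c) : cr h {a, b, c} {a, b, c} = 2 * (h a b + h a c + h b c) := by
  have e1 : a ∉ ({b, c} : Finset V) := by simp [hab, hac]
  have e2 : b ∉ ({c} : Finset V) := by simp [hbc]
  simp only [cr, dg, Finset.sum_insert e1, Finset.sum_insert e2, Finset.sum_singleton]
  rw [hg.irr, hg.irr, hg.irr, hg.symm b a, hg.symm c a, hg.symm c b]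
  ring

theorem good_triple {h : V → V → ℕ} (hg : HG h) {a b c : V} (hab : a ≠ b) (hac : a ≠ c)
    (hbc : b ≠ c) (hh : h a b + h a c + h b c ≤ 1) : Good h {a, b, c} := by
  refine ⟨Finset.card_eq_three.2 ⟨a, b, c, hab, hac, hbc, rfl⟩, ?_⟩
  rw [cr_triple hg hab hac hbc]
  omega

/-- Normal form of a good triple. -/
theorem Good.elim {h : V → V → ℕ} (hg : HG h) {T : Finset V} (hT : Good h T) :
    ∃ a b c : V, a ≠ b ∧ a ≠ c ∧ b ≠ c ∧ T = {a, b, c} ∧ h a b + h a c + h b c ≤ 1 := by
  obtain ⟨a, b, c, hab, hac, hbc, rfl⟩ := Finset.card_eq_three.1 hT.1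
  refine ⟨a, b, c, hab, hac, hbc, rfl, ?_⟩
  have := hT.2
  rw [cr_triple hg hab hac hbc] at this
  omega

theorem Good.fac {h : V → V → ℕ} {T : Finset V} (hT : Good h T) : Fac h T := by
  have := Fac.add T ∅ hT (Finset.disjoint_empty_right T) Fac.empty
  simpa using this

theorem Fac.union {h : V → V → ℕ} {A B : Finset V} (hA : Fac h A) (hB : Fac h B)
    (hd : Disjoint A B) : Fac h (A ∪ B) := by
  induction hA with
  | empty => simpa using hB
  | add T S hT hTS _ ih =>
    have h1 : Disjoint S B := Finset.disjoint_of_subset_left Finset.subset_union_right hd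
    have h2 : Disjoint T B := Finset.disjoint_of_subset_left Finset.subset_union_left hd
    rw [Finset.union_assoc]
    exact Fac.add T (S ∪ B) hT (Finset.disjoint_union_right.2 ⟨hTS, h2⟩) (ih h1)

theorem Fac.card {h : V → V → ℕ} {A : Finset V} (hA : Fac h A) : 3 ∣ A.card := by
  induction hA with
  | empty => simp
  | add T S hT hTS _ ih =>
    rw [Finset.card_union_of_disjoint hTS, hT.1]
    omega

/-- A good triple and a factor of the rest. -/
theorem fac_of_good {h : V → V → ℕ} {S T : Finset V} (hT : Good h T) (hTS : T ⊆ S)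
    (hF : Fac h (S \ T)) : Fac h S := by
  have := Fac.add T (S \ T) hT Finset.disjoint_sdiff hF
  rwa [Finset.union_sdiff_of_subset hTS] at this

theorem Opt.swap {h : V → V → ℕ} {k : ℕ} {S X Y : Finset V} (o : Opt h k S X Y) :
    Opt h k S Y X :=
  ⟨o.hY, o.hX, o.disj.symm, by rw [Finset.union_comm]; exact o.union, o.card, o.deg, o.starY,
    o.starX⟩

theorem Opt.cards {h : V → V → ℕ} {k : ℕ} {S X Y : Finset V} (o : Opt h k S X Y) :
    X.card + Y.card = 3 * k := by
  rw [← Finset.card_union_of_disjoint o.disj, o.union, o.card]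

theorem Opt.degs {h : V → V → ℕ} {k : ℕ} {S X Y : Finset V} (o : Opt h k S X Y) (v : V)
    (hv : v ∈ S) : dg h v X + dg h v Y + 1 ≤ 2 * k := by
  rw [← dg_union h v o.disj, o.union]
  exact o.deg v hv

theorem Opt.subX {h : V → V → ℕ} {k : ℕ} {S X Y : Finset V} (o : Opt h k S X Y) : X ⊆ S := by
  rw [← o.union]; exact Finset.subset_union_left

theorem Opt.subY {h : V → V → ℕ} {k : ℕ} {S X Y : Finset V} (o : Opt h k S X Y) : Y ⊆ S := by
  rw [← o.union]; exact Finset.subset_union_right

theorem hD_hg (D : V → V → Prop) : HG (hD D) := by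
  refine ⟨fun u v => ?_, fun v => by simp [hD], fun u v => ?_⟩
  · unfold hD
    by_cases e : u = v
    · subst e; rfl
    · rw [if_neg e, if_neg (Ne.symm e), add_comm]
  · unfold hD
    split_ifs <;> omega

/-- A barrier of `S` is symmetric. -/
theorem Bar.elim {h : V → V → ℕ} (hg : HG h) {S : Finset V} (hB : Bar h S) (h3 : 3 ∣ S.card) :
    ∃ A B : Finset V, Disjoint A B ∧ A ∪ B = S ∧ ¬ (3 ∣ A.card) ∧ ¬ (3 ∣ B.card) ∧
      A.card ≤ B.card ∧ A.Nonempty ∧ (∀ a ∈ A, ∀ b ∈ B, 1 ≤ h a b) ∧
      (∀ b ∈ B, ∀ a ∈ A, 1 ≤ h b a) := by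
  obtain ⟨X, hX, h1, h2⟩ := hB
  have hc : (S \ X).card + X.card = S.card := Finset.card_sdiff_add_card_eq_card hX
  have hc' : ¬ (3 ∣ (S \ X).card) := by omega
  have hne : X.Nonempty := by
    rw [Finset.nonempty_iff_ne_empty]; rintro rfl; simp at h1
  have hne' : (S \ X).Nonempty := by
    rw [Finset.nonempty_iff_ne_empty]; intro h0; rw [h0] at hc'; simp at hc'
  rcases le_total X.card (S \ X).card with hle | hle
  · exact ⟨X, S \ X, Finset.disjoint_sdiff, Finset.union_sdiff_of_subset hX, h1, hc', hle, hne,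
      h2, fun b hb a ha => by rw [hg.symm]; exact h2 a ha b hb⟩
  · exact ⟨S \ X, X, Finset.sdiff_disjoint, Finset.sdiff_union_of_subset hX, hc', h1, hle, hne',
      fun b hb a ha => by rw [hg.symm]; exact h2 a ha b hb, h2⟩

end TSC
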