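import Mathlib

set_option autoImplicit false

/-!
# Exact decimal numbers with fast kernel arithmetic (MP_d27362_co)

`Dec` is a triple `(p, n, e)` of natural numbers with the value `(p - n) / 10 ^ e`. All operations
are built from `Nat.add`, `Nat.mul`, `Nat.sub`, `Nat.pow`, `Nat.ble` only, which the kernel
evaluates with big numbers.
-/

namespace Pool.Agent.TSC

/-- a decimal number `(p - n) / 10 ^ e` -/
structure Dec where
  p : Nat
  n : Nat
  e : Nat

namespace Dec

/-- the value of a decimal number -/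
noncomputable def val (x : Dec) : ℝ := ((x.p : ℝ) - (x.n : ℝ)) / (10 : ℝ) ^ x.e

/-- the decimal number `a / 10 ^ e` -/
def pos (a e : Nat) : Dec := ⟨a, 0, e⟩

/-- the decimal number `- a / 10 ^ e` -/
def negn (a e : Nat) : Dec := ⟨0, a, e⟩

def zero : Dec := ⟨0, 0, 0⟩
def one : Dec := ⟨1, 0, 0⟩

def add (x y : Dec) : Dec :=
  ⟨Nat.add (Nat.mul x.p (Nat.pow 10 (Nat.sub y.e x.e))) (Nat.mul y.p (Nat.pow 10 (Nat.sub x.e y.e))),
   Nat.add (Nat.mul x.n (Nat.pow 10 (Nat.sub y.e x.e))) (Nat.mul y.n (Nat.pow 10 (Nat.sub x.e y.e))),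
   Nat.add x.e (Nat.sub y.e x.e)⟩

def neg (x : Dec) : Dec := ⟨x.n, x.p, x.e⟩

def sub (x y : Dec) : Dec :=
  ⟨Nat.add (Nat.mul x.p (Nat.pow 10 (Nat.sub y.e x.e))) (Nat.mul y.n (Nat.pow 10 (Nat.sub x.e y.e))),
   Nat.add (Nat.mul x.n (Nat.pow 10 (Nat.sub y.e x.e))) (Nat.mul y.p (Nat.pow 10 (Nat.sub x.e y.e))),
   Nat.add x.e (Nat.sub y.e x.e)⟩

def mul (x y : Dec) : Dec :=
  ⟨Nat.add (Nat.mul x.p y.p) (Nat.mul x.n y.n), Nat.add (Nat.mul x.p y.n) (Nat.mul x.n y.p),
   Nat.add x.e y.e⟩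

/-- multiplication by a natural number -/
def nsm (k : Nat) (x : Dec) : Dec := ⟨Nat.mul k x.p, Nat.mul k x.n, x.e⟩

/-- nonnegative -/
def nn (x : Dec) : Bool := Nat.ble x.n x.p

/-- positive -/
def ps (x : Dec) : Bool := Nat.ble (Nat.succ x.n) x.p

lemma pow_aux (a b : Nat) : (10 : ℝ) ^ (a + (b - a)) = 10 ^ a * 10 ^ (b - a) := pow_add _ _ _

lemma exp_comm (a b : Nat) : a + (b - a) = b + (a - b) := by omega

lemma val_zero : val zero = 0 := by simp [val, zero]

lemma val_one : val one = 1 := by simp [val, one]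

lemma val_pos (a e : Nat) : val (pos a e) = (a : ℝ) / 10 ^ e := by simp [val, pos]

lemma val_negn (a e : Nat) : val (negn a e) = - ((a : ℝ) / 10 ^ e) := by
  simp only [val, negn, Nat.cast_zero, zero_sub]
  ring

lemma val_add (x y : Dec) : val (add x y) = val x + val y := by
  have h1 : (10 : ℝ) ^ x.e ≠ 0 := by positivity
  have h2 : (10 : ℝ) ^ y.e ≠ 0 := by positivity
  have h3 : (10 : ℝ) ^ (x.e + (y.e - x.e)) ≠ 0 := by positivity
  have e1 : (10 : ℝ) ^ (x.e + (y.e - x.e)) = 10 ^ x.e * 10 ^ (y.e - x.e) := pow_add _ _ _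
  have e2 : (10 : ℝ) ^ (x.e + (y.e - x.e)) = 10 ^ y.e * 10 ^ (x.e - y.e) := by
    rw [exp_comm, pow_add]
  have k1 : val x = ((x.p : ℝ) - x.n) * 10 ^ (y.e - x.e) / 10 ^ (x.e + (y.e - x.e)) := by
    unfold val
    rw [div_eq_div_iff h1 h3, e1]
    ring
  have k2 : val y = ((y.p : ℝ) - y.n) * 10 ^ (x.e - y.e) / 10 ^ (x.e + (y.e - x.e)) := by
    unfold val
    rw [div_eq_div_iff h2 h3, e2]
    ring
  rw [k1, k2, ← add_div]
  unfold val add
  simp only [Nat.add_eq, Nat.mul_eq, Nat.sub_eq, Nat.pow_eq, Nat.cast_add, Nat.cast_mul,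
    Nat.cast_pow, Nat.cast_ofNat]
  congr 1
  ring

lemma val_neg (x : Dec) : val (neg x) = - val x := by
  unfold val neg
  simp only
  ring

lemma sub_eq (x y : Dec) : sub x y = add x (neg y) := rfl

lemma val_sub (x y : Dec) : val (sub x y) = val x - val y := by
  rw [sub_eq, val_add, val_neg]
  ring

lemma val_mul (x y : Dec) : val (mul x y) = val x * val y := by
  unfold val mul
  simp only [Nat.add_eq, Nat.mul_eq, Nat.cast_add, Nat.cast_mul, pow_add]
  rw [div_mul_div_comm]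
  congr 1
  ring

lemma val_nsm (k : Nat) (x : Dec) : val (nsm k x) = k * val x := by
  unfold val nsm
  simp only [Nat.mul_eq, Nat.cast_mul]
  ring

lemma nn_iff {x : Dec} (h : nn x = true) : 0 ≤ val x := by
  unfold nn at h
  have := Nat.le_of_ble_eq_true h
  unfold val
  have h2 : (x.n : ℝ) ≤ x.p := by exact_mod_cast this
  exact div_nonneg (by linarith) (by positivity)

lemma ps_iff {x : Dec} (h : ps x = true) : 0 < val x := by
  unfold ps at h
  have := Nat.le_of_ble_eq_true h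
  unfold val
  have h2 : (x.n : ℝ) < x.p := by exact_mod_cast this
  exact div_pos (by linarith) (by positivity)

end Dec

end Pool.Agent.TSC
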