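import Pool.Agent.TSM.Tree
import Pool.Agent.TSM.State
import Pool.Agent.TSC.Dec

set_option autoImplicit false

/-!
# Cells (MP_d27362_co)

The region of the pairs `(D, t)` is covered by products of intervals with decimal end points. The
choice of the interval of `D` depends on `D` only (`pick`), so the constants of the rules are
functions of `D`.
-/

namespace Pool.Agent.TSC

open Dec
open Pool.Agent.TSM (q0 th RD Reg ILe)

/-! ### The number `4 / π ^ 2` -/

/-- upper bound of `4 / π ^ 2` -/
def qhi : Dec := pos 405285 6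

/-- lower bound of `4 / π ^ 2` -/
def qlo : Dec := pos 405284 6

lemma qhi_val : qhi.val = 405285 / 1000000 := by
  rw [qhi, val_pos]
  norm_num

lemma qlo_val : qlo.val = 405284 / 1000000 := by
  rw [qlo, val_pos]
  norm_num

lemma q0_lt_qhi : q0 < qhi.val := by
  rw [qhi_val]
  unfold q0
  have h := Real.pi_gt_d6
  rw [div_lt_iff₀ (by positivity)]
  nlinarith

lemma qlo_lt_q0 : qlo.val < q0 := by
  rw [qlo_val]
  unfold q0
  have h := Real.pi_lt_d6
  have h0 := Real.pi_pos
  rw [lt_div_iff₀ (by positivity)]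
  nlinarith

/-! ### Intervals -/

/-- an interval with start `a`, width `w` and data `x` -/
structure Seg (α : Type) where
  /-- the start -/
  a : Dec
  /-- the width -/
  w : Dec
  /-- the data -/
  x : α

namespace Seg

variable {α : Type}

/-- the point at the parameter `l` -/
noncomputable def at' (s : Seg α) (l : ℝ) : ℝ := s.a.val + l * s.w.val

/-- the point `z` is in the interval -/
def Has (s : Seg α) (z : ℝ) : Prop := ∃ l : ℝ, 0 ≤ l ∧ l ≤ 1 ∧ z = s.a.val + l * s.w.val

/-- the width is nonnegative -/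
def ok (s : Seg α) : Bool := nn s.w

lemma Has.le {s : Seg α} {z : ℝ} (h : s.Has z) (hw : 0 ≤ s.w.val) : s.a.val ≤ z := by
  obtain ⟨l, h0, _, rfl⟩ := h
  have := mul_nonneg h0 hw
  linarith

lemma Has.ge {s : Seg α} {z : ℝ} (h : s.Has z) (hw : 0 ≤ s.w.val) : z ≤ s.a.val + s.w.val := by
  obtain ⟨l, _, h1, rfl⟩ := h
  have := mul_le_mul_of_nonneg_right h1 hw
  linarith

end Seg

section

variable {α : Type}

/-- the intervals of the list are adjacent, start at `lo` and end after `hi` -/
def chain (hi : Dec) : Dec → List (Seg α) → Bool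
  | lo, [] => ps (sub lo hi)
  | lo, s :: l => nn (sub lo s.a) && (ps s.w && chain hi (add s.a s.w) l)

theorem chain_has {hi : Dec} : ∀ {l : List (Seg α)} {lo : Dec}, chain hi lo l = true →
    ∀ z : ℝ, lo.val ≤ z → z ≤ hi.val → ∃ s ∈ l, s.Has z
  | [], lo, h, z, h0, h1 => by
    simp only [chain] at h
    have := ps_iff h
    rw [val_sub] at this
    linarith
  | s :: l, lo, h, z, h0, h1 => by
    simp only [chain, Bool.and_eq_true] at h
    obtain ⟨k1, k2, k3⟩ := h
    have e1 := nn_iff k1
    have e2 := ps_iff k2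
    rw [val_sub] at e1
    rcases le_total z (s.a.val + s.w.val) with hz | hz
    · refine ⟨s, by simp, (z - s.a.val) / s.w.val, div_nonneg (by linarith) e2.le, ?_, ?_⟩
      · rw [div_le_one e2]
        linarith
      · field_simp
        ring
    · obtain ⟨r, hr, hr2⟩ := chain_has k3 z (by rw [val_add]; exact hz) h1
      exact ⟨r, List.mem_cons_of_mem _ hr, hr2⟩

lemma chain_pos {hi : Dec} : ∀ {l : List (Seg α)} {lo : Dec}, chain hi lo l = true →
    ∀ s ∈ l, 0 < s.w.val
  | [], _, _, s, hs => by simp at hs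
  | r :: l, lo, h, s, hs => by
    simp only [chain, Bool.and_eq_true] at h
    rcases List.mem_cons.1 hs with rfl | hs
    · exact ps_iff h.2.1
    · exact chain_pos h.2.2 s hs

open Classical in
/-- the interval of the list which contains `z` -/
noncomputable def pick (l : List (Seg α)) (d : Seg α) (z : ℝ) : Seg α :=
  if h : ∃ s ∈ l, s.Has z then h.choose else d

lemma pick_mem {l : List (Seg α)} {d : Seg α} {z : ℝ} (h : ∃ s ∈ l, s.Has z) :
    pick l d z ∈ l := by
  unfold pick
  rw [dif_pos h]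
  exact h.choose_spec.1

lemma pick_has {l : List (Seg α)} {d : Seg α} {z : ℝ} (h : ∃ s ∈ l, s.Has z) :
    (pick l d z).Has z := by
  unfold pick
  rw [dif_pos h]
  exact h.choose_spec.2

end

/-! ### The band -/

/-- `th` is an upper bound of the width of the band at the points `≥ t1` -/
def thOk (t1 th : Dec) : Bool :=
  nn th && (nn (sub one th) && nn (sub t1 (mul qhi (sub one (mul th th)))))

lemma thOk_sound {t1 y : Dec} (h : thOk t1 y = true) {t : ℝ} (h1 : t1.val ≤ t) (h2 : t ≤ q0) :
    th t ≤ y.val := by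
  simp only [thOk, Bool.and_eq_true] at h
  obtain ⟨k1, k2, k3⟩ := h
  have e1 := nn_iff k1
  have e2 := nn_iff k2
  have e3 := nn_iff k3
  rw [val_sub, val_one] at e2
  rw [val_sub, val_mul, val_sub, val_mul, val_one] at e3
  have hq := q0_lt_qhi
  have hq0 := Pool.Agent.TSM.q0_pos
  have h3 := Pool.Agent.TSM.th_sq h2
  refine le_of_sq_le_sq ?_ e1
  rw [h3, div_le_iff₀ hq0]
  have h4 : y.val ^ 2 ≤ 1 := by nlinarith
  nlinarith [mul_le_mul_of_nonneg_right hq.le (sub_nonneg.2 h4)]

/-! ### The payment -/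

/-- the tangent of `1 / (q0 - t)` -/
lemma inv_ge {m t : ℝ} (hm : 0 ≤ m) (ht : t < q0) :
    2 * m - m ^ 2 * (qhi.val - t) ≤ 1 / (q0 - t) := by
  have h0 : 0 < q0 - t := by linarith
  have hq := q0_lt_qhi
  rw [le_div_iff₀ h0]
  nlinarith [sq_nonneg (1 - m * (q0 - t)), mul_nonneg (mul_nonneg (sq_nonneg m) h0.le)
    (sub_nonneg.2 hq.le)]

/-- bound of the payment -/
lemma pay_le {m t D : ℝ} (hm : 0 ≤ m) (ht : t < q0) (hD : 0 ≤ D) :
    1 - D / (q0 - t) ≤ 1 - D * (2 * m - m ^ 2 * (qhi.val - t)) := by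
  have h := mul_le_mul_of_nonneg_left (inv_ge hm ht) hD
  have e : D / (q0 - t) = D * (1 / (q0 - t)) := by ring
  rw [e]
  linarith

/-! ### The bounds of the seminorm of `x` -/

/-- the pairs `(g, l)` with `aX ^ 2 ≤ q0 ^ 2 * (g * vU ^ 2 + l * aU ^ 2)` -/
def tabX : ℕ → Dec × Dec
  | _ => (one, one)

/-- `aX ≤ q0 * klX * sqrt (vU ^ 2 + aU ^ 2)` -/
def klX : Dec := one

lemma tabX_tx (n : ℕ) : Pool.Agent.TSM.TX (tabX n).1.val (tabX n).2.val := by
  show 1 ≤ one.val ∧ 1 ≤ one.val
  rw [val_one]
  norm_num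

lemma klX_tx : 0 ≤ klX.val ∧ Pool.Agent.TSM.TX (klX.val ^ 2) (klX.val ^ 2) := by
  show 0 ≤ one.val ∧ 1 ≤ one.val ^ 2 ∧ 1 ≤ one.val ^ 2
  rw [val_one]
  norm_num

/-- the decimal digit number `n` -/
def digX (ix n : ℕ) : ℕ := Nat.mod (Nat.div ix (Nat.pow 10 n)) 10

/-! ### Together -/

/-- the data of an interval for `t`: the width of the band and the parameter of the tangent -/
structure TD (α : Type) where
  /-- the width of the band -/
  th : Dec
  /-- the parameter of the tangent -/
  m : Dec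
  /-- the digits are the numbers of the pairs of `tabX` -/
  ix : ℕ
  /-- further data -/
  x : α

/-- the test for one interval for `t` -/
def tOk {α : Type} (s : Seg (TD α)) : Bool := thOk s.a s.x.th && nn s.x.m

/-- the test for the lists of the intervals for `t` and `D` -/
def covers {α β : Type} (tl : List (Seg (TD α))) (dl : List (Seg β)) : Bool :=
  chain qhi zero tl && (tl.all tOk && chain (pos 333334 6) zero dl)

section

variable {α β : Type} {tl : List (Seg (TD α))} {dl : List (Seg β)}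

lemma covers_D (h : covers tl dl = true) {D : ℝ} (hD : RD D) : ∃ s ∈ dl, s.Has D := by
  simp only [covers, Bool.and_eq_true] at h
  refine chain_has h.2.2 D ?_ ?_
  · rw [val_zero]
    exact hD.1
  · rw [val_pos]
    have := hD.2
    norm_num
    linarith

/-- the relation between a cell and a point -/
structure InCell (tc : Seg (TD α)) (dc : Seg β) (lam mu D t : ℝ) : Prop where
  l0 : 0 ≤ lam
  l1 : lam ≤ 1
  m0 : 0 ≤ mu
  m1 : mu ≤ 1
  /-- the point -/
  ht : t = tc.a.val + lam * tc.w.val
  hD : D = dc.a.val + mu * dc.w.val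
  /-- the start of the cell is in the region -/
  hs : tc.a.val + dc.a.val ≤ 1 / 2
  /-- the widths -/
  hw : 0 < tc.w.val
  hv : 0 < dc.w.val
  /-- the band -/
  hth0 : 0 ≤ tc.x.th.val
  hth : th t ≤ tc.x.th.val
  /-- the payment -/
  hpay : t < q0 → 1 - D / (q0 - t) ≤
    1 - D * (2 * tc.x.m.val - tc.x.m.val ^ 2 * (qhi.val - t))

/-- **the covering**: one interval for `D`, and for every point `t` an interval for `t` -/
theorem covers_sound (h : covers tl dl = true) (d : Seg β) {D : ℝ} (hD : RD D) :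
    pick dl d D ∈ dl ∧ ∃ mu : ℝ, 0 ≤ mu ∧ mu ≤ 1 ∧
      D = (pick dl d D).a.val + mu * (pick dl d D).w.val ∧
      ∀ t, Reg D t → ∃ tc ∈ tl, ∃ lam, InCell tc (pick dl d D) lam mu D t := by
  have hd := covers_D h hD
  refine ⟨pick_mem hd, ?_⟩
  obtain ⟨mu, m0, m1, hm⟩ := pick_has (d := d) hd
  refine ⟨mu, m0, m1, hm, fun t ht => ?_⟩
  simp only [covers, Bool.and_eq_true, List.all_eq_true] at h
  obtain ⟨c1, c2, c3⟩ := h
  have ht3 : t ≤ q0 := ht.2.2.2.2
  obtain ⟨tc, htc, lam, l0, l1, hl⟩ := chain_has c1 t (by rw [val_zero]; exact ht.2.2.1)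
    (ht3.trans q0_lt_qhi.le)
  have hw := chain_pos c1 tc htc
  have hv := chain_pos c3 _ (pick_mem (d := d) hd)
  have hk := c2 tc htc
  simp only [tOk, Bool.and_eq_true] at hk
  have k0 : tc.a.val ≤ t := by
    have := mul_nonneg l0 hw.le
    linarith
  have k1 : (pick dl d D).a.val ≤ D := by
    have := mul_nonneg m0 hv.le
    linarith
  have hth0 : 0 ≤ tc.x.th.val := by
    have := hk.1
    simp only [thOk, Bool.and_eq_true] at this
    exact nn_iff this.1
  exact ⟨tc, htc, lam, l0, l1, m0, m1, hl, hm, by linarith [ht.2.2.2.1], hw, hv, hth0,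
    thOk_sound hk.1 k0 ht3, fun hq => pay_le (nn_iff hk.2) hq ht.1⟩

end

/-! ### From cells to integrated inequalities -/

/-- the inequality with the payment by the first constraint -/
lemma ile_pay {D : ℝ} {f g : ℝ → ℝ} (s : ℝ) (hs : 0 ≤ s)
    (h : ∀ a, Reg D a → a < q0 → 0 < D → f a + s * (1 - D / (q0 - a)) ≤ g a) : ILe D f g :=
  ILe.c1 s hs h

end Pool.Agent.TSC
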