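import Pool.Agent.TSC.Poly

set_option autoImplicit false

/-!
# The test for separable inequalities with two parameters (MP_d27362_co)

An inequality is a pair `(F, G)` of quadratic forms with coefficients in `PP` (polynomials in
`lam` and `mu`); it says `F(u, v, a) + G(y, w, b) ≥ 0` on the product of the state domains, for all
`lam, mu ∈ [0, 1]`. For every Bernstein control pair a number `κ` splits the inequality.
-/

namespace Pool.Agent.TSC

open Dec

/-- polynomials in `mu` (outer) and `lam` (inner) -/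
abbrev PP := List (List Dec)

/-- the interpretation at `(lam, mu)` -/
noncomputable def ppHom (lam mu : ℝ) : Hom PP := Pol.hom (Pol.hom decHom lam) mu

/-- the number with the index `i` -/
def kd (i : Nat) : Dec := ⟨i, 1000000, 5⟩

/-- add `k` to the constant term -/
def QI.addc (q : QI Dec) (k : Dec) : QI Dec := { q with c := Dec.add q.c k }
def QI.subc (q : QI Dec) (k : Dec) : QI Dec := { q with c := Dec.sub q.c k }

/-- `F - κ ≥ 0` and `G + κ ≥ 0` -/
def chkPair (θ : Dec) (F G : QI Dec) (k : Dec) : Bool :=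
  chk θ (F.subc k) && chk θ (G.addc k)

lemma chkPair_sound {θ : Dec} {F G : QI Dec} {k : Dec} (h : chkPair θ F G k = true)
    {u v a y w b : ℝ} (hv : 0 ≤ v) (hv2 : v ≤ 2) (ha : 0 ≤ a) (hu : |u - v| ≤ θ.val * a)
    (hw : 0 ≤ w) (hw2 : w ≤ 2) (hb : 0 ≤ b) (hy : |y - w| ≤ θ.val * b) :
    0 ≤ (F.map val).ev u v a + (G.map val).ev y w b := by
  unfold chkPair at h
  simp only [Bool.and_eq_true] at h
  have h1 := chk_sound h.1 hv hv2 ha hu
  have h2 := chk_sound h.2 hw hw2 hb hy
  unfold QI.subc QI.map QI.ev at h1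
  unfold QI.addc QI.map QI.ev at h2
  simp only [val_sub, val_add] at h1 h2
  unfold QI.map QI.ev
  simp only
  linarith

/-- the list of the pairs against the list of the indices of the numbers `κ` -/
def chkPairs (θ : Dec) : List (QI Dec × QI Dec) → List Nat → Bool
  | [], _ => true
  | p :: l, ks => match ks with
    | [] => false
    | k :: ks => chkPair θ p.1 p.2 (kd k) && chkPairs θ l ks

lemma chkPairs_sound {θ : Dec} : ∀ {l : List (QI Dec × QI Dec)} {ks : List Nat},
    chkPairs θ l ks = true → ∀ p ∈ l, ∃ k : Dec, chkPair θ p.1 p.2 k = true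
  | [], _, _, p, hp => by simp at hp
  | p :: l, [], h, _, _ => by simp [chkPairs] at h
  | p :: l, k :: ks, h, q, hq => by
    simp only [chkPairs, Bool.and_eq_true] at h
    rcases List.mem_cons.1 hq with rfl | hq
    · exact ⟨_, h.1⟩
    · exact chkPairs_sound h.2 q hq

section

variable {β : Type} [Ar β]

/-- a pair with transformed coefficients -/
def pmap {γ : Type} (f : β → γ) (p : QI β × QI β) : QI γ × QI γ := (p.1.map f, p.2.map f)

/-- control pairs of degree at most `n ≤ 3` -/
def ctl (n : Nat) (p : QI (List β) × QI (List β)) : List (QI β × QI β) :=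
  match n with
  | 0 => [pmap (fun l => Pol.cf l 0) p]
  | 1 => [pmap Pol.c10 p, pmap Pol.c11 p]
  | 2 => [pmap Pol.c20 p, pmap Pol.c21 p, pmap Pol.c22 p]
  | _ => [pmap Pol.c30 p, pmap Pol.c31 p, pmap Pol.c32 p, pmap Pol.c33 p]

/-- the degree is at most `n ≤ 3` -/
def okd (n : Nat) (p : QI (List β) × QI (List β)) : Bool :=
  match n with
  | 0 => p.1.all (Pol.short 1) && p.2.all (Pol.short 1)
  | 1 => p.1.all (Pol.short 2) && p.2.all (Pol.short 2)
  | 2 => p.1.all (Pol.short 3) && p.2.all (Pol.short 3)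
  | _ => p.1.all (Pol.short 4) && p.2.all (Pol.short 4)

/-- the value of a pair -/
noncomputable def pev (p : QI ℝ × QI ℝ) (u v a y w b : ℝ) : ℝ := p.1.ev u v a + p.2.ev y w b

lemma ctl_sound (h : Hom β) {x : ℝ} (hx : 0 ≤ x) (hx1 : x ≤ 1) (n : Nat)
    (p : QI (List β) × QI (List β)) (hp : okd n p = true) (u v a y w b : ℝ)
    (hc : ∀ q ∈ ctl n p, 0 ≤ pev (pmap h.f q) u v a y w b) :
    0 ≤ pev (pmap (Pol.hom h x).f p) u v a y w b := by
  have hx' : 0 ≤ 1 - x := by linarith
  rcases n with _ | _ | _ | n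
  · simp only [okd, Bool.and_eq_true] at hp
    have h0 := hc (pmap (fun l => Pol.cf l 0) p) (by simp [ctl])
    unfold pev pmap at h0 ⊢
    simp only at h0 ⊢
    rw [QI.ev0 h x _ hp.1, QI.ev0 h x _ hp.2]
    exact h0
  · simp only [okd, Bool.and_eq_true] at hp
    have h0 := hc (pmap Pol.c10 p) (by simp [ctl])
    have h1 := hc (pmap Pol.c11 p) (by simp [ctl])
    unfold pev pmap at h0 h1 ⊢
    simp only at h0 h1 ⊢
    rw [QI.ev1 h x _ hp.1, QI.ev1 h x _ hp.2]
    have k0 := mul_nonneg hx' h0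
    have k1 := mul_nonneg hx h1
    linarith
  · simp only [okd, Bool.and_eq_true] at hp
    have h0 := hc (pmap Pol.c20 p) (by simp [ctl])
    have h1 := hc (pmap Pol.c21 p) (by simp [ctl])
    have h2 := hc (pmap Pol.c22 p) (by simp [ctl])
    unfold pev pmap at h0 h1 h2 ⊢
    simp only at h0 h1 h2 ⊢
    rw [QI.ev2 h x _ hp.1, QI.ev2 h x _ hp.2]
    have k0 := mul_nonneg (pow_nonneg hx' 2) h0
    have k1 := mul_nonneg (mul_nonneg hx hx') h1
    have k2 := mul_nonneg (pow_nonneg hx 2) h2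
    linarith
  · simp only [okd, Bool.and_eq_true] at hp
    have h0 := hc (pmap Pol.c30 p) (by simp [ctl])
    have h1 := hc (pmap Pol.c31 p) (by simp [ctl])
    have h2 := hc (pmap Pol.c32 p) (by simp [ctl])
    have h3 := hc (pmap Pol.c33 p) (by simp [ctl])
    unfold pev pmap at h0 h1 h2 h3 ⊢
    simp only at h0 h1 h2 h3 ⊢
    rw [QI.ev3 h x _ hp.1, QI.ev3 h x _ hp.2]
    have k0 := mul_nonneg (pow_nonneg hx' 3) h0
    have k1 := mul_nonneg (mul_nonneg hx (pow_nonneg hx' 2)) h1
    have k2 := mul_nonneg (mul_nonneg (pow_nonneg hx 2) hx') h2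
    have k3 := mul_nonneg (pow_nonneg hx 3) h3
    linarith

end

/-- all the degrees are small; control pairs: first in `mu` (degree `nd`), then in `lam`
(degree `nt`) -/
def expand (nt nd : Nat) (p : QI PP × QI PP) : List (QI Dec × QI Dec) :=
  (ctl nd p).flatMap (ctl nt)

/-- the test for one inequality -/
def chkPP (θ : Dec) (nt nd : Nat) (p : QI PP × QI PP) (ks : List Nat) : Bool :=
  okd nd p && ((ctl nd p).all (okd nt) && chkPairs θ (expand nt nd p) ks)

/-- **soundness** -/
theorem chkPP_sound {θ : Dec} {nt nd : Nat} {p : QI PP × QI PP} {ks : List Nat}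
    (h : chkPP θ nt nd p ks = true) {lam mu : ℝ} (hl : 0 ≤ lam) (hl1 : lam ≤ 1) (hm : 0 ≤ mu)
    (hm1 : mu ≤ 1) {u v a y w b : ℝ} (hv : 0 ≤ v) (hv2 : v ≤ 2) (ha : 0 ≤ a)
    (hu : |u - v| ≤ θ.val * a) (hw : 0 ≤ w) (hw2 : w ≤ 2) (hb : 0 ≤ b)
    (hy : |y - w| ≤ θ.val * b) :
    0 ≤ pev (pmap (ppHom lam mu).f p) u v a y w b := by
  unfold chkPP at h
  simp only [Bool.and_eq_true, List.all_eq_true] at h
  obtain ⟨h1, h2, h3⟩ := h
  have h4 := chkPairs_sound h3
  refine ctl_sound _ hm hm1 nd p h1 _ _ _ _ _ _ fun q hq => ?_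
  refine ctl_sound _ hl hl1 nt q (h2 q hq) _ _ _ _ _ _ fun r hr => ?_
  obtain ⟨k, hk⟩ := h4 r (List.mem_flatMap.2 ⟨q, hq, hr⟩)
  exact chkPair_sound hk hv hv2 ha hu hw hw2 hb hy

/-! ### search for the numbers `κ` (only for `#eval`) -/

/-- the smallest index for which `G + κ` passes, by bisection in `[lo, hi]` -/
def searchK (θ : Dec) (G : QI Dec) : Nat → Nat → Nat → Nat
  | 0, _, hi => hi
  | n + 1, lo, hi =>
    let m := (lo + hi) / 2
    if chk θ (G.addc (kd m)) then searchK θ G n lo m else searchK θ G n m hi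

/-- the index of `κ` and the result of the test -/
def findK (θ : Dec) (p : QI Dec × QI Dec) : Nat × Bool :=
  let k := searchK θ p.2 21 0 2000000
  (k, chkPair θ p.1 p.2 (kd k))

/-- all numbers of an inequality, and whether all tests pass -/
def findAll (θ : Dec) (nt nd : Nat) (p : QI PP × QI PP) : List Nat × Bool :=
  let r := (expand nt nd p).map (findK θ)
  (r.map Prod.fst, okd nd p && ((ctl nd p).all (okd nt) && r.all Prod.snd))

end Pool.Agent.TSC
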