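import Pool.Agent.TSC.Quad

set_option autoImplicit false

/-!
# Polynomials with decimal coefficients and Bernstein control forms (MP_d27362_co)

`Ar α`: the operations used by the generator of the inequalities; `Hom α`: an interpretation in
the real numbers. `List α` is the type of the polynomials in one variable over `α`.
-/

namespace Pool.Agent.TSC

/-- arithmetic operations -/
class Ar (α : Type) where
  zero : α
  one : α
  add : α → α → α
  mul : α → α → α
  neg : α → α
  sub : α → α → α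
  nsm : Nat → α → α

instance : Ar Dec := ⟨Dec.zero, Dec.one, Dec.add, Dec.mul, Dec.neg, Dec.sub, Dec.nsm⟩

noncomputable instance : Ar ℝ :=
  ⟨0, 1, fun x y => x + y, fun x y => x * y, fun x => -x, fun x y => x - y, fun k x => k * x⟩

/-- an interpretation in the real numbers -/
structure Hom (α : Type) [Ar α] where
  f : α → ℝ
  zero : f Ar.zero = 0
  one : f Ar.one = 1
  add : ∀ x y, f (Ar.add x y) = f x + f y
  mul : ∀ x y, f (Ar.mul x y) = f x * f y
  neg : ∀ x, f (Ar.neg x) = - f x
  sub : ∀ x y, f (Ar.sub x y) = f x - f y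
  nsm : ∀ k x, f (Ar.nsm k x) = k * f x

/-- a map which respects all the operations -/
structure ArHom {α β : Type} [Ar α] [Ar β] (f : α → β) : Prop where
  zero : f Ar.zero = Ar.zero
  one : f Ar.one = Ar.one
  add : ∀ x y, f (Ar.add x y) = Ar.add (f x) (f y)
  mul : ∀ x y, f (Ar.mul x y) = Ar.mul (f x) (f y)
  neg : ∀ x, f (Ar.neg x) = Ar.neg (f x)
  sub : ∀ x y, f (Ar.sub x y) = Ar.sub (f x) (f y)
  nsm : ∀ k x, f (Ar.nsm k x) = Ar.nsm k (f x)

/-- an interpretation in the real numbers respects the operations -/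
lemma Hom.arHom {α : Type} [Ar α] (h : Hom α) : ArHom h.f :=
  ⟨h.zero, h.one, h.add, h.mul, h.neg, h.sub, h.nsm⟩

/-- the interpretation of the decimal numbers -/
noncomputable def decHom : Hom Dec :=
  ⟨Dec.val, Dec.val_zero, Dec.val_one, Dec.val_add, Dec.val_mul, Dec.val_neg, Dec.val_sub,
    Dec.val_nsm⟩

/-- the interpretation of the real numbers -/
noncomputable def realHom : Hom ℝ :=
  ⟨id, rfl, rfl, fun _ _ => rfl, fun _ _ => rfl, fun _ => rfl, fun _ _ => rfl, fun _ _ => rfl⟩

namespace Pol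

variable {α : Type} [Ar α]

def add : List α → List α → List α
  | [], m => m
  | a :: l, [] => a :: l
  | a :: l, b :: m => Ar.add a b :: add l m

def neg : List α → List α
  | [] => []
  | a :: l => Ar.neg a :: neg l

def sub : List α → List α → List α
  | [], m => neg m
  | a :: l, [] => a :: l
  | a :: l, b :: m => Ar.sub a b :: sub l m

def nsm (k : Nat) : List α → List α
  | [] => []
  | a :: l => Ar.nsm k a :: nsm k l

def smul (c : α) : List α → List α
  | [] => []
  | a :: l => Ar.mul c a :: smul c l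

def mul : List α → List α → List α
  | [], _ => []
  | [a], m => smul a m
  | a :: l, m => add (smul a m) (Ar.zero :: mul l m)

instance : Ar (List α) := ⟨[], [Ar.one], add, mul, neg, sub, nsm⟩

/-- the value at `x` -/
def ev (f : α → ℝ) (x : ℝ) : List α → ℝ
  | [] => 0
  | a :: l => f a + x * ev f x l

variable (h : Hom α) (x : ℝ)

lemma ev_add (l m : List α) : ev h.f x (add l m) = ev h.f x l + ev h.f x m := by
  induction l generalizing m with
  | nil => simp [add, ev]
  | cons a l ih =>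
    cases m with
    | nil => simp [add, ev]
    | cons b m =>
      simp only [add, ev, h.add, ih]
      ring

lemma ev_neg (l : List α) : ev h.f x (neg l) = - ev h.f x l := by
  induction l with
  | nil => simp [neg, ev]
  | cons a l ih =>
    simp only [neg, ev, h.neg, ih]
    ring

lemma ev_sub (l m : List α) : ev h.f x (sub l m) = ev h.f x l - ev h.f x m := by
  induction l generalizing m with
  | nil => simp [sub, ev, ev_neg]
  | cons a l ih =>
    cases m with
    | nil => simp [sub, ev]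
    | cons b m =>
      simp only [sub, ev, h.sub, ih]
      ring

lemma ev_nsm (k : Nat) (l : List α) : ev h.f x (nsm k l) = k * ev h.f x l := by
  induction l with
  | nil => simp [nsm, ev]
  | cons a l ih =>
    simp only [nsm, ev, h.nsm, ih]
    ring

lemma ev_smul (c : α) (l : List α) : ev h.f x (smul c l) = h.f c * ev h.f x l := by
  induction l with
  | nil => simp [smul, ev]
  | cons a l ih =>
    simp only [smul, ev, h.mul, ih]
    ring

lemma ev_mul (l m : List α) : ev h.f x (mul l m) = ev h.f x l * ev h.f x m := by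
  induction l with
  | nil => simp [mul, ev]
  | cons a l ih =>
    cases l with
    | nil => simp [mul, ev, ev_smul]
    | cons b l =>
      simp only [mul, ev_add, ev_smul]
      simp only [ev, h.zero] at ih ⊢
      rw [ih]
      ring

/-- the interpretation of the polynomials at `x` -/
noncomputable def hom : Hom (List α) where
  f := ev h.f x
  zero := rfl
  one := by show h.f Ar.one + x * 0 = 1; rw [h.one]; ring
  add := ev_add h x
  mul := ev_mul h x
  neg := ev_neg h x
  sub := ev_sub h x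
  nsm := ev_nsm h x

/-- coefficient -/
def cf (l : List α) : Nat → α
  | 0 => match l with
    | [] => Ar.zero
    | a :: _ => a
  | (i + 1) => match l with
    | [] => Ar.zero
    | _ :: l => cf l i

/-- control coefficients, degree at most 3 -/
def c30 (l : List α) : α := cf l 0
def c31 (l : List α) : α := Ar.add (Ar.nsm 3 (cf l 0)) (cf l 1)
def c32 (l : List α) : α := Ar.add (Ar.add (Ar.nsm 3 (cf l 0)) (Ar.nsm 2 (cf l 1))) (cf l 2)
def c33 (l : List α) : α := Ar.add (Ar.add (cf l 0) (cf l 1)) (Ar.add (cf l 2) (cf l 3))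

/-- control coefficients, degree at most 2 -/
def c20 (l : List α) : α := cf l 0
def c21 (l : List α) : α := Ar.add (Ar.nsm 2 (cf l 0)) (cf l 1)
def c22 (l : List α) : α := Ar.add (Ar.add (cf l 0) (cf l 1)) (cf l 2)

/-- control coefficients, degree at most 1 -/
def c10 (l : List α) : α := cf l 0
def c11 (l : List α) : α := Ar.add (cf l 0) (cf l 1)

/-- the length is at most `n` -/
def short : Nat → List α → Bool
  | _, [] => true
  | 0, _ :: _ => false
  | n + 1, _ :: l => short n l

lemma ev3 (l : List α) (hl : short 4 l = true) :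
    ev h.f x l = h.f (c30 l) * (1 - x) ^ 3 + h.f (c31 l) * (x * (1 - x) ^ 2) +
      h.f (c32 l) * (x ^ 2 * (1 - x)) + h.f (c33 l) * x ^ 3 := by
  simp only [c30, c31, c32, c33, h.add, h.nsm]
  rcases l with _ | ⟨a, _ | ⟨b, _ | ⟨c, _ | ⟨d, _ | ⟨e, l⟩⟩⟩⟩⟩
  · simp [ev, cf, h.zero]
  · simp [ev, cf, h.zero]; ring
  · simp [ev, cf, h.zero]; ring
  · simp [ev, cf, h.zero]; ring
  · simp [ev, cf]; ring
  · simp [short] at hl

lemma ev2 (l : List α) (hl : short 3 l = true) :
    ev h.f x l = h.f (c20 l) * (1 - x) ^ 2 + h.f (c21 l) * (x * (1 - x)) +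
      h.f (c22 l) * x ^ 2 := by
  simp only [c20, c21, c22, h.add, h.nsm]
  rcases l with _ | ⟨a, _ | ⟨b, _ | ⟨c, _ | ⟨d, l⟩⟩⟩⟩
  · simp [ev, cf, h.zero]
  · simp [ev, cf, h.zero]; ring
  · simp [ev, cf, h.zero]; ring
  · simp [ev, cf]; ring
  · simp [short] at hl

lemma ev1 (l : List α) (hl : short 2 l = true) :
    ev h.f x l = h.f (c10 l) * (1 - x) + h.f (c11 l) * x := by
  simp only [c10, c11, h.add]
  rcases l with _ | ⟨a, _ | ⟨b, _ | ⟨c, l⟩⟩⟩
  · simp [ev, cf, h.zero]
  · simp [ev, cf, h.zero]; ring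
  · simp [ev, cf]; ring
  · simp [short] at hl

lemma ev0 (l : List α) (hl : short 1 l = true) : ev h.f x l = h.f (cf l 0) := by
  rcases l with _ | ⟨a, _ | ⟨b, l⟩⟩
  · simp [ev, cf, h.zero]
  · simp [ev, cf]
  · simp [short] at hl

end Pol

/-- all coefficients satisfy the test -/
def QI.all {α : Type} (f : α → Bool) (q : QI α) : Bool :=
  f q.c && (f q.cu && (f q.cuu && (f q.cv && (f q.cvv && (f q.ca && (f q.caa && f q.l))))))

lemma QI.all_iff {α : Type} {f : α → Bool} {q : QI α} (h : q.all f = true) :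
    f q.c = true ∧ f q.cu = true ∧ f q.cuu = true ∧ f q.cv = true ∧ f q.cvv = true ∧
      f q.ca = true ∧ f q.caa = true ∧ f q.l = true := by
  unfold QI.all at h
  simpa only [Bool.and_eq_true] using h

section

variable {α : Type} [Ar α] (h : Hom α) (x : ℝ)

lemma QI.ev3 (q : QI (List α)) (hq : q.all (Pol.short 4) = true) (u v a : ℝ) :
    (q.map (Pol.hom h x).f).ev u v a =
      (1 - x) ^ 3 * ((q.map Pol.c30).map h.f).ev u v a +
      (x * (1 - x) ^ 2) * ((q.map Pol.c31).map h.f).ev u v a +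
      (x ^ 2 * (1 - x)) * ((q.map Pol.c32).map h.f).ev u v a +
      x ^ 3 * ((q.map Pol.c33).map h.f).ev u v a := by
  obtain ⟨h1, h2, h3, h4, h5, h6, h7, h8⟩ := QI.all_iff hq
  unfold QI.ev QI.map
  simp only [Pol.hom]
  rw [Pol.ev3 h x _ h1, Pol.ev3 h x _ h2, Pol.ev3 h x _ h3, Pol.ev3 h x _ h4, Pol.ev3 h x _ h5,
    Pol.ev3 h x _ h6, Pol.ev3 h x _ h7, Pol.ev3 h x _ h8]
  ring

lemma QI.ev2 (q : QI (List α)) (hq : q.all (Pol.short 3) = true) (u v a : ℝ) :
    (q.map (Pol.hom h x).f).ev u v a =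
      (1 - x) ^ 2 * ((q.map Pol.c20).map h.f).ev u v a +
      (x * (1 - x)) * ((q.map Pol.c21).map h.f).ev u v a +
      x ^ 2 * ((q.map Pol.c22).map h.f).ev u v a := by
  obtain ⟨h1, h2, h3, h4, h5, h6, h7, h8⟩ := QI.all_iff hq
  unfold QI.ev QI.map
  simp only [Pol.hom]
  rw [Pol.ev2 h x _ h1, Pol.ev2 h x _ h2, Pol.ev2 h x _ h3, Pol.ev2 h x _ h4, Pol.ev2 h x _ h5,
    Pol.ev2 h x _ h6, Pol.ev2 h x _ h7, Pol.ev2 h x _ h8]
  ring

lemma QI.ev1 (q : QI (List α)) (hq : q.all (Pol.short 2) = true) (u v a : ℝ) :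
    (q.map (Pol.hom h x).f).ev u v a =
      (1 - x) * ((q.map Pol.c10).map h.f).ev u v a +
      x * ((q.map Pol.c11).map h.f).ev u v a := by
  obtain ⟨h1, h2, h3, h4, h5, h6, h7, h8⟩ := QI.all_iff hq
  unfold QI.ev QI.map
  simp only [Pol.hom]
  rw [Pol.ev1 h x _ h1, Pol.ev1 h x _ h2, Pol.ev1 h x _ h3, Pol.ev1 h x _ h4, Pol.ev1 h x _ h5,
    Pol.ev1 h x _ h6, Pol.ev1 h x _ h7, Pol.ev1 h x _ h8]
  ring

lemma QI.ev0 (q : QI (List α)) (hq : q.all (Pol.short 1) = true) (u v a : ℝ) :
    (q.map (Pol.hom h x).f).ev u v a = ((q.map fun l => Pol.cf l 0).map h.f).ev u v a := by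
  obtain ⟨h1, h2, h3, h4, h5, h6, h7, h8⟩ := QI.all_iff hq
  unfold QI.ev QI.map
  simp only [Pol.hom]
  rw [Pol.ev0 h x _ h1, Pol.ev0 h x _ h2, Pol.ev0 h x _ h3, Pol.ev0 h x _ h4, Pol.ev0 h x _ h5,
    Pol.ev0 h x _ h6, Pol.ev0 h x _ h7, Pol.ev0 h x _ h8]

end

end Pool.Agent.TSC
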