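import Pool.Agent.TSM.Exc
import Pool.Agent.TSC.Poly

set_option autoImplicit false

/-!
# Tests for the constants of the rules (MP_d27362_co)

Polynomials in one variable with decimal coefficients are tested for positivity on intervals by
their Bernstein coefficients (any degree). With this the conditions on the constants of the rules
become tests with values in `Bool`.
-/

namespace Pool.Agent.TSC

open Dec
open Pool.Agent.TSM (OneE LossC TwoE)

/-! ### Bernstein form of any degree -/

/-- the value of a form `∑ b_j z ^ j y ^ (n - j)` -/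
noncomputable def bev (z y : ℝ) : List Dec → ℝ
  | [] => 0
  | b :: l => b.val * y ^ l.length + z * bev z y l

/-- the value of a polynomial -/
noncomputable def pv (z : ℝ) : List Dec → ℝ
  | [] => 0
  | b :: l => b.val + z * pv z l

/-- the sum of two forms of the same degree -/
def badd : List Dec → List Dec → List Dec
  | a :: l, b :: m => add a b :: badd l m
  | _, _ => []

lemma badd_len : ∀ l m : List Dec, l.length = m.length → (badd l m).length = l.length
  | [], [], _ => rfl
  | [], _ :: _, h => by simp at h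
  | _ :: _, [], h => by simp at h
  | a :: l, b :: m, h => by
    simp only [badd, List.length_cons]
    rw [badd_len l m (by simpa using h)]

lemma bev_badd (z y : ℝ) : ∀ l m : List Dec, l.length = m.length →
    bev z y (badd l m) = bev z y l + bev z y m
  | [], [], _ => by simp [badd, bev]
  | [], _ :: _, h => by simp at h
  | _ :: _, [], h => by simp at h
  | a :: l, b :: m, h => by
    have h' : l.length = m.length := by simpa using h
    simp only [badd, bev, val_add]
    rw [badd_len l m h', bev_badd z y l m h', h']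
    ring

lemma bev_snoc (z y : ℝ) : ∀ l : List Dec, bev z y (l ++ [zero]) = y * bev z y l
  | [] => by simp [bev, val_zero]
  | a :: l => by
    simp only [List.cons_append, bev, bev_snoc z y l, List.length_append, List.length_cons,
      List.length_nil]
    ring

/-- multiplication by `z + y` -/
def estep (l : List Dec) : List Dec := badd (l ++ [zero]) (zero :: l)

lemma estep_len (l : List Dec) : (estep l).length = l.length + 1 := by
  unfold estep
  rw [badd_len] <;> simp

lemma bev_estep (z y : ℝ) (l : List Dec) : bev z y (estep l) = (z + y) * bev z y l := by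
  unfold estep
  rw [bev_badd _ _ _ _ (by simp), bev_snoc]
  simp only [bev, val_zero]
  ring

/-- multiplication by `(z + y) ^ n` -/
def elev : Nat → List Dec → List Dec
  | 0, l => l
  | n + 1, l => elev n (estep l)

lemma elev_len : ∀ (n : ℕ) (l : List Dec), (elev n l).length = l.length + n
  | 0, l => rfl
  | n + 1, l => by
    simp only [elev]
    rw [elev_len n, estep_len]
    omega

lemma bev_elev (z y : ℝ) : ∀ (n : ℕ) (l : List Dec),
    bev z y (elev n l) = (z + y) ^ n * bev z y l
  | 0, l => by simp [elev]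
  | n + 1, l => by
    simp only [elev]
    rw [bev_elev z y n, bev_estep]
    ring

/-- the Bernstein form of a polynomial -/
def bern : List Dec → List Dec
  | [] => []
  | c :: l => badd (elev l.length [c]) (zero :: bern l)

lemma bern_len : ∀ l : List Dec, (bern l).length = l.length
  | [] => rfl
  | c :: l => by
    simp only [bern]
    rw [badd_len, elev_len]
    · simp only [List.length_cons, List.length_nil]
      omega
    · rw [elev_len]
      simp only [List.length_cons, List.length_nil, bern_len l]
      omega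

lemma bev_bern (z : ℝ) : ∀ l : List Dec, bev z (1 - z) (bern l) = pv z l
  | [] => by simp [bern, bev, pv]
  | c :: l => by
    simp only [bern, pv]
    rw [bev_badd, bev_elev]
    · simp only [bev, List.length_nil, pow_zero, mul_one, mul_zero, add_zero, val_zero, zero_mul,
        zero_add, bev_bern z l]
      rw [show z + (1 - z) = 1 by ring, one_pow, one_mul]
    · rw [elev_len]
      simp only [List.length_cons, List.length_nil, bern_len l]
      omega

/-- all coefficients are nonnegative -/
def nnl : List Dec → Bool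
  | [] => true
  | b :: l => nn b && nnl l

lemma bev_nonneg {z y : ℝ} (hz : 0 ≤ z) (hy : 0 ≤ y) : ∀ l : List Dec, nnl l = true →
    0 ≤ bev z y l
  | [], _ => by simp [bev]
  | b :: l, h => by
    simp only [nnl, Bool.and_eq_true] at h
    simp only [bev]
    have h1 := mul_nonneg (nn_iff h.1) (pow_nonneg hy l.length)
    have h2 := mul_nonneg hz (bev_nonneg hz hy l h.2)
    linarith

/-- the polynomial at `a + w z` -/
def comp (a w : Dec) : List Dec → List Dec
  | [] => []
  | c :: l => Pol.add [c] (Pol.mul [a, w] (comp a w l))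

lemma pv_eq (z : ℝ) : ∀ l : List Dec, pv z l = Pol.ev val z l
  | [] => rfl
  | c :: l => by simp only [pv, Pol.ev, pv_eq z l]

lemma pv_add (z : ℝ) (l m : List Dec) : pv z (Pol.add l m) = pv z l + pv z m := by
  simp only [pv_eq]
  exact Pol.ev_add decHom z l m

lemma pv_sub (z : ℝ) (l m : List Dec) : pv z (Pol.sub l m) = pv z l - pv z m := by
  simp only [pv_eq]
  exact Pol.ev_sub decHom z l m

lemma pv_mul (z : ℝ) (l m : List Dec) : pv z (Pol.mul l m) = pv z l * pv z m := by
  simp only [pv_eq]
  exact Pol.ev_mul decHom z l m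

lemma pv_smul (z : ℝ) (c : Dec) (l : List Dec) : pv z (Pol.smul c l) = c.val * pv z l := by
  simp only [pv_eq]
  exact Pol.ev_smul decHom z c l

lemma pv_nsm (z : ℝ) (k : Nat) (l : List Dec) : pv z (Pol.nsm k l) = k * pv z l := by
  simp only [pv_eq]
  exact Pol.ev_nsm decHom z k l

lemma pv_comp (a w : Dec) (z : ℝ) : ∀ l : List Dec, pv z (comp a w l) = pv (a.val + w.val * z) l
  | [] => rfl
  | c :: l => by
    simp only [comp, pv_add, pv_mul, pv_comp a w z l, pv, mul_zero, add_zero]
    ring

/-- the polynomial is nonnegative on `[a, a + w]` -/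
def posOn (l : List Dec) (a w : Dec) : Bool := nnl (bern (comp a w l))

lemma posOn_sound {l : List Dec} {a w : Dec} (h : posOn l a w = true) {z : ℝ} (h0 : 0 ≤ z)
    (h1 : z ≤ 1) : 0 ≤ pv (a.val + w.val * z) l := by
  have h2 := bev_nonneg h0 (sub_nonneg.2 h1) _ h
  rwa [bev_bern, pv_comp] at h2

/-- the polynomial is nonnegative on `[a, 1]`, with the division points `xs` -/
def segs (l : List Dec) : Dec → List Dec → Bool
  | a, [] => nn (sub a one)
  | a, b :: xs => posOn l a (sub b a) && segs l b xs

lemma segs_sound {l : List Dec} : ∀ {xs : List Dec} {a : Dec}, segs l a xs = true →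
    ∀ p : ℝ, a.val < p → p ≤ 1 → 0 ≤ pv p l
  | [], a, h, p, h0, h1 => by
    simp only [segs] at h
    have := nn_iff h
    rw [val_sub, val_one] at this
    linarith
  | b :: xs, a, h, p, h0, h1 => by
    simp only [segs, Bool.and_eq_true] at h
    rcases lt_or_ge b.val p with hb | hb
    · exact segs_sound h.2 p hb h1
    · have hw : 0 < b.val - a.val := by linarith
      have h2 := posOn_sound h.1 (z := (p - a.val) / (b.val - a.val))
        (div_nonneg (by linarith) hw.le) (by rw [div_le_one hw]; linarith)
      rw [val_sub, mul_div_cancel₀ _ hw.ne'] at h2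
      convert h2 using 1
      ring_nf

/-- the same, `xs` is not empty -/
def segs1 (l : List Dec) (a : Dec) (xs : List Dec) : Bool :=
  match xs with
  | [] => false
  | b :: xs => segs l a (b :: xs)

lemma segs1_sound {l : List Dec} {xs : List Dec} {a : Dec} (h : segs1 l a xs = true) (p : ℝ)
    (h0 : a.val ≤ p) (h1 : p ≤ 1) : 0 ≤ pv p l := by
  rcases xs with _ | ⟨b, xs⟩
  · simp [segs1] at h
  · simp only [segs1] at h
    rcases h0.lt_or_eq with h0 | h0
    · exact segs_sound h p h0 h1
    · simp only [segs, Bool.and_eq_true] at h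
      have h2 := posOn_sound h.1 (z := 0) le_rfl zero_le_one
      rwa [mul_zero, add_zero, h0] at h2

/-! ### The constants -/

/-- decimal numbers for small integers -/
def nat (k : Nat) : Dec := pos k 0

lemma nat_val (k : Nat) : (nat k).val = k := by rw [nat, val_pos]; simp

/-- the test for `OneE` -/
def oneOk (D1 χ0 K r κ : Dec) : Bool :=
  ps χ0 && (nn (sub one χ0) && (nn (sub (mul (mul χ0 χ0) (add one D1)) D1) && (nn r &&
  (nn (sub one (nsm 2 (mul r D1))) &&
  (nn (sub (mul K (mul (nsm 2 χ0) (mul (add one D1) (add one D1)))) (mul r D1)) &&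
  (nn κ && (nn (sub one κ) &&
  nn (sub (mul (nsm 4 κ) (mul (sub one (mul r D1)) (add one (mul κ (mul r D1))))) one))))))))

lemma oneOk_sound {D1 χ0 K r κ : Dec} (h : oneOk D1 χ0 K r κ = true) {D : ℝ} (h0 : 0 ≤ D)
    (h1 : D ≤ D1.val) : OneE D D1.val χ0.val K.val r.val κ.val := by
  simp only [oneOk, Bool.and_eq_true] at h
  obtain ⟨k1, k2, k3, k4, k5, k6, k7, k8, k9⟩ := h
  have e1 := ps_iff k1
  have e2 := nn_iff k2
  have e3 := nn_iff k3
  have e4 := nn_iff k4
  have e5 := nn_iff k5
  have e6 := nn_iff k6
  have e7 := nn_iff k7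
  have e8 := nn_iff k8
  have e9 := nn_iff k9
  simp only [val_sub, val_add, val_mul, val_nsm, val_one, Nat.cast_ofNat] at e2 e3 e5 e6 e8 e9
  have hz : r.val * D ≤ r.val * D1.val := mul_le_mul_of_nonneg_left h1 e4
  have hz0 : 0 ≤ r.val * D := mul_nonneg e4 h0
  refine ⟨h1, e1, by linarith, by nlinarith, e4, by linarith, ?_, e7, by linarith, ?_⟩
  · refine hz.trans ?_
    nlinarith
  · -- `4 κ (1 - z) (1 + κ z)` is decreasing in `z`
    have h2 : 0 ≤ 4 * κ.val * ((r.val * D1.val - r.val * D) *
        (1 - κ.val + κ.val * (r.val * D + r.val * D1.val))) := by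
      apply mul_nonneg (by linarith)
      apply mul_nonneg (by linarith)
      have := mul_nonneg e7 (add_nonneg hz0 (hz0.trans hz))
      linarith
    nlinarith

/-- the test for `LossC`; `x0`, `xs` the division points -/
def lossOk (D1 σ0 s k K x0 : Dec) (xs : List Dec) : Bool :=
  nn s && (nn k && (ps K && (nn σ0 && (nn (sub s (mul k σ0)) && (nn (sub (mul σ0 σ0) D1) &&
  (nn (sub (nsm 2 (mul K σ0)) (mul k x0)) &&
  segs1 (Pol.sub (Pol.smul (nsm 4 K) [zero, nsm 60 s, nat 30, nat 10, nat 5, nat 3])
    (Pol.nsm 60 (Pol.mul [nsm 4 (mul (mul K K) (mul σ0 σ0)), zero, mul k k]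
      [one, neg one]))) x0 xs))))))

lemma lossOk_sound {D1 σ0 s k K x0 : Dec} {xs : List Dec}
    (h : lossOk D1 σ0 s k K x0 xs = true) : LossC D1.val σ0.val s.val k.val K.val := by
  simp only [lossOk, Bool.and_eq_true] at h
  obtain ⟨k1, k2, k3, k4, k5, k6, k7, k8⟩ := h
  have e1 := nn_iff k1
  have e2 := nn_iff k2
  have e3 := ps_iff k3
  have e4 := nn_iff k4
  have e5 := nn_iff k5
  have e6 := nn_iff k6
  have e7 := nn_iff k7
  simp only [val_sub, val_mul, val_nsm, Nat.cast_ofNat] at e5 e6 e7
  refine ⟨e1, e2, e3, e4, by linarith, by nlinarith, fun p h0 h1 hp => ?_⟩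
  rcases le_total x0.val p with hx | hx
  · have h2 := segs1_sound k8 p hx h1
    simp only [pv_sub, pv_smul, pv_nsm, pv_mul, pv, val_zero, val_nsm, nat_val, val_mul, val_one,
      val_neg, Nat.cast_ofNat, mul_zero, add_zero, zero_add] at h2
    nlinarith
  · -- then `p = x0` or `k = 0`
    rcases e2.eq_or_lt with hk | hk
    · rw [← hk] at hp
      have h3 : K.val * σ0.val = 0 := by
        have : 0 ≤ K.val * σ0.val := mul_nonneg e3.le e4
        linarith
      rw [← hk]
      have h4 : (0 : ℝ) ^ 2 * p ^ 2 + 4 * K.val ^ 2 * σ0.val ^ 2 = 0 := by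
        rw [show 4 * K.val ^ 2 * σ0.val ^ 2 = 4 * (K.val * σ0.val) ^ 2 by ring, h3]
        ring
      rw [h4, zero_mul]
      have := mul_nonneg e1 h0
      positivity
    · have h5 : k.val * x0.val ≤ k.val * p := by linarith
      have h6 : x0.val ≤ p := le_of_mul_le_mul_left h5 hk
      have h2 := segs1_sound k8 p h6 h1
      simp only [pv_sub, pv_smul, pv_nsm, pv_mul, pv, val_zero, val_nsm, nat_val, val_mul,
        val_one, val_neg, Nat.cast_ofNat, mul_zero, add_zero, zero_add] at h2
      nlinarith

/-- the test for `TwoE`; `xs` the division points -/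
def twoOk (D1 r C κ η χ cψ : Dec) (xs : List Dec) : Bool :=
  ps (sub (nsm 2 C) one) && (nn (sub (mul κ (sub (nsm 4 C) (nat 2))) C) && (nn r && (nn η &&
  (nn (sub one η) && (nn (sub (nsm 2 κ) (mul η η)) && (nn (sub one (mul η (mul r D1))) &&
  (nn (sub (nsm 6 (sub one η)) (add (mul (nsm 3 (sub (nsm 2 κ) (mul η η))) (mul r D1))
    (mul (mul η (mul η η)) (mul (mul r D1) (mul r D1))))) && (nn cψ && (nn (sub χ cψ) &&
  segs1 [nsm 60 cψ, neg (nsm 30 χ), nat 10, nat 5, nat 3] zero xs)))))))))

lemma twoOk_sound {D1 r C κ η χ cψ : Dec} {xs : List Dec}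
    (h : twoOk D1 r C κ η χ cψ xs = true) {D : ℝ} (h0 : 0 ≤ D) (h1 : D ≤ D1.val) :
    TwoE D r.val C.val κ.val η.val χ.val cψ.val := by
  simp only [twoOk, Bool.and_eq_true] at h
  obtain ⟨k1, k2, k3, k4, k5, k6, k7, k8, k9, k10, k11⟩ := h
  have e1 := ps_iff k1
  have e2 := nn_iff k2
  have e3 := nn_iff k3
  have e4 := nn_iff k4
  have e5 := nn_iff k5
  have e6 := nn_iff k6
  have e7 := nn_iff k7
  have e8 := nn_iff k8
  have e9 := nn_iff k9
  have e10 := nn_iff k10
  simp only [val_sub, val_add, val_mul, val_nsm, val_one, nat_val, Nat.cast_ofNat]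
    at e1 e2 e5 e6 e7 e8 e10
  have hz : r.val * D ≤ r.val * D1.val := mul_le_mul_of_nonneg_left h1 e3
  have hz0 : 0 ≤ r.val * D := mul_nonneg e3 h0
  have hk : 0 ≤ κ.val - η.val ^ 2 / 2 := by nlinarith
  have hη3 : 0 ≤ η.val ^ 3 := pow_nonneg e4 3
  refine ⟨by linarith, by linarith, e3, e4, by linarith, by linarith, ?_, ?_, e9, by linarith,
    fun p hp0 hp1 => ?_⟩
  · have := mul_le_mul_of_nonneg_left hz e4
    linarith
  · have h2 := mul_le_mul_of_nonneg_left hz hk
    have h3 : (r.val * D) ^ 2 ≤ (r.val * D1.val) ^ 2 := pow_le_pow_left₀ hz0 hz 2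
    have h4 := mul_le_mul_of_nonneg_left h3 hη3
    nlinarith
  · have h2 := segs1_sound k11 p (by rw [val_zero]; exact hp0) hp1
    simp only [pv, val_nsm, val_neg, nat_val, Nat.cast_ofNat, mul_zero, add_zero] at h2
    nlinarith

end Pool.Agent.TSC
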