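import Pool.Agent.TSM.LeftTree
import Pool.Agent.TSC.Cons

set_option autoImplicit false

/-!
# Tests for the constants of the rule which splits off one child (MP_d27362_co)
-/

namespace Pool.Agent.TSC

open Dec
open Pool.Agent.TSM (LeftC RestC)

/-- `x ≤ y` -/
def leD (x y : Dec) : Bool := nn (sub y x)

lemma leD_iff {x y : Dec} (h : leD x y = true) : x.val ≤ y.val := by
  have := nn_iff h
  rw [val_sub] at this
  linarith

/-- the test for `LeftC`: `D1` bounds the total mass, `r` is the cap of the gain of the child -/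
def leftOk (D1 r chi0 tau om th nu B1 B2 : Dec) : Bool :=
  nn r && (nn chi0 && (leD chi0 one && (ps tau && (nn om &&
  (leD (add (pos 4 0) (mul (mul r D1) (mul r D1))) (nsm 4 nu) &&
  (leD one (mul om (sub one (mul (sub one (mul chi0 chi0)) (mul r D1)))) &&
  (leD (mul (mul om tau) (mul (mul (mul chi0 chi0) (mul chi0 chi0)) (mul r D1))) (nsm 2 th) &&
  (leD (nsm 2 om) B1 && (leD (add (pos 2 0) (mul r D1)) B1 &&
  leD (add (pos 2 0) (mul r D1)) B2)))))))))

theorem leftOk_sound {D1 r chi0 tau om th nu B1 B2 : Dec}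
    (h : leftOk D1 r chi0 tau om th nu B1 B2 = true) {D : ℝ} (h0 : 0 ≤ D) (h1 : D ≤ D1.val) :
    LeftC (r.val * D) chi0.val tau.val om.val th.val nu.val B1.val B2.val := by
  simp only [leftOk, Bool.and_eq_true] at h
  obtain ⟨k1, k2, k3, k4, k5, k6, k7, k8, k9, k10, k11⟩ := h
  have e1 := nn_iff k1
  have e2 := nn_iff k2
  have e3 := leD_iff k3
  have e4 := ps_iff k4
  have e5 := nn_iff k5
  have e6 := leD_iff k6
  have e7 := leD_iff k7
  have e8 := leD_iff k8
  have e9 := leD_iff k9
  have e10 := leD_iff k10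
  have e11 := leD_iff k11
  simp only [val_add, val_mul, val_sub, val_one, val_nsm, val_pos, Nat.cast_ofNat, pow_zero,
    div_one] at e3 e6 e7 e8 e9 e10 e11
  have hP : r.val * D ≤ r.val * D1.val := mul_le_mul_of_nonneg_left h1 e1
  have key : LeftC (r.val * D1.val) chi0.val tau.val om.val th.val nu.val B1.val B2.val := by
    refine ⟨e4, e5, ?_, ?_, ?_, e9, e10, e11⟩
    · nlinarith
    · calc (1 : ℝ) ≤ _ := e7
        _ = _ := by ring
    · have : om.val * tau.val * chi0.val ^ 4 * (r.val * D1.val) / 2 = (om.val * tau.val *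
          (chi0.val * chi0.val * (chi0.val * chi0.val) * (r.val * D1.val))) / 2 := by ring
      rw [this]
      linarith
  exact key.mono (mul_nonneg e1 h0) hP e2 e3

/-- the test for `RestC`, a pair with the cap `P` of the gain -/
def pairRestOk (P c ka eta sR : Dec) : Bool :=
  leD one (nsm 4 c) && (ps (sub (nsm 4 ka) one) && (leD ka (mul c (sub (nsm 4 ka) one)) &&
  (nn eta && (leD eta one && (leD (mul eta eta) (nsm 2 ka) && (leD (mul eta P) one &&
  (leD (add (mul (sub (nsm 6 ka) (nsm 3 (mul eta eta))) P)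
    (mul (mul eta (mul eta eta)) (mul P P))) (nsm 6 (sub one eta)) &&
  (nn sR && leD (mul (sub (nsm 2 ka) (mul (add one sR) (add one sR)))
    (mul (pos 3 0) (sub (nsm 2 ka) (mul (add one sR) (add one sR)))))
    (nsm 8 (mul sR (mul (add one sR) (mul (add one sR) (add one sR)))))))))))))

theorem pairRestOk_sound {P c ka eta sR : Dec} (h : pairRestOk P c ka eta sR = true) :
    RestC 2 P.val c.val 0 eta.val sR.val (fun ρ => 1 - ρ + ka.val * ρ ^ 2) := by
  simp only [pairRestOk, Bool.and_eq_true] at h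
  obtain ⟨k1, k2, k3, k4, k5, k6, k7, k8, k9, k10⟩ := h
  have e1 := leD_iff k1
  have e2 := ps_iff k2
  have e3 := leD_iff k3
  have e4 := nn_iff k4
  have e5 := leD_iff k5
  have e6 := leD_iff k6
  have e7 := leD_iff k7
  have e8 := leD_iff k8
  have e9 := nn_iff k9
  have e10 := leD_iff k10
  simp only [val_add, val_mul, val_sub, val_one, val_nsm, val_pos, Nat.cast_ofNat, pow_zero,
    div_one] at e1 e2 e3 e5 e6 e7 e8 e10
  refine RestC.pairN (by linarith) (by linarith) e3 e4 e5 (by linarith) e7 ?_ e9 ?_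
  · have e : (ka.val - eta.val ^ 2 / 2) * P.val + eta.val ^ 3 * P.val ^ 2 / 6 =
      ((6 * ka.val - 3 * (eta.val * eta.val)) * P.val +
        eta.val * (eta.val * eta.val) * (P.val * P.val)) / 6 := by ring
    rw [e]
    linarith
  · have e : (ka.val - (1 + sR.val) ^ 2 / 2) ^ 2 =
      ((2 * ka.val - (1 + sR.val) * (1 + sR.val)) *
        (3 * (2 * ka.val - (1 + sR.val) * (1 + sR.val)))) / 12 := by ring
    have e' : 2 / 3 * sR.val * (1 + sR.val) ^ 3 =
      (8 * (sR.val * ((1 + sR.val) * ((1 + sR.val) * (1 + sR.val))))) / 12 := by ring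
    rw [e, e']
    linarith

end Pool.Agent.TSC
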