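import Pool.Agent.TSM.ZpcE
import Pool.Agent.TSC.Cons

set_option autoImplicit false

/-!
# Test for the constants of the loss side of the zpc rule (MP_d27362_co)
-/

namespace Pool.Agent.TSM

/-- the conditions of the loss side are monotone in `D` and `B` -/
theorem LossAC.mono {D D' ε χ k θ B B' p0 σ0 K : ℝ} (h : LossAC D' ε χ k θ B' p0 σ0 K)
    (hD : D ≤ D') (hB : B ≤ B') (hθχ : θ ≤ χ) : LossAC D ε χ k θ B p0 σ0 K := by
  have hc : ∀ p : ℝ, p ≤ 1 → (χ - θ) * (B / 2) * (1 - p) ≤ (χ - θ) * (B' / 2) * (1 - p) := by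
    intro p hp
    apply mul_le_mul_of_nonneg_right _ (by linarith)
    exact mul_le_mul_of_nonneg_left (by linarith) (by linarith)
  refine ⟨h.hk, h.hK, h.hσ0, h.hp0, h.hpo, ?_, fun p h0 h1 => ?_, fun p h0 h1 => ?_,
    fun p h0 h1 h2 => ?_⟩
  · have h1 := mul_le_mul_of_nonneg_right hB (show 0 ≤ 1 - p0 by linarith [h.hpo])
    exact h1.trans h.hB
  · have hp1 : 0 ≤ 1 - p := by linarith [h.hpo]
    have h2 : k * (p ^ 2 * ((1 + D) * (1 - p) + max (ε * (1 - p)) (2 * p))) ≤
        k * (p ^ 2 * ((1 + D') * (1 - p) + max (ε * (1 - p)) (2 * p))) := by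
      apply mul_le_mul_of_nonneg_left _ h.hk
      apply mul_le_mul_of_nonneg_left _ (sq_nonneg p)
      have := mul_le_mul_of_nonneg_right (show 1 + D ≤ 1 + D' by linarith) hp1
      linarith
    rcases h.hA p h0 h1 with h3 | ⟨h3, h4⟩
    · left
      exact h2.trans h3
    · right
      have h5 := mul_le_mul_of_nonneg_right hB hp1
      have h6 := hc p (by linarith)
      exact ⟨h5.trans h3, by linarith⟩
  · have h2 := h.hC1 p h0 h1
    have h3 := hc p h1
    nlinarith
  · have h3 := h.hC2 p h0 h1 h2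
    have h4 := mul_le_mul_of_nonneg_left (hc p h1) (show 0 ≤ 4 * K by linarith [h.hK])
    nlinarith

end Pool.Agent.TSM

namespace Pool.Agent.TSC

open Dec
open Pool.Agent.TSM (LossAC pser ZLo)

/-- `60 (s p + pser p - k p² ((1 + D) (1 - p) + ε (1 - p))) - 30 b (1 - p)` -/
def polE (D ε k s b : Dec) : List Dec :=
  [neg (nsm 30 b), add (nsm 60 s) (nsm 30 b),
    sub (nat 30) (nsm 60 (mul k (add (add one D) ε))),
    add (nat 10) (nsm 60 (mul k (add (add one D) ε))), nat 5, nat 3]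

/-- `60 (s p + pser p - k p² ((1 + D) (1 - p) + 2 p)) - 30 b (1 - p)` -/
def polP (D k s b : Dec) : List Dec :=
  [neg (nsm 30 b), add (nsm 60 s) (nsm 30 b),
    sub (nat 30) (nsm 60 (mul k (add one D))),
    sub (add (nat 10) (nsm 60 (mul k (add one D)))) (nsm 120 k), nat 5, nat 3]

lemma polE_val (D ε k s b : Dec) (p : ℝ) : pv p (polE D ε k s b) =
    60 * (s.val * p + pser p - k.val * (p ^ 2 * ((1 + D.val) * (1 - p) + ε.val * (1 - p)))) -
      30 * b.val * (1 - p) := by
  simp only [polE, pv, val_neg, val_nsm, val_add, val_sub, val_mul, val_one, nat_val,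
    Nat.cast_ofNat, pser]
  ring

lemma polP_val (D k s b : Dec) (p : ℝ) : pv p (polP D k s b) =
    60 * (s.val * p + pser p - k.val * (p ^ 2 * ((1 + D.val) * (1 - p) + 2 * p))) -
      30 * b.val * (1 - p) := by
  simp only [polP, pv, val_neg, val_nsm, val_add, val_sub, val_mul, val_one, nat_val,
    Nat.cast_ofNat, pser]
  ring

/-- the test for rule A on `[a, p0]`; `true` in the list: the second branch -/
def segA (D ε χ k θ B p0 : Dec) : Dec → List (Dec × Bool) → Bool
  | a, [] => nn (sub a p0)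
  | a, (b, false) :: xs => posOn (polE D ε k θ zero) a (sub b a) &&
      (posOn (polP D k θ zero) a (sub b a) && segA D ε χ k θ B p0 b xs)
  | a, (b, true) :: xs => nn (sub (nsm 2 a) (mul B (sub one a))) &&
      (posOn (polE D ε k χ (mul (sub χ θ) B)) a (sub b a) &&
      (posOn (polP D k χ (mul (sub χ θ) B)) a (sub b a) && segA D ε χ k θ B p0 b xs))

lemma posOn_le {l : List Dec} {a b : Dec} (h : posOn l a (sub b a) = true) {p : ℝ}
    (h0 : a.val < p) (h1 : p ≤ b.val) : 0 ≤ pv p l := by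
  have hw : 0 < b.val - a.val := by linarith
  have h2 := posOn_sound h (z := (p - a.val) / (b.val - a.val))
    (div_nonneg (by linarith) hw.le) (by rw [div_le_one hw]; linarith)
  rw [val_sub, mul_div_cancel₀ _ hw.ne'] at h2
  convert h2 using 1
  ring_nf

/-- the statement of rule A at `p` -/
def SA (D ε χ k θ B p : ℝ) : Prop :=
  (k * (p ^ 2 * ((1 + D) * (1 - p) + max (ε * (1 - p)) (2 * p))) ≤ θ * p + pser p) ∨
    (B * (1 - p) ≤ 2 * p ∧
      k * (p ^ 2 * ((1 + D) * (1 - p) + max (ε * (1 - p)) (2 * p))) +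
        (χ - θ) * (B / 2) * (1 - p) ≤ χ * p + pser p)

lemma sa_left {D ε χ k θ B p : ℝ}
    (h2 : 0 ≤ 60 * (θ * p + pser p - k * (p ^ 2 * ((1 + D) * (1 - p) + ε * (1 - p)))) -
      30 * 0 * (1 - p))
    (h3 : 0 ≤ 60 * (θ * p + pser p - k * (p ^ 2 * ((1 + D) * (1 - p) + 2 * p))) -
      30 * 0 * (1 - p)) : SA D ε χ k θ B p := by
  left
  rcases le_total (ε * (1 - p)) (2 * p) with h4 | h4
  · rw [max_eq_right h4]
    linarith
  · rw [max_eq_left h4]
    linarith

lemma sa_right {D ε χ k θ B p a : ℝ} (hB : 0 ≤ B) (ha : a < p)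
    (h5 : 0 ≤ 2 * a - B * (1 - a))
    (h2 : 0 ≤ 60 * (χ * p + pser p - k * (p ^ 2 * ((1 + D) * (1 - p) + ε * (1 - p)))) -
      30 * ((χ - θ) * B) * (1 - p))
    (h3 : 0 ≤ 60 * (χ * p + pser p - k * (p ^ 2 * ((1 + D) * (1 - p) + 2 * p))) -
      30 * ((χ - θ) * B) * (1 - p)) : SA D ε χ k θ B p := by
  right
  constructor
  · have := mul_le_mul_of_nonneg_left (show 1 - p ≤ 1 - a by linarith) hB
    linarith
  · rcases le_total (ε * (1 - p)) (2 * p) with h4 | h4
    · rw [max_eq_right h4]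
      linarith
    · rw [max_eq_left h4]
      linarith

lemma segA_sound {D ε χ k θ B p0 : Dec} (hB : 0 ≤ B.val) (p : ℝ) (h1 : p ≤ p0.val)
    (xs : List (Dec × Bool)) : ∀ a : Dec, segA D ε χ k θ B p0 a xs = true → a.val < p →
    SA D.val ε.val χ.val k.val θ.val B.val p := by
  induction xs with
  | nil =>
    intro a h h0
    rw [segA] at h
    have := nn_iff h
    rw [val_sub] at this
    linarith
  | cons q xs ih =>
    intro a h h0
    obtain ⟨b, e⟩ := q
    rcases e with _ | _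
    · rw [segA, Bool.and_eq_true, Bool.and_eq_true] at h
      obtain ⟨g1, g2, g3⟩ := h
      rcases lt_or_ge b.val p with hb | hb
      · exact ih b g3 hb
      · have h2 := posOn_le g1 h0 hb
        have h3 := posOn_le g2 h0 hb
        rw [polE_val, val_zero] at h2
        rw [polP_val, val_zero] at h3
        exact sa_left h2 h3
    · rw [segA, Bool.and_eq_true, Bool.and_eq_true, Bool.and_eq_true] at h
      obtain ⟨g0, g1, g2, g3⟩ := h
      rcases lt_or_ge b.val p with hb | hb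
      · exact ih b g3 hb
      · have h5 := nn_iff g0
        rw [val_sub, val_nsm, val_mul, val_sub, val_one, Nat.cast_ofNat] at h5
        have h2 := posOn_le g1 h0 hb
        have h3 := posOn_le g2 h0 hb
        rw [polE_val, val_mul, val_sub] at h2
        rw [polP_val, val_mul, val_sub] at h3
        exact sa_right hB h0 h5 h2 h3

/-- the data of the test: division points of the three conditions and a starting point -/
structure LacD where
  p0 : Dec
  σ0 : Dec
  K : Dec
  xa : List (Dec × Bool)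
  x1 : List Dec
  x0 : Dec
  x2 : List Dec

/-- the test for `LossAC` with `B = β D` for all `D ≤ D1` -/
def lacOk (D1 ε χ k θ β : Dec) (d : LacD) : Bool :=
  let B := mul β D1
  let b := mul (sub χ θ) B
  ps k && (ps d.K && (nn d.σ0 && (nn d.p0 && (nn (sub one (nsm 3 d.p0)) && (nn β &&
  (nn (sub χ θ) && (nn (sub (mul d.σ0 d.σ0) D1) &&
  (nn (sub (nsm 2 d.p0) (mul B (sub one d.p0))) &&
  ((nn (sub d.p0 d.x0) || nn (sub (nsm 2 (mul d.K d.σ0)) (mul k d.x0))) &&
  (segA D1 ε χ k θ B d.p0 zero d.xa &&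
  (segs1 [neg (nsm 30 b), add (sub (nsm 60 χ) (nsm 60 (mul k d.σ0))) (nsm 30 b),
    add (nat 30) (nsm 60 (mul k d.σ0)), nat 10, nat 5, nat 3] d.p0 d.x1 &&
  segs1 (Pol.sub (Pol.smul (nsm 4 d.K) [zero, nsm 60 χ, nat 30, nat 10, nat 5, nat 3])
    (Pol.nsm 60 (Pol.mul [add (nsm 4 (mul (mul d.K d.K) (mul d.σ0 d.σ0)))
      (nsm 2 (mul d.K b)), zero, mul k k] [one, neg one]))) d.x0 d.x2)))))))))))

lemma lacOk_sound {D1 ε χ k θ β : Dec} {d : LacD} (h : lacOk D1 ε χ k θ β d = true) {D : ℝ}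
    (h0 : 0 ≤ D) (h1 : D ≤ D1.val) :
    LossAC D ε.val χ.val k.val θ.val (β.val * D) d.p0.val d.σ0.val d.K.val ∧
      θ.val ≤ χ.val ∧ D ≤ d.σ0.val ^ 2 ∧ 0 < d.K.val ∧ 0 ≤ β.val := by
  simp only [lacOk, Bool.and_eq_true, Bool.or_eq_true] at h
  obtain ⟨k1, k2, k3, k4, k5, k6, k7, k8, k9, k10, k11, k12, k13⟩ := h
  have e1 := ps_iff k1
  have e2 := ps_iff k2
  have e3 := nn_iff k3
  have e4 := nn_iff k4
  have e5 := nn_iff k5
  have e6 := nn_iff k6
  have e7 := nn_iff k7
  have e8 := nn_iff k8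
  have e9 := nn_iff k9
  simp only [val_sub, val_mul, val_nsm, val_one, Nat.cast_ofNat] at e5 e7 e8 e9
  have hD1 : 0 ≤ D1.val := h0.trans h1
  have hB1 : 0 ≤ β.val * D1.val := mul_nonneg e6 hD1
  have hBm : (mul β D1).val = β.val * D1.val := val_mul _ _
  refine ⟨LossAC.mono (D' := D1.val) (B' := β.val * D1.val) ?_ h1
    (mul_le_mul_of_nonneg_left h1 e6) (by linarith), by linarith, by nlinarith, e2, e6⟩
  refine ⟨e1.le, e2, e3, e4, by linarith, by linarith, fun p hp0 hp1 => ?_,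
    fun p hp0 hp1 => ?_, fun p hp0 hp1 hp2 => ?_⟩
  · rcases hp0.eq_or_lt with hp | hp
    · left
      rw [← hp]
      simp [pser]
    · have h2 := segA_sound (by rw [hBm]; exact hB1) p hp1 _ _ k11 (by rw [val_zero]; exact hp)
      rw [hBm] at h2
      exact h2
  · have h2 := segs1_sound k12 p hp0 hp1
    simp only [pv, val_neg, val_add, val_sub, val_mul, val_nsm, nat_val, Nat.cast_ofNat,
      mul_zero, add_zero] at h2
    unfold pser
    linarith
  · have hx : d.x0.val ≤ p := by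
      rcases k10 with h2 | h2
      · have := nn_iff h2
        rw [val_sub] at this
        linarith
      · have h3 := nn_iff h2
        simp only [val_sub, val_mul, val_nsm, Nat.cast_ofNat] at h3
        have h4 : k.val * d.x0.val ≤ k.val * p := by linarith
        exact le_of_mul_le_mul_left h4 e1
    have h2 := segs1_sound k13 p hx hp1
    simp only [pv_sub, pv_smul, pv_nsm, pv_mul, pv, val_zero, val_nsm, nat_val, val_mul,
      val_add, val_sub, val_one, val_neg, Nat.cast_ofNat, mul_zero, add_zero, zero_add] at h2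
    unfold pser
    linarith

/-- the test for `ZLo` with `B = β D` for all `D ≤ D1` -/
def zloOk (D1 ε χ k θ β K : Dec) (d : LacD) : Bool :=
  nn (sub K (nsm 2 d.K)) && lacOk D1 ε χ k θ β d

lemma zloOk_sound {D1 ε χ k θ β K : Dec} {d : LacD} (h : zloOk D1 ε χ k θ β K d = true) {D : ℝ}
    (h0 : 0 ≤ D) (h1 : D ≤ D1.val) :
    ZLo D ε.val χ.val k.val θ.val (β.val * D) K.val ∧ θ.val ≤ χ.val ∧ 0 ≤ β.val ∧
      0 ≤ K.val := by
  rw [zloOk, Bool.and_eq_true] at h
  obtain ⟨k1, k2⟩ := h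
  have e1 := nn_iff k1
  rw [val_sub, val_nsm, Nat.cast_ofNat] at e1
  obtain ⟨h2, h3, h4, h5, h6⟩ := lacOk_sound k2 h0 h1
  refine ⟨fun δ E hδ hE hδE r hr => ?_, h3, h6, by linarith⟩
  rcases h2.zlo h3 h4 δ E hδ hE hδE r hr with h7 | h7
  · left
    exact h7
  · right
    have := mul_le_mul_of_nonneg_right (show 2 * d.K.val ≤ K.val by linarith) hE
    linarith

end Pool.Agent.TSC
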