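import Mathlib

set_option autoImplicit false

/-!
# TSC: tiling strongly 2-connected digraphs (MP_1b96da_co), definitions

`h u v` is two minus the number of arcs between `u` and `v` (the multiplicity of the missing
edges). A pair with `h u v = 0` is called heavy. All sets are finsets of one fixed type.
-/

open Classical

namespace TSC

variable {V : Type}

/-- A symmetric weight with values at most two, zero on the diagonal. -/
structure HG (h : V → V → ℕ) : Prop where
  symm : ∀ u v, h u v = h v u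
  irr : ∀ v, h v v = 0
  le2 : ∀ u v, h u v ≤ 2

/-- The degree of `v` into `A`. -/
def dg (h : V → V → ℕ) (v : V) (A : Finset V) : ℕ := ∑ u ∈ A, h v u

/-- The number of edges between `A` and `B` (edges inside `A ∩ B` are counted twice). -/
noncomputable def cr (h : V → V → ℕ) (A B : Finset V) : ℕ := ∑ v ∈ A, dg h v B

/-- A good triple: three vertices with at most one edge in total. -/
def Good (h : V → V → ℕ) (T : Finset V) : Prop := T.card = 3 ∧ cr h T T ≤ 2

/-- `S` splits into good triples. -/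
inductive Fac (h : V → V → ℕ) : Finset V → Prop
  | empty : Fac h ∅
  | add (T S : Finset V) : Good h T → Disjoint T S → Fac h S → Fac h (T ∪ S)

/-- A barrier of `S`: a part `X` with `|X|` not divisible by three and no heavy pair between `X`
and `S \ X`. -/
def Bar (h : V → V → ℕ) (S : Finset V) : Prop :=
  ∃ X ⊆ S, ¬ (3 ∣ X.card) ∧ ∀ x ∈ X, ∀ y ∈ S \ X, 1 ≤ h x y

/-- The statement (MG) for sets with `3 k` elements. -/
def MG (h : V → V → ℕ) (k : ℕ) : Prop :=
  ∀ S : Finset V, S.card = 3 * k → (∀ v ∈ S, dg h v S + 1 ≤ 2 * k) → Fac h S ∨ Bar h S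

/-- The potential. -/
noncomputable def J (h : V → V → ℕ) (S A : Finset V) : ℤ :=
  3 * (cr h A (S \ A) : ℤ) - 2 * (A.card : ℤ) * ((S \ A).card : ℤ)

/-- An optimal partition `S = X ∪ Y` (this is what is used of the maximality of `J`). -/
structure Opt (h : V → V → ℕ) (k : ℕ) (S X Y : Finset V) : Prop where
  hX : X.Nonempty
  hY : Y.Nonempty
  disj : Disjoint X Y
  union : X ∪ Y = S
  card : S.card = 3 * k
  deg : ∀ v ∈ S, dg h v S + 1 ≤ 2 * k
  starX : ∀ A ⊆ X, 3 * cr h A A + 6 * cr h A (X \ A) + 3 * A.card ≤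
    2 * A.card * A.card + 4 * A.card * (X \ A).card
  starY : ∀ A ⊆ Y, 3 * cr h A A + 6 * cr h A (Y \ A) + 3 * A.card ≤
    2 * A.card * A.card + 4 * A.card * (Y \ A).card

/-- The context of the main case `|X| = 3 s + 1`, `|Y| = 3 r + 2`. -/
structure Ctx (h : V → V → ℕ) (s r : ℕ) (S X Y : Finset V) : Prop where
  hg : HG h
  opt : Opt h (s + r + 1) S X Y
  cX : X.card = 3 * s + 1
  cY : Y.card = 3 * r + 2
  ih : ∀ j < s + r + 1, MG h j
  nf : ¬ Fac h S
  nb : ∃ x ∈ X, ∃ y ∈ Y, h x y = 0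

/-- `{v, w}` is a bad pair of `Y`: `Y \ {v, w}` has a barrier. -/
def BP (h : V → V → ℕ) (Y : Finset V) (v w : V) : Prop := Bar h ((Y.erase v).erase w)

/-- `c` is a cut vertex of the heavy graph on `Y`. -/
def CutV (h : V → V → ℕ) (Y : Finset V) (c : V) : Prop :=
  ∃ S1 S2 : Finset V, S1.Nonempty ∧ S2.Nonempty ∧ Disjoint S1 S2 ∧ S1 ∪ S2 = Y.erase c ∧
    ∀ u ∈ S1, ∀ v ∈ S2, 1 ≤ h u v

/-! ## The digraph part -/

/-- The missing arcs of a digraph. -/
noncomputable def hD (D : V → V → Prop) (u v : V) : ℕ :=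
  if u = v then 0 else 2 - ((if D u v then 1 else 0) + (if D v u then 1 else 0))

/-- `T` is a tournament on `W`. -/
def Tour {W : Type} (T : W → W → Prop) : Prop :=
  (∀ a, ¬ T a a) ∧ ∀ a b, a ≠ b → (T a b ↔ ¬ T b a)

/-- `A` carries a copy of `T`. -/
def Host (D : V → V → Prop) (A : Finset V) (T : Fin 3 → Fin 3 → Prop) : Prop :=
  ∃ f : Fin 3 → V, Function.Injective f ∧ (∀ a, f a ∈ A) ∧ ∀ a b, T a b → D (f a) (f b)

/-- `{u, v, w}` with arcs `u → v → w → u`. -/
def CTri (D : V → V → Prop) (u v w : V) : Prop := D u v ∧ D v w ∧ D w u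

/-- The cyclic triangle on `Fin 3` (up to isomorphism: a tournament with no transitive order). -/
def IsCyc (T : Fin 3 → Fin 3 → Prop) : Prop := CTri T 0 1 2 ∨ CTri T 0 2 1

/-- The context of the digraph part: a barrier `X`, `Y` of the whole vertex set `S`. -/
structure DCtx (D : V → V → Prop) (k : ℕ) (S X Y : Finset V) : Prop where
  loop : ∀ v, ¬ D v v
  disj : Disjoint X Y
  union : X ∪ Y = S
  card : S.card = 3 * k
  deg : ∀ v ∈ S, dg (hD D) v S + 1 ≤ 2 * k
  cX : X.card % 3 = 1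
  cY : Y.card % 3 = 2
  bar : ∀ x ∈ X, ∀ y ∈ Y, 1 ≤ hD D x y

/-- The arcs between `x` and `Y` all leave `x`. -/
def Pos (D : V → V → Prop) (Y : Finset V) (x : V) : Prop := ∀ y ∈ Y, ¬ D y x
/-- The arcs between `x` and `Y` all enter `x`. -/
def Neg (D : V → V → Prop) (Y : Finset V) (x : V) : Prop := ∀ y ∈ Y, ¬ D x y

end TSC
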