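import Pool.Agent.TSC.Chk

set_option autoImplicit false

/-!
# The same test with forced evaluation (fast in the kernel)

`fN x k` evaluates `x` (by a case distinction) before it is passed to `k`.
-/

namespace Pool.Agent.TSC

open Dec

/-- evaluate a natural number, then continue -/
def fN {α : Type} (x : Nat) (k : Nat → α) : α :=
  Nat.casesOn (motive := fun _ => α) x (k 0) (fun n => k (Nat.succ n))

lemma fN_eq {α : Type} (x : Nat) (k : Nat → α) : fN x k = k x := by
  cases x <;> rfl

/-- evaluate a decimal number, then continue -/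
def fD {α : Type} (x : Dec) (k : Dec → α) : α :=
  fN x.p fun p => fN x.n fun n => fN x.e fun e => k ⟨p, n, e⟩

lemma fD_eq {α : Type} (x : Dec) (k : Dec → α) : fD x k = k x := by
  unfold fD
  rw [fN_eq, fN_eq, fN_eq]

def cop2F (a b c : Dec) : Bool :=
  nn a && (nn c && (nn b || nn (sub (mul a c) (mul b b))))

def cop3F (a b c d e f : Dec) : Bool :=
  fD a fun a => fD b fun b => fD c fun c => fD d fun d => fD e fun e => fD f fun f =>
    cop3 a b c d e f

lemma cop3F_eq (a b c d e f : Dec) : cop3F a b c d e f = cop3 a b c d e f := by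
  unfold cop3F
  simp only [fD_eq]

/-- the two faces, base quantities given -/
def facesB (k s l A0 A1 N B1 E G Ep PN : Dec) : Bool :=
  fD (mul l k) fun lk => fD (mul l s) fun ls => fD (sub A1 (nsm 4 lk)) fun a1 =>
    fD (sub E ls) fun e0 => fD (sub e0 G) fun e1 =>
      cop3F A0 a1 N (sub B1 (nsm 2 lk)) e0 e1 && cop3F a1 N N (add (sub Ep ls) G) e1 PN

def chkF (θ : Dec) (q : QI Dec) : Bool :=
  fD θ fun θ => fD q.c fun c => fD q.cu fun cu => fD q.cuu fun cuu => fD q.cv fun cv =>
  fD q.cvv fun cvv => fD q.ca fun ca => fD q.caa fun caa => fD q.l fun l =>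
  nn (neg cv) && (nn (neg cvv) && (nn l &&
    (fD (mul θ cu) fun tcu => fD (mul (mul θ θ) cuu) fun tuu => fD (nsm 4 (mul θ cuu)) fun G =>
     fD (nsm 2 (add caa tuu)) fun N =>
     fD (nsm 2 (add (add c (nsm 2 (add cu cv))) (nsm 4 (add cuu cvv)))) fun A1 =>
     fD (nsm 2 (add c (add cu cv))) fun B1 =>
     fD (sub ca tcu) fun E => fD (add ca tcu) fun Ep => fD (nsm 2 (sub caa tuu)) fun PN =>
     fD (nsm 2 c) fun A0 =>
      (facesB one one l A0 A1 N B1 E G Ep PN ||
        (facesB L1.1 L1.2 l A0 A1 N B1 E G Ep PN &&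
        (facesB L2.1 L2.2 l A0 A1 N B1 E G Ep PN &&
        (facesB L3.1 L3.2 l A0 A1 N B1 E G Ep PN &&
        (facesB L4.1 L4.2 l A0 A1 N B1 E G Ep PN &&
        (facesB L5.1 L5.2 l A0 A1 N B1 E G Ep PN &&
        facesB L6.1 L6.2 l A0 A1 N B1 E G Ep PN)))))))))

lemma chkF_eq (θ : Dec) (q : QI Dec) : chkF θ q = chk θ q := by
  unfold chkF chk facesB faces
  simp only [fD_eq, cop3F_eq]

end Pool.Agent.TSC
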