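import Pool.Agent.TSC.Targets

set_option autoImplicit false

open Classical

namespace TSC

theorem p_BS (h_SB : T_SB) : T_BS := by
  intro V h s r S X Y hC v hv w hw hvw hbp
  obtain ⟨hr1, hdeg⟩ := h_SB V h s r S X Y hC
  have hg := hC.hg
  have hcard : ((Y.erase v).erase w).card = 3 * r := by
    have hw' : w ∈ Y.erase v := Finset.mem_erase.2 ⟨fun h => hvw h.symm, hw⟩
    rw [Finset.card_erase_of_mem hw', Finset.card_erase_of_mem hv, hC.cY]
    omega
  obtain ⟨A, B, hd, hu, hA3, hB3, hAB, hAne, h1, h2⟩ :=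
    Bar.elim hg hbp ⟨r, hcard⟩
  have hsum : A.card + B.card = 3 * r := by
    rw [← Finset.card_union_of_disjoint hd, hu, hcard]
  have hlt : A.card < B.card := by omega
  obtain ⟨a, ha⟩ := hAne
  have hsub : (Y.erase v).erase w ⊆ Y :=
    (Finset.erase_subset _ _).trans (Finset.erase_subset _ _)
  have haY : a ∈ Y := hsub (hu ▸ Finset.mem_union_left _ ha)
  have hBY : B ⊆ Y := fun b hb => hsub (hu ▸ Finset.mem_union_right _ hb)
  have h3 : B.card ≤ dg h a Y :=
    (card_le_dg h a B (fun b hb => h1 a ha b hb)).trans (dg_mono h a hBY)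
  have h4 := hdeg a haY
  refine ⟨by omega, A, B, hd, hu, by omega, hlt, by omega, hsum, h1, h2⟩

end TSC
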