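import Pool.Agent.TSC.Targets

set_option autoImplicit false

open Classical

namespace TSC

theorem CFM_host {V : Type} (D : V → V → Prop) (hD0 : ∀ v, ¬ D v v) {u v w : V}
    (h : CTri D u v w) (T : Fin 3 → Fin 3 → Prop) (hT : Tour T) (hc : IsCyc T) :
    Host D {u, v, w} T := by
  obtain ⟨h1, h2, h3⟩ := h
  have huv : u ≠ v := by rintro rfl; exact hD0 _ h1
  have hvw : v ≠ w := by rintro rfl; exact hD0 _ h2
  have hwu : w ≠ u := by rintro rfl; exact hD0 _ h3
  rcases hc with ⟨t1, t2, t3⟩ | ⟨t1, t2, t3⟩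
  · have n1 : ¬ T 1 0 := (hT.2 0 1 (by decide)).1 t1
    have n2 : ¬ T 2 1 := (hT.2 1 2 (by decide)).1 t2
    have n3 : ¬ T 0 2 := (hT.2 2 0 (by decide)).1 t3
    refine ⟨![u, v, w], ?_, ?_, ?_⟩
    · intro a b hab
      fin_cases a <;> fin_cases b <;> simp_all
    · intro a
      fin_cases a <;> simp
    · intro a b hab
      fin_cases a <;> fin_cases b <;> simp_all [hT.1]
  · have n1 : ¬ T 2 0 := (hT.2 0 2 (by decide)).1 t1
    have n2 : ¬ T 1 2 := (hT.2 2 1 (by decide)).1 t2
    have n3 : ¬ T 0 1 := (hT.2 1 0 (by decide)).1 t3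
    refine ⟨![u, w, v], ?_, ?_, ?_⟩
    · intro a b hab
      fin_cases a <;> fin_cases b <;> simp_all
    · intro a
      fin_cases a <;> simp
    · intro a b hab
      fin_cases a <;> fin_cases b <;> simp_all [hT.1]

theorem CFM_card {V : Type} (D : V → V → Prop) (hD0 : ∀ v, ¬ D v v) {u v w : V}
    (h : CTri D u v w) : ({u, v, w} : Finset V).card = 3 := by
  obtain ⟨h1, h2, h3⟩ := h
  have huv : u ≠ v := by rintro rfl; exact hD0 _ h1
  have hvw : v ≠ w := by rintro rfl; exact hD0 _ h2
  have hwu : u ≠ w := by rintro rfl; exact hD0 _ h3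
  exact Finset.card_eq_three.2 ⟨u, v, w, huv, hwu, hvw, rfl⟩

theorem CFM_family {V : Type} (D : V → V → Prop) (hD0 : ∀ v, ¬ D v v) {S : Finset V}
    (hS : CFac D S) : ∃ m : ℕ, S.card = 3 * m ∧ ∃ A : Fin m → Finset V, (∀ i, (A i).card = 3) ∧
      (∀ i, A i ⊆ S) ∧ (∀ i j, i ≠ j → Disjoint (A i) (A j)) ∧
      ∀ i, ∀ T : Fin 3 → Fin 3 → Prop, Tour T → IsCyc T → Host D (A i) T := by
  induction hS with
  | empty =>
    exact ⟨0, by simp, fun i => ∅, fun i => i.elim0, fun i => i.elim0, fun i => i.elim0,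
      fun i => i.elim0⟩
  | add u v w S hC hd _ ih =>
    obtain ⟨m, hm, A, h1, h2, h3, h4⟩ := ih
    refine ⟨m + 1, ?_, Fin.cons {u, v, w} A, ?_, ?_, ?_, ?_⟩
    · rw [Finset.card_union_of_disjoint hd, CFM_card D hD0 hC, hm]
      ring
    · intro i
      refine Fin.cases ?_ (fun i => ?_) i
      · exact CFM_card D hD0 hC
      · exact h1 i
    · intro i
      refine Fin.cases ?_ (fun i => ?_) i
      · exact Finset.subset_union_left
      · exact (h2 i).trans Finset.subset_union_right
    · intro i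
      refine Fin.cases ?_ (fun i => ?_) i
      · intro j
        refine Fin.cases ?_ (fun j => ?_) j
        · intro h; exact absurd rfl h
        · intro _
          exact Finset.disjoint_of_subset_right (h2 j) hd
      · intro j
        refine Fin.cases ?_ (fun j => ?_) j
        · intro _
          exact (Finset.disjoint_of_subset_right (h2 i) hd).symm
        · intro hij
          exact h3 i j (fun e => hij (by rw [e]))
    · intro i
      refine Fin.cases ?_ (fun i => ?_) i
      · exact fun T hT hc => CFM_host D hD0 hC T hT hc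
      · exact h4 i

theorem CFM_union {V : Type} (D : V → V → Prop) {S S' : Finset V} (hS : CFac D S)
    (hS' : CFac D S') (hd : Disjoint S S') : CFac D (S ∪ S') := by
  induction hS with
  | empty => simpa using hS'
  | add u v w S hC hd' _ ih =>
    have h1 : Disjoint S S' := Finset.disjoint_of_subset_left Finset.subset_union_right hd
    have h2 : Disjoint {u, v, w} S' := Finset.disjoint_of_subset_left Finset.subset_union_left hd
    rw [Finset.union_assoc]
    exact CFac.add u v w (S ∪ S') hC (Finset.disjoint_union_right.2 ⟨hd', h2⟩) (ih h1)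

theorem CFM_good (h_HST : T_HST) {V : Type} (D : V → V → Prop) (hD0 : ∀ v, ¬ D v v)
    {A : Finset V} (hA : Good (hD D) A) : ∃ u v w, CTri D u v w ∧ A = {u, v, w} := by
  have hT : Tour (fun a b : Fin 3 => b = a + 1) := by
    constructor
    · intro a; revert a; decide
    · intro a b; revert a b; decide
  obtain ⟨f, hf, hfA, hfD⟩ := h_HST V D hD0 A hA _ hT
  have hC : CTri D (f 0) (f 1) (f 2) :=
    ⟨hfD 0 1 (by decide), hfD 1 2 (by decide), hfD 2 0 (by decide)⟩
  refine ⟨f 0, f 1, f 2, hC, ?_⟩
  symm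
  apply Finset.eq_of_subset_of_card_le
  · intro x hx
    simp only [Finset.mem_insert, Finset.mem_singleton] at hx
    rcases hx with rfl | rfl | rfl
    · exact hfA 0
    · exact hfA 1
    · exact hfA 2
  · rw [CFM_card D hD0 hC, hA.1]

theorem CFM_of_fac (h_HST : T_HST) {V : Type} (D : V → V → Prop) (hD0 : ∀ v, ¬ D v v)
    {S : Finset V} (hS : Fac (hD D) S) : CFac D S := by
  induction hS with
  | empty => exact CFac.empty
  | add T S hT hd _ ih =>
    obtain ⟨u, v, w, hC, rfl⟩ := CFM_good h_HST D hD0 hT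
    exact CFac.add u v w S hC hd ih

theorem CFM_rev {V : Type} (D : V → V → Prop) {S : Finset V}
    (hS : CFac (fun u v => D v u) S) : CFac D S := by
  induction hS with
  | empty => exact CFac.empty
  | add u v w S hC hd _ ih =>
    have e : ({u, v, w} : Finset V) = {w, v, u} := by
      ext x
      simp only [Finset.mem_insert, Finset.mem_singleton]
      tauto
    rw [e] at hd ⊢
    exact CFac.add w v u S ⟨hC.2.1, hC.1, hC.2.2⟩ hd ih

theorem p_CFM (h_HST : T_HST) : T_CFM := by
  refine ⟨?_, ?_, ?_, ?_⟩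
  · intro V D S m hD0 hS hm
    obtain ⟨m', hm', A, h1, h2, h3, h4⟩ := CFM_family D hD0 hS
    have : m' = m := by omega
    subst this
    exact ⟨A, h1, h2, h3, h4⟩
  · intro V D S hD0 hS
    exact CFM_of_fac h_HST D hD0 hS
  · intro V D S S' hS hS' hd
    exact CFM_union D hS hS' hd
  · intro V D S hS
    exact CFM_rev D hS

end TSC
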