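import Pool.Agent.TSC.Targets

set_option autoImplicit false

/-!
# T_CN: there is no cut vertex
-/

open Classical

namespace TSC

namespace CN_

variable {V : Type}

/-- The facts on a cut vertex. -/
theorem main {h : V → V → ℕ} {s r : ℕ} {S X Y : Finset V} (C : Ctx h s r S X Y)
    (hr : ∀ y ∈ Y, dg h y Y + 1 ≤ 2 * r) {c : V} (hc : c ∈ Y)
    {S1 S2 : Finset V} (hS1 : S1.Nonempty)
    (hun : S1 ∪ S2 = Y.erase c)
    (hac : ∀ u ∈ S1, ∀ v ∈ S2, 1 ≤ h u v) (he : S1.card = S2.card)
    (h2 : 2 * S1.card = 3 * r + 1)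
    (hnb : ∀ x ∈ X, ∀ v ∈ Y.erase c, ∀ w ∈ Y.erase c, v ≠ w →
      2 ≤ h x v + h x w + h v w) : False := by
  have hg := C.hg
  have o := C.opt
  have cX := C.cX
  have cY := C.cY
  have hY1 : (Y.erase c).card = 3 * r + 1 := by
    rw [Finset.card_erase_of_mem hc, cY]; rfl
  have s1 : S1 ⊆ Y := fun u hu => Finset.mem_of_mem_erase
    (hun ▸ Finset.mem_union_left S2 hu)
  have s2 : S2 ⊆ Y := fun u hu => Finset.mem_of_mem_erase
    (hun ▸ Finset.mem_union_right S1 hu)
  have hmem : ∀ u, u ∈ Y.erase c → u ∈ S1 ∨ u ∈ S2 := fun u hu =>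
    Finset.mem_union.1 (by rw [hun]; exact hu)
  -- degree into Y of the vertices outside c
  have hsig : ∀ u ∈ Y.erase c, S1.card ≤ dg h u Y := by
    intro u hu
    rcases hmem u hu with h1 | h1
    · calc S1.card = S2.card := he
        _ ≤ dg h u S2 := card_le_dg h u S2 (hac u h1)
        _ ≤ dg h u Y := dg_mono h u s2
    · calc S1.card ≤ dg h u S1 := card_le_dg h u S1
            (fun w hw => by rw [hg.symm]; exact hac w hw u h1)
        _ ≤ dg h u Y := dg_mono h u s1
  have hdX : ∀ u ∈ Y.erase c, dg h u X ≤ 2 * s + 2 * r + 1 - S1.card := by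
    intro u hu
    have h1 := hsig u hu
    have h3 := o.degs u (o.subY (Finset.mem_of_mem_erase hu))
    omega
  by_cases hex : ∃ x ∈ X, ∃ v ∈ Y.erase c, h x v = 0
  · -- the inequality (*)
    have key : ∀ x ∈ X, (∃ v ∈ Y.erase c, h x v = 0) → 4 * r + 1 ≤ dg h x (Y.erase c) := by
      rintro x hx ⟨v, hv, h0⟩
      have hcard : ((Y.erase c).erase v).card = 3 * r := by
        rw [Finset.card_erase_of_mem hv, hY1]; rfl
      have hp := pair_sum h x v ((Y.erase c).erase v) (by
        intro w hw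
        have hw1 := Finset.mem_of_mem_erase hw
        have hw2 : v ≠ w := fun e => (Finset.ne_of_mem_erase hw) e.symm
        have := hnb x hx v hv w hw1 hw2
        omega)
      rw [hcard] at hp
      have h3 : dg h x ((Y.erase c).erase v) ≤ dg h x (Y.erase c) :=
        dg_mono h x (Finset.erase_subset _ _)
      have h4 : dg h v ((Y.erase c).erase v) ≤ dg h v Y :=
        dg_mono h v ((Finset.erase_subset _ _).trans (Finset.erase_subset _ _))
      have h5 := hr v (Finset.mem_of_mem_erase hv)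
      omega
    obtain ⟨x, hx, hxv⟩ := hex
    have h6 := key x hx hxv
    have h7 := o.degs x (o.subX hx)
    have h8 : dg h x (Y.erase c) ≤ dg h x Y := dg_mono h x (Finset.erase_subset _ _)
    have hall : ∀ x' ∈ X, 3 * r + 1 ≤ dg h x' (Y.erase c) := by
      intro x' hx'
      by_cases hh : ∃ v ∈ Y.erase c, h x' v = 0
      · have := key x' hx' hh
        omega
      · push Not at hh
        have := card_le_dg h x' (Y.erase c) (fun u hu => Nat.one_le_iff_ne_zero.2 (hh u hu))
        omega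
    have h9 := mul_le_cr h X (Y.erase c) (3 * r + 1) hall
    have h10 := cr_le_mul h (Y.erase c) X (2 * s + 2 * r + 1 - S1.card) hdX
    rw [cr_symm hg X (Y.erase c), cX] at h9
    rw [hY1] at h10
    have h11 : (3 * r + 1) * (3 * s + 1) ≤ (3 * r + 1) * (2 * s + 2 * r + 1 - S1.card) := by
      calc (3 * r + 1) * (3 * s + 1) = (3 * s + 1) * (3 * r + 1) := Nat.mul_comm _ _
        _ ≤ _ := h9
        _ ≤ _ := h10
    have h12 := Nat.le_of_mul_le_mul_left h11 (Nat.succ_pos _)
    omega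
  · push Not at hex
    have hone : ∀ x ∈ X, ∀ v ∈ Y.erase c, 1 ≤ h x v := fun x hx v hv =>
      Nat.one_le_iff_ne_zero.2 (hex x hx v hv)
    obtain ⟨x, hx⟩ := o.hX
    obtain ⟨u, hu⟩ := hS1
    have hu' : u ∈ Y.erase c := hun ▸ Finset.mem_union_left S2 hu
    have h1 := card_le_dg h x (Y.erase c) (hone x hx)
    have h3 := o.degs x (o.subX hx)
    have h4 : dg h x (Y.erase c) ≤ dg h x Y := dg_mono h x (Finset.erase_subset _ _)
    have h5 := card_le_dg h u X (fun x' hx' => by rw [hg.symm]; exact hone x' hx' u hu')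
    have h6 := hdX u hu'
    omega

end CN_

theorem p_CN (h_SB : T_SB) (h_NB : T_NB) (h_CS : T_CS) (h_CB : T_CB) : T_CN := by
  intro V h s r S X Y C c hc hcut
  obtain ⟨-, hr⟩ := h_SB V h s r S X Y C
  have hcut' := hcut
  obtain ⟨S1, S2, n1, n2, hd, hun, hac⟩ := hcut'
  obtain ⟨he, h2, -, -⟩ := h_CS V h s r S X Y C c hc S1 S2 n1 n2 hd hun hac
  refine CN_.main C hr hc n1 hun hac he h2 ?_
  intro x hx v hv w hw hvw
  have hv' := Finset.mem_erase.1 hv
  have hw' := Finset.mem_erase.1 hw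
  exact h_NB V h s r S X Y C v hv'.2 w hw'.2 hvw
    (h_CB V h s r S X Y C c hc hcut v hv'.2 w hw'.2 hvw hv'.1 hw'.1) x hx

end TSC
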