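import Pool.Agent.TSC.Targets

set_option autoImplicit false

open Classical

namespace TSC

namespace CON_

variable {V : Type}

theorem not_both (h_DB : T_DB) (D : V → V → Prop) (k : ℕ) (S X Y : Finset V)
    (c : DCtx D k S X Y) (x : V) (hx : x ∈ X) : ¬ (Pos D Y x ∧ Neg D Y x) := by
  rintro ⟨hP, hN⟩
  obtain ⟨_, _, _, hY, _, _, hX1, _⟩ := h_DB V D k S X Y c
  obtain ⟨h1, h2, h3⟩ := hX1 x hx
  have h4 : 0 < (Y.filter (fun y => hD D x y ≤ 1)).card := by omega
  obtain ⟨y, hy⟩ := Finset.card_pos.1 h4
  obtain ⟨hy1, hy2⟩ := Finset.mem_filter.1 hy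
  have hxy : x ≠ y := by
    rintro rfl
    exact Finset.disjoint_left.1 c.disj hx hy1
  unfold hD at hy2
  rw [if_neg hxy, if_neg (hN y hy1), if_neg (hP y hy1)] at hy2
  omega

/-- The vertex outside which a predicate holding at most once fails. -/
theorem exists_z (X : Finset V) (hX : X.Nonempty) (p : V → Prop)
    (hc : (X.filter (fun x => p x)).card < 2) : ∃ z ∈ X, ∀ x ∈ X, x ≠ z → ¬ p x := by
  rcases Finset.eq_empty_or_nonempty (X.filter (fun x => p x)) with h0 | ⟨z, hz⟩
  · obtain ⟨z, hz⟩ := hX
    refine ⟨z, hz, fun x hx _ hp => ?_⟩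
    have : x ∈ X.filter (fun x => p x) := Finset.mem_filter.2 ⟨hx, hp⟩
    rw [h0] at this
    simp at this
  · refine ⟨z, (Finset.mem_filter.1 hz).1, fun x hx hxz hp => hxz ?_⟩
    have h1 : x ∈ X.filter (fun x => p x) := Finset.mem_filter.2 ⟨hx, hp⟩
    exact Finset.card_le_one.1 (by omega) x h1 z hz

end CON_

open CON_ in
theorem p_CON (h_DB : T_DB) : T_CON := by
  intro V D k S X Y c hS hW hPN
  obtain ⟨hk, hX, _, hY, _, _, _, _⟩ := h_DB V D k S X Y c
  have hXn : X.Nonempty := Finset.card_pos.1 (by omega)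
  have hYn : Y.Nonempty := Finset.card_pos.1 (by omega)
  have hXY : ∀ v : V, v ∈ X ∨ v ∈ Y := by
    intro v
    have := hS v
    rw [← c.union, Finset.mem_union] at this
    exact this
  have hd : ∀ v : V, v ∈ X → v ∈ Y → False := fun v h1 h2 => Finset.disjoint_left.1 c.disj h1 h2
  obtain ⟨y, hy⟩ := hYn
  refine ⟨?_, ?_, fun x hx => not_both h_DB D k S X Y c x hx⟩
  · by_contra hlt
    obtain ⟨z, hz, hz'⟩ := exists_z X hXn (fun x => Neg D Y x) (by omega)
    have hpos : 0 < (X.erase z).card := by
      rw [Finset.card_erase_of_mem hz]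
      omega
    obtain ⟨x', hx'⟩ := Finset.card_pos.1 hpos
    obtain ⟨hx1, hx2⟩ := Finset.mem_erase.1 hx'
    have hyz : y ≠ z := by
      rintro rfl
      exact hd y hz hy
    have hwalk := hW z y x' hyz hx1
    have key : ∀ b, Relation.ReflTransGen (fun a b => a ≠ z ∧ b ≠ z ∧ D a b) y b → b ∈ Y := by
      intro b hb
      induction hb with
      | refl => exact hy
      | @tail a b' _ hab ih =>
        obtain ⟨_, hbz, hDab⟩ := hab
        rcases hXY b' with hbX | hbY
        · exfalso
          rcases hPN b' hbX with hp | hn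
          · exact hp a ih hDab
          · exact hz' b' hbX hbz hn
        · exact hbY
    exact hd x' hx2 (key x' hwalk)
  · by_contra hlt
    obtain ⟨z, hz, hz'⟩ := exists_z X hXn (fun x => Pos D Y x) (by omega)
    have hpos : 0 < (X.erase z).card := by
      rw [Finset.card_erase_of_mem hz]
      omega
    obtain ⟨x', hx'⟩ := Finset.card_pos.1 hpos
    obtain ⟨hx1, hx2⟩ := Finset.mem_erase.1 hx'
    have hyz : y ≠ z := by
      rintro rfl
      exact hd y hz hy
    have hwalk := hW z x' y hx1 hyz
    have key : ∀ b, Relation.ReflTransGen (fun a b => a ≠ z ∧ b ≠ z ∧ D a b) x' b → b ∈ X := by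
      intro b hb
      induction hb with
      | refl => exact hx2
      | @tail a b' _ hab ih =>
        obtain ⟨haz, _, hDab⟩ := hab
        rcases hXY b' with hbX | hbY
        · exact hbX
        · exfalso
          rcases hPN a ih with hp | hn
          · exact hz' a ih haz hp
          · exact hn b' hbY hDab
    exact hd y (key y hwalk) hy

end TSC
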