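import Pool.Agent.TSC.Targets

set_option autoImplicit false

open Classical

namespace TSC

theorem CS_one {V : Type} (h : V → V → ℕ) (s r : ℕ) (S X Y : Finset V) (hc : Ctx h s r S X Y)
    (c : V) (cY : c ∈ Y) (A B : Finset V) (hd : Disjoint A B) (hu : A ∪ B = Y.erase c)
    (hj : ∀ u ∈ A, ∀ v ∈ B, 1 ≤ h u v) :
    2 * A.card * B.card + 6 * dg h c A ≤ 2 * A.card * A.card + A.card := by
  have hAY : A ⊆ Y := by
    intro x hx
    have : x ∈ Y.erase c := by rw [← hu]; exact Finset.mem_union_left _ hx
    exact Finset.mem_of_mem_erase this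
  have hcA : c ∉ A := by
    intro hx
    have : c ∈ Y.erase c := by rw [← hu]; exact Finset.mem_union_left _ hx
    simp at this
  have hcB : c ∉ B := by
    intro hx
    have : c ∈ Y.erase c := by rw [← hu]; exact Finset.mem_union_right _ hx
    simp at this
  have hYA : Y \ A = insert c B := by
    ext x
    constructor
    · intro hx
      rw [Finset.mem_sdiff] at hx
      by_cases hxc : x = c
      · rw [hxc]; exact Finset.mem_insert_self _ _
      · have : x ∈ A ∪ B := by rw [hu]; exact Finset.mem_erase.2 ⟨hxc, hx.1⟩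
        rcases Finset.mem_union.1 this with h1 | h1
        · exact absurd h1 hx.2
        · exact Finset.mem_insert_of_mem h1
    · intro hx
      rw [Finset.mem_sdiff]
      rcases Finset.mem_insert.1 hx with h1 | h1
      · rw [h1]; exact ⟨cY, hcA⟩
      · have : x ∈ Y.erase c := by rw [← hu]; exact Finset.mem_union_right _ h1
        exact ⟨Finset.mem_of_mem_erase this, fun hA => Finset.disjoint_left.1 hd hA h1⟩
  have h1 := hc.opt.starY A hAY
  rw [hYA, Finset.card_insert_of_notMem hcB] at h1
  have h2 : cr h A (insert c B) = dg h c A + cr h A B := by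
    rw [cr_symm hc.hg, cr_insert_left h A hcB, cr_symm hc.hg B A]
  have h3 := mul_card_le_cr h A B hj
  rw [h2] at h1
  nlinarith [Nat.zero_le (cr h A A)]

theorem p_CS : T_CS := by
  intro V h s r S X Y hc c cY S1 S2 hn1 hn2 hd hu hj
  have h1 := CS_one h s r S X Y hc c cY S1 S2 hd hu hj
  have h2 := CS_one h s r S X Y hc c cY S2 S1 hd.symm (by rw [Finset.union_comm]; exact hu)
    (fun u hu' v hv => by rw [hc.hg.symm]; exact hj v hv u hu')
  have hp1 : 0 < S1.card := Finset.card_pos.2 hn1
  have hp2 : 0 < S2.card := Finset.card_pos.2 hn2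
  have hs : S1.card + S2.card = 3 * r + 1 := by
    rw [← Finset.card_union_of_disjoint hd, hu, Finset.card_erase_of_mem cY, hc.cY]
    omega
  have hle1 : S2.card ≤ S1.card := by
    by_contra hlt
    push Not at hlt
    have : S1.card * (S1.card + 1) ≤ S1.card * S2.card := Nat.mul_le_mul_left _ hlt
    nlinarith
  have hle2 : S1.card ≤ S2.card := by
    by_contra hlt
    push Not at hlt
    have : S2.card * (S2.card + 1) ≤ S2.card * S1.card := Nat.mul_le_mul_left _ hlt
    nlinarith
  have he : S1.card = S2.card := le_antisymm hle2 hle1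
  refine ⟨he, by omega, ?_, ?_⟩
  · rw [he] at h1 ⊢
    have : 2 * S2.card * S2.card + 6 * dg h c S1 ≤ 2 * S2.card * S2.card + S2.card := h1
    omega
  · rw [he] at h2
    have : 2 * S2.card * S2.card + 6 * dg h c S2 ≤ 2 * S2.card * S2.card + S2.card := h2
    omega

end TSC
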