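import Pool.Agent.TSC.Targets

set_option autoImplicit false

open Classical

namespace TSC

/-- Target CYA. -/
theorem p_CYA (h_RX : TSC.T_RX) (h_RY : TSC.T_RY) (h_CFM : TSC.T_CFM) : TSC.T_CYA := by
  intro V D k S X Y hD hex
  obtain ⟨x, hx, y, hy, y', hy', hT⟩ := hex
  have hyy : y ≠ y' := by
    rintro rfl
    exact hD.loop y hT.2.1
  have hxY : x ∉ Y := Finset.disjoint_left.1 hD.disj hx
  have hyX : y ∉ X := Finset.disjoint_right.1 hD.disj hy
  have hyX' : y' ∉ X := Finset.disjoint_right.1 hD.disj hy'
  have F1 := h_CFM.2.1 V D _ hD.loop (h_RX V D k S X Y hD x hx)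
  have F2 := h_CFM.2.1 V D _ hD.loop (h_RY V D k S X Y hD y hy y' hy' hyy)
  have d1 : Disjoint (X.erase x) ((Y.erase y).erase y') := by
    rw [Finset.disjoint_left]
    intro a ha hb
    exact Finset.disjoint_left.1 hD.disj (Finset.mem_of_mem_erase ha)
      (Finset.mem_of_mem_erase (Finset.mem_of_mem_erase hb))
  have F3 := h_CFM.2.2.1 V D _ _ F1 F2 d1
  have d2 : Disjoint ({x, y, y'} : Finset V) (X.erase x ∪ (Y.erase y).erase y') := by
    rw [Finset.disjoint_left]
    intro a ha hb
    simp only [Finset.mem_insert, Finset.mem_singleton] at ha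
    simp only [Finset.mem_union, Finset.mem_erase] at hb
    rcases ha with rfl | rfl | rfl
    · rcases hb with hb | hb
      · exact hb.1 rfl
      · exact hxY hb.2.2
    · rcases hb with hb | hb
      · exact hyX hb.2
      · exact hb.2.1 rfl
    · rcases hb with hb | hb
      · exact hyX' hb.2
      · exact hb.1 rfl
  have key := CFac.add x y y' _ hT d2 F3
  have e : ({x, y, y'} : Finset V) ∪ (X.erase x ∪ (Y.erase y).erase y') = S := by
    rw [← hD.union]
    ext a
    simp only [Finset.mem_union, Finset.mem_insert, Finset.mem_singleton, Finset.mem_erase]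
    constructor
    · rintro ((rfl | rfl | rfl) | (⟨_, h⟩ | ⟨_, _, h⟩))
      · exact Or.inl hx
      · exact Or.inr hy
      · exact Or.inr hy'
      · exact Or.inl h
      · exact Or.inr h
    · rintro (h | h)
      · by_cases hax : a = x
        · exact Or.inl (Or.inl hax)
        · exact Or.inr (Or.inl ⟨hax, h⟩)
      · by_cases h1 : a = y
        · exact Or.inl (Or.inr (Or.inl h1))
        · by_cases h2 : a = y'
          · exact Or.inl (Or.inr (Or.inr h2))
          · exact Or.inr (Or.inr ⟨h2, h1, h⟩)
  rw [e] at key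
  exact key

end TSC
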