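import Pool.Agent.TSC.Targets

set_option autoImplicit false

/-!
# TSC: the target T_CYB (cyclic factor when no crossing triangle with one vertex of `X` exists)
-/

open Classical

namespace TSC

theorem CYB_card4 {V : Type} {u v c d : V} (huv : u ≠ v) (huc : u ≠ c) (hud : u ≠ d)
    (hvc : v ≠ c) (hvd : v ≠ d) (hcd : c ≠ d) : ({u, v, c, d} : Finset V).card = 4 := by
  rw [Finset.card_insert_of_notMem (by simp [huv, huc, hud]),
    Finset.card_insert_of_notMem (by simp [hvc, hvd]), Finset.card_pair hcd]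

theorem CYB_concl (hCFM : T_CFM) {V : Type} {D : V → V → Prop} {k : ℕ} {S X Y : Finset V}
    (hc : DCtx D k S X Y) (hnot : ∀ x ∈ X, ¬ (Pos D Y x ∧ Neg D Y x))
    {u v c d y y' : V} (hu : u ∈ X) (hv : v ∈ X) (hcX : c ∈ X) (hdX : d ∈ X)
    (hy : y ∈ Y) (hy' : y' ∈ Y) (hNu : Neg D Y u) (hNv : Neg D Y v) (hPc : Pos D Y c)
    (hPd : Pos D Y d) (huv : u ≠ v) (hcd : c ≠ d) (hyy : y ≠ y')
    (h1 : CTri D y u c) (h2 : CTri D y' v d) (hFX : Fac (hD D) (X \ {u, v, c, d}))
    (hFY : Fac (hD D) ((Y.erase y).erase y')) : CFac D S := by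
  obtain ⟨-, hC2, hC3, -⟩ := hCFM
  have huc : u ≠ c := by rintro rfl; exact hnot u hu ⟨hPc, hNu⟩
  have hud : u ≠ d := by rintro rfl; exact hnot u hu ⟨hPd, hNu⟩
  have hvc : v ≠ c := by rintro rfl; exact hnot v hv ⟨hPc, hNv⟩
  have hvd : v ≠ d := by rintro rfl; exact hnot v hv ⟨hPd, hNv⟩
  have hXY : ∀ w, w ∈ X → w ∈ Y → False := fun w h1 h2 =>
    Finset.disjoint_left.1 hc.disj h1 h2
  have hne : ∀ a b : V, a ∈ X → b ∈ Y → a ≠ b := by
    rintro a b ha hb rfl
    exact hXY a ha hb
  have d1 : Disjoint (X \ {u, v, c, d}) ((Y.erase y).erase y') := by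
    rw [Finset.disjoint_left]
    intro w hw hw'
    exact hXY w (Finset.mem_sdiff.1 hw).1 (Finset.mem_of_mem_erase (Finset.mem_of_mem_erase hw'))
  have f1 : CFac D ((X \ {u, v, c, d}) ∪ ((Y.erase y).erase y')) :=
    hC3 V D _ _ (hC2 V D _ hc.loop hFX) (hC2 V D _ hc.loop hFY) d1
  have f2 : CFac D ({y', v, d} ∪ ((X \ {u, v, c, d}) ∪ ((Y.erase y).erase y'))) := by
    refine CFac.add y' v d _ h2 ?_ f1
    rw [Finset.disjoint_left]
    intro w hw hw'
    simp only [Finset.mem_insert, Finset.mem_singleton, Finset.mem_union, Finset.mem_sdiff,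
      Finset.mem_erase] at hw hw'
    rcases hw with rfl | rfl | rfl
    · rcases hw' with h | h
      · exact hXY _ h.1 hy'
      · exact h.1 rfl
    · rcases hw' with h | h
      · exact h.2 (Or.inr (Or.inl rfl))
      · exact hXY _ hv h.2.2
    · rcases hw' with h | h
      · exact h.2 (Or.inr (Or.inr (Or.inr rfl)))
      · exact hXY _ hdX h.2.2
  have f3 : CFac D ({y, u, c} ∪
      ({y', v, d} ∪ ((X \ {u, v, c, d}) ∪ ((Y.erase y).erase y')))) := by
    refine CFac.add y u c _ h1 ?_ f2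
    rw [Finset.disjoint_left]
    intro w hw hw'
    simp only [Finset.mem_insert, Finset.mem_singleton, Finset.mem_union, Finset.mem_sdiff,
      Finset.mem_erase] at hw hw'
    rcases hw with rfl | rfl | rfl
    · rcases hw' with h | h | h
      · rcases h with h | h | h
        · exact hyy h
        · exact hne _ _ hv hy h.symm
        · exact hne _ _ hdX hy h.symm
      · exact hXY _ h.1 hy
      · exact h.2.1 rfl
    · rcases hw' with h | h | h
      · rcases h with h | h | h
        · exact hne _ _ hu hy' h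
        · exact huv h
        · exact hud h
      · exact h.2 (Or.inl rfl)
      · exact hXY _ hu h.2.2
    · rcases hw' with h | h | h
      · rcases h with h | h | h
        · exact hne _ _ hcX hy' h
        · exact hvc h.symm
        · exact hcd h
      · exact h.2 (Or.inr (Or.inr (Or.inl rfl)))
      · exact hXY _ hcX h.2.2
  have e : {y, u, c} ∪ ({y', v, d} ∪ ((X \ {u, v, c, d}) ∪ ((Y.erase y).erase y'))) = S := by
    rw [← hc.union]
    ext w
    simp only [Finset.mem_insert, Finset.mem_singleton, Finset.mem_union, Finset.mem_sdiff,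
      Finset.mem_erase]
    constructor
    · rintro ((rfl | rfl | rfl) | (rfl | rfl | rfl) | h | h)
      · exact Or.inr hy
      · exact Or.inl hu
      · exact Or.inl hcX
      · exact Or.inr hy'
      · exact Or.inl hv
      · exact Or.inl hdX
      · exact Or.inl h.1
      · exact Or.inr h.2.2
    · tauto
  rw [← e]
  exact f3

theorem p_CYB (h_DB : T_DB) (h_RY : T_RY) (h_TRI : T_TRI) (h_R4 : T_R4) (h_K4 : T_K4)
    (h_K7 : T_K7) (h_CFM : T_CFM) : T_CYB := by
  intro V D k S X Y hc hPN hnot hN2 hNP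
  obtain ⟨hk3, hX1, hX2, hY1, hY2, hXYc, hdX, hdY⟩ := h_DB V D k S X Y hc
  by_cases ha : X.card + 2 ≤ 2 * k
  · obtain ⟨u, hu, v, hv, huv⟩ := Finset.one_lt_card.1 (lt_of_lt_of_le Nat.one_lt_two hN2)
    rw [Finset.mem_filter] at hu hv
    obtain ⟨c, hcX, y, hy, hPc, -, -, ht1⟩ :=
      h_TRI V D k S X Y hc hPN hnot hNP u hu.1 hu.2 u u
    obtain ⟨d, hdX', y', hy', hPd, hdc, hyy, ht2⟩ :=
      h_TRI V D k S X Y hc hPN hnot hNP v hv.1 hv.2 c y
    have huc : u ≠ c := by rintro rfl; exact hnot u hu.1 ⟨hPc, hu.2⟩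
    have hud : u ≠ d := by rintro rfl; exact hnot u hu.1 ⟨hPd, hu.2⟩
    have hvc : v ≠ c := by rintro rfl; exact hnot v hv.1 ⟨hPc, hv.2⟩
    have hvd : v ≠ d := by rintro rfl; exact hnot v hv.1 ⟨hPd, hv.2⟩
    have hsub : ({u, v, c, d} : Finset V) ⊆ X := by
      intro w hw
      simp only [Finset.mem_insert, Finset.mem_singleton] at hw
      rcases hw with rfl | rfl | rfl | rfl
      · exact hu.1
      · exact hv.1
      · exact hcX
      · exact hdX'
    exact CYB_concl h_CFM hc hnot hu.1 hv.1 hcX hdX' hy hy' hu.2 hv.2 hPc hPd huv hdc.symm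
      hyy.symm ht1 ht2
      (h_R4 V D k S X Y hc ha _ hsub (CYB_card4 huv huc hud hvc hvd hdc.symm))
      (h_RY V D k S X Y hc y hy y' hy' hyy.symm)
  · have hXc : X.card + 1 = 2 * k := by omega
    have hmod := hc.cX
    obtain ⟨m, hm⟩ : ∃ m, k = 3 * m + 1 := ⟨k / 3, by omega⟩
    have hYc : Y.card = k + 1 := by omega
    -- every crossing weight is one
    have hone : ∀ x ∈ X, ∀ y ∈ Y, hD D x y = 1 := by
      intro x hx y hy
      have h1 := (hdY y hy).1
      have h2 := dg_erase (hD D) y hx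
      have h3 : (X.erase x).card ≤ dg (hD D) y (X.erase x) := by
        refine card_le_dg _ _ _ ?_
        intro w hw
        rw [(hD_hg D).symm]
        exact hc.bar w (Finset.mem_of_mem_erase hw) y hy
      have h4 := Finset.card_erase_of_mem hx
      have h5 := hc.bar x hx y hy
      have h6 : hD D x y = hD D y x := (hD_hg D).symm x y
      omega
    have hxy : ∀ x ∈ X, ∀ y ∈ Y, x ≠ y := by
      rintro x hx y hy rfl
      exact Finset.disjoint_left.1 hc.disj hx hy
    have hNin : ∀ x ∈ X, Neg D Y x → ∀ y ∈ Y, D y x := by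
      intro x hx hN y hy
      by_contra hcon
      have h1 := hone x hx y hy
      unfold hD at h1
      rw [if_neg (hxy x hx y hy), if_neg (hN y hy), if_neg hcon] at h1
      omega
    have hPout : ∀ x ∈ X, Pos D Y x → ∀ y ∈ Y, D x y := by
      intro x hx hP y hy
      by_contra hcon
      have h1 := hone x hx y hy
      unfold hD at h1
      rw [if_neg (hxy x hx y hy), if_neg (hP y hy), if_neg hcon] at h1
      omega
    have hheavy : ∀ a b : V, a ≠ b → hD D a b = 0 → D a b := by
      intro a b hab h0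
      by_contra hcon
      unfold hD at h0
      rw [if_neg hab, if_neg hcon] at h0
      split_ifs at h0
    have hdeg : ∀ x ∈ X, dg (hD D) x X + 2 ≤ k := by
      intro x hx
      have := hdX x hx
      omega
    have hdisj : Disjoint (X.filter (fun x => Pos D Y x)) (X.filter (fun x => Neg D Y x)) := by
      rw [Finset.disjoint_left]
      intro w hw hw'
      rw [Finset.mem_filter] at hw hw'
      exact hnot w hw.1 ⟨hw.2, hw'.2⟩
    have hun : X.filter (fun x => Pos D Y x) ∪ X.filter (fun x => Neg D Y x) = X := by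
      ext w
      rw [Finset.mem_union, Finset.mem_filter, Finset.mem_filter]
      constructor
      · rintro (h | h)
        · exact h.1
        · exact h.1
      · intro h
        rcases hPN w h with h' | h'
        · exact Or.inl ⟨h, h'⟩
        · exact Or.inr ⟨h, h'⟩
    have hkey : ∃ u ∈ X.filter (fun x => Neg D Y x), ∃ v ∈ X.filter (fun x => Neg D Y x),
        ∃ c ∈ X.filter (fun x => Pos D Y x), ∃ d ∈ X.filter (fun x => Pos D Y x),
        u ≠ v ∧ c ≠ d ∧ hD D u c = 0 ∧ hD D v d = 0 ∧ Fac (hD D) (X \ {u, v, c, d}) := by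
      by_cases hm1 : m = 1
      · obtain ⟨u, hu, v, hv, c, hc', d, hd', h1, h2, h3, h4, h5⟩ :=
          h_K4 V (hD D) X _ _ (hD_hg D) (by omega) hdisj hun hN2 hNP
            (fun x hx => by have := hdeg x hx; omega)
        exact ⟨u, hu, v, hv, c, hc', d, hd', h1, h2, h3, h4, h5.fac⟩
      · exact h_K7 V (hD D) m X _ _ (hD_hg D) (by omega) (by omega) hdisj hun hN2 hNP
          (fun x hx => by have := hdeg x hx; omega)
    obtain ⟨u, hu, v, hv, c, hc', d, hd', huv, hcd, huc, hvd, hF⟩ := hkey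
    rw [Finset.mem_filter] at hu hv hc' hd'
    have huc' : u ≠ c := by rintro rfl; exact hnot u hu.1 ⟨hc'.2, hu.2⟩
    have hvd' : v ≠ d := by rintro rfl; exact hnot v hv.1 ⟨hd'.2, hv.2⟩
    obtain ⟨y, hy, y', hy', hyy⟩ := Finset.one_lt_card.1 (show 1 < Y.card by omega)
    exact CYB_concl h_CFM hc hnot hu.1 hv.1 hc'.1 hd'.1 hy hy' hu.2 hv.2 hc'.2 hd'.2 huv hcd hyy
      ⟨hNin u hu.1 hu.2 y hy, hheavy u c huc' huc, hPout c hc'.1 hc'.2 y hy⟩
      ⟨hNin v hv.1 hv.2 y' hy', hheavy v d hvd' hvd, hPout d hd'.1 hd'.2 y' hy'⟩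
      hF (h_RY V D k S X Y hc y hy y' hy' hyy)

end TSC
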