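import Pool.Agent.TSC.Targets

set_option autoImplicit false

/-!
# TSC: the cyclic case
-/

open Classical

namespace TSC

namespace CYC_

variable {V : Type}

/-- The missing arcs do not depend on the directions. -/
theorem hD_rev (D : V → V → Prop) : hD (fun u v => D v u) = hD D := by
  funext u v
  unfold hD
  by_cases huv : u = v
  · rw [if_pos huv, if_pos huv]
  · rw [if_neg huv, if_neg huv, Nat.add_comm]

/-- The reversed context. -/
theorem ctx_rev {D : V → V → Prop} {k : ℕ} {S X Y : Finset V} (hc : DCtx D k S X Y) :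
    DCtx (fun u v => D v u) k S X Y where
  loop := hc.loop
  disj := hc.disj
  union := hc.union
  card := hc.card
  deg := by rw [hD_rev]; exact hc.deg
  cX := hc.cX
  cY := hc.cY
  bar := by rw [hD_rev]; exact hc.bar

end CYC_

open CYC_ in
theorem p_CYC (h_DIR : TSC.T_DIR) (h_CON : TSC.T_CON) (h_CYA : TSC.T_CYA) (h_CYB : TSC.T_CYB)
    (h_CFM : TSC.T_CFM) : TSC.T_CYC := by
  intro V D k S X Y hc hS hR
  by_cases hcr : ∃ x ∈ X, ∃ y ∈ Y, ∃ y' ∈ Y, CTri D x y y'
  · exact h_CYA V D k S X Y hc hcr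
  · have hcr' : ∀ x ∈ X, ∀ y ∈ Y, ∀ y' ∈ Y, ¬ CTri D x y y' :=
      fun x hx y hy y' hy' h => hcr ⟨x, hx, y, hy, y', hy', h⟩
    have hd := h_DIR V D k S X Y hc hcr'
    obtain ⟨hn, hp, hnp⟩ := h_CON V D k S X Y hc hS hR hd
    by_cases hle : (X.filter (fun x => Neg D Y x)).card ≤ (X.filter (fun x => Pos D Y x)).card
    · exact h_CYB V D k S X Y hc hd hnp hn hle
    · refine h_CFM.2.2.2 V D S ?_
      exact h_CYB V (fun u v => D v u) k S X Y (ctx_rev hc) (fun x hx => (hd x hx).symm)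
        (fun x hx h => hnp x hx ⟨h.2, h.1⟩) hp (not_le.mp hle).le

end TSC
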