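import Pool.Agent.TSC.Targets

set_option autoImplicit false

/-!
# TSC: two disjoint heavy crossing pairs (D2)
-/

open Classical

namespace TSC

theorem p_D2 (h_SB : T_SB) (h_D1 : T_D1) : T_D2 := by
  intro V h s r S X Y hc
  have hg := hc.hg
  obtain ⟨hr1, hSB⟩ := h_SB V h s r S X Y hc
  obtain ⟨h1, h2, -, hrs, hsr, hr2⟩ := h_D1 V h s r S X Y hc
  by_contra hcon
  have hno : ∀ x0 ∈ X, ∀ x1 ∈ X, ∀ y0 ∈ Y, ∀ y1 ∈ Y, x0 ≠ x1 → y0 ≠ y1 → h x0 y0 = 0 →
      h x1 y1 = 0 → False := by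
    intro x0 hx0 x1 hx1 y0 hy0 y1 hy1 hx hy e0 e1
    exact hcon ⟨x0, hx0, x1, hx1, y0, hy0, y1, hy1, hx, hy, e0, e1⟩
  obtain ⟨x0, hx0, y0, hy0, h00⟩ := hc.nb
  have hdy0 := hc.opt.degs y0 (hc.opt.subY hy0)
  have hcX := hc.cX
  have hcY := hc.cY
  by_cases hA : ∀ x ∈ X, ∀ y ∈ Y, h x y = 0 → x = x0
  · -- star at x0
    have h3 : (X.erase x0).card ≤ dg h y0 (X.erase x0) := by
      refine card_le_dg h y0 _ fun x hx => ?_
      rw [Finset.mem_erase] at hx
      rw [Nat.one_le_iff_ne_zero]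
      intro h0
      rw [hg.symm] at h0
      exact hx.1 (hA x hx.2 y0 hy0 h0)
    rw [Finset.card_erase_of_mem hx0] at h3
    have h4 := dg_mono h y0 (Finset.erase_subset x0 X)
    have h5 := (h2 x0 hx0 y0 hy0 h00).1
    have h6 := hc.opt.degs x0 (hc.opt.subX hx0)
    omega
  · push Not at hA
    obtain ⟨x1, hx1, y1, hy1, h11, hx10⟩ := hA
    have hy10 : y1 = y0 := by
      by_contra hne
      exact hno x0 hx0 x1 hx1 y0 hy0 y1 hy1 (Ne.symm hx10) (Ne.symm hne) h00 h11
    subst hy10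
    have hB : ∀ x ∈ X, ∀ y ∈ Y, h x y = 0 → y = y1 := by
      intro x hx y hy hxy
      by_contra hne
      by_cases hxx : x = x0
      · subst hxx
        exact hno x hx x1 hx1 y hy y1 hy1 (Ne.symm hx10) hne hxy h11
      · exact hno x hx x0 hx0 y hy y1 hy1 hxx hne hxy h00
    set N := X.filter (fun x => h x y1 = 0) with hN
    have hNX : N ⊆ X := Finset.filter_subset _ _
    have hcard : (X \ N).card + N.card = X.card := Finset.card_sdiff_add_card_eq_card hNX
    -- a heavy neighbour of y1 in Y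
    obtain ⟨y', hy', h1y'⟩ : ∃ y' ∈ Y.erase y1, h y1 y' = 0 := by
      refine exists_heavy h y1 _ ?_
      have h3 := dg_mono h y1 (Finset.erase_subset y1 Y)
      have h4 := hSB y1 hy1
      rw [Finset.card_erase_of_mem hy1]
      omega
    rw [Finset.mem_erase] at hy'
    obtain ⟨hy'1, hy'Y⟩ := hy'
    have h3 : 2 * N.card ≤ dg h y' N := by
      refine mul_card_le_dg h y' N 2 fun x hx => ?_
      rw [hN, Finset.mem_filter] at hx
      have h4 := h1 x hx.1 y1 hy1 y' hy'Y (Ne.symm hy'1)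
      rw [hx.2, h1y'] at h4
      rw [hg.symm]
      omega
    have h4 : (X \ N).card ≤ dg h y' (X \ N) := by
      refine card_le_dg h y' _ fun x hx => ?_
      rw [Finset.mem_sdiff] at hx
      rw [Nat.one_le_iff_ne_zero]
      intro h0
      rw [hg.symm] at h0
      exact hy'1 (hB x hx.1 y' hy'Y h0)
    have h5 := dg_sdiff h y' hNX
    have h6 := hc.opt.degs y' (hc.opt.subY hy'Y)
    have h7 : (X \ N).card ≤ dg h y1 (X \ N) := by
      refine card_le_dg h y1 _ fun x hx => ?_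
      rw [Finset.mem_sdiff] at hx
      rw [Nat.one_le_iff_ne_zero]
      intro h0
      rw [hg.symm] at h0
      exact hx.2 (by rw [hN, Finset.mem_filter]; exact ⟨hx.1, h0⟩)
    have h8 := dg_sdiff h y1 hNX
    have h9 := (h2 x0 hx0 y1 hy1 h00).1
    have h10 := hc.opt.degs x0 (hc.opt.subX hx0)
    omega

end TSC
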