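import Pool.Agent.TSC.Targets

set_option autoImplicit false

/-!
# TSC: D3, the final contradiction (MP_1b96da_co)
-/

open Classical

namespace TSC

namespace D3_

variable {V : Type}

/-- A heavy pair between `X` and `Y` can be completed to a good triple by a vertex of `X` outside a
given set of at most three vertices. -/
theorem pick {h : V → V → ℕ} {s r : ℕ} {S X Y : Finset V} (c : Ctx h s r S X Y)
    (hrs : r + 1 ≤ s) (hr2 : 2 ≤ r) {x y : V} (hx : x ∈ X) (hy : y ∈ Y)
    (hd : 6 * r + 2 ≤ dg h x Y + dg h y Y) (E : Finset V) (hE : E.card ≤ 3) :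
    ∃ w ∈ X, w ∉ E ∧ h x w + h y w ≤ 1 := by
  have o := c.opt
  have h1 := o.degs x (o.subX hx)
  have h2 := o.degs y (o.subY hy)
  have h3 : X.card ≤ (X \ E).card + E.card :=
    Finset.card_le_card_sdiff_add_card
  have h4 : dg h x (X \ E) ≤ dg h x X := dg_mono h x Finset.sdiff_subset
  have h5 : dg h y (X \ E) ≤ dg h y X := dg_mono h y Finset.sdiff_subset
  have h6 := c.cX
  obtain ⟨w, hw, h7⟩ := exists_pair h x y (X \ E) (by omega)
  rw [Finset.mem_sdiff] at hw
  exact ⟨w, hw.1, hw.2, h7⟩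

end D3_

theorem p_D3 (h_SB : T_SB) (h_NP : T_NP) (h_D1 : T_D1) (h_D2 : T_D2) : T_D3 := by
  intro V h s r S X Y c
  have hg := c.hg
  have o := c.opt
  have hcX := c.cX
  have hcY := c.cY
  obtain ⟨hr1, hsb⟩ := h_SB V h s r S X Y c
  obtain ⟨-, hD1b, hD1c, hrs, hsr, hr2⟩ := h_D1 V h s r S X Y c
  obtain ⟨x0, hx0, x1, hx1, y0, hy0, y1, hy1, hx01, hy01, e0, e1⟩ := h_D2 V h s r S X Y c
  have hXY : ∀ v, v ∈ X → v ∈ Y → False := fun v h1 h2 =>
    Finset.disjoint_left.1 o.disj h1 h2
  obtain ⟨z0, hz0, hz0E, hz0g⟩ := D3_.pick c hrs hr2 hx0 hy0 (hD1b x0 hx0 y0 hy0 e0).1 {x0, x1}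
    (Finset.card_le_two.trans (by norm_num))
  obtain ⟨z1, hz1, hz1E, hz1g⟩ := D3_.pick c hrs hr2 hx1 hy1 (hD1b x1 hx1 y1 hy1 e1).1
    {x0, x1, z0} Finset.card_le_three
  simp only [Finset.mem_insert, Finset.mem_singleton, not_or] at hz0E hz1E
  obtain ⟨a1, a2⟩ := hz0E
  obtain ⟨b1, b2, b3⟩ := hz1E
  have nx0 : x0 ≠ y0 := fun e => hXY x0 hx0 (e ▸ hy0)
  have nx1 : x1 ≠ y1 := fun e => hXY x1 hx1 (e ▸ hy1)
  have nz0 : z0 ≠ y0 := fun e => hXY z0 hz0 (e ▸ hy0)
  have nz1 : z1 ≠ y1 := fun e => hXY z1 hz1 (e ▸ hy1)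
  have g0 : Good h {x0, z0, y0} := by
    refine good_triple hg (Ne.symm a1) nx0 nz0 ?_
    rw [hg.symm z0 y0]
    omega
  have g1 : Good h {x1, z1, y1} := by
    refine good_triple hg (Ne.symm b2) nx1 nz1 ?_
    rw [hg.symm z1 y1]
    omega
  -- the rest of `X`
  have hP : ({x0, z0, x1, z1} : Finset V) ⊆ X := by
    intro v hv
    simp only [Finset.mem_insert, Finset.mem_singleton] at hv
    rcases hv with rfl | rfl | rfl | rfl <;> assumption
  have hPc : ({x0, z0, x1, z1} : Finset V).card = 4 := by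
    rw [Finset.card_insert_of_notMem, Finset.card_insert_of_notMem,
      Finset.card_insert_of_notMem, Finset.card_singleton]
    · simp only [Finset.mem_singleton]
      exact Ne.symm b2
    · simp only [Finset.mem_insert, Finset.mem_singleton, not_or]
      exact ⟨a2, Ne.symm b3⟩
    · simp only [Finset.mem_insert, Finset.mem_singleton, not_or]
      exact ⟨Ne.symm a1, hx01, Ne.symm b1⟩
  have hX'c : (X \ {x0, z0, x1, z1}).card = 3 * (s - 1) := by
    have := Finset.card_sdiff_add_card_eq_card hP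
    omega
  have hbound : ∀ v ∈ X, dg h v X + r + 2 ≤ 2 * s + 1 := by
    intro v hv
    have h1 := o.degs v (o.subX hv)
    have h2 := hD1c v hv
    omega
  have hFX : Fac h (X \ {x0, z0, x1, z1}) := by
    rcases c.ih (s - 1) (by omega) (X \ {x0, z0, x1, z1}) hX'c (fun v hv => by
      have h1 := hbound v (Finset.mem_sdiff.1 hv).1
      have h2 : dg h v (X \ {x0, z0, x1, z1}) ≤ dg h v X := dg_mono h v Finset.sdiff_subset
      omega) with hF | hB
    · exact hF
    · exfalso
      obtain ⟨A, B, hdAB, hun, hA3, hB3, hle, hAne, hab, hba⟩ :=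
        Bar.elim hg hB (hX'c ▸ Dvd.intro _ rfl)
      have hcard : A.card + B.card = 3 * (s - 1) := by
        rw [← Finset.card_union_of_disjoint hdAB, hun, hX'c]
      have hAX : A ⊆ X := fun v hv => (Finset.mem_sdiff.1 (hun ▸ Finset.mem_union_left B hv)).1
      have hBX : B ⊆ X := fun v hv => (Finset.mem_sdiff.1 (hun ▸ Finset.mem_union_right A hv)).1
      have hBne : B.Nonempty := by
        rw [Finset.nonempty_iff_ne_empty]
        rintro rfl
        simp at hB3
      obtain ⟨a, ha⟩ := hAne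
      obtain ⟨b, hb⟩ := hBne
      have h1 : B.card ≤ dg h a X :=
        (card_le_dg h a B (fun u hu => hab a ha u hu)).trans (dg_mono h a hBX)
      have h2 : A.card ≤ dg h b X :=
        (card_le_dg h b A (fun u hu => hba b hb u hu)).trans (dg_mono h b hAX)
      have h3 := hbound a (hAX ha)
      have h4 := hbound b (hBX hb)
      have h5 : s + 1 = 2 * r := by omega
      have h6 : A.card = 3 * (r - 1) := by omega
      exact hA3 ⟨r - 1, h6⟩
  -- the rest of `Y`
  have hY'c : ((Y.erase y0).erase y1).card = 3 * r := by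
    rw [Finset.card_erase_of_mem (Finset.mem_erase.2 ⟨Ne.symm hy01, hy1⟩),
      Finset.card_erase_of_mem hy0]
    omega
  have hY'sub : (Y.erase y0).erase y1 ⊆ Y :=
    (Finset.erase_subset _ _).trans (Finset.erase_subset _ _)
  have hFY : Fac h ((Y.erase y0).erase y1) := by
    rcases c.ih r (by omega) ((Y.erase y0).erase y1) hY'c (fun v hv => by
      have h1 := hsb v (hY'sub hv)
      have h2 : dg h v ((Y.erase y0).erase y1) ≤ dg h v Y := dg_mono h v hY'sub
      omega) with hF | hB
    · exact hF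
    · exact absurd hB (h_NP V h s r S X Y c y0 hy0 y1 hy1 hy01)
  -- assembly
  have d1 : Disjoint ({x0, z0, y0} : Finset V) {x1, z1, y1} := by
    rw [Finset.disjoint_left]
    intro v hv hw
    simp only [Finset.mem_insert, Finset.mem_singleton] at hv hw
    rcases hv with rfl | rfl | rfl <;> rcases hw with hw | hw | hw
    · exact hx01 hw
    · exact b1 hw.symm
    · exact hXY _ hx0 (hw ▸ hy1)
    · exact a2 hw
    · exact b3 hw.symm
    · exact hXY _ hz0 (hw ▸ hy1)
    · exact hXY _ hx1 (hw ▸ hy0)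
    · exact hXY _ hz1 (hw ▸ hy0)
    · exact hy01 hw
  have d2 : Disjoint (X \ {x0, z0, x1, z1}) ((Y.erase y0).erase y1) := by
    rw [Finset.disjoint_left]
    intro v hv hw
    exact hXY v (Finset.mem_sdiff.1 hv).1 (hY'sub hw)
  have d3 : Disjoint (({x0, z0, y0} : Finset V) ∪ {x1, z1, y1})
      (X \ {x0, z0, x1, z1} ∪ (Y.erase y0).erase y1) := by
    rw [Finset.disjoint_left]
    intro v hv hw
    simp only [Finset.mem_union, Finset.mem_insert, Finset.mem_singleton, Finset.mem_sdiff,
      Finset.mem_erase, not_or] at hv hw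
    rcases hw with ⟨hvX, n1, n2, n3, n4⟩ | ⟨n1, n2, hvY⟩
    · rcases hv with (e | e | e) | (e | e | e)
      · exact n1 e
      · exact n2 e
      · exact hXY v hvX (e ▸ hy0)
      · exact n3 e
      · exact n4 e
      · exact hXY v hvX (e ▸ hy1)
    · rcases hv with (e | e | e) | (e | e | e)
      · exact hXY v (e ▸ hx0) hvY
      · exact hXY v (e ▸ hz0) hvY
      · exact n2 e
      · exact hXY v (e ▸ hx1) hvY
      · exact hXY v (e ▸ hz1) hvY
      · exact n1 e
  have hS : (({x0, z0, y0} : Finset V) ∪ {x1, z1, y1}) ∪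
      (X \ {x0, z0, x1, z1} ∪ (Y.erase y0).erase y1) = S := by
    rw [← o.union]
    ext v
    simp only [Finset.mem_union, Finset.mem_insert, Finset.mem_singleton, Finset.mem_sdiff,
      Finset.mem_erase, not_or]
    constructor
    · rintro (((rfl | rfl | rfl) | (rfl | rfl | rfl)) | (⟨hvX, _⟩ | ⟨_, _, hvY⟩))
      · exact Or.inl hx0
      · exact Or.inl hz0
      · exact Or.inr hy0
      · exact Or.inl hx1
      · exact Or.inl hz1
      · exact Or.inr hy1
      · exact Or.inl hvX
      · exact Or.inr hvY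
    · rintro (hvX | hvY)
      · by_cases n1 : v = x0
        · exact Or.inl (Or.inl (Or.inl n1))
        by_cases n2 : v = z0
        · exact Or.inl (Or.inl (Or.inr (Or.inl n2)))
        by_cases n3 : v = x1
        · exact Or.inl (Or.inr (Or.inl n3))
        by_cases n4 : v = z1
        · exact Or.inl (Or.inr (Or.inr (Or.inl n4)))
        exact Or.inr (Or.inl ⟨hvX, n1, n2, n3, n4⟩)
      · by_cases n1 : v = y0
        · exact Or.inl (Or.inl (Or.inr (Or.inr n1)))
        by_cases n2 : v = y1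
        · exact Or.inl (Or.inr (Or.inr (Or.inr n2)))
        exact Or.inr (Or.inr ⟨n2, n1, hvY⟩)
  apply c.nf
  rw [← hS]
  exact (g0.fac.union g1.fac d1).union (hFX.union hFY d2) d3

end TSC
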