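import Pool.Agent.TSC.Targets

set_option autoImplicit false

/-!
# TSC: at most two bad pairs at a vertex
-/

open Classical

namespace TSC

namespace DV_

variable {V : Type} {h : V → V → ℕ} {Y : Finset V} {v : V} {r : ℕ}

/-- A partition of `Y` minus `{v, w}` without heavy pairs. -/
structure Pt (h : V → V → ℕ) (Y : Finset V) (v : V) (r : ℕ) (w : V) (A B : Finset V) : Prop where
  disj : Disjoint A B
  un : A ∪ B = (Y.erase v).erase w
  ca : r + 1 ≤ A.card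
  cb : r + 1 ≤ B.card
  ab : ∀ a ∈ A, ∀ b ∈ B, 1 ≤ h a b
  ba : ∀ b ∈ B, ∀ a ∈ A, 1 ≤ h b a

theorem Pt.swap {w : V} {A B : Finset V} (p : Pt h Y v r w A B) : Pt h Y v r w B A :=
  ⟨p.disj.symm, by rw [Finset.union_comm]; exact p.un, p.cb, p.ca, p.ba, p.ab⟩

theorem Pt.memB {w : V} {A B : Finset V} (p : Pt h Y v r w A B) {z : V} (hz : z ∈ B) :
    z ≠ w ∧ z ≠ v ∧ z ∈ Y := by
  have h1 : z ∈ A ∪ B := Finset.mem_union_right _ hz
  rw [p.un, Finset.mem_erase, Finset.mem_erase] at h1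
  exact h1

theorem Pt.mem {w : V} {A B : Finset V} (p : Pt h Y v r w A B) {z : V} (h1 : z ≠ w) (h2 : z ≠ v)
    (h3 : z ∈ Y) : z ∈ A ∨ z ∈ B := by
  have h4 : z ∈ A ∪ B := by
    rw [p.un, Finset.mem_erase, Finset.mem_erase]
    exact ⟨h1, h2, h3⟩
  exact Finset.mem_union.1 h4

theorem claim1 (hc : ¬ CutV h Y v) {w w' : V} {A B A' B' : Finset V}
    (hw : w ∈ Y) (hwv : w ≠ v) (p : Pt h Y v r w A B) (p' : Pt h Y v r w' A' B')
    (h1 : w' ∈ A) (h2 : w ∈ A') : Disjoint B B' := by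
  rw [Finset.disjoint_left]
  intro u hu hu'
  apply hc
  refine ⟨B ∩ B', (Y.erase v) \ (B ∩ B'), ⟨u, Finset.mem_inter.2 ⟨hu, hu'⟩⟩, ⟨w, ?_⟩,
    Finset.disjoint_sdiff, ?_, ?_⟩
  · rw [Finset.mem_sdiff, Finset.mem_erase, Finset.mem_inter]
    exact ⟨⟨hwv, hw⟩, fun h3 => (p.memB h3.1).1 rfl⟩
  · apply Finset.union_sdiff_of_subset
    intro z hz
    have h3 := p.memB (Finset.mem_inter.1 hz).1
    exact Finset.mem_erase.2 ⟨h3.2.1, h3.2.2⟩
  · intro x hx z hz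
    rw [Finset.mem_inter] at hx
    rw [Finset.mem_sdiff, Finset.mem_erase, Finset.mem_inter, not_and_or] at hz
    obtain ⟨⟨hzv, hzY⟩, hz | hz⟩ := hz
    · by_cases hzw : z = w
      · subst hzw
        exact p'.ba x hx.2 z h2
      · rcases p.mem hzw hzv hzY with h3 | h3
        · exact p.ba x hx.1 z h3
        · exact absurd h3 hz
    · by_cases hzw : z = w'
      · subst hzw
        exact p.ba x hx.1 z h1
      · rcases p'.mem hzw hzv hzY with h3 | h3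
        · exact p'.ba x hx.2 z h3
        · exact absurd h3 hz

/-- The partition may be chosen with a given vertex in the first part. -/
theorem Pt.choose {w : V} {A B : Finset V} (p : Pt h Y v r w A B) {z : V} (h1 : z ≠ w)
    (h2 : z ≠ v) (h3 : z ∈ Y) : ∃ A' B', Pt h Y v r w A' B' ∧ z ∈ A' := by
  rcases p.mem h1 h2 h3 with h4 | h4
  · exact ⟨A, B, p, h4⟩
  · exact ⟨B, A, p.swap, h4⟩

theorem claim2 (hc : ¬ CutV h Y v) {w1 w2 w3 : V} {A1 B1 A2 B2 A3 B3 : Finset V}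
    (h1 : w1 ∈ Y) (hv1 : w1 ≠ v) (hdeg : dg h w1 Y + 1 ≤ 2 * r)
    (h12 : w1 ≠ w2) (h13 : w1 ≠ w3)
    (p1 : Pt h Y v r w1 A1 B1) (p2 : Pt h Y v r w2 A2 B2) (p3 : Pt h Y v r w3 A3 B3)
    (m2 : w2 ∈ A1) (m3 : w3 ∈ B1) : False := by
  obtain ⟨A2, B2, p2, k2⟩ := p2.choose h12 hv1 h1
  obtain ⟨A3, B3, p3, k3⟩ := p3.choose h13 hv1 h1
  have d2 := claim1 hc h1 hv1 p1 p2 m2 k2
  have d3 := claim1 hc h1 hv1 p1.swap p3 m3 k3
  have s2 : B2 ⊆ A1 := by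
    intro z hz
    have h4 := p2.memB hz
    have h5 : z ≠ w1 := by
      rintro rfl
      exact Finset.disjoint_left.1 p2.disj k2 hz
    rcases p1.mem h5 h4.2.1 h4.2.2 with h6 | h6
    · exact h6
    · exact absurd hz (Finset.disjoint_left.1 d2 h6)
  have s3 : B3 ⊆ B1 := by
    intro z hz
    have h4 := p3.memB hz
    have h5 : z ≠ w1 := by
      rintro rfl
      exact Finset.disjoint_left.1 p3.disj k3 hz
    rcases p1.mem h5 h4.2.1 h4.2.2 with h6 | h6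
    · exact absurd hz (Finset.disjoint_left.1 d3 h6)
    · exact h6
  have hd : Disjoint B2 B3 := Finset.disjoint_of_subset_left s2
    (Finset.disjoint_of_subset_right s3 p1.disj)
  have h4 := card_le_dg h w1 B2 (fun u hu => p2.ab w1 k2 u hu)
  have h5 := card_le_dg h w1 B3 (fun u hu => p3.ab w1 k3 u hu)
  have h6 : B2 ∪ B3 ⊆ Y := by
    intro z hz
    rcases Finset.mem_union.1 hz with h7 | h7
    · exact (p2.memB h7).2.2
    · exact (p3.memB h7).2.2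
  have h7 := dg_mono h w1 h6
  rw [dg_union h w1 hd] at h7
  have h8 := p2.cb
  have h9 := p3.cb
  omega

/-- Both other vertices may be taken in the first part. -/
theorem Pt.choose2 (hc : ¬ CutV h Y v) {w1 w2 w3 : V} {A1 B1 A2 B2 A3 B3 : Finset V}
    (h1 : w1 ∈ Y) (h2 : w2 ∈ Y) (h3 : w3 ∈ Y) (hv1 : w1 ≠ v) (hv2 : w2 ≠ v) (hv3 : w3 ≠ v)
    (hdeg : dg h w1 Y + 1 ≤ 2 * r) (h12 : w1 ≠ w2) (h13 : w1 ≠ w3)
    (p1 : Pt h Y v r w1 A1 B1) (p2 : Pt h Y v r w2 A2 B2) (p3 : Pt h Y v r w3 A3 B3) :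
    ∃ A B, Pt h Y v r w1 A B ∧ w2 ∈ A ∧ w3 ∈ A := by
  obtain ⟨A, B, p, k2⟩ := p1.choose (Ne.symm h12) hv2 h2
  rcases p.mem (Ne.symm h13) hv3 h3 with k3 | k3
  · exact ⟨A, B, p, k2, k3⟩
  · exact (claim2 hc h1 hv1 hdeg h12 h13 p p2 p3 k2 k3).elim

theorem Pt.sub {w1 w2 w3 : V} {A B : Finset V} (p : Pt h Y v r w1 A B) (h2 : w2 ∈ A)
    (h3 : w3 ∈ A) {z : V} (hz : z ∈ B) : z ∈ Y ∧ z ≠ v ∧ z ≠ w1 ∧ z ≠ w2 ∧ z ≠ w3 := by
  have h4 := p.memB hz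
  refine ⟨h4.2.2, h4.2.1, h4.1, ?_, ?_⟩
  · rintro rfl
    exact Finset.disjoint_left.1 p.disj h2 hz
  · rintro rfl
    exact Finset.disjoint_left.1 p.disj h3 hz

end DV_

open DV_

theorem p_DV (h_SB : T_SB) (h_BS : T_BS) (h_CN : T_CN) : T_DV := by
  intro V h s r S X Y c v hv
  by_contra hcon
  obtain ⟨w1, m1, w2, m2, w3, m3, h12, h13, h23⟩ := Finset.two_lt_card.1 (not_le.1 hcon)
  rw [Finset.mem_filter] at m1 m2 m3
  obtain ⟨y1, n1, b1⟩ := m1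
  obtain ⟨y2, n2, b2⟩ := m2
  obtain ⟨y3, n3, b3⟩ := m3
  have hcut : ¬ CutV h Y v := h_CN V h s r S X Y c v hv
  have hdeg := (h_SB V h s r S X Y c).2
  have mk : ∀ w ∈ Y, w ≠ v → BP h Y v w → ∃ A B, Pt h Y v r w A B := by
    intro w hw hwv hb
    obtain ⟨-, A, B, q1, q2, q3, q4, q5, q6, q7, q8⟩ :=
      h_BS V h s r S X Y c v hv w hw (Ne.symm hwv) hb
    exact ⟨A, B, q1, q2, q3, by omega, q7, q8⟩
  obtain ⟨_, _, p1⟩ := mk w1 y1 n1 b1
  obtain ⟨_, _, p2⟩ := mk w2 y2 n2 b2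
  obtain ⟨_, _, p3⟩ := mk w3 y3 n3 b3
  obtain ⟨A1, B1, q1, k12, k13⟩ := Pt.choose2 hcut y1 y2 y3 n1 n2 n3 (hdeg w1 y1) h12 h13 p1 p2 p3
  obtain ⟨A2, B2, q2, k21, k23⟩ := Pt.choose2 hcut y2 y1 y3 n2 n1 n3 (hdeg w2 y2) (Ne.symm h12)
    h23 p2 p1 p3
  obtain ⟨A3, B3, q3, k31, k32⟩ := Pt.choose2 hcut y3 y1 y2 n3 n1 n2 (hdeg w3 y3) (Ne.symm h13)
    (Ne.symm h23) p3 p1 p2
  have d12 := claim1 hcut y1 n1 q1 q2 k12 k21
  have d13 := claim1 hcut y1 n1 q1 q3 k13 k31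
  have d23 := claim1 hcut y2 n2 q2 q3 k23 k32
  have hsub : (B1 ∪ B2) ∪ B3 ⊆ (((Y.erase v).erase w1).erase w2).erase w3 := by
    intro z hz
    simp only [Finset.mem_erase]
    rcases Finset.mem_union.1 hz with hz | hz
    · rcases Finset.mem_union.1 hz with hz | hz
      · obtain ⟨a1, a2, a3, a4, a5⟩ := q1.sub k12 k13 hz
        exact ⟨a5, a4, a3, a2, a1⟩
      · obtain ⟨a1, a2, a3, a4, a5⟩ := q2.sub k21 k23 hz
        exact ⟨a5, a3, a4, a2, a1⟩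
    · obtain ⟨a1, a2, a3, a4, a5⟩ := q3.sub k31 k32 hz
      exact ⟨a3, a5, a4, a2, a1⟩
  have hcard := Finset.card_le_card hsub
  rw [Finset.card_union_of_disjoint (Finset.disjoint_union_left.2 ⟨d13, d23⟩),
    Finset.card_union_of_disjoint d12] at hcard
  rw [Finset.card_erase_of_mem (by simp [*, Ne.symm h13, Ne.symm h23]),
    Finset.card_erase_of_mem (by simp [*, Ne.symm h12]),
    Finset.card_erase_of_mem (by simp [*]), Finset.card_erase_of_mem hv, c.cY] at hcard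
  have e1 := q1.cb
  have e2 := q2.cb
  have e3 := q3.cb
  omega

end TSC
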