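import Pool.Agent.TSC.Targets

set_option autoImplicit false

open Classical

namespace TSC

variable {V : Type}

/-- The optimality inequality for a single vertex. -/
theorem F_single {h : V → V → ℕ} (hg : HG h) {X : Finset V}
    (star : ∀ A ⊆ X, 3 * cr h A A + 6 * cr h A (X \ A) + 3 * A.card ≤
      2 * A.card * A.card + 4 * A.card * (X \ A).card) {x : V} (hx : x ∈ X) :
    6 * dg h x X + 5 ≤ 4 * X.card := by
  have hs : ({x} : Finset V) ⊆ X := Finset.singleton_subset_iff.2 hx
  have h1 := star {x} hs
  have h2 := dg_sdiff h x hs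
  have h3 := Finset.card_sdiff_add_card_eq_card hs
  rw [dg_singleton, hg.irr] at h2
  rw [cr_singleton_left, cr_singleton_left, dg_singleton, hg.irr, Finset.card_singleton] at h1
  rw [Finset.card_singleton] at h3
  omega

theorem p_F : T_F := by
  intro V h s r S X Y c
  obtain ⟨x0, hx0⟩ := c.opt.hX
  have h0 := F_single c.hg c.opt.starX hx0
  have cX := c.cX
  have cY := c.cY
  refine ⟨by omega, fun x hx => ?_, fun y hy => ?_⟩
  · have := F_single c.hg c.opt.starX hx
    omega
  · have := F_single c.hg c.opt.starY hy
    omega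

end TSC
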