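import Pool.Agent.TSC.Targets

set_option autoImplicit false

open Classical

namespace TSC

namespace FAM_

variable {V : Type} {h : V → V → ℕ}

theorem card_mod {S : Finset V} (hS : Fac h S) : ∃ m, S.card = 3 * m := by
  induction hS with
  | empty => exact ⟨0, rfl⟩
  | add T S hT hd _ ih =>
    obtain ⟨m, hm⟩ := ih
    refine ⟨m + 1, ?_⟩
    rw [Finset.card_union_of_disjoint hd, hT.1, hm]
    ring

theorem main {S : Finset V} (hS : Fac h S) : ∀ m : ℕ, S.card = 3 * m →
    ∃ A : Fin m → Finset V, (∀ i, Good h (A i)) ∧ (∀ i, A i ⊆ S) ∧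
      ∀ i j, i ≠ j → Disjoint (A i) (A j) := by
  induction hS with
  | empty =>
    intro m hm
    have h0 : m = 0 := by
      rw [Finset.card_empty] at hm
      omega
    subst h0
    exact ⟨fun i => i.elim0, fun i => i.elim0, fun i => i.elim0, fun i => i.elim0⟩
  | add T S hT hd _ ih =>
    intro m hm
    rw [Finset.card_union_of_disjoint hd, hT.1] at hm
    obtain ⟨m', rfl⟩ : ∃ m', m = m' + 1 := ⟨m - 1, by omega⟩
    obtain ⟨A, h1, h2, h3⟩ := ih m' (by omega)
    refine ⟨Fin.cons T A, ?_, ?_, ?_⟩
    · intro i
      refine Fin.cases ?_ (fun j => ?_) i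
      · simpa using hT
      · simpa using h1 j
    · intro i
      refine Fin.cases ?_ (fun j => ?_) i
      · simp
      · rw [Fin.cons_succ]
        exact (h2 j).trans Finset.subset_union_right
    · intro i
      refine Fin.cases ?_ (fun i' => ?_) i
      · intro j
        refine Fin.cases ?_ (fun j' => ?_) j
        · intro hne
          exact absurd rfl hne
        · intro _
          rw [Fin.cons_zero, Fin.cons_succ]
          exact Finset.disjoint_of_subset_right (h2 j') hd
      · intro j
        refine Fin.cases ?_ (fun j' => ?_) j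
        · intro _
          rw [Fin.cons_zero, Fin.cons_succ]
          exact (Finset.disjoint_of_subset_right (h2 i') hd).symm
        · intro hne
          rw [Fin.cons_succ, Fin.cons_succ]
          exact h3 i' j' (fun he => hne (by rw [he]))

end FAM_

theorem p_FAM : T_FAM := fun _ _ _ m hS hm => FAM_.main hS m hm

end TSC
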