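import Pool.Agent.TSC.Targets

set_option autoImplicit false

open Classical

namespace TSC

theorem FIN_assemble {V : Type} (D : V → V → Prop) (k : ℕ) (A : Fin k → Finset V)
    (T : Fin k → Fin 3 → Fin 3 → Prop) (hd : ∀ i j, i ≠ j → Disjoint (A i) (A j))
    (hh : ∀ i, Host D (A i) (T i)) :
    ∃ f : Fin k × Fin 3 → V, Function.Injective f ∧
      ∀ i a b, T i a b → D (f (i, a)) (f (i, b)) := by
  choose g hinj hmem harc using hh
  refine ⟨fun z => g z.1 z.2, ?_, fun i a b hab => harc i a b hab⟩
  rintro ⟨i, a⟩ ⟨j, b⟩ hab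
  have hab' : g i a = g j b := hab
  by_cases hij : i = j
  · subst hij
    rw [hinj i hab']
  · exact absurd (hab' ▸ hmem j b) (fun hm =>
      (Finset.disjoint_left.1 (hd i j hij) (hmem i a)) (hab' ▸ hmem j b))

theorem FIN_deg {V : Type} [Fintype V] (D : V → V → Prop) (k : ℕ) (hl : ∀ v, ¬ D v v)
    (hc : Fintype.card V = 3 * k)
    (hdeg : ∀ v : V, 4 * k ≤ (Finset.univ.filter (fun w => D v w)).card +
      (Finset.univ.filter (fun w => D w v)).card + 1) (v : V) :
    dg (hD D) v Finset.univ + 1 ≤ 2 * k := by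
  have h1 : dg (hD D) v Finset.univ + ((Finset.univ.filter (fun w => D v w)).card +
      (Finset.univ.filter (fun w => D w v)).card) + 2 = 2 * Fintype.card V := by
    rw [Finset.card_filter, Finset.card_filter, dg, ← Finset.sum_add_distrib,
      ← Finset.sum_add_distrib]
    have h2 : ∀ w ∈ (Finset.univ : Finset V).erase v,
        hD D v w + ((if D v w then 1 else 0) + (if D w v then 1 else 0)) = 2 := by
      intro w hw
      have hne : v ≠ w := (Finset.ne_of_mem_erase hw).symm
      unfold hD
      rw [if_neg hne]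
      split_ifs <;> rfl
    have h3 : hD D v v + ((if D v v then 1 else 0) + (if D v v then 1 else 0)) = 0 := by
      unfold hD
      simp [hl v]
    rw [← Finset.sum_erase_add _ _ (Finset.mem_univ v), h3, Finset.sum_congr rfl h2]
    rw [Finset.sum_const, Finset.card_erase_of_mem (Finset.mem_univ v), Finset.card_univ]
    have hpos : 0 < Fintype.card V := Fintype.card_pos_iff.2 ⟨v⟩
    simp only [smul_eq_mul]
    omega
  have := hdeg v
  omega

theorem FIN_main (h_FAM : T_FAM) (h_HST : T_HST) (h_CFM : T_CFM) (h_RX : T_RX) (h_RY : T_RY)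
    (h_TR : T_TR) (h_CYC : T_CYC) (V : Type) [Fintype V] (D : V → V → Prop) (k : ℕ)
    (hc : Fintype.card V = 3 * k)
    (hconn : ∀ x u v : V, u ≠ x → v ≠ x →
      Relation.ReflTransGen (fun a b => a ≠ x ∧ b ≠ x ∧ D a b) u v)
    (X Y : Finset V) (ctx : DCtx D k Finset.univ X Y)
    (T : Fin k → Fin 3 → Fin 3 → Prop) (hT : ∀ i, Tour (T i)) :
    ∃ f : Fin k × Fin 3 → V, Function.Injective f ∧
      ∀ i a b, T i a b → D (f (i, a)) (f (i, b)) := by
  by_cases hcyc : ∀ i, IsCyc (T i)
  · have hF := h_CYC V D k Finset.univ X Y ctx (fun v => Finset.mem_univ v) hconn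
    obtain ⟨A, -, -, hdis, hho⟩ := h_CFM.1 V D Finset.univ k ctx.loop hF
      (by rw [Finset.card_univ, hc])
    exact FIN_assemble D k A T hdis (fun i => hho i (T i) (hT i) (hcyc i))
  · push Not at hcyc
    obtain ⟨i0, hi0⟩ := hcyc
    obtain ⟨x, hx, y, hy, y', hy', hne, hho⟩ := h_TR V D k Finset.univ X Y ctx
    have hFX := h_RX V D k Finset.univ X Y ctx x hx
    have hFY := h_RY V D k Finset.univ X Y ctx y hy y' hy' hne
    have hdXY : Disjoint (X.erase x) ((Y.erase y).erase y') :=
      Finset.disjoint_of_subset_left (Finset.erase_subset _ _)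
        (Finset.disjoint_of_subset_right
          ((Finset.erase_subset _ _).trans (Finset.erase_subset _ _)) ctx.disj)
    have hF := hFX.union hFY hdXY
    have hXY : X.card + Y.card = 3 * k := by
      rw [← Finset.card_union_of_disjoint ctx.disj, ctx.union, ctx.card]
    cases k with
    | zero => exact i0.elim0
    | succ n =>
      have hcard : (X.erase x ∪ (Y.erase y).erase y').card = 3 * n := by
        rw [Finset.card_union_of_disjoint hdXY, Finset.card_erase_of_mem hx,
          Finset.card_erase_of_mem (Finset.mem_erase.2 ⟨hne.symm, hy'⟩),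
          Finset.card_erase_of_mem hy]
        have h1 : 0 < X.card := Finset.card_pos.2 ⟨x, hx⟩
        have h2 : 1 < Y.card := Finset.one_lt_card.2 ⟨y, hy, y', hy', hne⟩
        omega
      obtain ⟨A, hgood, hsub, hdis⟩ := h_FAM V (hD D) _ n hF hcard
      have hdis0 : ∀ j, Disjoint ({x, y, y'} : Finset V) (A j) := by
        intro j
        rw [Finset.disjoint_left]
        intro z hz hzA
        have hz' := hsub j hzA
        simp only [Finset.mem_insert, Finset.mem_singleton] at hz
        simp only [Finset.mem_union, Finset.mem_erase] at hz'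
        have hdd := ctx.disj
        rcases hz with rfl | rfl | rfl
        · rcases hz' with h | h
          · exact h.1 rfl
          · exact Finset.disjoint_left.1 hdd hx h.2.2
        · rcases hz' with h | h
          · exact Finset.disjoint_left.1 hdd h.2 hy
          · exact h.2.1 rfl
        · rcases hz' with h | h
          · exact Finset.disjoint_left.1 hdd h.2 hy'
          · exact h.1 rfl
      let B : Fin (n + 1) → Finset V := i0.insertNth (α := fun _ => Finset V) {x, y, y'} A
      have hB0 : B i0 = {x, y, y'} := Fin.insertNth_apply_same (α := fun _ => Finset V) i0 _ A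
      have hBs : ∀ j, B (i0.succAbove j) = A j := fun j =>
        Fin.insertNth_apply_succAbove (α := fun _ => Finset V) i0 _ A j
      refine FIN_assemble D (n + 1) B T ?_ ?_
      · rw [Fin.forall_iff_succAbove i0]
        refine ⟨?_, ?_⟩
        · rw [Fin.forall_iff_succAbove i0]
          refine ⟨fun h => absurd rfl h, fun j _ => ?_⟩
          rw [hB0, hBs]
          exact hdis0 j
        · intro i
          rw [Fin.forall_iff_succAbove i0]
          refine ⟨fun _ => ?_, fun j hij => ?_⟩
          · rw [hB0, hBs]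
            exact (hdis0 i).symm
          · rw [hBs, hBs]
            exact hdis i j (fun h => hij (by rw [h]))
      · rw [Fin.forall_iff_succAbove i0]
        refine ⟨?_, fun j => ?_⟩
        · rw [hB0]
          exact hho (T i0) (hT i0) hi0
        · rw [hBs]
          exact h_HST V D ctx.loop (A j) (hgood j) (T (i0.succAbove j)) (hT _)

theorem p_FIN (h_MG : T_MG) (h_HST : T_HST) (h_FAM : T_FAM) (h_CFM : T_CFM) (h_RX : T_RX)
    (h_RY : T_RY) (h_TR : T_TR) (h_CYC : T_CYC) : T_FIN := by
  intro V _ D k hl hc hconn hdeg T hT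
  have hD1 := FIN_deg D k hl hc hdeg
  have hcu : (Finset.univ : Finset V).card = 3 * k := by rw [Finset.card_univ, hc]
  rcases h_MG V (hD D) (hD_hg D) k Finset.univ hcu (fun v _ => hD1 v) with hF | hB
  · obtain ⟨A, hgood, -, hdis⟩ := h_FAM V (hD D) Finset.univ k hF hcu
    exact FIN_assemble D k A T hdis (fun i => h_HST V D hl (A i) (hgood i) (T i) (hT i))
  · obtain ⟨A, B, hd, hu, h3A, h3B, -, -, h1, h2⟩ := Bar.elim (hD_hg D) hB
      (by rw [hcu]; exact Dvd.intro k rfl)
    have hAB : A.card + B.card = 3 * k := by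
      rw [← Finset.card_union_of_disjoint hd, hu, hcu]
    have hcase : (A.card % 3 = 1 ∧ B.card % 3 = 2) ∨ (B.card % 3 = 1 ∧ A.card % 3 = 2) := by
      omega
    rcases hcase with ⟨ha, hb⟩ | ⟨hb, ha⟩
    · exact FIN_main h_FAM h_HST h_CFM h_RX h_RY h_TR h_CYC V D k hc hconn A B
        ⟨hl, hd, hu, hcu, fun v _ => hD1 v, ha, hb, h1⟩ T hT
    · exact FIN_main h_FAM h_HST h_CFM h_RX h_RY h_TR h_CYC V D k hc hconn B A
        ⟨hl, hd.symm, by rw [Finset.union_comm]; exact hu, hcu, fun v _ => hD1 v, hb, ha, h2⟩
        T hT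

end TSC
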