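import Pool.Agent.TSC.Targets

set_option autoImplicit false

/-!
# TSC (MP_1b96da_co), target HST: a good triple carries every tournament
-/

open Classical

namespace TSC

namespace HST_

variable {V : Type}

theorem both {D : V → V → Prop} {u v : V} (hne : u ≠ v) (h : hD D u v = 0) : D u v ∧ D v u := by
  unfold hD at h
  rw [if_neg hne] at h
  by_cases h1 : D u v <;> by_cases h2 : D v u <;> simp_all

theorem one {D : V → V → Prop} {u v : V} (hne : u ≠ v) (h : hD D u v ≤ 1) : D u v ∨ D v u := by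
  unfold hD at h
  rw [if_neg hne] at h
  by_cases h1 : D u v <;> by_cases h2 : D v u <;> simp_all

theorem mk {D : V → V → Prop} {A : Finset V} (f : Fin 3 → V) (h01 : f 0 ≠ f 1) (h02 : f 0 ≠ f 2)
    (h12 : f 1 ≠ f 2) (a0 : f 0 ∈ A) (a1 : f 1 ∈ A) (a2 : f 2 ∈ A)
    (T : Fin 3 → Fin 3 → Prop) (hT : Tour T) (t01 : T 0 1 → D (f 0) (f 1))
    (t10 : T 1 0 → D (f 1) (f 0)) (t02 : D (f 0) (f 2) ∧ D (f 2) (f 0))
    (t12 : D (f 1) (f 2) ∧ D (f 2) (f 1)) : Host D A T := by
  refine ⟨f, ?_, ?_, ?_⟩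
  · intro i j hij
    fin_cases i <;> fin_cases j <;>
      first
      | rfl
      | exact absurd hij h01
      | exact absurd hij h01.symm
      | exact absurd hij h02
      | exact absurd hij h02.symm
      | exact absurd hij h12
      | exact absurd hij h12.symm
  · intro i
    fin_cases i
    · exact a0
    · exact a1
    · exact a2
  · intro i j hij
    fin_cases i <;> fin_cases j <;>
      first
      | exact absurd hij (hT.1 _)
      | exact t01 hij
      | exact t10 hij
      | exact t02.1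
      | exact t02.2
      | exact t12.1
      | exact t12.2

theorem host {D : V → V → Prop} {A : Finset V} {p q r : V} (hpq : p ≠ q) (hpr : p ≠ r)
    (hqr : q ≠ r) (hp : p ∈ A) (hq : q ∈ A) (hr : r ∈ A) (h1 : D p q) (h2 : D p r ∧ D r p)
    (h3 : D q r ∧ D r q) (T : Fin 3 → Fin 3 → Prop) (hT : Tour T) : Host D A T := by
  have h01 := hT.2 0 1 (by decide)
  by_cases h : T 0 1
  · exact mk ![p, q, r] hpq hpr hqr hp hq hr T hT (fun _ => h1) (fun h' => absurd h' (h01.mp h))
      h2 h3
  · exact mk ![q, p, r] hpq.symm hqr hpr hq hp hr T hT (fun h' => absurd h' h) (fun _ => h1) h3 h2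

theorem host' {D : V → V → Prop} {A : Finset V} {p q r : V} (hpq : p ≠ q) (hpr : p ≠ r)
    (hqr : q ≠ r) (hp : p ∈ A) (hq : q ∈ A) (hr : r ∈ A) (h1 : hD D p q ≤ 1)
    (h2 : hD D p r = 0) (h3 : hD D q r = 0) (T : Fin 3 → Fin 3 → Prop) (hT : Tour T) :
    Host D A T := by
  rcases one hpq h1 with h | h
  · exact host hpq hpr hqr hp hq hr h (both hpr h2) (both hqr h3) T hT
  · exact host hpq.symm hqr hpr hq hp hr h (both hqr h3) (both hpr h2) T hT

end HST_

open HST_ in
theorem p_HST : T_HST := by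
  intro V D _ A hA T hT
  obtain ⟨a, b, c, hab, hac, hbc, rfl, hh⟩ := hA.elim (hD_hg D)
  have s1 := (hD_hg D).symm a b
  have s2 := (hD_hg D).symm a c
  have s3 := (hD_hg D).symm b c
  have ha : a ∈ ({a, b, c} : Finset V) := by simp
  have hb : b ∈ ({a, b, c} : Finset V) := by simp
  have hc : c ∈ ({a, b, c} : Finset V) := by simp
  have hcase : (hD D a c = 0 ∧ hD D b c = 0) ∨ (hD D a b = 0 ∧ hD D b c = 0) ∨
      (hD D a b = 0 ∧ hD D a c = 0) := by omega
  rcases hcase with ⟨h1, h2⟩ | ⟨h1, h2⟩ | ⟨h1, h2⟩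
  · exact host' hab hac hbc ha hb hc (by omega) h1 h2 T hT
  · exact host' hac hab hbc.symm ha hc hb (by omega) h1 (by omega) T hT
  · exact host' hbc hab.symm hac.symm hb hc ha (by omega) (by omega) (by omega) T hT

end TSC
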