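import Pool.Agent.TSC.Targets

set_option autoImplicit false

/-!
# TSC, target K7: the extreme case `|X| = 2 k - 1`, `k ≥ 7`
-/

open Classical

namespace TSC

namespace K7_

variable {V : Type}

theorem pick (h : V → V → ℕ) (u : V) (P E : Finset V) (hc : E.card + dg h u P < P.card) :
    ∃ c ∈ P, c ∉ E ∧ h u c = 0 := by
  by_contra hn
  have h1 : P.filter (fun c => h u c = 0) ⊆ E := by
    intro c hcP
    by_contra h2
    exact hn ⟨c, (Finset.mem_filter.1 hcP).1, h2, (Finset.mem_filter.1 hcP).2⟩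
  have h2 := Finset.card_le_card h1
  have h3 := card_heavy h u P
  omega

theorem card4 {a b c d : V} (h1 : a ≠ b) (h2 : a ≠ c) (h3 : a ≠ d) (h4 : b ≠ c) (h5 : b ≠ d)
    (h6 : c ≠ d) : ({a, b, c, d} : Finset V).card = 4 := by
  rw [Finset.card_insert_of_notMem (by simp [h1, h2, h3]),
    Finset.card_insert_of_notMem (by simp [h4, h5]), Finset.card_insert_of_notMem (by simp [h6]),
    Finset.card_singleton]

/-- The structure of a barrier of `X` minus four vertices. -/
theorem str {h : V → V → ℕ} (hg : HG h) {m : ℕ} {X R : Finset V}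
    (hX : X.card = 2 * (3 * m + 1) - 1) (hd : ∀ x ∈ X, dg h x X + 2 ≤ 3 * m + 1) (hR : R ⊆ X)
    (hR4 : R.card = 4) (hm : 2 ≤ m) (hB : Bar h (X \ R)) :
    ∃ A B : Finset V, Disjoint A B ∧ A ∪ B = X \ R ∧ A.card + 2 = 3 * m ∧ B.card + 1 = 3 * m ∧
      (∀ a ∈ A, ∀ b ∈ B, 1 ≤ h a b) ∧ (∀ b ∈ B, ∀ a ∈ A, 1 ≤ h b a) ∧
      (∀ v ∈ A, ∀ w ∈ A ∪ R, h v w = 0) ∧ ∀ v ∈ B, dg h v (B ∪ R) ≤ 1 := by
  have hc : (X \ R).card + R.card = X.card := Finset.card_sdiff_add_card_eq_card hR
  obtain ⟨A, B, hAB, hU, hA3, hB3, hle, ⟨a, ha⟩, h1, h2⟩ := hB.elim hg (by omega)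
  have hcu : A.card + B.card = (X \ R).card := by
    rw [← hU, Finset.card_union_of_disjoint hAB]
  have hsub : A ∪ B ⊆ X := by
    rw [hU]
    exact Finset.sdiff_subset
  have hAX : A ⊆ X := Finset.subset_union_left.trans hsub
  have hBX : B ⊆ X := Finset.subset_union_right.trans hsub
  have h3 : B.card ≤ dg h a X := (card_le_dg h a B (h1 a ha)).trans (dg_mono h a hBX)
  have h4 := hd a (hAX ha)
  have hBc : B.card + 1 = 3 * m := by omega
  have hAc : A.card + 2 = 3 * m := by omega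
  have hR1 : Disjoint (A ∪ B) R := by
    rw [hU]
    exact Finset.sdiff_disjoint
  have hXe : A ∪ B ∪ R = X := by
    rw [hU]
    exact Finset.sdiff_union_of_subset hR
  have hAR : Disjoint A R := Finset.disjoint_of_subset_left Finset.subset_union_left hR1
  have hBR : Disjoint B R := Finset.disjoint_of_subset_left Finset.subset_union_right hR1
  have hdX : ∀ v, dg h v X = dg h v A + dg h v B + dg h v R := by
    intro v
    rw [← hXe, dg_union h v hR1, dg_union h v hAB]
  refine ⟨A, B, hAB, hU, hAc, hBc, h1, h2, ?_, ?_⟩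
  · intro v hv w hw
    have h5 := hd v (hAX hv)
    have h6 := card_le_dg h v B (h1 v hv)
    have h7 := h_le_dg h v hw
    rw [dg_union h v hAR] at h7
    rw [hdX v] at h5
    omega
  · intro v hv
    have h5 := hd v (hBX hv)
    have h6 := card_le_dg h v A (h2 v hv)
    rw [dg_union h v hBR]
    rw [hdX v] at h5
    omega

/-- The vertices of `R` outside `R'` are joined to all of `B` outside `R'`. -/
theorem key {h : V → V → ℕ} (hg : HG h) {m : ℕ} {X R R' A B : Finset V}
    (hX : X.card = 2 * (3 * m + 1) - 1) (hd : ∀ x ∈ X, dg h x X + 2 ≤ 3 * m + 1) (hm : 2 ≤ m)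
    (hR : R ⊆ X) (hU : A ∪ B = X \ R)
    (hA : A.card + 2 = 3 * m)
    (h0 : ∀ v ∈ A, ∀ w ∈ A ∪ R, h v w = 0) (h1 : ∀ v ∈ B, dg h v (B ∪ R) ≤ 1)
    (hR' : R' ⊆ X) (hR4 : R'.card = 4) (hRR : (R' \ R).card ≤ 2) (hB : Bar h (X \ R')) :
    ∀ r ∈ R, r ∉ R' → ∀ w ∈ B, w ∉ R' → 1 ≤ h r w := by
  obtain ⟨U, W, hUW, hUWe, hUc, hWc, h3, h4, -, -⟩ := str hg hX hd hR' hR4 hm hB
  have hAR : ∀ x ∈ A, x ∉ R := fun x hx => (Finset.mem_sdiff.1
    (hU ▸ Finset.mem_union_left B hx : x ∈ X \ R)).2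
  have hAX : ∀ x ∈ A, x ∈ X := fun x hx => (Finset.mem_sdiff.1
    (hU ▸ Finset.mem_union_left B hx : x ∈ X \ R)).1
  have hBX : ∀ x ∈ B, x ∈ X := fun x hx => (Finset.mem_sdiff.1
    (hU ▸ Finset.mem_union_right A hx : x ∈ X \ R)).1
  -- a vertex of `A` outside `R'`
  obtain ⟨a, ha, haR⟩ : ∃ a ∈ A, a ∉ R' := by
    by_contra hn
    have h5 : A ⊆ R' \ R := by
      intro x hx
      rw [Finset.mem_sdiff]
      refine ⟨?_, hAR x hx⟩
      by_contra h6
      exact hn ⟨x, hx, h6⟩
    have h6 := Finset.card_le_card h5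
    omega
  -- the main step, for the part `U'` which contains `a`
  have main : ∀ U' W' : Finset V, U' ∪ W' = X \ R' → (∀ x ∈ U', ∀ y ∈ W', 1 ≤ h x y) →
      2 ≤ W'.card → a ∈ U' → ∀ r ∈ R, r ∉ R' → ∀ w ∈ B, w ∉ R' → 1 ≤ h r w := by
    intro U' W' hU' hcr hW' haU r hr hrR w hw hwR
    have hAU : ∀ x ∈ A ∪ R, x ∉ R' → x ∈ U' := by
      intro x hx hxR
      have hxX : x ∈ X := by
        rcases Finset.mem_union.1 hx with h5 | h5
        · exact hAX x h5
        · exact hR h5
      have h5 : x ∈ U' ∪ W' := by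
        rw [hU']
        exact Finset.mem_sdiff.2 ⟨hxX, hxR⟩
      rcases Finset.mem_union.1 h5 with h6 | h6
      · exact h6
      · have h7 := hcr a haU x h6
        have h8 := h0 a ha x hx
        omega
    have hWB : ∀ y ∈ W', y ∈ A ∪ R ∨ y ∈ B := by
      intro y hy
      have h5 : y ∈ X \ R' := by
        rw [← hU']
        exact Finset.mem_union_right _ hy
      have h6 := (Finset.mem_sdiff.1 h5).1
      by_cases h7 : y ∈ R
      · exact Or.inl (Finset.mem_union_right _ h7)
      · have h8 : y ∈ A ∪ B := by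
          rw [hU]
          exact Finset.mem_sdiff.2 ⟨h6, h7⟩
        rcases Finset.mem_union.1 h8 with h9 | h9
        · exact Or.inl (Finset.mem_union_left _ h9)
        · exact Or.inr h9
    have hrU : r ∈ U' := hAU r (Finset.mem_union_right _ hr) hrR
    have hw2 : w ∈ U' ∪ W' := by
      rw [hU']
      exact Finset.mem_sdiff.2 ⟨hBX w hw, hwR⟩
    rcases Finset.mem_union.1 hw2 with h5 | h5
    · exfalso
      have h6 : W' ⊆ B ∪ R := by
        intro y hy
        rcases hWB y hy with h7 | h7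
        · rcases Finset.mem_union.1 h7 with h8 | h8
          · exfalso
            have h9 : y ∈ X \ R' := by
              rw [← hU']
              exact Finset.mem_union_right _ hy
            have h10 := hAU y h7 (Finset.mem_sdiff.1 h9).2
            have h11 := hcr y h10 y hy
            rw [hg.irr] at h11
            omega
          · exact Finset.mem_union_right _ h8
        · exact Finset.mem_union_left _ h7
      have h7 := card_le_dg h w W' (fun y hy => hcr w h5 y hy)
      have h8 := dg_mono h w h6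
      have h9 := h1 w hw
      omega
    · exact hcr r hrU w h5
  have haUW : a ∈ U ∪ W := by
    rw [hUWe]
    exact Finset.mem_sdiff.2 ⟨hAX a ha, haR⟩
  rcases Finset.mem_union.1 haUW with h5 | h5
  · exact main U W hUWe h3 (by omega) h5
  · exact main W U (by rw [Finset.union_comm]; exact hUWe) h4 (by omega) h5

/-- The final contradiction. -/
theorem fin {h : V → V → ℕ} (hg : HG h) {m : ℕ} {X R R1 R2 : Finset V}
    (hX : X.card = 2 * (3 * m + 1) - 1) (hd : ∀ x ∈ X, dg h x X + 2 ≤ 3 * m + 1) (hm : 2 ≤ m)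
    (hR : R ⊆ X) (hR4 : R.card = 4) (hB : Bar h (X \ R))
    (hR1 : R1 ⊆ X) (hR14 : R1.card = 4) (hRR1 : (R1 \ R).card ≤ 2) (hB1 : Bar h (X \ R1))
    (hR2 : R2 ⊆ X) (hR24 : R2.card = 4) (hRR2 : (R2 \ R).card ≤ 2) (hB2 : Bar h (X \ R2))
    (r1 r2 : V) (hr : r1 ≠ r2) (hr1 : r1 ∈ R) (hr1' : r1 ∉ R1) (hr2 : r2 ∈ R)
    (hr2' : r2 ∉ R2) : False := by
  obtain ⟨A, B, hAB, hU, hAc, hBc, -, -, h0, h1⟩ := str hg hX hd hR hR4 hm hB
  have k1 := key hg hX hd hm hR hU hAc h0 h1 hR1 hR14 hRR1 hB1 r1 hr1 hr1'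
  have k2 := key hg hX hd hm hR hU hAc h0 h1 hR2 hR24 hRR2 hB2 r2 hr2 hr2'
  have hBR : ∀ x ∈ B, x ∉ R := fun x hx => (Finset.mem_sdiff.1
    (hU ▸ Finset.mem_union_right A hx : x ∈ X \ R)).2
  obtain ⟨w, hw, hw1, hw2⟩ : ∃ w ∈ B, w ∉ R1 ∧ w ∉ R2 := by
    by_contra hn
    have h5 : B ⊆ (R1 \ R) ∪ (R2 \ R) := by
      intro x hx
      rw [Finset.mem_union, Finset.mem_sdiff, Finset.mem_sdiff]
      by_contra h6
      refine hn ⟨x, hx, fun h7 => h6 (Or.inl ⟨h7, hBR x hx⟩), fun h7 =>
        h6 (Or.inr ⟨h7, hBR x hx⟩)⟩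
    have h6 := Finset.card_le_card h5
    have h7 := Finset.card_union_le (R1 \ R) (R2 \ R)
    omega
  have h2 := k1 w hw hw1
  have h3 := k2 w hw hw2
  have h4 := h1 w hw
  have h5 : dg h w {r1, r2} ≤ dg h w (B ∪ R) := by
    refine dg_mono h w ?_
    intro x hx
    rw [Finset.mem_insert, Finset.mem_singleton] at hx
    rcases hx with rfl | rfl
    · exact Finset.mem_union_right _ hr1
    · exact Finset.mem_union_right _ hr2
  have h6 : dg h w {r1, r2} = h w r1 + h w r2 := by
    rw [dg_insert h w (by simp [hr]), dg_singleton]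
  rw [hg.symm r1 w] at h2
  rw [hg.symm r2 w] at h3
  omega

end K7_

open K7_ in
theorem p_K7 (h_MG : T_MG) : T_K7 := by
  intro V h m X P N hg hm hX hPN hPNX hN2 hNP hd
  by_contra hno
  have hcard : P.card + N.card = X.card := by
    rw [← Finset.card_union_of_disjoint hPN, hPNX]
  have hPX : P ⊆ X := by rw [← hPNX]; exact Finset.subset_union_left
  have hNX : N ⊆ X := by rw [← hPNX]; exact Finset.subset_union_right
  have hne : ∀ x ∈ N, ∀ y ∈ P, x ≠ y := by
    rintro x hx y hy rfl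
    exact (Finset.disjoint_left.1 hPN hy) hx
  have hdP : ∀ u ∈ N, dg h u P + 1 ≤ 3 * m := by
    intro u hu
    have h1 := hd u (hNX hu)
    have h2 := dg_mono h u hPX
    omega
  -- all admissible quadruples have a barrier
  have hq : ∀ u ∈ N, ∀ v ∈ N, ∀ c ∈ P, ∀ d ∈ P, u ≠ v → c ≠ d → h u c = 0 → h v d = 0 →
      ({u, v, c, d} : Finset V) ⊆ X ∧ ({u, v, c, d} : Finset V).card = 4 ∧
        Bar h (X \ {u, v, c, d}) := by
    intro u hu v hv c hc d hdd huv hcd h1 h2
    have hsub : ({u, v, c, d} : Finset V) ⊆ X := by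
      intro x hx
      simp only [Finset.mem_insert, Finset.mem_singleton] at hx
      rcases hx with rfl | rfl | rfl | rfl
      · exact hNX hu
      · exact hNX hv
      · exact hPX hc
      · exact hPX hdd
    have h4 : ({u, v, c, d} : Finset V).card = 4 :=
      card4 huv (hne u hu c hc) (hne u hu d hdd) (hne v hv c hc) (hne v hv d hdd) hcd
    refine ⟨hsub, h4, ?_⟩
    have hc2 : (X \ {u, v, c, d}).card + ({u, v, c, d} : Finset V).card = X.card :=
      Finset.card_sdiff_add_card_eq_card hsub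
    rcases h_MG V h hg (2 * m - 1) (X \ {u, v, c, d}) (by omega) (by
      intro x hx
      have h5 := hd x (Finset.mem_sdiff.1 hx).1
      have h6 := dg_mono h x (Finset.sdiff_subset : X \ {u, v, c, d} ⊆ X)
      omega) with h5 | h5
    · exact absurd ⟨u, hu, v, hv, c, hc, d, hdd, huv, hcd, h1, h2, h5⟩ hno
    · exact h5
  by_cases h3 : 3 ≤ N.card
  · -- at least three vertices in `N`
    obtain ⟨u, v, u', hu, hv, hu', huv, huu, hvu⟩ := Finset.two_lt_card_iff.1 h3
    obtain ⟨c, hc, -, huc⟩ := pick h u P ∅ (by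
      have := hdP u hu
      rw [Finset.card_empty]
      omega)
    obtain ⟨d, hdd, hdc, hvd⟩ := pick h v P {c} (by
      have := hdP v hv
      rw [Finset.card_singleton]
      omega)
    obtain ⟨c', hc', hcc, huc'⟩ := pick h u' P {c} (by
      have := hdP u' hu'
      rw [Finset.card_singleton]
      omega)
    obtain ⟨d', hd', hdd', hud'⟩ := pick h u' P {d} (by
      have := hdP u' hu'
      rw [Finset.card_singleton]
      omega)
    rw [Finset.mem_singleton] at hdc hcc hdd'
    obtain ⟨q1, q2, q3⟩ := hq u hu v hv c hc d hdd huv (Ne.symm hdc) huc hvd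
    obtain ⟨a1, a2, a3⟩ := hq u hu u' hu' c hc c' hc' huu (Ne.symm hcc) huc huc'
    obtain ⟨b1, b2, b3⟩ := hq v hv u' hu' d hdd d' hd' hvu (Ne.symm hdd') hvd hud'
    refine fin hg hX hd hm q1 q2 q3 a1 a2 ?_ a3 b1 b2 ?_ b3 v u (Ne.symm huv) ?_ ?_ ?_ ?_
    · refine (Finset.card_le_card (t := {u', c'}) ?_).trans Finset.card_le_two
      intro x hx
      simp only [Finset.mem_sdiff, Finset.mem_insert, Finset.mem_singleton] at hx ⊢
      tauto
    · refine (Finset.card_le_card (t := {u', d'}) ?_).trans Finset.card_le_two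
      intro x hx
      simp only [Finset.mem_sdiff, Finset.mem_insert, Finset.mem_singleton] at hx ⊢
      tauto
    · simp
    · simp only [Finset.mem_insert, Finset.mem_singleton, not_or]
      exact ⟨Ne.symm huv, hvu, hne v hv c hc, hne v hv c' hc'⟩
    · simp
    · simp only [Finset.mem_insert, Finset.mem_singleton, not_or]
      exact ⟨huv, huu, hne u hu d hdd, hne u hu d' hd'⟩
  · -- exactly two vertices in `N`
    obtain ⟨u, hu, v, hv, huv⟩ := Finset.one_lt_card.1 (by omega : 1 < N.card)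
    have hPc : P.card = 6 * m - 1 := by omega
    obtain ⟨c, hc, -, huc⟩ := pick h u P ∅ (by
      have := hdP u hu
      rw [Finset.card_empty]
      omega)
    obtain ⟨d, hdd, hdc, hvd⟩ := pick h v P {c} (by
      have := hdP v hv
      rw [Finset.card_singleton]
      omega)
    have hcd2 : ({c, d} : Finset V).card ≤ 2 := Finset.card_le_two
    obtain ⟨c', hc', hcc, huc'⟩ := pick h u P {c, d} (by
      have := hdP u hu
      omega)
    obtain ⟨d', hd', hdd', hvd'⟩ := pick h v P {c, d} (by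
      have := hdP v hv
      omega)
    simp only [Finset.mem_insert, Finset.mem_singleton, not_or] at hdc hcc hdd'
    obtain ⟨q1, q2, q3⟩ := hq u hu v hv c hc d hdd huv (Ne.symm hdc) huc hvd
    obtain ⟨a1, a2, a3⟩ := hq u hu v hv c' hc' d hdd huv hcc.2 huc' hvd
    obtain ⟨b1, b2, b3⟩ := hq u hu v hv c hc d' hd' huv (Ne.symm hdd'.1) huc hvd'
    refine fin hg hX hd hm q1 q2 q3 a1 a2 ?_ a3 b1 b2 ?_ b3 c d (Ne.symm hdc) ?_ ?_ ?_ ?_
    · refine (Finset.card_le_card (t := {c', c'}) ?_).trans Finset.card_le_two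
      intro x hx
      simp only [Finset.mem_sdiff, Finset.mem_insert, Finset.mem_singleton] at hx ⊢
      tauto
    · refine (Finset.card_le_card (t := {d', d'}) ?_).trans Finset.card_le_two
      intro x hx
      simp only [Finset.mem_sdiff, Finset.mem_insert, Finset.mem_singleton] at hx ⊢
      tauto
    · simp
    · simp only [Finset.mem_insert, Finset.mem_singleton, not_or]
      exact ⟨Ne.symm (hne u hu c hc), Ne.symm (hne v hv c hc), Ne.symm hcc.1, Ne.symm hdc⟩
    · simp
    · simp only [Finset.mem_insert, Finset.mem_singleton, not_or]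
      exact ⟨Ne.symm (hne u hu d hdd), Ne.symm (hne v hv d hdd), hdc, Ne.symm hdd'.2⟩

end TSC
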