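import Pool.Agent.TSC.Targets

set_option autoImplicit false

open Classical

namespace TSC

namespace MG_

variable {V : Type}

/-- A set of three vertices with all degrees at most one is good. -/
theorem one (h : V → V → ℕ) (hg : HG h) (S : Finset V) (hc : S.card = 3)
    (hd : ∀ v ∈ S, dg h v S + 1 ≤ 2) : Fac h S := by
  have h1 : cr h S S ≤ S.card * 1 := cr_le_mul h S S 1 (fun a ha => by
    have := hd a ha
    omega)
  obtain ⟨a, b, c, hab, hac, hbc, rfl⟩ := Finset.card_eq_three.1 hc
  rw [hc, cr_triple hg hab hac hbc] at h1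
  exact (good_triple hg hab hac hbc (by omega)).fac

/-- The main case with the residue one side first. -/
theorem main (h_D3 : T_D3) (h : V → V → ℕ) (hg : HG h) (k : ℕ) (S X Y : Finset V)
    (o : Opt h k S X Y) (ih : ∀ j < k, MG h j) (nf : ¬ Fac h S) (h1 : X.card % 3 = 1) :
    Bar h S := by
  have hc := o.cards
  obtain ⟨s, hs⟩ : ∃ s, X.card = 3 * s + 1 := ⟨X.card / 3, by omega⟩
  obtain ⟨r, hr⟩ : ∃ r, Y.card = 3 * r + 2 := ⟨Y.card / 3, by omega⟩
  have hk : k = s + r + 1 := by omega
  subst hk
  by_cases hb : ∃ x ∈ X, ∃ y ∈ Y, h x y = 0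
  · exact absurd ⟨hg, o, hs, hr, ih, nf, hb⟩ (h_D3 V h s r S X Y)
  · push Not at hb
    refine ⟨X, o.subX, by omega, fun x hx y hy => ?_⟩
    have hy' : y ∈ Y := by
      have h2 := Finset.mem_sdiff.1 hy
      have h3 : y ∈ X ∪ Y := by rw [o.union]; exact h2.1
      rcases Finset.mem_union.1 h3 with h4 | h4
      · exact absurd h4 h2.2
      · exact h4
    exact Nat.one_le_iff_ne_zero.2 (hb x hx y hy')

end MG_

theorem p_MG (h_RI : T_RI) (h_OPT : T_OPT) (h_C00 : T_C00) (h_D3 : T_D3) : T_MG := by
  intro V h hg k
  induction k using Nat.strong_induction_on with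
  | _ k ih =>
    intro S hS hd
    rcases Nat.lt_or_ge k 2 with hk | hk
    · left
      rcases Nat.lt_or_ge k 1 with hk0 | hk1
      · have hk0' : k = 0 := by omega
        subst hk0'
        have : S = ∅ := Finset.card_eq_zero.1 (by omega)
        rw [this]
        exact Fac.empty
      · have hk1' : k = 1 := by omega
        subst hk1'
        exact MG_.one h hg S (by omega) (fun v hv => by
          have := hd v hv
          omega)
    · by_cases hF : Fac h S
      · exact Or.inl hF
      · right
        by_cases hJ : ∀ A ⊆ S, J h S A ≤ 0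
        · exact absurd (h_RI V h k S hg hk ih hS hd hJ) hF
        · push Not at hJ
          obtain ⟨X, Y, o⟩ := h_OPT V h k S hg hS hd hJ
          by_cases h3 : 3 ∣ X.card
          · exact absurd (h_C00 V h k S X Y hg o ih h3) hF
          · have hc := o.cards
            have h4 : X.card % 3 = 1 ∨ Y.card % 3 = 1 := by omega
            rcases h4 with h4 | h4
            · exact MG_.main h_D3 h hg k S X Y o ih hF h4
            · exact MG_.main h_D3 h hg k S Y X o.swap ih hF h4

end TSC
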