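import Pool.Agent.TSC.Targets

set_option autoImplicit false

open Classical

namespace TSC

/-- The target NP: there are no bad pairs. -/
theorem p_NP (h_SB : T_SB) (h_BS : T_BS) (h_NB : T_NB) (h_DV : T_DV) : T_NP := by
  intro V h s r S X Y ctx p hp q hq hpq hbad
  obtain ⟨hr3, A, B, hdAB, hAB, hA1, hlt, hB1, hsum, hab, -⟩ :=
    h_BS V h s r S X Y ctx p hp q hq hpq hbad
  obtain ⟨-, hdeg⟩ := h_SB V h s r S X Y ctx
  have hg := ctx.hg
  have hsub : A ∪ B ⊆ Y := by
    rw [hAB]
    exact (Finset.erase_subset _ _).trans (Finset.erase_subset _ _)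
  have hAY : A ⊆ Y := Finset.subset_union_left.trans hsub
  have hBY : B ⊆ Y := Finset.subset_union_right.trans hsub
  have hX : X.card = 3 * s + 1 := ctx.cX
  have hY : Y.card = 3 * r + 2 := ctx.cY
  have dAB : ∀ a ∈ A, dg h a A + dg h a B ≤ dg h a Y ∧ B.card ≤ dg h a B := by
    intro a ha
    constructor
    · rw [← dg_union h a hdAB]
      exact dg_mono h a hsub
    · exact card_le_dg h a B (hab a ha)
  have hdv : ∀ a ∈ A, dg h a X + B.card + 1 ≤ 2 * (s + r + 1) := by
    intro a ha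
    have h1 := ctx.opt.degs a (ctx.opt.subY (hAY ha))
    have h2 := dAB a ha
    have h3 : dg h a B ≤ dg h a Y := dg_mono h a hBY
    omega
  have hs2 : 2 * s + 1 ≤ r := by
    obtain ⟨v, hv⟩ : A.Nonempty := by
      rw [← Finset.card_pos]; omega
    have h1 := dAB v hv
    have h2 := hdeg v (hAY hv)
    have h3 := card_heavy h v (A.erase v)
    have h4 : dg h v (A.erase v) ≤ dg h v A := dg_mono h v (Finset.erase_subset _ _)
    have h5 := Finset.card_erase_of_mem hv
    have h6 := h_DV V h s r S X Y ctx v (hAY hv)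
    have h7 : (Y.filter (fun w => w ≠ v ∧ BP h Y v w)).card <
        ((A.erase v).filter (fun u => h v u = 0)).card := by omega
    obtain ⟨w, hw1, hw2⟩ := Finset.exists_mem_notMem_of_card_lt_card h7
    rw [Finset.mem_filter, Finset.mem_erase] at hw1
    obtain ⟨⟨hwv, hwA⟩, hvw⟩ := hw1
    have hnb : ¬ BP h Y v w := fun hb =>
      hw2 (Finset.mem_filter.2 ⟨hAY hwA, hwv, hb⟩)
    have h8 := h_NB V h s r S X Y ctx v (hAY hv) w (hAY hwA) (Ne.symm hwv) hnb
    have h9 : 2 * X.card ≤ dg h v X + dg h w X := by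
      apply pair_sum
      intro x hx
      have := h8 x hx
      rw [hvw, hg.symm x v, hg.symm x w] at this
      omega
    have h10 := hdv v hv
    have h11 := hdv w hwA
    omega
  obtain ⟨x, hx, y, hy, hxy⟩ := ctx.nb
  have h6 := h_DV V h s r S X Y ctx y hy
  have hW : 3 * r + 1 ≤ ((Y.erase y) \ (Y.filter (fun w => w ≠ y ∧ BP h Y y w))).card + 2 := by
    have e1 := Finset.card_erase_of_mem hy
    have e2 := Finset.le_card_sdiff (Y.filter (fun w => w ≠ y ∧ BP h Y y w)) (Y.erase y)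
    omega
  have h12 : 2 * ((Y.erase y) \ (Y.filter (fun w => w ≠ y ∧ BP h Y y w))).card ≤
      dg h x ((Y.erase y) \ (Y.filter (fun w => w ≠ y ∧ BP h Y y w))) +
        dg h y ((Y.erase y) \ (Y.filter (fun w => w ≠ y ∧ BP h Y y w))) := by
    apply pair_sum
    intro w hw
    rw [Finset.mem_sdiff, Finset.mem_erase, Finset.mem_filter] at hw
    obtain ⟨⟨hwy, hwY⟩, hnb⟩ := hw
    have hnb' : ¬ BP h Y y w := fun hb => hnb ⟨hwY, hwy, hb⟩
    have := h_NB V h s r S X Y ctx y hy w hwY (Ne.symm hwy) hnb' x hx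
    rw [hxy] at this
    omega
  have hWY : ((Y.erase y) \ (Y.filter (fun w => w ≠ y ∧ BP h Y y w))) ⊆ Y :=
    Finset.sdiff_subset.trans (Finset.erase_subset _ _)
  have h13 := dg_mono h x hWY
  have h14 := dg_mono h y hWY
  have h15 := hdeg y hy
  have h16 := ctx.opt.degs x (ctx.opt.subX hx)
  omega

end TSC
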