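import Pool.Agent.TSC.Targets

set_option autoImplicit false

/-!
# TSC: the target R4
-/

namespace TSC

theorem p_R4 (h_MG : T_MG) (h_DB : T_DB) : T_R4 := by
  classical
  intro V D k S X Y hC ha R hR hR4
  obtain ⟨hk, h1, h2, h3, h4, h5, h6, -⟩ := h_DB V D k S X Y hC
  have hcX := hC.cX
  have hcard : (X \ R).card + R.card = X.card := Finset.card_sdiff_add_card_eq_card hR
  have hdeg : ∀ x ∈ X, dg (hD D) x X + k + 1 ≤ X.card := by
    intro x hx
    obtain ⟨h7, h8, -⟩ := h6 x hx
    omega
  obtain ⟨m, hm⟩ : ∃ m, (X \ R).card = 3 * m := ⟨(X \ R).card / 3, by omega⟩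
  rcases Nat.eq_zero_or_pos m with h0 | h0
  · have h9 : X \ R = ∅ := Finset.card_eq_zero.1 (by omega)
    rw [h9]
    exact Fac.empty
  · have hdm : ∀ v ∈ X \ R, dg (hD D) v (X \ R) + 1 ≤ 2 * m := by
      intro v hv
      have h10 := dg_mono (hD D) v (Finset.sdiff_subset (s := X) (t := R))
      have h11 := hdeg v (Finset.mem_sdiff.1 hv).1
      omega
    rcases h_MG V (hD D) (hD_hg D) m (X \ R) hm hdm with h12 | h12
    · exact h12
    · exfalso
      obtain ⟨A, B, hd, hu, hA3, hB3, hle, hAn, hAB, hBA⟩ := Bar.elim (hD_hg D) h12 ⟨m, hm⟩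
      have hc : A.card + B.card = 3 * m := by
        rw [← Finset.card_union_of_disjoint hd, hu, hm]
      obtain ⟨a, haA⟩ := hAn
      have hBn : B.Nonempty := by
        rw [← Finset.card_pos]
        have : 0 < A.card := Finset.card_pos.2 ⟨a, haA⟩
        omega
      obtain ⟨b, hbB⟩ := hBn
      have hAX : A ⊆ X := (Finset.subset_union_left.trans hu.subset).trans Finset.sdiff_subset
      have hBX : B ⊆ X := (Finset.subset_union_right.trans hu.subset).trans Finset.sdiff_subset
      have e1 := card_le_dg (hD D) a B (hAB a haA)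
      have e2 := dg_mono (hD D) a hBX
      have e3 := hdeg a (hAX haA)
      have e4 := card_le_dg (hD D) b A (hBA b hbB)
      have e5 := dg_mono (hD D) b hAX
      have e6 := hdeg b (hBX hbB)
      have e7 : 2 * B.card = 3 * m := by omega
      have e8 : m = 2 * (m / 2) := by omega
      have e9 : B.card = 3 * (m / 2) := by omega
      exact hB3 ⟨m / 2, e9⟩

end TSC
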