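import Pool.Agent.TSC.Targets

set_option autoImplicit false

open Classical

namespace TSC

/-- T_RI. Regime I. -/
theorem p_RI (h_RIA : T_RIA) (h_RIB : T_RIB) (h_RIC : T_RIC) : T_RI := by
  intro V h k S hg hk hMG hcard hdeg hJ
  obtain ⟨Q0, hQ0S, hQ0⟩ := h_RIA V h k S hg hk hcard hdeg
  have hne : (S.powerset.filter (fun Q => Good h Q)).Nonempty :=
    ⟨Q0, Finset.mem_filter.2 ⟨Finset.mem_powerset.2 hQ0S, hQ0⟩⟩
  obtain ⟨Q, hQm, hQmax⟩ := Finset.exists_max_image (S.powerset.filter (fun Q => Good h Q))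
    (fun Q => cr h Q (S \ Q)) hne
  have hQS : Q ⊆ S := Finset.mem_powerset.1 (Finset.mem_filter.1 hQm).1
  have hQ : Good h Q := (Finset.mem_filter.1 hQm).2
  have hmax : ∀ Q' ⊆ S, Good h Q' → cr h Q' (S \ Q') ≤ cr h Q (S \ Q) := fun Q' hQ' hg' =>
    hQmax Q' (Finset.mem_filter.2 ⟨Finset.mem_powerset.2 hQ', hg'⟩)
  obtain ⟨j, rfl⟩ : ∃ j, k = j + 1 := ⟨k - 1, by omega⟩
  have hB := h_RIB V h j S Q hg hcard hdeg hJ hQS hQ hmax
  have hC := h_RIC V h j S Q hg hcard hdeg hJ hQS hQ hmax hB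
  have hc : (S \ Q).card = 3 * j := by
    have h1 : (S \ Q).card + Q.card = S.card := Finset.card_sdiff_add_card_eq_card hQS
    have h2 := hQ.1
    omega
  rcases hMG j (by omega) (S \ Q) hc hB with hF | hF
  · exact fac_of_good hQ hQS hF
  · exact absurd hF hC

end TSC
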