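import Pool.Agent.TSC.Targets

set_option autoImplicit false

/-!
# TSC: a good triple exists
-/

open Classical

namespace TSC

/-- T_RIA. There is a good triple in `S`. -/
theorem p_RIA : T_RIA := by
  intro V h k S hg hk hS hdeg
  have hne : S.Nonempty := by
    rw [← Finset.card_pos]
    omega
  obtain ⟨a, ha⟩ := hne
  have hda := hdeg a ha
  have h1 := dg_erase h a ha
  have h2 : (S.erase a).card = 3 * k - 1 := by
    rw [Finset.card_erase_of_mem ha, hS]
  obtain ⟨b, hb, hab⟩ := exists_heavy h a (S.erase a) (by omega)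
  have hbS : b ∈ S := Finset.mem_of_mem_erase hb
  have hba : b ≠ a := Finset.ne_of_mem_erase hb
  have hdb := hdeg b hbS
  have h3 : dg h a ((S.erase a).erase b) ≤ dg h a S :=
    dg_mono h a ((Finset.erase_subset _ _).trans (Finset.erase_subset _ _))
  have h4 : dg h b ((S.erase a).erase b) ≤ dg h b S :=
    dg_mono h b ((Finset.erase_subset _ _).trans (Finset.erase_subset _ _))
  have h5 : ((S.erase a).erase b).card = 3 * k - 1 - 1 := by
    rw [Finset.card_erase_of_mem hb, h2]
  obtain ⟨w, hw, hwab⟩ := exists_pair h a b ((S.erase a).erase b) (by omega)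
  have hwb : w ≠ b := Finset.ne_of_mem_erase hw
  have hw1 : w ∈ S.erase a := Finset.mem_of_mem_erase hw
  have hwa : w ≠ a := Finset.ne_of_mem_erase hw1
  have hwS : w ∈ S := Finset.mem_of_mem_erase hw1
  refine ⟨{a, b, w}, ?_, good_triple hg hba.symm hwa.symm hwb.symm ?_⟩
  · intro x hx
    simp only [Finset.mem_insert, Finset.mem_singleton] at hx
    rcases hx with rfl | rfl | rfl
    · exact ha
    · exact hbS
    · exact hwS
  · omega

end TSC
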