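import Pool.Agent.TSC.Targets

set_option autoImplicit false

/-!
# TSC, target RIB: exchange at the good triple with most outside edges
-/

open Classical

namespace TSC

namespace RIB_

variable {V : Type}

theorem cr_out (h : V → V → ℕ) {T S : Finset V} (hT : T ⊆ S) :
    cr h T (S \ T) + cr h T T = cr h T S := by
  have h1 : Disjoint (S \ T) T := Finset.sdiff_disjoint
  have h2 := cr_union_right h T h1
  rw [Finset.sdiff_union_of_subset hT] at h2
  exact h2.symm

theorem cr_left3 (h : V → V → ℕ) (S : Finset V) {x y z : V} (hxy : x ≠ y) (hxz : x ≠ z)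
    (hyz : y ≠ z) : cr h {x, y, z} S = dg h x S + dg h y S + dg h z S := by
  have e1 : x ∉ ({y, z} : Finset V) := by simp [hxy, hxz]
  have e2 : y ∉ ({z} : Finset V) := by simp [hyz]
  rw [cr_insert_left h S e1, cr_insert_left h S e2, cr_singleton_left]
  ring

theorem out3 {h : V → V → ℕ} (hg : HG h) {S : Finset V} {x y z : V} (hx : x ∈ S) (hy : y ∈ S)
    (hz : z ∈ S) (hxy : x ≠ y) (hxz : x ≠ z) (hyz : y ≠ z) :
    cr h {x, y, z} (S \ {x, y, z}) + 2 * (h x y + h x z + h y z) =
      dg h x S + dg h y S + dg h z S := by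
  have hT : ({x, y, z} : Finset V) ⊆ S := by
    intro u hu
    simp only [Finset.mem_insert, Finset.mem_singleton] at hu
    rcases hu with rfl | rfl | rfl <;> assumption
  rw [← cr_left3 h S hxy hxz hyz, ← cr_out h hT, cr_triple hg hxy hxz hyz]

theorem dg3 (h : V → V → ℕ) (w : V) {x y z : V} (hxy : x ≠ y) (hxz : x ≠ z)
    (hyz : y ≠ z) : dg h w {x, y, z} = h w x + h w y + h w z := by
  have e1 : x ∉ ({y, z} : Finset V) := by simp [hxy, hxz]
  have e2 : y ∉ ({z} : Finset V) := by simp [hyz]
  rw [dg_insert h w e1, dg_insert h w e2, dg_singleton]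
  ring

theorem out4 {h : V → V → ℕ} (hg : HG h) {S Q : Finset V} {w : V} (hw : w ∈ S \ Q)
    (hQ : Q ⊆ S) :
    cr h (insert w Q) (S \ insert w Q) + cr h Q Q + 2 * dg h w Q = dg h w S + cr h Q S := by
  have hwS : w ∈ S := (Finset.mem_sdiff.mp hw).1
  have hwQ : w ∉ Q := (Finset.mem_sdiff.mp hw).2
  have hT : insert w Q ⊆ S := Finset.insert_subset hwS hQ
  have h1 := cr_out h hT
  rw [cr_insert_left h S hwQ] at h1
  have h2 : cr h (insert w Q) (insert w Q) = cr h Q Q + 2 * dg h w Q := by
    rw [cr_insert_left h (insert w Q) hwQ, dg_insert h w hwQ, hg.irr, cr_symm hg Q (insert w Q),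
      cr_insert_left h Q hwQ]
    ring
  omega

end RIB_

open RIB_ in
theorem p_RIB : TSC.T_RIB := by
  intro V h j S Q hg hS hdeg hJ hQS hQ hmax w hw
  obtain ⟨a, b, c, hab, hac, hbc, rfl, he⟩ := hQ.elim hg
  by_contra hcon
  have haS : a ∈ S := hQS (by simp)
  have hbS : b ∈ S := hQS (by simp)
  have hcS : c ∈ S := hQS (by simp)
  have hwS : w ∈ S := (Finset.mem_sdiff.mp hw).1
  have hwQ : w ∉ ({a, b, c} : Finset V) := (Finset.mem_sdiff.mp hw).2
  have hwQ' := hwQ
  simp only [Finset.mem_insert, Finset.mem_singleton, not_or] at hwQ'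
  obtain ⟨hwa, hwb, hwc⟩ := hwQ'
  have da := hdeg a haS
  have db := hdeg b hbS
  have dc := hdeg c hcS
  have dw := hdeg w hwS
  have ew : dg h w (S \ {a, b, c}) + dg h w {a, b, c} = dg h w S := dg_sdiff h w hQS
  rw [dg3 h w hab hac hbc] at ew
  have oQ := out3 hg haS hbS hcS hab hac hbc
  -- exchanges
  have exch : ∀ x y : V, x ∈ S → y ∈ S → w ≠ x → w ≠ y → x ≠ y →
      h w x + h w y + h x y ≤ 1 →
      dg h w S + dg h x S + dg h y S ≤
        cr h {a, b, c} (S \ {a, b, c}) + 2 * (h w x + h w y + h x y) := by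
    intro x y hx hy hwx hwy hxy hle
    have h1 := out3 hg hwS hx hy hwx hwy hxy
    have h2 : ({w, x, y} : Finset V) ⊆ S := by
      intro u hu
      simp only [Finset.mem_insert, Finset.mem_singleton] at hu
      rcases hu with rfl | rfl | rfl <;> assumption
    have h3 := hmax {w, x, y} h2 (good_triple hg hwx hwy hxy hle)
    omega
  have e1 := exch b c hbS hcS hwb hwc hbc
  have e2 := exch a c haS hcS hwa hwc hac
  have e3 := exch a b haS hbS hwa hwb hab
  -- the set `insert w Q`
  have o4 := out4 hg hw hQS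
  rw [dg3 h w hab hac hbc, cr_triple hg hab hac hbc, cr_left3 h S hab hac hbc] at o4
  have hins : insert w ({a, b, c} : Finset V) ⊆ S := Finset.insert_subset hwS hQS
  have hJ4 := hJ _ hins
  have hcard3 : ({a, b, c} : Finset V).card = 3 := hQ.1
  have hcard4 : (insert w ({a, b, c} : Finset V)).card = 4 := by
    rw [Finset.card_insert_of_notMem hwQ, hcard3]
  have hcardr : (S \ insert w ({a, b, c} : Finset V)).card + 4 = 3 * (j + 1) := by
    rw [← hcard4, Finset.card_sdiff_add_card_eq_card hins, hS]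
  unfold J at hJ4
  rw [hcard4] at hJ4
  have hJ5 : 3 * cr h (insert w {a, b, c}) (S \ insert w {a, b, c}) ≤
      8 * (S \ insert w ({a, b, c} : Finset V)).card := by
    have : (3 : ℤ) * (cr h (insert w {a, b, c}) (S \ insert w {a, b, c}) : ℤ) ≤
        8 * ((S \ insert w ({a, b, c} : Finset V)).card : ℤ) := by
      push_cast at hJ4
      linarith
    exact_mod_cast this
  omega

end TSC
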