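import Pool.Agent.TSC.Targets

set_option autoImplicit false

open Classical

namespace TSC

/-- Consequence of `J h S A ≤ 0` for one side of a barrier of `S \ Q`. -/
theorem RIC_J {V : Type} {h : V → V → ℕ} {S Q A B : Finset V} (hQ : Q ⊆ S) (hQ3 : Q.card = 3)
    (hd : Disjoint A B) (hu : A ∪ B = S \ Q) (hJ : J h S A ≤ 0)
    (hab : ∀ a ∈ A, ∀ b ∈ B, 1 ≤ h a b) :
    A.card * B.card + 3 * cr h A Q ≤ 6 * A.card := by
  have hA : A ⊆ S \ Q := by rw [← hu]; exact Finset.subset_union_left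
  have hB : B ⊆ S \ Q := by rw [← hu]; exact Finset.subset_union_right
  have hBQ : Disjoint B Q := Finset.disjoint_of_subset_left hB Finset.sdiff_disjoint
  have e : S \ A = B ∪ Q := by
    ext v
    simp only [Finset.mem_sdiff, Finset.mem_union]
    constructor
    · rintro ⟨h1, h2⟩
      by_cases hv : v ∈ Q
      · exact Or.inr hv
      · have : v ∈ A ∪ B := by rw [hu]; exact Finset.mem_sdiff.2 ⟨h1, hv⟩
        rcases Finset.mem_union.1 this with h3 | h3
        · exact absurd h3 h2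
        · exact Or.inl h3
    · rintro (h1 | h1)
      · exact ⟨(Finset.mem_sdiff.1 (hB h1)).1, fun h2 => (Finset.disjoint_left.1 hd h2) h1⟩
      · exact ⟨hQ h1, fun h2 => (Finset.mem_sdiff.1 (hA h2)).2 h1⟩
  have hc : (S \ A).card = B.card + 3 := by
    rw [e, Finset.card_union_of_disjoint hBQ, hQ3]
  have h1 : cr h A (S \ A) = cr h A B + cr h A Q := by rw [e, cr_union_right h A hBQ]
  have h2 := mul_card_le_cr h A B hab
  unfold J at hJ
  rw [h1, hc] at hJ
  push_cast at hJ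
  have h3 : (3 : ℤ) * (A.card * B.card : ℕ) + 3 * (cr h A Q : ℤ)
      ≤ 2 * (A.card : ℤ) * ((B.card : ℤ) + 3) := by
    have : ((A.card * B.card : ℕ) : ℤ) ≤ (cr h A B : ℤ) := by exact_mod_cast h2
    nlinarith
  have h4 : (A.card : ℤ) * (B.card : ℤ) + 3 * (cr h A Q : ℤ) ≤ 6 * (A.card : ℤ) := by
    push_cast at h3
    nlinarith
  exact_mod_cast h4

theorem p_RIC : T_RIC := by
  intro V h j S Q hg hS _ hJ hQ hQg hmax hdR hB
  have hc1 : (S \ Q).card + Q.card = S.card := Finset.card_sdiff_add_card_eq_card hQ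
  have hQ3 := hQg.1
  have hcS : (S \ Q).card = 3 * j := by omega
  obtain ⟨A, B, hd, hu, h3A, h3B, hle, hAne, hab, hba⟩ := hB.elim hg ⟨j, hcS⟩
  have hAs : A ⊆ S \ Q := by rw [← hu]; exact Finset.subset_union_left
  have hBs : B ⊆ S \ Q := by rw [← hu]; exact Finset.subset_union_right
  have hsum : A.card + B.card = 3 * j := by
    rw [← Finset.card_union_of_disjoint hd, hu, hcS]
  have hBne : B.Nonempty := by
    rw [Finset.nonempty_iff_ne_empty]; rintro rfl; simp at h3B
  obtain ⟨a, ha⟩ := hAne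
  obtain ⟨b, hb⟩ := hBne
  have hBb : B.card + 1 ≤ 2 * j := by
    have h1 := card_le_dg h a B (hab a ha)
    have h2 := dg_mono h a hBs
    have h3 := hdR a (hAs ha)
    omega
  have hJA := RIC_J hQ hQ3 hd hu (hJ A (hAs.trans Finset.sdiff_subset)) hab
  have hJB := RIC_J hQ hQ3 hd.symm (by rw [Finset.union_comm]; exact hu)
    (hJ B (hBs.trans Finset.sdiff_subset)) hba
  have hA1 : 1 ≤ A.card := Finset.card_pos.2 ⟨a, ha⟩
  have hB1 : 1 ≤ B.card := Finset.card_pos.2 ⟨b, hb⟩
  have hB6 : B.card ≤ 6 := by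
    by_contra hc
    have : A.card * 7 ≤ A.card * B.card := Nat.mul_le_mul_left _ (by omega)
    omega
  have hA4 : A.card = 4 ∧ B.card = 5 ∧ j = 3 := by omega
  obtain ⟨hA4, hB5, hj⟩ := hA4
  rw [hA4, hB5] at hJA hJB
  have hout : cr h Q (S \ Q) ≤ 4 := by
    rw [← hu, cr_union_right h Q hd, cr_symm hg Q A, cr_symm hg Q B]
    omega
  have hdB : ∀ v ∈ B, dg h v B ≤ 1 := by
    intro v hv
    have h1 := card_le_dg h v A (hba v hv)
    have h2 := hdR v (hBs hv)
    rw [← hu, dg_union h v hd] at h2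
    omega
  obtain ⟨T, hT, hT3⟩ := Finset.exists_subset_card_eq (s := B) (n := 3) (by omega)
  have hTT : cr h T T ≤ 3 := by
    have := cr_le_mul h T T 1 (fun v hv => (dg_mono h v hT).trans (hdB v (hT hv)))
    omega
  have hTg : Good h T := by
    refine ⟨hT3, ?_⟩
    obtain ⟨x, y, z, hxy, hxz, hyz, rfl⟩ := Finset.card_eq_three.1 hT3
    rw [cr_triple hg hxy hxz hyz] at hTT ⊢
    omega
  have hTS : T ⊆ S := hT.trans (hBs.trans Finset.sdiff_subset)
  have hAT : A ⊆ S \ T := by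
    intro v hv
    exact Finset.mem_sdiff.2 ⟨(Finset.mem_sdiff.1 (hAs hv)).1,
      fun h2 => (Finset.disjoint_left.1 hd hv) (hT h2)⟩
  have h1 := hmax T hTS hTg
  have h2 := cr_mono h (Finset.Subset.refl T) hAT
  have h3 := mul_card_le_cr h T A (fun v hv w hw => hba v (hT hv) w hw)
  rw [hT3, hA4] at h3
  omega

end TSC
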