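import Pool.Agent.TSC.Targets

set_option autoImplicit false

/-!
# TSC: the target RY
-/

namespace TSC

theorem p_RY (h_MG : T_MG) (h_DB : T_DB) : T_RY := by
  classical
  intro V D k S X Y hC y hy y' hy' hne
  obtain ⟨hk, h1, h2, h3, h4, h5, -, h6⟩ := h_DB V D k S X Y hC
  have hcY := hC.cY
  have hy'' : y' ∈ Y.erase y := Finset.mem_erase.2 ⟨fun h => hne h.symm, hy'⟩
  have hsub : (Y.erase y).erase y' ⊆ Y :=
    (Finset.erase_subset _ _).trans (Finset.erase_subset _ _)
  have hcard : ((Y.erase y).erase y').card + 2 = Y.card := by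
    have g1 := Finset.card_erase_add_one hy''
    have g2 := Finset.card_erase_add_one hy
    omega
  have hdeg : ∀ v ∈ Y, dg (hD D) v Y + k + 1 ≤ Y.card := by
    intro v hv
    obtain ⟨h7, h8⟩ := h6 v hv
    omega
  obtain ⟨m, hm⟩ : ∃ m, ((Y.erase y).erase y').card = 3 * m :=
    ⟨((Y.erase y).erase y').card / 3, by omega⟩
  have hdm : ∀ v ∈ (Y.erase y).erase y', dg (hD D) v ((Y.erase y).erase y') + 1 ≤ 2 * m := by
    intro v hv
    have h10 := dg_mono (hD D) v hsub
    have h11 := hdeg v (hsub hv)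
    omega
  rcases h_MG V (hD D) (hD_hg D) m ((Y.erase y).erase y') hm hdm with h12 | h12
  · exact h12
  · exfalso
    obtain ⟨A, B, hd, hu, hA3, hB3, hle, hAn, hAB, hBA⟩ := Bar.elim (hD_hg D) h12 ⟨m, hm⟩
    have hc : A.card + B.card = 3 * m := by
      rw [← Finset.card_union_of_disjoint hd, hu, hm]
    obtain ⟨a, haA⟩ := hAn
    have hBn : B.Nonempty := by
      rw [← Finset.card_pos]
      have : 0 < A.card := Finset.card_pos.2 ⟨a, haA⟩
      omega
    obtain ⟨b, hbB⟩ := hBn
    have hAY : A ⊆ Y := (Finset.subset_union_left.trans hu.subset).trans hsub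
    have hBY : B ⊆ Y := (Finset.subset_union_right.trans hu.subset).trans hsub
    have e1 := card_le_dg (hD D) a B (hAB a haA)
    have e2 := dg_mono (hD D) a hBY
    have e3 := hdeg a (hAY haA)
    have e4 := card_le_dg (hD D) b A (hBA b hbB)
    have e5 := dg_mono (hD D) b hAY
    have e6 := hdeg b (hBY hbB)
    omega

end TSC
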