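import Pool.Agent.TSC.Targets

set_option autoImplicit false

/-!
# TSC: target SA, two tight vertices are not heavy to each other
-/

open Classical

namespace TSC

namespace SA_

variable {V : Type}

/-- Three tight vertices of `Y` which are pairwise heavy are impossible. -/
theorem three {h : V → V → ℕ} {s r : ℕ} {S X Y : Finset V} (c : Ctx h s r S X Y) {a b d : V}
    (ha : a ∈ Y) (hb : b ∈ Y) (hd : d ∈ Y) (hab : a ≠ b) (had : a ≠ d) (hbd : b ≠ d)
    (ta : dg h a Y = 2 * r) (tb : dg h b Y = 2 * r) (td : dg h d Y = 2 * r)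
    (eab : h a b = 0) (ead : h a d = 0) (ebd : h b d = 0) : False := by
  have hg := c.hg
  have hA : ({a, b, d} : Finset V) ⊆ Y := by
    intro v hv
    simp only [Finset.mem_insert, Finset.mem_singleton] at hv
    rcases hv with rfl | rfl | rfl <;> assumption
  have hcard : ({a, b, d} : Finset V).card = 3 :=
    Finset.card_eq_three.2 ⟨a, b, d, hab, had, hbd, rfl⟩
  have e1 : a ∉ ({b, d} : Finset V) := by simp [hab, had]
  have e2 : b ∉ ({d} : Finset V) := by simp [hbd]
  have hAA : cr h {a, b, d} {a, b, d} = 0 := by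
    rw [cr_triple hg hab had hbd, eab, ead, ebd]
  have hda : dg h a {a, b, d} = 0 := by
    rw [dg_insert h a e1, dg_insert h a e2, dg_singleton, hg.irr, eab, ead]
  have hdb : dg h b {a, b, d} = 0 := by
    rw [dg_insert h b e1, dg_insert h b e2, dg_singleton, hg.irr, hg.symm b a, eab, ebd]
  have hdd : dg h d {a, b, d} = 0 := by
    rw [dg_insert h d e1, dg_insert h d e2, dg_singleton, hg.irr, hg.symm d a, hg.symm d b, ead,
      ebd]
  have fa := dg_sdiff h a hA
  have fb := dg_sdiff h b hA
  have fd := dg_sdiff h d hA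
  have hcr : cr h {a, b, d} (Y \ {a, b, d}) = 6 * r := by
    rw [cr_insert_left h _ e1, cr_insert_left h _ e2, cr_singleton_left]
    omega
  have hst := c.opt.starY {a, b, d} hA
  have hcY : (Y \ {a, b, d}).card + ({a, b, d} : Finset V).card = Y.card :=
    Finset.card_sdiff_add_card_eq_card hA
  have hY := c.cY
  rw [hAA, hcr, hcard] at hst
  rw [hcard] at hcY
  omega

end SA_

open SA_

theorem p_SA (h_F : T_F) (h_GY : T_GY) (h_TL : T_TL) : T_SA := by
  intro V h s r S X Y c t ht t' ht' hne hdt hdt'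
  by_contra hc
  have h0 : h t t' = 0 := by omega
  have hg := c.hg
  obtain ⟨hs, -, hFY⟩ := h_F V h s r S X Y c
  have hdeg : ∀ v ∈ (Y.erase t).erase t',
      dg h v ((Y.erase t).erase t') + 1 ≤ 2 * r := by
    intro v hv
    obtain ⟨hvt', hv'⟩ := Finset.mem_erase.1 hv
    obtain ⟨hvt, hvY⟩ := Finset.mem_erase.1 hv'
    have e1 := dg_erase h v (Finset.mem_erase.2 ⟨hne.symm, ht'⟩ : t' ∈ Y.erase t)
    have e2 := dg_erase h v ht
    have e3 := hFY v hvY
    by_contra hcon
    have e4 : dg h v Y = 2 * r := by omega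
    have e5 : h v t = 0 := by omega
    have e6 : h v t' = 0 := by omega
    exact three c ht ht' hvY hne (Ne.symm hvt) (Ne.symm hvt') hdt hdt' e4 h0
      (by rw [hg.symm]; exact e5) (by rw [hg.symm]; exact e6)
  have hfac := h_TL V h s r S X Y c t ht hdt t' ht' hne.symm hdeg
  have hx : ∀ x ∈ X, 2 ≤ h t x + h t' x := by
    intro x hx
    have := h_GY V h s r S X Y c x hx t ht t' ht' hne hfac
    rw [h0, hg.symm x t, hg.symm x t'] at this
    omega
  have hp := pair_sum h t t' X hx
  have d1 := c.opt.degs t (c.opt.subY ht)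
  have d2 := c.opt.degs t' (c.opt.subY ht')
  have hX := c.cX
  omega

end TSC
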