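import Pool.Agent.TSC.Targets

set_option autoImplicit false

/-!
# TSC, SB: there are no tight vertices
-/

open Classical

namespace TSC

namespace SB_

theorem no_tight (h_F : T_F) (h_GY : T_GY) (h_TL : T_TL) (h_SA : T_SA) {V : Type}
    {h : V → V → ℕ} {s r : ℕ} {S X Y : Finset V} (ctx : Ctx h s r S X Y) {t : V} (ht : t ∈ Y) :
    dg h t Y ≠ 2 * r := by
  intro htight
  obtain ⟨hs, -, hY⟩ := h_F V h s r S X Y ctx
  have hg := ctx.hg
  have claim1 : ∀ y' ∈ Y, y' ≠ t → Fac h ((Y.erase t).erase y') := by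
    intro y' hy' hne
    apply h_TL V h s r S X Y ctx t ht htight y' hy' hne
    intro v hv
    have hv1 := Finset.mem_of_mem_erase hv
    have hvY := Finset.mem_of_mem_erase hv1
    have hvt : v ≠ t := Finset.ne_of_mem_erase hv1
    have h1 : dg h v ((Y.erase t).erase y') ≤ dg h v (Y.erase t) :=
      dg_mono h v (Finset.erase_subset _ _)
    have h2 := dg_erase h v ht
    have h3 := hY v hvY
    by_cases h4 : dg h v Y = 2 * r
    · have h5 := h_SA V h s r S X Y ctx v hvY t ht hvt h4 htight
      omega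
    · omega
  have claim2 : ∀ x ∈ X, ∀ y' ∈ Y, y' ≠ t → 2 ≤ h x t + h x y' + h t y' := by
    intro x hx y' hy' hne
    exact h_GY V h s r S X Y ctx x hx t ht y' hy' (Ne.symm hne) (claim1 y' hy' hne)
  have hX := ctx.cX
  have hYc := ctx.cY
  have hte : (Y.erase t).card = 3 * r + 1 := by
    rw [Finset.card_erase_of_mem ht, hYc]
    rfl
  have htd := ctx.opt.degs t (ctx.opt.subY ht)
  -- first part
  have hlt : r < s := by
    obtain ⟨x, hx, hx0⟩ := exists_heavy h t X (by omega)
    have hxd := ctx.opt.degs x (ctx.opt.subX hx)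
    have hp := pair_sum h x t (Y.erase t) (by
      intro w hw
      have h6 := claim2 x hx w (Finset.mem_of_mem_erase hw) (Finset.ne_of_mem_erase hw)
      rw [hg.symm x t, hx0] at h6
      omega)
    have h7 : dg h x (Y.erase t) ≤ dg h x Y := dg_mono h x (Finset.erase_subset _ _)
    have h8 : dg h t (Y.erase t) ≤ dg h t Y := dg_mono h t (Finset.erase_subset _ _)
    omega
  have hle : s ≤ r := by
    have h8 : dg h t (Y.erase t) ≤ dg h t Y := dg_mono h t (Finset.erase_subset _ _)
    obtain ⟨y', hy', hy0⟩ := exists_heavy h t (Y.erase t) (by omega)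
    have hyY := Finset.mem_of_mem_erase hy'
    have hyd := ctx.opt.degs y' (ctx.opt.subY hyY)
    have hp := pair_sum h t y' X (by
      intro x hx
      have h6 := claim2 x hx y' hyY (Finset.ne_of_mem_erase hy')
      rw [hy0, hg.symm x t, hg.symm x y'] at h6
      omega)
    omega
  omega

end SB_

theorem p_SB (h_F : T_F) (h_GY : T_GY) (h_TL : T_TL) (h_SA : T_SA) : T_SB := by
  intro V h s r S X Y ctx
  obtain ⟨hs, -, hY⟩ := h_F V h s r S X Y ctx
  have key : ∀ y ∈ Y, dg h y Y + 1 ≤ 2 * r := by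
    intro y hy
    have h1 := hY y hy
    have h2 := SB_.no_tight h_F h_GY h_TL h_SA ctx hy
    omega
  refine ⟨?_, key⟩
  obtain ⟨y, hy⟩ := ctx.opt.hY
  have := key y hy
  omega

end TSC
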