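import Pool.Agent.TSC.Targets

set_option autoImplicit false

/-!
# TSC, job TL: the tight lemma
-/

open Classical

namespace TSC

theorem p_TL : T_TL := by
  intro V h s r S X Y c t ht htd y' hy' hne hdeg
  have hg := c.hg
  have hy1 : y' ∈ Y.erase t := Finset.mem_erase.2 ⟨hne, hy'⟩
  have hZc : ((Y.erase t).erase y').card = 3 * r := by
    rw [Finset.card_erase_of_mem hy1, Finset.card_erase_of_mem ht, c.cY]
    omega
  rcases c.ih r (by omega) ((Y.erase t).erase y') hZc hdeg with hF | hB
  · exact hF
  exfalso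
  obtain ⟨A, B, hd, hu, hA3, hB3, hAB, hAne, h1, _⟩ := hB.elim hg (by rw [hZc]; exact ⟨r, rfl⟩)
  have hcard : A.card + B.card = 3 * r := by
    rw [← Finset.card_union_of_disjoint hd, hu, hZc]
  have hAZ : ∀ x ∈ A, x ≠ y' ∧ x ≠ t ∧ x ∈ Y := by
    intro x hx
    have h2 : x ∈ (Y.erase t).erase y' := by rw [← hu]; exact Finset.mem_union_left _ hx
    simpa [Finset.mem_erase] using h2
  have hBZ : ∀ x ∈ B, x ≠ y' ∧ x ≠ t ∧ x ∈ Y := by
    intro x hx
    have h2 : x ∈ (Y.erase t).erase y' := by rw [← hu]; exact Finset.mem_union_right _ hx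
    simpa [Finset.mem_erase] using h2
  have htA : t ∉ A := fun hx => (hAZ t hx).2.1 rfl
  have hyB : y' ∉ B := fun hx => (hBZ y' hx).1 rfl
  have hsub : insert t A ⊆ Y := by
    intro x hx
    rcases Finset.mem_insert.1 hx with rfl | hx
    · exact ht
    · exact (hAZ x hx).2.2
  have hcomp : Y \ insert t A = insert y' B := by
    ext x
    rw [Finset.mem_sdiff, Finset.mem_insert, Finset.mem_insert]
    constructor
    · rintro ⟨hxY, hx⟩
      push Not at hx
      by_cases e : x = y'
      · exact Or.inl e
      · right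
        have h2 : x ∈ A ∪ B := by
          rw [hu, Finset.mem_erase, Finset.mem_erase]
          exact ⟨e, hx.1, hxY⟩
        rcases Finset.mem_union.1 h2 with h3 | h3
        · exact absurd h3 hx.2
        · exact h3
    · rintro (rfl | hx)
      · refine ⟨hy', ?_⟩
        push Not
        exact ⟨hne, fun hx => (hAZ _ hx).1 rfl⟩
      · refine ⟨(hBZ x hx).2.2, ?_⟩
        push Not
        exact ⟨(hBZ x hx).2.1, fun hx' => Finset.disjoint_left.1 hd hx' hx⟩
  have hstar := c.opt.starY (insert t A) hsub
  rw [hcomp, Finset.card_insert_of_notMem htA, Finset.card_insert_of_notMem hyB] at hstar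
  have htt : dg h t (insert t A) = dg h t A := by
    rw [dg_insert h t htA, hg.irr, zero_add]
  have hAt : dg h t A ≤ cr h A (insert t A) := by
    have h2 : cr h A {t} = dg h t A := by
      rw [cr_symm hg, cr_singleton_left]
    rw [← h2]
    exact cr_mono h (Finset.Subset.refl _) (by
      intro x hx
      rw [Finset.mem_singleton] at hx
      rw [hx]
      exact Finset.mem_insert_self _ _)
  have hcr1 : 2 * dg h t A ≤ cr h (insert t A) (insert t A) := by
    rw [cr_insert_left h _ htA, htt]
    omega
  have hcr2 : dg h t (insert y' B) + A.card * B.card ≤ cr h (insert t A) (insert y' B) := by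
    rw [cr_insert_left h _ htA]
    have h2 : A.card * B.card ≤ cr h A B := mul_card_le_cr h A B h1
    have h3 : cr h A B ≤ cr h A (insert y' B) :=
      cr_mono h (Finset.Subset.refl _) (Finset.subset_insert _ _)
    omega
  have hdt : dg h t (insert y' B) + dg h t A = 2 * r := by
    have h2 := dg_sdiff h t hsub
    rw [hcomp, htt, htd] at h2
    exact h2
  obtain ⟨a0, ha0⟩ := hAne
  have hb1 : B.card + 1 ≤ 2 * r := by
    have h2 : a0 ∈ (Y.erase t).erase y' := by rw [← hu]; exact Finset.mem_union_left _ ha0
    have h3 := hdeg a0 h2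
    have h4 : B.card ≤ dg h a0 B := card_le_dg h a0 B (h1 a0 ha0)
    have h5 : dg h a0 B ≤ dg h a0 ((Y.erase t).erase y') := dg_mono h a0 (by
      rw [← hu]; exact Finset.subset_union_right)
    omega
  have hA0 : 1 ≤ A.card := Finset.card_pos.2 ⟨a0, ha0⟩
  have hlt : A.card < B.card := by
    rcases Nat.lt_or_ge A.card B.card with h2 | h2
    · exact h2
    · exfalso
      apply hA3
      omega
  generalize A.card = a at *
  generalize B.card = b at *
  generalize dg h t A = p at *
  generalize dg h t (insert y' B) = q at *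
  generalize cr h (insert t A) (insert t A) = u at *
  generalize cr h (insert t A) (insert y' B) = w at *
  have hfin : 6 * (2 * r) + 6 * (a * b) + 3 * (a + 1) ≤
      2 * (a + 1) * (a + 1) + 4 * (a + 1) * (b + 1) := by
    have h2 : 6 * (2 * r) + 6 * (a * b) ≤ 3 * u + 6 * w := by omega
    omega
  have hle : a ≤ 3 := by
    by_contra hc
    push Not at hc
    obtain ⟨e, rfl⟩ : ∃ e, b = a + 1 + e := ⟨b - a - 1, by omega⟩
    nlinarith
  have ha3 : a ≠ 3 := by
    rintro rfl
    exact hA3 ⟨1, rfl⟩
  omega

end TSC
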