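import Pool.Agent.TSC.Targets

set_option autoImplicit false

/-!
# TSC TR: a crossing triple which hosts all tournaments that are not cyclic
-/

open Classical

namespace TSC

namespace TR_

variable {V : Type}

theorem host_of_order {D : V → V → Prop} {A : Finset V} {T : Fin 3 → Fin 3 → Prop}
    (hT : Tour T) {p q r : V} (hp : p ∈ A) (hq : q ∈ A) (hr : r ∈ A) (hpq : p ≠ q)
    (hpr : p ≠ r) (hqr : q ≠ r) (h1 : D p q) (h2 : D p r) (h3 : D q r) {a b c : Fin 3}
    (hab : a ≠ b) (hac : a ≠ c) (hbc : b ≠ c) (t1 : T a b) (t2 : T a c) (t3 : T b c) :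
    Host D A T := by
  have hdec : ∀ a b c : Fin 3, a ≠ b → a ≠ c → b ≠ c → ∀ i : Fin 3, i = a ∨ i = b ∨ i = c := by
    decide
  have hall := hdec a b c hab hac hbc
  have s1 : ¬ T b a := (hT.2 a b hab).1 t1
  have s2 : ¬ T c a := (hT.2 a c hac).1 t2
  have s3 : ¬ T c b := (hT.2 b c hbc).1 t3
  refine ⟨fun i => if i = a then p else if i = b then q else r, ?_, ?_, ?_⟩
  · intro i j hij
    rcases hall i with rfl | rfl | rfl <;> rcases hall j with rfl | rfl | rfl <;>
      simp_all [Ne.symm hab, Ne.symm hac, Ne.symm hbc]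
  · intro i
    show (if i = a then p else if i = b then q else r) ∈ A
    split_ifs
    · exact hp
    · exact hq
    · exact hr
  · intro i j hij
    show D (if i = a then p else if i = b then q else r) (if j = a then p else if j = b then q
      else r)
    rcases hall i with rfl | rfl | rfl <;> rcases hall j with rfl | rfl | rfl
    · exact absurd hij (hT.1 _)
    · rw [if_pos rfl, if_neg (Ne.symm hab), if_pos rfl]
      exact h1
    · rw [if_pos rfl, if_neg (Ne.symm hac), if_neg (Ne.symm hbc)]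
      exact h2
    · exact absurd hij s1
    · exact absurd hij (hT.1 _)
    · rw [if_neg (Ne.symm hab), if_pos rfl, if_neg (Ne.symm hac), if_neg (Ne.symm hbc)]
      exact h3
    · exact absurd hij s2
    · exact absurd hij s3
    · exact absurd hij (hT.1 _)

theorem host_trans {D : V → V → Prop} {A : Finset V} {T : Fin 3 → Fin 3 → Prop}
    (hT : Tour T) (hc : ¬ IsCyc T) {p q r : V} (hp : p ∈ A) (hq : q ∈ A) (hr : r ∈ A)
    (hpq : p ≠ q) (hpr : p ≠ r) (hqr : q ≠ r) (h1 : D p q) (h2 : D p r) (h3 : D q r) :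
    Host D A T := by
  have n01 : (0 : Fin 3) ≠ 1 := by decide
  have n02 : (0 : Fin 3) ≠ 2 := by decide
  have n12 : (1 : Fin 3) ≠ 2 := by decide
  have key : ∀ {a b c : Fin 3}, a ≠ b → a ≠ c → b ≠ c → T a b → T a c → T b c → Host D A T :=
    fun hab hac hbc t1 t2 t3 =>
      host_of_order hT hp hq hr hpq hpr hqr h1 h2 h3 hab hac hbc t1 t2 t3
  have e01 : ¬ T 0 1 → T 1 0 := fun h => (hT.2 1 0 n01.symm).2 h
  have e12 : ¬ T 1 2 → T 2 1 := fun h => (hT.2 2 1 n12.symm).2 h
  have e02 : ¬ T 0 2 → T 2 0 := fun h => (hT.2 2 0 n02.symm).2 h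
  by_cases h01 : T 0 1
  · by_cases h12 : T 1 2
    · by_cases h02 : T 0 2
      · exact key n01 n02 n12 h01 h02 h12
      · exact absurd (Or.inl ⟨h01, h12, e02 h02⟩) hc
    · by_cases h02 : T 0 2
      · exact key n02 n01 n12.symm h02 h01 (e12 h12)
      · exact key n02.symm n12.symm n01 (e02 h02) (e12 h12) h01
  · by_cases h12 : T 1 2
    · by_cases h02 : T 0 2
      · exact key n01.symm n12 n02 (e01 h01) h12 h02
      · exact key n12 n01.symm n02.symm h12 (e01 h01) (e02 h02)
    · by_cases h02 : T 0 2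
      · exact absurd (Or.inr ⟨h02, e12 h12, e01 h01⟩) hc
      · exact key n12.symm n02.symm n01.symm (e12 h12) (e02 h02) (e01 h01)

theorem hD_one {D : V → V → Prop} {u v : V} (h1 : 1 ≤ hD D u v)
    (h2 : hD D u v ≤ 1) : D u v ∨ D v u := by
  by_contra hc
  rw [not_or] at hc
  have hne : u ≠ v := by
    rintro rfl
    simp [hD] at h1
  unfold hD at h2
  rw [if_neg hne, if_neg hc.1, if_neg hc.2] at h2
  omega

theorem hD_zero {D : V → V → Prop} {u v : V} (hne : u ≠ v) (h : hD D u v = 0) :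
    D u v ∧ D v u := by
  unfold hD at h
  rw [if_neg hne] at h
  by_cases h1 : D u v
  · by_cases h2 : D v u
    · exact ⟨h1, h2⟩
    · rw [if_pos h1, if_neg h2] at h
      omega
  · rw [if_neg h1] at h
    split_ifs at h

end TR_

open TR_ in
theorem p_TR (h_DB : T_DB) : T_TR := by
  intro V D k S X Y hctx
  obtain ⟨hk, hX1, hX2, hY1, hY2, hXY, hx, hy⟩ := h_DB V D k S X Y hctx
  obtain ⟨x, hxX⟩ : X.Nonempty := by
    rw [← Finset.card_pos]
    omega
  obtain ⟨hx1, hx2, hx3⟩ := hx x hxX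
  set N := Y.filter (fun y => hD D x y ≤ 1) with hN
  have hNc : 3 ≤ N.card := by omega
  obtain ⟨y, hyN⟩ : N.Nonempty := by
    rw [← Finset.card_pos]
    omega
  have hyY : y ∈ Y := (Finset.mem_filter.1 hyN).1
  obtain ⟨hy1, hy2⟩ := hy y hyY
  have hsub : N.erase y ⊆ Y := (Finset.erase_subset _ _).trans (Finset.filter_subset _ _)
  have hdm := dg_mono (hD D) y hsub
  have hce : (N.erase y).card = N.card - 1 := Finset.card_erase_of_mem hyN
  obtain ⟨y', hy'N, hyy'⟩ := exists_heavy (hD D) y (N.erase y) (by omega)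
  rw [Finset.mem_erase] at hy'N
  obtain ⟨hne, hy'N⟩ := hy'N
  have hy'Y : y' ∈ Y := (Finset.mem_filter.1 hy'N).1
  have hxy : x ≠ y := fun h => Finset.disjoint_left.1 hctx.disj hxX (h ▸ hyY)
  have hxy' : x ≠ y' := fun h => Finset.disjoint_left.1 hctx.disj hxX (h ▸ hy'Y)
  obtain ⟨d1, d2⟩ := hD_zero hne.symm hyy'
  have a1 := hD_one (hctx.bar x hxX y hyY) (Finset.mem_filter.1 hyN).2
  have a2 := hD_one (hctx.bar x hxX y' hy'Y) (Finset.mem_filter.1 hy'N).2
  refine ⟨x, hxX, y, hyY, y', hy'Y, hne.symm, fun T hT hc => ?_⟩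
  have m1 : x ∈ ({x, y, y'} : Finset V) := by simp
  have m2 : y ∈ ({x, y, y'} : Finset V) := by simp
  have m3 : y' ∈ ({x, y, y'} : Finset V) := by simp
  rcases a1 with a1 | a1
  · rcases a2 with a2 | a2
    · exact host_trans hT hc m1 m2 m3 hxy hxy' hne.symm a1 a2 d1
    · exact host_trans hT hc m3 m1 m2 hxy'.symm hne hxy a2 d2 a1
  · rcases a2 with a2 | a2
    · exact host_trans hT hc m2 m1 m3 hxy.symm hne.symm hxy' a1 d1 a2
    · exact host_trans hT hc m2 m3 m1 hne.symm hxy.symm hxy'.symm d1 a1 a2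

end TSC
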