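import Pool.Agent.TSC.Targets

set_option autoImplicit false

/-!
# TSC: the target T_TRI, cyclic triangles through Neg vertices
-/

open Classical

namespace TSC

namespace TRI_

variable {V : Type}

theorem one_le_of_not {D : V → V → Prop} {u v : V} (h : u ≠ v) (h1 : ¬ D u v) :
    1 ≤ hD D u v := by
  unfold hD
  rw [if_neg h, if_neg h1]
  split_ifs <;> omega

theorem eq_two {D : V → V → Prop} {u v : V} (h : u ≠ v) (h1 : ¬ D u v) (h2 : ¬ D v u) :
    hD D u v = 2 := by
  unfold hD
  rw [if_neg h, if_neg h1, if_neg h2]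

theorem arc_of_le {D : V → V → Prop} {u v : V} (h : u ≠ v) (h1 : ¬ D u v)
    (h2 : hD D u v ≤ 1) : D v u := by
  by_contra hc
  rw [eq_two h h1 hc] at h2
  omega

/-- A lower bound for the degree into `A` if all pairs have an edge and those of `B` two edges. -/
theorem dg_lower {h : V → V → ℕ} {v : V} {A B : Finset V} (hB : B ⊆ A)
    (h1 : ∀ u ∈ A, 1 ≤ h v u) (h2 : ∀ u ∈ B, h v u = 2) : A.card + B.card ≤ dg h v A := by
  have e1 := dg_sdiff h v hB
  have e2 := card_le_dg h v (A \ B) (fun u hu => h1 u (Finset.mem_sdiff.1 hu).1)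
  have e3 := mul_card_le_dg h v B 2 (fun u hu => (h2 u hu).ge)
  have e4 := Finset.card_sdiff_add_card_eq_card hB
  omega

end TRI_

open TRI_ in
/-- T_TRI. -/
theorem p_TRI (h_DB : T_DB) : T_TRI := by
  intro V D k S X Y hc hpn hnot hcard x hx hneg z w
  obtain ⟨hk, ha1, ha2, hb1, hb2, hab, hX, hY⟩ := h_DB V D k S X Y hc
  have hg := hD_hg D
  set XP := X.filter (fun x => Pos D Y x) with hXP
  set XN := X.filter (fun x => Neg D Y x) with hXN
  have hne : ∀ u ∈ X, ∀ v ∈ Y, u ≠ v := by
    intro u hu v hv huv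
    subst huv
    exact Finset.disjoint_left.1 hc.disj hu hv
  have hsum : X.card ≤ XP.card + XN.card := by
    have : X ⊆ XP ∪ XN := by
      intro u hu
      rw [Finset.mem_union, hXP, hXN, Finset.mem_filter, Finset.mem_filter]
      rcases hpn u hu with h | h
      · exact Or.inl ⟨hu, h⟩
      · exact Or.inr ⟨hu, h⟩
    exact (Finset.card_le_card this).trans (Finset.card_union_le _ _)
  set O := XP.filter (fun c => D x c) with hO
  set N := Y.filter (fun y => hD D x y ≤ 1) with hN
  have hOX : O ⊆ X := (Finset.filter_subset _ _).trans (Finset.filter_subset _ _)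
  have hNY : N ⊆ Y := Finset.filter_subset _ _
  have hxP : ¬ Pos D Y x := fun h => hnot x hx ⟨h, hneg⟩
  -- degree of `x` into `XP`
  have h1 : XP.card ≤ O.card + dg (hD D) x X := by
    have e1 := card_le_dg (hD D) x (XP \ O) (by
      intro c hcm
      rw [Finset.mem_sdiff] at hcm
      refine one_le_of_not ?_ ?_
      · rintro rfl
        exact hxP (Finset.mem_filter.1 hcm.1).2
      · intro hd
        exact hcm.2 (Finset.mem_filter.2 ⟨hcm.1, hd⟩))
    have e2 := dg_mono (hD D) x (show XP \ O ⊆ X from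
      Finset.sdiff_subset.trans (Finset.filter_subset _ _))
    have e3 := Finset.card_sdiff_add_card_eq_card (show O ⊆ XP from Finset.filter_subset _ _)
    omega
  obtain ⟨hx1, hx2, hx3⟩ := hX x hx
  have hx3' : 2 * Y.card ≤ dg (hD D) x Y + N.card := by
    rw [hN]
    convert hx3
  have hNc : N.card ≤ Y.card := Finset.card_le_card hNY
  have hNx : ∀ y ∈ N, D y x := by
    intro y hy
    rw [hN, Finset.mem_filter] at hy
    exact arc_of_le (hne x hx y hy.1) (hneg y hy.1) hy.2
  by_contra hcon
  push Not at hcon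
  have hno : ∀ c ∈ O.erase z, ∀ y ∈ N.erase w, ¬ D c y := by
    intro c hcO y hyN hd
    rw [Finset.mem_erase] at hcO hyN
    have hcO' := hcO.2
    rw [hO, Finset.mem_filter, hXP, Finset.mem_filter] at hcO'
    exact hcon c hcO'.1.1 y (hNY hyN.2) hcO'.1.2 hcO.1 hyN.1
      ⟨hNx y hyN.2, hcO'.2, hd⟩
  have htwo : ∀ c ∈ O.erase z, ∀ y ∈ N.erase w, hD D c y = 2 := by
    intro c hcO y hyN
    have hcO' := (Finset.mem_erase.1 hcO).2
    have hyY := hNY (Finset.mem_erase.1 hyN).2
    refine eq_two (hne c (hOX hcO') y hyY) (hno c hcO y hyN) ?_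
    rw [hO, Finset.mem_filter, hXP, Finset.mem_filter] at hcO'
    exact hcO'.1.2 y hyY
  have hO' := Finset.pred_card_le_card_erase (s := O) (a := z)
  have hN' := Finset.pred_card_le_card_erase (s := N) (a := w)
  have hOn : (O.erase z).Nonempty := by
    rw [← Finset.card_pos]
    omega
  have hNn : (N.erase w).Nonempty := by
    rw [← Finset.card_pos]
    omega
  obtain ⟨c, hcm⟩ := hOn
  obtain ⟨y, hym⟩ := hNn
  have hcX := hOX (Finset.mem_erase.1 hcm).2
  have hyY := hNY (Finset.mem_erase.1 hym).2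
  have d1 : Y.card + (N.erase w).card ≤ dg (hD D) c Y := by
    refine dg_lower ((Finset.erase_subset _ _).trans hNY) (fun u hu => hc.bar c hcX u hu) ?_
    exact fun u hu => htwo c hcm u hu
  have d2 : X.card + (O.erase z).card ≤ dg (hD D) y X := by
    refine dg_lower ((Finset.erase_subset _ _).trans hOX) (fun u hu => ?_) ?_
    · rw [hg.symm]
      exact hc.bar u hu y hyY
    · intro u hu
      rw [hg.symm]
      exact htwo u hu y hym
  have d3 := (hX c hcX).1
  have d4 := (hY y hyY).1
  omega

end TSC
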