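import Pool.Agent.TSC.Zf
import Pool.Agent.TSC.Chk

set_option autoImplicit false

/-!
# Packed polynomials (MP_d27362_co)

A polynomial in `lam` with decimal coefficients is evaluated at `lam = B` (a large power of 10);
its coefficients are the digits. `PDec` is the semantic type.
-/

namespace Pool.Agent.TSC

open Polynomial

/-- decimal polynomials in one variable -/
structure PDec where
  p : ℕ[X]
  n : ℕ[X]
  e : ℕ

namespace PDec

noncomputable instance : Ar PDec where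
  zero := ⟨0, 0, 0⟩
  one := ⟨1, 0, 0⟩
  add x y := ⟨x.p * 10 ^ (y.e - x.e) + y.p * 10 ^ (x.e - y.e),
    x.n * 10 ^ (y.e - x.e) + y.n * 10 ^ (x.e - y.e), x.e + (y.e - x.e)⟩
  mul x y := ⟨x.p * y.p + x.n * y.n, x.p * y.n + x.n * y.p, x.e + y.e⟩
  neg x := ⟨x.n, x.p, x.e⟩
  sub x y := ⟨x.p * 10 ^ (y.e - x.e) + y.n * 10 ^ (x.e - y.e),
    x.n * 10 ^ (y.e - x.e) + y.p * 10 ^ (x.e - y.e), x.e + (y.e - x.e)⟩
  nsm k x := ⟨(k : ℕ[X]) * x.p, (k : ℕ[X]) * x.n, x.e⟩

/-- a constant -/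
noncomputable def const (d : Dec) : PDec := ⟨(d.p : ℕ[X]), (d.n : ℕ[X]), d.e⟩

/-- the variable -/
noncomputable def lam : PDec := ⟨X, 0, 0⟩

/-- the value at a natural number -/
noncomputable def at' (B : ℕ) (x : PDec) : Dec := ⟨x.p.eval B, x.n.eval B, x.e⟩

lemma at_const (B : ℕ) (d : Dec) : at' B (const d) = d := by
  unfold at' const
  simp

lemma at_lam (B : ℕ) : at' B lam = ⟨B, 0, 0⟩ := by
  unfold at' lam
  simp

lemma at_hom (B : ℕ) : ArHom (at' B) where
  zero := by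
    show at' B ⟨0, 0, 0⟩ = Dec.zero
    unfold at' Dec.zero; simp
  one := by
    show at' B ⟨1, 0, 0⟩ = Dec.one
    unfold at' Dec.one; simp
  add x y := by
    show at' B ⟨_, _, _⟩ = Dec.add _ _
    unfold at' Dec.add
    simp
  mul x y := by
    show at' B ⟨_, _, _⟩ = Dec.mul _ _
    unfold at' Dec.mul
    simp
  neg x := by
    show at' B ⟨_, _, _⟩ = Dec.neg _
    unfold at' Dec.neg
    simp
  sub x y := by
    show at' B ⟨_, _, _⟩ = Dec.sub _ _
    unfold at' Dec.sub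
    simp
  nsm k x := by
    show at' B ⟨_, _, _⟩ = Dec.nsm _ _
    unfold at' Dec.nsm
    simp

/-- the value of a natural polynomial at a real number -/
noncomputable def rv (x : ℝ) (f : ℕ[X]) : ℝ := f.eval₂ (Nat.castRingHom ℝ) x

/-- the value at a real number -/
noncomputable def val (x : ℝ) (f : PDec) : ℝ := (rv x f.p - rv x f.n) / 10 ^ f.e

lemma rv_add (x : ℝ) (f g : ℕ[X]) : rv x (f + g) = rv x f + rv x g := eval₂_add _ _
lemma rv_mul (x : ℝ) (f g : ℕ[X]) : rv x (f * g) = rv x f * rv x g := eval₂_mul _ _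
lemma rv_nat (x : ℝ) (k : ℕ) : rv x (k : ℕ[X]) = k := by
  unfold rv; simp
lemma rv_ten (x : ℝ) (k : ℕ) : rv x ((10 : ℕ[X]) ^ k) = 10 ^ k := by
  have : (10 : ℕ[X]) ^ k = ((10 ^ k : ℕ) : ℕ[X]) := by push_cast; rfl
  rw [this, rv_nat]
  push_cast
  rfl

lemma val_const (x : ℝ) (d : Dec) : val x (const d) = d.val := by
  unfold val const Dec.val
  rw [rv_nat, rv_nat]

lemma val_lam (x : ℝ) : val x lam = x := by
  unfold val lam rv
  simp

lemma val_hom (x : ℝ) : ArHom (val x) where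
  zero := by
    show val x ⟨0, 0, 0⟩ = (0 : ℝ)
    unfold val rv; simp
  one := by
    show val x ⟨1, 0, 0⟩ = (1 : ℝ)
    unfold val rv; simp
  add f g := by
    show val x ⟨_, _, _⟩ = val x f + val x g
    have h1 : (10 : ℝ) ^ f.e ≠ 0 := by positivity
    have h2 : (10 : ℝ) ^ g.e ≠ 0 := by positivity
    have h3 : (10 : ℝ) ^ (f.e + (g.e - f.e)) ≠ 0 := by positivity
    have e1 : (10 : ℝ) ^ (f.e + (g.e - f.e)) = 10 ^ f.e * 10 ^ (g.e - f.e) := pow_add _ _ _
    have e2 : (10 : ℝ) ^ (f.e + (g.e - f.e)) = 10 ^ g.e * 10 ^ (f.e - g.e) := by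
      rw [Dec.exp_comm, pow_add]
    have k1 : val x f = (rv x f.p - rv x f.n) * 10 ^ (g.e - f.e) / 10 ^ (f.e + (g.e - f.e)) := by
      unfold val
      rw [div_eq_div_iff h1 h3, e1]
      ring
    have k2 : val x g = (rv x g.p - rv x g.n) * 10 ^ (f.e - g.e) / 10 ^ (f.e + (g.e - f.e)) := by
      unfold val
      rw [div_eq_div_iff h2 h3, e2]
      ring
    rw [k1, k2, ← add_div]
    unfold val
    simp only [rv_add, rv_mul, rv_ten]
    congr 1
    ring
  mul f g := by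
    show val x ⟨_, _, _⟩ = val x f * val x g
    unfold val
    simp only [rv_add, rv_mul, pow_add]
    rw [div_mul_div_comm]
    congr 1
    ring
  neg f := by
    show val x ⟨_, _, _⟩ = - val x f
    unfold val
    simp only
    ring
  sub f g := by
    show val x ⟨_, _, _⟩ = val x f - val x g
    have h1 : (10 : ℝ) ^ f.e ≠ 0 := by positivity
    have h2 : (10 : ℝ) ^ g.e ≠ 0 := by positivity
    have h3 : (10 : ℝ) ^ (f.e + (g.e - f.e)) ≠ 0 := by positivity
    have e1 : (10 : ℝ) ^ (f.e + (g.e - f.e)) = 10 ^ f.e * 10 ^ (g.e - f.e) := pow_add _ _ _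
    have e2 : (10 : ℝ) ^ (f.e + (g.e - f.e)) = 10 ^ g.e * 10 ^ (f.e - g.e) := by
      rw [Dec.exp_comm, pow_add]
    have k1 : val x f = (rv x f.p - rv x f.n) * 10 ^ (g.e - f.e) / 10 ^ (f.e + (g.e - f.e)) := by
      unfold val
      rw [div_eq_div_iff h1 h3, e1]
      ring
    have k2 : val x g = (rv x g.p - rv x g.n) * 10 ^ (f.e - g.e) / 10 ^ (f.e + (g.e - f.e)) := by
      unfold val
      rw [div_eq_div_iff h2 h3, e2]
      ring
    rw [k1, k2, ← sub_div]
    unfold val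
    simp only [rv_add, rv_mul, rv_ten]
    congr 1
    ring
  nsm k f := by
    show val x ⟨_, _, _⟩ = (k : ℝ) * val x f
    unfold val
    simp only [rv_mul, rv_nat]
    ring

end PDec

/-! ### digits -/

/-- the digit `i` in the base `B` -/
def dg (B N i : Nat) : Nat := Nat.mod (Nat.div N (Nat.pow B i)) B

lemma dg_eq (B N i : Nat) : dg B N i = N / B ^ i % B := rfl

lemma eval_eq (f : ℕ[X]) (B : ℕ) : f.eval B = f.coeff 0 + B * f.divX.eval B := by
  conv_lhs => rw [← divX_mul_X_add f]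
  simp [mul_comm, add_comm]

lemma rv_eq (f : ℕ[X]) (x : ℝ) : PDec.rv x f = f.coeff 0 + x * PDec.rv x f.divX := by
  conv_lhs => rw [← divX_mul_X_add f]
  unfold PDec.rv
  simp [mul_comm, add_comm]

lemma zero_of_eval {f : ℕ[X]} {B : ℕ} (hB : 0 < B) (h : f.eval B = 0) : f = 0 := by
  ext i
  rw [coeff_zero]
  rw [eval_eq_sum_range] at h
  by_cases hi : i ≤ f.natDegree
  · have := (Finset.sum_eq_zero_iff.1 h) i (Finset.mem_range.2 (by omega))
    rcases Nat.mul_eq_zero.1 this with h | h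
    · exact h
    · exact absurd h (pow_pos hB i).ne'
  · exact coeff_eq_zero_of_natDegree_lt (by omega)

/-- one digit -/
lemma step_digit {f : ℕ[X]} {B : ℕ} (h1 : f.eval 1 < B) :
    f.coeff 0 = f.eval B % B ∧ f.divX.eval B = f.eval B / B ∧ f.divX.eval 1 < B := by
  have e1 := eval_eq f 1
  rw [one_mul] at e1
  have e2 := eval_eq f B
  have h0 : f.coeff 0 < B := by omega
  have hB : 0 < B := by omega
  refine ⟨?_, ?_, by omega⟩
  · rw [e2, Nat.add_mul_mod_self_left, Nat.mod_eq_of_lt h0]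
  · rw [e2, Nat.add_mul_div_left _ _ hB, Nat.div_eq_of_lt h0, zero_add]

/-- the polynomial from its digits -/
lemma digits4 {f : ℕ[X]} {B : ℕ} (h1 : f.eval 1 < B) (h4 : f.eval B < B ^ 4) (x : ℝ) :
    PDec.rv x f = dg B (f.eval B) 0 + dg B (f.eval B) 1 * x + dg B (f.eval B) 2 * x ^ 2 +
      dg B (f.eval B) 3 * x ^ 3 := by
  have hB : 0 < B := by omega
  obtain ⟨a0, b0, c0⟩ := step_digit h1
  obtain ⟨a1, b1, c1⟩ := step_digit c0
  obtain ⟨a2, b2, c2⟩ := step_digit c1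
  obtain ⟨a3, b3, c3⟩ := step_digit c2
  have hz : f.divX.divX.divX.divX.eval B = 0 := by
    rw [b3, b2, b1, b0, Nat.div_div_eq_div_mul, Nat.div_div_eq_div_mul, Nat.div_div_eq_div_mul]
    refine Nat.div_eq_of_lt ?_
    calc f.eval B < B ^ 4 := h4
      _ = B * (B * (B * B)) := by ring
  have hz := zero_of_eval hB hz
  rw [rv_eq f, rv_eq f.divX, rv_eq f.divX.divX, rv_eq f.divX.divX.divX, hz]
  have e0 : PDec.rv x (0 : ℕ[X]) = 0 := by unfold PDec.rv; simp
  rw [e0, a0, a1, a2, a3, b2, b1, b0]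
  simp only [dg_eq, pow_zero, Nat.div_one, pow_one, Nat.div_div_eq_div_mul]
  rw [show B ^ 2 = B * B by ring, show B ^ 3 = B * (B * B) by ring]
  ring_nf

/-- the coefficient is small, its digits are valid, and its exponent is at most `E` -/
def okc (B E : Nat) (x x1 : Dec) : Bool :=
  Nat.ble (Nat.succ x1.p) B && (Nat.ble (Nat.succ x1.n) B &&
    (Nat.ble (Nat.succ x.p) (Nat.pow B 4) && (Nat.ble (Nat.succ x.n) (Nat.pow B 4) &&
      Nat.ble x.e E)))

/-- control coefficients with the factor `k` -/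
def cz0 (B k N : Nat) : Nat := Nat.mul k (dg B N 0)
def cz1 (B k N : Nat) : Nat := Nat.mul k (Nat.add (Nat.mul 3 (dg B N 0)) (dg B N 1))
def cz2 (B k N : Nat) : Nat :=
  Nat.mul k (Nat.add (Nat.add (Nat.mul 3 (dg B N 0)) (Nat.mul 2 (dg B N 1))) (dg B N 2))
def cz3 (B k N : Nat) : Nat :=
  Nat.mul k (Nat.add (Nat.add (dg B N 0) (dg B N 1)) (Nat.add (dg B N 2) (dg B N 3)))

/-- the control coefficient as a pair; `f` is one of the four functions -/
def czz (f : Nat → Nat → Nat → Nat) (B E : Nat) (x : Dec) : Z2 :=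
  ⟨f B (Nat.pow 10 (Nat.sub E x.e)) x.p, f B (Nat.pow 10 (Nat.sub E x.e)) x.n⟩

lemma rv_ctl {f : ℕ[X]} {B : ℕ} (h1 : f.eval 1 < B) (h4 : f.eval B < B ^ 4) (k : ℕ) (x : ℝ) :
    (k : ℝ) * PDec.rv x f = (1 - x) ^ 3 * cz0 B k (f.eval B) +
      (x * (1 - x) ^ 2) * cz1 B k (f.eval B) + (x ^ 2 * (1 - x)) * cz2 B k (f.eval B) +
      x ^ 3 * cz3 B k (f.eval B) := by
  rw [digits4 h1 h4 x]
  unfold cz0 cz1 cz2 cz3
  simp only [Nat.mul_eq, Nat.add_eq, Nat.cast_mul, Nat.cast_add, Nat.cast_ofNat]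
  ring

lemma val_ctl {f : PDec} {B E : ℕ} (h : okc B E (f.at' B) (f.at' 1) = true) (x : ℝ) :
    (10 : ℝ) ^ E * f.val x = (1 - x) ^ 3 * (czz cz0 B E (f.at' B)).val +
      (x * (1 - x) ^ 2) * (czz cz1 B E (f.at' B)).val +
      (x ^ 2 * (1 - x)) * (czz cz2 B E (f.at' B)).val +
      x ^ 3 * (czz cz3 B E (f.at' B)).val := by
  unfold okc at h
  simp only [Bool.and_eq_true] at h
  obtain ⟨h1, h2, h3, h4, h5⟩ := h
  have h1 : f.p.eval 1 < B := Nat.le_of_ble_eq_true h1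
  have h2 : f.n.eval 1 < B := Nat.le_of_ble_eq_true h2
  have h3 : f.p.eval B < B ^ 4 := Nat.le_of_ble_eq_true h3
  have h4 : f.n.eval B < B ^ 4 := Nat.le_of_ble_eq_true h4
  have h5 : f.e ≤ E := Nat.le_of_ble_eq_true h5
  have k1 := rv_ctl h1 h3 (10 ^ (E - f.e)) x
  have k2 := rv_ctl h2 h4 (10 ^ (E - f.e)) x
  have e0 : (10 : ℝ) ^ E = 10 ^ (E - f.e) * 10 ^ f.e := by
    rw [← pow_add, Nat.sub_add_cancel h5]
  have e1 : (10 : ℝ) ^ E * f.val x = ((10 ^ (E - f.e) : ℕ) : ℝ) * PDec.rv x f.p -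
      ((10 ^ (E - f.e) : ℕ) : ℝ) * PDec.rv x f.n := by
    unfold PDec.val
    rw [e0]
    have : (10 : ℝ) ^ f.e ≠ 0 := by positivity
    field_simp
    push_cast
    ring
  rw [e1, k1, k2]
  unfold czz Z2.val PDec.at'
  simp only [Nat.pow_eq, Nat.sub_eq]
  ring

/-- the test for all the coefficients -/
def okQ (B E E4 : Nat) (q q1 : QI Dec) : Bool :=
  okc B E q.c q1.c && (okc B E q.cu q1.cu && (okc B E q.cuu q1.cuu && (okc B E q.cv q1.cv &&
    (okc B E q.cvv q1.cvv && (okc B E q.ca q1.ca && (okc B E q.caa q1.caa &&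
      okc B E4 q.l q1.l))))))

/-- a control form; `k` is added to the constant term -/
def qz (f : Nat → Nat → Nat → Nat) (B E E4 : Nat) (q : QI Dec) (k : Z2) : QI Z2 :=
  ⟨Z2.add (czz f B E q.c) k, czz f B E q.cu, czz f B E q.cuu, czz f B E q.cv, czz f B E q.cvv,
    czz f B E q.ca, czz f B E q.caa, czz f B E4 q.l⟩

lemma qz_sum {q : QI PDec} {B E E4 : ℕ} (hE : E = E4 + 4)
    (h : okQ B E E4 (q.map (PDec.at' B)) (q.map (PDec.at' 1)) = true) (k0 k1 k2 k3 : Z2)
    (x u v a : ℝ) :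
    (10 : ℝ) ^ E * (q.map (PDec.val x)).ev u v a =
      (1 - x) ^ 3 * ((qz cz0 B E E4 (q.map (PDec.at' B)) k0).realz.ev u v a - k0.val) +
      (x * (1 - x) ^ 2) * ((qz cz1 B E E4 (q.map (PDec.at' B)) k1).realz.ev u v a - k1.val) +
      (x ^ 2 * (1 - x)) * ((qz cz2 B E E4 (q.map (PDec.at' B)) k2).realz.ev u v a - k2.val) +
      x ^ 3 * ((qz cz3 B E E4 (q.map (PDec.at' B)) k3).realz.ev u v a - k3.val) := by
  unfold okQ at h
  simp only [Bool.and_eq_true] at h
  obtain ⟨h1, h2, h3, h4, h5, h6, h7, h8⟩ := h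
  have g1 := val_ctl h1 x
  have g2 := val_ctl h2 x
  have g3 := val_ctl h3 x
  have g4 := val_ctl h4 x
  have g5 := val_ctl h5 x
  have g6 := val_ctl h6 x
  have g7 := val_ctl h7 x
  have g8 := val_ctl h8 x
  have hE' : (10 : ℝ) ^ E = 10000 * 10 ^ E4 := by rw [hE, pow_add]; norm_num; ring
  unfold QI.ev QI.realz qz QI.map
  simp only [Z2.val_add]
  have e8 : (10 : ℝ) ^ E * PDec.val x q.l = 10000 * ((10 : ℝ) ^ E4 * PDec.val x q.l) := by
    rw [hE']; ring
  have key : (10 : ℝ) ^ E * (PDec.val x q.c + PDec.val x q.cu * u + PDec.val x q.cuu * u ^ 2 +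
      PDec.val x q.cv * v + PDec.val x q.cvv * v ^ 2 + PDec.val x q.ca * a +
      PDec.val x q.caa * a ^ 2 - PDec.val x q.l * Real.sqrt (v ^ 2 + a ^ 2)) =
      (10 : ℝ) ^ E * PDec.val x q.c + ((10 : ℝ) ^ E * PDec.val x q.cu) * u +
      ((10 : ℝ) ^ E * PDec.val x q.cuu) * u ^ 2 + ((10 : ℝ) ^ E * PDec.val x q.cv) * v +
      ((10 : ℝ) ^ E * PDec.val x q.cvv) * v ^ 2 + ((10 : ℝ) ^ E * PDec.val x q.ca) * a +
      ((10 : ℝ) ^ E * PDec.val x q.caa) * a ^ 2 -
      ((10 : ℝ) ^ E * PDec.val x q.l) * Real.sqrt (v ^ 2 + a ^ 2) := by ring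
  rw [key, e8, g1, g2, g3, g4, g5, g6, g7, g8]
  ring

/-- the number with the index `i`, times `10^E`, `s = 10^(E-5)` -/
def kz (s i : Nat) : Z2 := ⟨Nat.mul s i, Nat.mul s 1000000⟩
def kzn (s i : Nat) : Z2 := ⟨Nat.mul s 1000000, Nat.mul s i⟩

lemma kz_val (s i : Nat) : (kzn s i).val = - (kz s i).val := by
  unfold kz kzn Z2.val; ring

/-- one control pair; `0 ≤ v ≤ WU` in the first form, `0 ≤ w ≤ WY` in the second -/
def chkJ (f : Nat → Nat → Nat → Nat) (WU WY B E E4 s th : Nat) (p : QI Dec × QI Dec)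
    (i : Nat) : Bool :=
  chkz WU th (qz f B E E4 p.1 (kzn s i)) && chkz WY th (qz f B E E4 p.2 (kz s i))

lemma chkJ_sound {f : Nat → Nat → Nat → Nat} {WU WY B E E4 s th : Nat} (hWU : 1 ≤ WU)
    (hWY : 1 ≤ WY) {p : QI Dec × QI Dec} {i : Nat}
    (h : chkJ f WU WY B E E4 s th p i = true) {u v a y w b : ℝ}
    (hv : 0 ≤ v) (hv2 : v ≤ WU) (ha : 0 ≤ a) (hu : |u - v| ≤ (th : ℝ) / 10000 * a)
    (hw : 0 ≤ w) (hw2 : w ≤ WY) (hb : 0 ≤ b) (hy : |y - w| ≤ (th : ℝ) / 10000 * b) :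
    0 ≤ ((qz f B E E4 p.1 (kzn s i)).realz.ev u v a - (kzn s i).val) +
      ((qz f B E E4 p.2 (kz s i)).realz.ev y w b - (kz s i).val) := by
  unfold chkJ at h
  simp only [Bool.and_eq_true] at h
  have h1 := chkz_sound hWU h.1 hv hv2 ha hu
  have h2 := chkz_sound hWY h.2 hw hw2 hb hy
  rw [kz_val]
  linarith

/-- the list of the inequalities (at `B` and at `1`) against the list of the indices -/
def chkL (WU WY B E E4 s th : Nat) :
    List (QI Dec × QI Dec) → List (QI Dec × QI Dec) → List Nat → Bool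
  | [], _, _ => true
  | p :: l, p1 :: l1, k0 :: k1 :: k2 :: k3 :: ks =>
    okQ B E E4 p.1 p1.1 && (okQ B E E4 p.2 p1.2 && (chkJ cz0 WU WY B E E4 s th p k0 &&
      (chkJ cz1 WU WY B E E4 s th p k1 && (chkJ cz2 WU WY B E E4 s th p k2 &&
        (chkJ cz3 WU WY B E E4 s th p k3 && chkL WU WY B E E4 s th l l1 ks)))))
  | _ :: _, _, _ => false

/-- **soundness of the packed test** -/
theorem chkL_sound {WU WY B E4 s th : Nat} (hWU : 1 ≤ WU) (hWY : 1 ≤ WY) :
    ∀ {G : List (QI PDec × QI PDec)} {ks : List Nat},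
    chkL WU WY B (E4 + 4) E4 s th (G.map (pmap (PDec.at' B))) (G.map (pmap (PDec.at' 1))) ks = true →
    ∀ p ∈ G, ∀ x : ℝ, 0 ≤ x → x ≤ 1 → ∀ u v a y w b : ℝ,
    0 ≤ v → v ≤ WU → 0 ≤ a → |u - v| ≤ (th : ℝ) / 10000 * a →
    0 ≤ w → w ≤ WY → 0 ≤ b → |y - w| ≤ (th : ℝ) / 10000 * b →
    0 ≤ pev (pmap (PDec.val x) p) u v a y w b
  | [], _, _, p, hp => by simp at hp
  | q :: G, ks, h, p, hp => by
    intro x hx hx1 u v a y w b hv hv2 ha hu hw hw2 hb hy
    rcases ks with _ | ⟨k0, _ | ⟨k1, _ | ⟨k2, _ | ⟨k3, ks⟩⟩⟩⟩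
    · simp [chkL] at h
    · simp [chkL] at h
    · simp [chkL] at h
    · simp [chkL] at h
    · simp only [List.map_cons, chkL, Bool.and_eq_true] at h
      obtain ⟨o1, o2, c0, c1, c2, c3, hr⟩ := h
      rcases List.mem_cons.1 hp with rfl | hp
      · have hx' : 0 ≤ 1 - x := by linarith
        have s1 := qz_sum (q := p.1) (B := B) (E := E4 + 4) (E4 := E4) rfl o1 (kzn s k0)
          (kzn s k1) (kzn s k2) (kzn s k3) x u v a
        have s2 := qz_sum (q := p.2) (B := B) (E := E4 + 4) (E4 := E4) rfl o2 (kz s k0)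
          (kz s k1) (kz s k2) (kz s k3) x y w b
        have j0 := mul_nonneg (pow_nonneg hx' 3) (chkJ_sound hWU hWY c0 hv hv2 ha hu hw hw2 hb hy)
        have j1 := mul_nonneg (mul_nonneg hx (pow_nonneg hx' 2))
          (chkJ_sound hWU hWY c1 hv hv2 ha hu hw hw2 hb hy)
        have j2 := mul_nonneg (mul_nonneg (pow_nonneg hx 2) hx')
          (chkJ_sound hWU hWY c2 hv hv2 ha hu hw hw2 hb hy)
        have j3 := mul_nonneg (pow_nonneg hx 3) (chkJ_sound hWU hWY c3 hv hv2 ha hu hw hw2 hb hy)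
        have hpos : (0 : ℝ) < 10 ^ (E4 + 4) := by positivity
        have key : 0 ≤ (10 : ℝ) ^ (E4 + 4) * pev (pmap (PDec.val x) p) u v a y w b := by
          unfold pev pmap
          simp only
          rw [mul_add, s1, s2]
          unfold pmap at j0 j1 j2 j3
          simp only at j0 j1 j2 j3
          linarith
        by_contra hneg
        push Not at hneg
        have := mul_neg_of_pos_of_neg hpos hneg
        linarith
      · exact chkL_sound hWU hWY hr p hp x hx hx1 u v a y w b hv hv2 ha hu hw hw2 hb hy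

/-! ### search for the indices (only for `#eval`) -/

def searchJ (f : Nat → Nat → Nat → Nat) (WY B E E4 s th : Nat) (q : QI Dec) :
    Nat → Nat → Nat → Nat
  | 0, _, hi => hi
  | n + 1, lo, hi =>
    let m := (lo + hi) / 2
    if chkz WY th (qz f B E E4 q (kz s m)) then searchJ f WY B E E4 s th q n lo m
    else searchJ f WY B E E4 s th q n m hi

/-- the smallest valid index and whether the other half passes -/
def findJ (f : Nat → Nat → Nat → Nat) (WU WY B E E4 s th : Nat) (p : QI Dec × QI Dec) :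
    Nat × Bool :=
  let i := searchJ f WY B E E4 s th p.2 21 0 2000000
  (i, chkJ f WU WY B E E4 s th p i)

/-- all indices of a list of inequalities; the verdicts -/
def findL (WU WY B E E4 s th : Nat) :
    List (QI Dec × QI Dec) → List (QI Dec × QI Dec) → List Nat × List Bool
  | p :: l, p1 :: l1 =>
    let r := [findJ cz0 WU WY B E E4 s th p, findJ cz1 WU WY B E E4 s th p,
      findJ cz2 WU WY B E E4 s th p, findJ cz3 WU WY B E E4 s th p]
    let t := findL WU WY B E E4 s th l l1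
    (r.map Prod.fst ++ t.1, (okQ B E E4 p.1 p1.1 && okQ B E E4 p.2 p1.2 && r.all Prod.snd) :: t.2)
  | _, _ => ([], [])

end Pool.Agent.TSC
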