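import Pool.Agent.TSC.Pack

set_option autoImplicit false

/-!
# Packed polynomials in two variables (MP_d27362_co)

The outer variable is `mu`, the inner one is `lam`. The generator is evaluated at
`(lam, mu) = (B, M)`, `(B, 1)` and `(1, 1)` with `M = B^4`.
-/

namespace Pool.Agent.TSC

open Polynomial

/-- decimal numbers over a semiring -/
structure DS (R : Type) where
  p : R
  n : R
  e : ℕ

namespace DS

variable {R : Type} [CommSemiring R]

instance : Ar (DS R) where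
  zero := ⟨0, 0, 0⟩
  one := ⟨1, 0, 0⟩
  add x y := ⟨x.p * 10 ^ (y.e - x.e) + y.p * 10 ^ (x.e - y.e),
    x.n * 10 ^ (y.e - x.e) + y.n * 10 ^ (x.e - y.e), x.e + (y.e - x.e)⟩
  mul x y := ⟨x.p * y.p + x.n * y.n, x.p * y.n + x.n * y.p, x.e + y.e⟩
  neg x := ⟨x.n, x.p, x.e⟩
  sub x y := ⟨x.p * 10 ^ (y.e - x.e) + y.n * 10 ^ (x.e - y.e),
    x.n * 10 ^ (y.e - x.e) + y.p * 10 ^ (x.e - y.e), x.e + (y.e - x.e)⟩
  nsm k x := ⟨(k : R) * x.p, (k : R) * x.n, x.e⟩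

/-- a constant -/
def const (d : Dec) : DS R := ⟨(d.p : R), (d.n : R), d.e⟩

/-- an element of the semiring -/
def of (r : R) : DS R := ⟨r, 0, 0⟩

/-- the decimal number given by a homomorphism -/
def dec (f : R →+* ℕ) (x : DS R) : Dec := ⟨f x.p, f x.n, x.e⟩

lemma dec_const (f : R →+* ℕ) (d : Dec) : dec f (const d) = d := by
  unfold dec const
  simp

lemma dec_of (f : R →+* ℕ) (r : R) : dec f (of r) = ⟨f r, 0, 0⟩ := by
  unfold dec of
  simp

lemma dec_hom (f : R →+* ℕ) : ArHom (dec f) where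
  zero := by
    show dec f ⟨0, 0, 0⟩ = Dec.zero
    unfold dec Dec.zero; simp
  one := by
    show dec f ⟨1, 0, 0⟩ = Dec.one
    unfold dec Dec.one; simp
  add x y := by
    show dec f ⟨_, _, _⟩ = Dec.add _ _
    have h10 : f 10 = 10 := map_ofNat f 10
    unfold dec Dec.add
    simp [h10]
  mul x y := by
    show dec f ⟨_, _, _⟩ = Dec.mul _ _
    unfold dec Dec.mul
    simp
  neg x := by
    show dec f ⟨_, _, _⟩ = Dec.neg _
    unfold dec Dec.neg
    simp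
  sub x y := by
    show dec f ⟨_, _, _⟩ = Dec.sub _ _
    have h10 : f 10 = 10 := map_ofNat f 10
    unfold dec Dec.sub
    simp [h10]
  nsm k x := by
    show dec f ⟨_, _, _⟩ = Dec.nsm _ _
    unfold dec Dec.nsm
    simp

/-- the real number given by a homomorphism -/
noncomputable def val (f : R →+* ℝ) (x : DS R) : ℝ := (f x.p - f x.n) / 10 ^ x.e

lemma val_const (f : R →+* ℝ) (d : Dec) : val f (const d) = d.val := by
  unfold val const Dec.val
  simp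

lemma val_of (f : R →+* ℝ) (r : R) : val f (of r) = f r := by
  unfold val of
  simp

lemma val_hom (g : R →+* ℝ) : ArHom (val g) where
  zero := by
    show val g ⟨0, 0, 0⟩ = (0 : ℝ)
    unfold val; simp
  one := by
    show val g ⟨1, 0, 0⟩ = (1 : ℝ)
    unfold val; simp
  add x y := by
    show val g ⟨_, _, _⟩ = val g x + val g y
    have h1 : (10 : ℝ) ^ x.e ≠ 0 := by positivity
    have h2 : (10 : ℝ) ^ y.e ≠ 0 := by positivity
    have h3 : (10 : ℝ) ^ (x.e + (y.e - x.e)) ≠ 0 := by positivity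
    have e1 : (10 : ℝ) ^ (x.e + (y.e - x.e)) = 10 ^ x.e * 10 ^ (y.e - x.e) := pow_add _ _ _
    have e2 : (10 : ℝ) ^ (x.e + (y.e - x.e)) = 10 ^ y.e * 10 ^ (x.e - y.e) := by
      rw [Dec.exp_comm, pow_add]
    have k1 : val g x = (g x.p - g x.n) * 10 ^ (y.e - x.e) / 10 ^ (x.e + (y.e - x.e)) := by
      unfold val
      rw [div_eq_div_iff h1 h3, e1]
      ring
    have k2 : val g y = (g y.p - g y.n) * 10 ^ (x.e - y.e) / 10 ^ (x.e + (y.e - x.e)) := by
      unfold val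
      rw [div_eq_div_iff h2 h3, e2]
      ring
    rw [k1, k2, ← add_div]
    unfold val
    simp only [map_add, map_mul, map_pow, map_ofNat]
    congr 1
    ring
  mul x y := by
    show val g ⟨_, _, _⟩ = val g x * val g y
    unfold val
    simp only [map_add, map_mul, pow_add]
    rw [div_mul_div_comm]
    congr 1
    ring
  neg x := by
    show val g ⟨_, _, _⟩ = - val g x
    unfold val
    simp only
    ring
  sub x y := by
    show val g ⟨_, _, _⟩ = val g x - val g y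
    have h1 : (10 : ℝ) ^ x.e ≠ 0 := by positivity
    have h2 : (10 : ℝ) ^ y.e ≠ 0 := by positivity
    have h3 : (10 : ℝ) ^ (x.e + (y.e - x.e)) ≠ 0 := by positivity
    have e1 : (10 : ℝ) ^ (x.e + (y.e - x.e)) = 10 ^ x.e * 10 ^ (y.e - x.e) := pow_add _ _ _
    have e2 : (10 : ℝ) ^ (x.e + (y.e - x.e)) = 10 ^ y.e * 10 ^ (x.e - y.e) := by
      rw [Dec.exp_comm, pow_add]
    have k1 : val g x = (g x.p - g x.n) * 10 ^ (y.e - x.e) / 10 ^ (x.e + (y.e - x.e)) := by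
      unfold val
      rw [div_eq_div_iff h1 h3, e1]
      ring
    have k2 : val g y = (g y.p - g y.n) * 10 ^ (x.e - y.e) / 10 ^ (x.e + (y.e - x.e)) := by
      unfold val
      rw [div_eq_div_iff h2 h3, e2]
      ring
    rw [k1, k2, ← sub_div]
    unfold val
    simp only [map_add, map_mul, map_pow, map_ofNat]
    congr 1
    ring
  nsm k x := by
    show val g ⟨_, _, _⟩ = (k : ℝ) * val g x
    unfold val
    simp only [map_mul, map_natCast]
    ring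

end DS

/-- natural polynomials in two variables -/
abbrev N2 := Polynomial (Polynomial ℕ)

/-- the value at natural numbers -/
noncomputable def e2 (L M : ℕ) : N2 →+* ℕ := eval₂RingHom (evalRingHom L) M

/-- the value at real numbers -/
noncomputable def r2 (x y : ℝ) : N2 →+* ℝ := eval₂RingHom (eval₂RingHom (Nat.castRingHom ℝ) x) y

lemma e2_eq (f : N2) (L M : ℕ) : e2 L M f = (f.coeff 0).eval L + M * e2 L M f.divX := by
  conv_lhs => rw [← divX_mul_X_add f]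
  simp [e2, mul_comm, add_comm]

lemma r2_eq (f : N2) (x y : ℝ) : r2 x y f = PDec.rv x (f.coeff 0) + y * r2 x y f.divX := by
  conv_lhs => rw [← divX_mul_X_add f]
  simp [r2, PDec.rv, mul_comm, add_comm]

lemma e2_X (L M : ℕ) : e2 L M X = M := by simp [e2]
lemma e2_CX (L M : ℕ) : e2 L M (C X) = L := by simp [e2]
lemma r2_X (x y : ℝ) : r2 x y X = y := by simp [r2]
lemma r2_CX (x y : ℝ) : r2 x y (C X) = x := by simp [r2]

lemma zero_of_e2 {f : N2} {L M : ℕ} (hL : 0 < L) (hM : 0 < M) (h : e2 L M f = 0) : f = 0 := by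
  have h' : f.eval₂ (evalRingHom L) M = 0 := h
  rw [eval₂_eq_sum_range] at h'
  apply Polynomial.ext
  intro i
  rw [coeff_zero]
  by_cases hi : i ≤ f.natDegree
  · have := (Finset.sum_eq_zero_iff.1 h') i (Finset.mem_range.2 (by omega))
    rcases Nat.mul_eq_zero.1 this with h | h
    · exact zero_of_eval hL h
    · exact absurd h (pow_pos hM i).ne'
  · exact coeff_eq_zero_of_natDegree_lt (by omega)

lemma step2 {f : N2} {L M : ℕ} (h1 : e2 L 1 f < M) :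
    (f.coeff 0).eval L = e2 L M f % M ∧ e2 L M f.divX = e2 L M f / M ∧
      e2 L 1 f.divX < M := by
  have e1 := e2_eq f L 1
  rw [one_mul] at e1
  have e3 := e2_eq f L M
  have h0 : (f.coeff 0).eval L < M := by omega
  have hM : 0 < M := by omega
  refine ⟨?_, ?_, by omega⟩
  · rw [e3, Nat.add_mul_mod_self_left, Nat.mod_eq_of_lt h0]
  · rw [e3, Nat.add_mul_div_left _ _ hM, Nat.div_eq_of_lt h0, zero_add]

/-- outer control polynomial -/
noncomputable def Fc (a b c : ℕ) (f : N2) : ℕ[X] :=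
  (a : ℕ[X]) * f.coeff 0 + (b : ℕ[X]) * f.divX.coeff 0 + (c : ℕ[X]) * f.divX.divX.coeff 0

/-- its packed value -/
def gc (a b c M N : ℕ) : ℕ := a * (N % M) + b * (N / M % M) + c * (N / M / M % M)

lemma Fc_eval {a b c : ℕ} {f : N2} {L M : ℕ} (h1 : e2 L 1 f < M) :
    (Fc a b c f).eval L = gc a b c M (e2 L M f) := by
  obtain ⟨a0, b0, c0⟩ := step2 h1
  obtain ⟨a1, b1, c1⟩ := step2 c0
  obtain ⟨a2, _, _⟩ := step2 c1
  unfold Fc gc
  simp only [eval_add, eval_mul, eval_natCast, Nat.cast_id]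
  rw [a0, a1, a2, b1, b0]

lemma Fc_le {a b c : ℕ} (ha : a ≤ 2) (hb : b ≤ 2) (hc : c ≤ 2) (f : N2) (L : ℕ) :
    (Fc a b c f).eval L ≤ 2 * e2 L 1 f := by
  have e0 := e2_eq f L 1
  have e1 := e2_eq f.divX L 1
  have e3 := e2_eq f.divX.divX L 1
  rw [one_mul] at e0 e1 e3
  unfold Fc
  simp only [eval_add, eval_mul, eval_natCast, Nat.cast_id]
  have h0 := Nat.mul_le_mul_right ((f.coeff 0).eval L) ha
  have h1 := Nat.mul_le_mul_right ((f.divX.coeff 0).eval L) hb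
  have h2 := Nat.mul_le_mul_right ((f.divX.divX.coeff 0).eval L) hc
  omega

lemma r2_zero (x y : ℝ) : r2 x y 0 = 0 := map_zero _

lemma rv_Fc (a b c : ℕ) (f : N2) (x : ℝ) :
    PDec.rv x (Fc a b c f) = a * PDec.rv x (f.coeff 0) + b * PDec.rv x (f.divX.coeff 0) +
      c * PDec.rv x (f.divX.divX.coeff 0) := by
  unfold Fc
  simp only [PDec.rv_add, PDec.rv_mul, PDec.rv_nat]

lemma r2_d0 {f : N2} {L M : ℕ} (hL : 0 < L) (h1 : e2 L 1 f < M) (h2 : e2 L M f < M ^ 1)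
    (x y : ℝ) : r2 x y f = PDec.rv x (Fc 1 0 0 f) := by
  obtain ⟨a0, b0, c0⟩ := step2 h1
  have hM : 0 < M := by omega
  have hz : e2 L M f.divX = 0 := by
    rw [b0]
    exact Nat.div_eq_of_lt (by rwa [pow_one] at h2)
  have hz := zero_of_e2 hL hM hz
  rw [r2_eq f, hz, r2_zero, rv_Fc]
  push_cast
  ring

lemma r2_d1 {f : N2} {L M : ℕ} (hL : 0 < L) (h1 : e2 L 1 f < M) (h2 : e2 L M f < M ^ 2)
    (x y : ℝ) :
    r2 x y f = (1 - y) * PDec.rv x (Fc 1 0 0 f) + y * PDec.rv x (Fc 1 1 0 f) := by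
  obtain ⟨a0, b0, c0⟩ := step2 h1
  obtain ⟨a1, b1, c1⟩ := step2 c0
  have hM : 0 < M := by omega
  have hz : e2 L M f.divX.divX = 0 := by
    rw [b1, b0, Nat.div_div_eq_div_mul]
    exact Nat.div_eq_of_lt (by rwa [sq] at h2)
  have hz := zero_of_e2 hL hM hz
  rw [r2_eq f, r2_eq f.divX, hz, r2_zero, rv_Fc, rv_Fc]
  push_cast
  ring

lemma r2_d2 {f : N2} {L M : ℕ} (hL : 0 < L) (h1 : e2 L 1 f < M) (h2 : e2 L M f < M ^ 3)
    (x y : ℝ) :
    r2 x y f = (1 - y) ^ 2 * PDec.rv x (Fc 1 0 0 f) + (y * (1 - y)) * PDec.rv x (Fc 2 1 0 f) +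
      y ^ 2 * PDec.rv x (Fc 1 1 1 f) := by
  obtain ⟨a0, b0, c0⟩ := step2 h1
  obtain ⟨a1, b1, c1⟩ := step2 c0
  obtain ⟨a2, b2, c2⟩ := step2 c1
  have hM : 0 < M := by omega
  have hz : e2 L M f.divX.divX.divX = 0 := by
    rw [b2, b1, b0, Nat.div_div_eq_div_mul, Nat.div_div_eq_div_mul]
    refine Nat.div_eq_of_lt ?_
    calc e2 L M f < M ^ 3 := h2
      _ = M * (M * M) := by ring
  have hz := zero_of_e2 hL hM hz
  rw [r2_eq f, r2_eq f.divX, r2_eq f.divX.divX, hz, r2_zero, rv_Fc, rv_Fc, rv_Fc]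
  push_cast
  ring

/-- the control polynomial of a decimal polynomial -/
noncomputable def Fd (a b c : ℕ) (f : DS N2) : PDec := ⟨Fc a b c f.p, Fc a b c f.n, f.e⟩

/-- its packed value -/
def gd (a b c M : ℕ) (x : Dec) : Dec := ⟨gc a b c M x.p, gc a b c M x.n, x.e⟩

/-- the conditions on the packed values of a coefficient at `(B, M)`, `(B, 1)`, `(1, 1)` -/
def okc2 (nd B M E : Nat) (x xB x1 : Dec) : Bool :=
  Nat.ble (Nat.succ (Nat.mul 2 x1.p)) B && (Nat.ble (Nat.succ (Nat.mul 2 x1.n)) B &&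
    (Nat.ble (Nat.succ (Nat.mul 2 xB.p)) M && (Nat.ble (Nat.succ (Nat.mul 2 xB.n)) M &&
      (Nat.ble (Nat.succ x.p) (Nat.pow M nd) && (Nat.ble (Nat.succ x.n) (Nat.pow M nd) &&
        Nat.ble x.e E)))))

structure OKc (nd B E : Nat) (f : DS N2) : Prop where
  p1 : 2 * e2 1 1 f.p < B
  n1 : 2 * e2 1 1 f.n < B
  pB : 2 * e2 B 1 f.p < B ^ 4
  nB : 2 * e2 B 1 f.n < B ^ 4
  p : e2 B (B ^ 4) f.p < (B ^ 4) ^ nd
  n : e2 B (B ^ 4) f.n < (B ^ 4) ^ nd
  e : f.e ≤ E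

lemma okc2_iff {nd B M E : Nat} (hM : M = B ^ 4) {f : DS N2}
    (h : okc2 nd B M E (f.dec (e2 B M)) (f.dec (e2 B 1)) (f.dec (e2 1 1)) = true) :
    OKc nd B E f := by
  subst hM
  unfold okc2 at h
  simp only [Bool.and_eq_true] at h
  obtain ⟨h1, h2, h3, h4, h5, h6, h7⟩ := h
  exact ⟨Nat.le_of_ble_eq_true h1, Nat.le_of_ble_eq_true h2, Nat.le_of_ble_eq_true h3,
    Nat.le_of_ble_eq_true h4, Nat.le_of_ble_eq_true h5, Nat.le_of_ble_eq_true h6,
    Nat.le_of_ble_eq_true h7⟩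

lemma OKc.okc {nd B E : Nat} {f : DS N2} (h : OKc nd B E f) {a b c : ℕ} (ha : a ≤ 2)
    (hb : b ≤ 2) (hc : c ≤ 2) : okc B E ((Fd a b c f).at' B) ((Fd a b c f).at' 1) = true := by
  have g1 := Fc_le ha hb hc f.p 1
  have g2 := Fc_le ha hb hc f.n 1
  have g3 := Fc_le ha hb hc f.p B
  have g4 := Fc_le ha hb hc f.n B
  have h1 := h.p1
  have h2 := h.n1
  have h3 := h.pB
  have h4 := h.nB
  unfold TSC.okc PDec.at' Fd
  simp only [Bool.and_eq_true]
  refine ⟨Nat.ble_eq_true_of_le ?_, Nat.ble_eq_true_of_le ?_, Nat.ble_eq_true_of_le ?_,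
    Nat.ble_eq_true_of_le ?_, Nat.ble_eq_true_of_le h.e⟩
  · exact Nat.succ_le_of_lt (by omega)
  · exact Nat.succ_le_of_lt (by omega)
  · exact Nat.succ_le_of_lt (by show _ < B ^ 4; omega)
  · exact Nat.succ_le_of_lt (by show _ < B ^ 4; omega)

lemma OKc.at {nd B E : Nat} {f : DS N2} (h : OKc nd B E f) (a b c : ℕ) :
    (Fd a b c f).at' B = gd a b c (B ^ 4) (f.dec (e2 B (B ^ 4))) := by
  have h3 := h.pB
  have h4 := h.nB
  unfold Fd PDec.at' gd DS.dec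
  simp only
  rw [Fc_eval (f := f.p) (L := B) (M := B ^ 4) (by omega),
    Fc_eval (f := f.n) (L := B) (M := B ^ 4) (by omega)]

lemma OKc.d0 {B E : Nat} {f : DS N2} (h : OKc 1 B E f) (x y : ℝ) :
    f.val (r2 x y) = (Fd 1 0 0 f).val x := by
  have h1 := h.p1
  have h3 := h.pB
  have h4 := h.nB
  unfold DS.val PDec.val Fd
  simp only
  rw [r2_d0 (f := f.p) (L := B) (M := B ^ 4) (by omega) (by omega) h.p,
    r2_d0 (f := f.n) (L := B) (M := B ^ 4) (by omega) (by omega) h.n]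

lemma OKc.d1 {B E : Nat} {f : DS N2} (h : OKc 2 B E f) (x y : ℝ) :
    f.val (r2 x y) = (1 - y) * (Fd 1 0 0 f).val x + y * (Fd 1 1 0 f).val x := by
  have h1 := h.p1
  have h3 := h.pB
  have h4 := h.nB
  unfold DS.val PDec.val Fd
  simp only
  rw [r2_d1 (f := f.p) (L := B) (M := B ^ 4) (by omega) (by omega) h.p,
    r2_d1 (f := f.n) (L := B) (M := B ^ 4) (by omega) (by omega) h.n]
  ring

lemma OKc.d2 {B E : Nat} {f : DS N2} (h : OKc 3 B E f) (x y : ℝ) :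
    f.val (r2 x y) = (1 - y) ^ 2 * (Fd 1 0 0 f).val x + (y * (1 - y)) * (Fd 2 1 0 f).val x +
      y ^ 2 * (Fd 1 1 1 f).val x := by
  have h1 := h.p1
  have h3 := h.pB
  have h4 := h.nB
  unfold DS.val PDec.val Fd
  simp only
  rw [r2_d2 (f := f.p) (L := B) (M := B ^ 4) (by omega) (by omega) h.p,
    r2_d2 (f := f.n) (L := B) (M := B ^ 4) (by omega) (by omega) h.n]
  ring

/-- all coefficients of a form -/
def okQ2 (nd B M E E4 : Nat) (q qB q1 : QI Dec) : Bool :=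
  okc2 nd B M E q.c qB.c q1.c && (okc2 nd B M E q.cu qB.cu q1.cu &&
    (okc2 nd B M E q.cuu qB.cuu q1.cuu && (okc2 nd B M E q.cv qB.cv q1.cv &&
      (okc2 nd B M E q.cvv qB.cvv q1.cvv && (okc2 nd B M E q.ca qB.ca q1.ca &&
        (okc2 nd B M E q.caa qB.caa q1.caa && okc2 nd B M E4 q.l qB.l q1.l))))))

structure OKQ (nd B E E4 : Nat) (q : QI (DS N2)) : Prop where
  c : OKc nd B E q.c
  cu : OKc nd B E q.cu
  cuu : OKc nd B E q.cuu
  cv : OKc nd B E q.cv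
  cvv : OKc nd B E q.cvv
  ca : OKc nd B E q.ca
  caa : OKc nd B E q.caa
  l : OKc nd B E4 q.l

lemma okQ2_iff {nd B M E E4 : Nat} (hM : M = B ^ 4) {q : QI (DS N2)}
    (h : okQ2 nd B M E E4 (q.map (DS.dec (e2 B M))) (q.map (DS.dec (e2 B 1)))
      (q.map (DS.dec (e2 1 1))) = true) : OKQ nd B E E4 q := by
  unfold okQ2 at h
  simp only [Bool.and_eq_true] at h
  obtain ⟨h1, h2, h3, h4, h5, h6, h7, h8⟩ := h
  exact ⟨okc2_iff hM h1, okc2_iff hM h2, okc2_iff hM h3, okc2_iff hM h4, okc2_iff hM h5,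
    okc2_iff hM h6, okc2_iff hM h7, okc2_iff hM h8⟩

lemma OKQ.okQ {nd B E E4 : Nat} {q : QI (DS N2)} (h : OKQ nd B E E4 q) {a b c : ℕ}
    (ha : a ≤ 2) (hb : b ≤ 2) (hc : c ≤ 2) :
    okQ B E E4 ((q.map (Fd a b c)).map (PDec.at' B)) ((q.map (Fd a b c)).map (PDec.at' 1)) =
      true := by
  unfold TSC.okQ QI.map
  simp only [Bool.and_eq_true]
  exact ⟨h.c.okc ha hb hc, h.cu.okc ha hb hc, h.cuu.okc ha hb hc, h.cv.okc ha hb hc,
    h.cvv.okc ha hb hc, h.ca.okc ha hb hc, h.caa.okc ha hb hc, h.l.okc ha hb hc⟩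

lemma OKQ.at {nd B E E4 : Nat} {q : QI (DS N2)} (h : OKQ nd B E E4 q) (a b c : ℕ) :
    (q.map (Fd a b c)).map (PDec.at' B) =
      (q.map (DS.dec (e2 B (B ^ 4)))).map (gd a b c (B ^ 4)) := by
  unfold QI.map
  simp only
  rw [h.c.at, h.cu.at, h.cuu.at, h.cv.at, h.cvv.at, h.ca.at, h.caa.at, h.l.at]

/-! ### the test for one pair of forms in one variable -/

/-- four control pairs -/
def chk4 (WU WY B E E4 s th : Nat) (p : QI Dec × QI Dec) (k0 k1 k2 k3 : Nat) : Bool :=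
  chkJ cz0 WU WY B E E4 s th p k0 && (chkJ cz1 WU WY B E E4 s th p k1 &&
    (chkJ cz2 WU WY B E E4 s th p k2 && chkJ cz3 WU WY B E E4 s th p k3))

theorem chk4_sound {WU WY B E4 s th : Nat} (hWU : 1 ≤ WU) (hWY : 1 ≤ WY)
    {p : QI PDec × QI PDec} {k0 k1 k2 k3 : Nat}
    (o1 : okQ B (E4 + 4) E4 (p.1.map (PDec.at' B)) (p.1.map (PDec.at' 1)) = true)
    (o2 : okQ B (E4 + 4) E4 (p.2.map (PDec.at' B)) (p.2.map (PDec.at' 1)) = true)
    (h : chk4 WU WY B (E4 + 4) E4 s th (pmap (PDec.at' B) p) k0 k1 k2 k3 = true)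
    {x : ℝ} (hx : 0 ≤ x) (hx1 : x ≤ 1) {u v a y w b : ℝ}
    (hv : 0 ≤ v) (hv2 : v ≤ WU) (ha : 0 ≤ a) (hu : |u - v| ≤ (th : ℝ) / 10000 * a)
    (hw : 0 ≤ w) (hw2 : w ≤ WY) (hb : 0 ≤ b) (hy : |y - w| ≤ (th : ℝ) / 10000 * b) :
    0 ≤ pev (pmap (PDec.val x) p) u v a y w b := by
  unfold chk4 at h
  simp only [Bool.and_eq_true] at h
  obtain ⟨c0, c1, c2, c3⟩ := h
  have hx' : 0 ≤ 1 - x := by linarith
  have s1 := qz_sum (q := p.1) (B := B) (E := E4 + 4) (E4 := E4) rfl o1 (kzn s k0)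
    (kzn s k1) (kzn s k2) (kzn s k3) x u v a
  have s2 := qz_sum (q := p.2) (B := B) (E := E4 + 4) (E4 := E4) rfl o2 (kz s k0)
    (kz s k1) (kz s k2) (kz s k3) x y w b
  have j0 := mul_nonneg (pow_nonneg hx' 3) (chkJ_sound hWU hWY c0 hv hv2 ha hu hw hw2 hb hy)
  have j1 := mul_nonneg (mul_nonneg hx (pow_nonneg hx' 2))
    (chkJ_sound hWU hWY c1 hv hv2 ha hu hw hw2 hb hy)
  have j2 := mul_nonneg (mul_nonneg (pow_nonneg hx 2) hx')
    (chkJ_sound hWU hWY c2 hv hv2 ha hu hw hw2 hb hy)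
  have j3 := mul_nonneg (pow_nonneg hx 3) (chkJ_sound hWU hWY c3 hv hv2 ha hu hw hw2 hb hy)
  have hpos : (0 : ℝ) < 10 ^ (E4 + 4) := by positivity
  have key : 0 ≤ (10 : ℝ) ^ (E4 + 4) * pev (pmap (PDec.val x) p) u v a y w b := by
    unfold pev pmap
    simp only
    rw [mul_add, s1, s2]
    unfold pmap at j0 j1 j2 j3
    simp only at j0 j1 j2 j3
    linarith
  by_contra hneg
  push Not at hneg
  have := mul_neg_of_pos_of_neg hpos hneg
  linarith

/-! ### the three control polynomials, packed -/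

def g0 (M N : Nat) : Nat := Nat.mod N M
def g1 (M N : Nat) : Nat := Nat.add (Nat.mod N M) (Nat.mod (Nat.div N M) M)
def g2 (M N : Nat) : Nat := Nat.add (Nat.mul 2 (Nat.mod N M)) (Nat.mod (Nat.div N M) M)
def g3 (M N : Nat) : Nat :=
  Nat.add (Nat.add (Nat.mod N M) (Nat.mod (Nat.div N M) M))
    (Nat.mod (Nat.div (Nat.div N M) M) M)

/-- apply to a decimal number -/
def gD (g : Nat → Nat → Nat) (M : Nat) (x : Dec) : Dec := ⟨g M x.p, g M x.n, x.e⟩

lemma g0_eq (M : Nat) : gD g0 M = gd 1 0 0 M := by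
  funext x
  unfold gD gd g0 gc
  simp only [zero_mul, add_zero, one_mul]
  rfl
lemma g1_eq (M : Nat) : gD g1 M = gd 1 1 0 M := by
  funext x
  unfold gD gd g1 gc
  simp only [zero_mul, add_zero, one_mul]
  rfl
lemma g2_eq (M : Nat) : gD g2 M = gd 2 1 0 M := by
  funext x
  unfold gD gd g2 gc
  simp only [zero_mul, add_zero, one_mul]
  rfl
lemma g3_eq (M : Nat) : gD g3 M = gd 1 1 1 M := by
  funext x
  unfold gD gd g3 gc
  simp only [one_mul]
  rfl

/-- read four numbers from the packed list -/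
def w4 (K : Nat) (f : Nat → Nat → Nat → Nat → Bool) : Bool :=
  f (Nat.mod K 2097152) (Nat.mod (Nat.div K 2097152) 2097152)
    (Nat.mod (Nat.div K 4398046511104) 2097152) (Nat.div K 9223372036854775808)

lemma w4_ex {K : Nat} {f : Nat → Nat → Nat → Nat → Bool} (h : w4 K f = true) :
    ∃ a b c d, f a b c d = true := ⟨_, _, _, _, h⟩

/-- the test of a pair of forms; `nd` is the number of the control polynomials in `mu`;
`K0, K1, K2` are the packed numbers -/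
def chkP (nd WU WY B M E E4 s th : Nat) (p : QI Dec × QI Dec) (K0 K1 K2 : Nat) : Bool :=
  match nd with
  | 1 => w4 K0 (chk4 WU WY B E E4 s th (pmap (gD g0 M) p))
  | 2 => w4 K0 (chk4 WU WY B E E4 s th (pmap (gD g0 M) p)) &&
      w4 K1 (chk4 WU WY B E E4 s th (pmap (gD g1 M) p))
  | 3 => w4 K0 (chk4 WU WY B E E4 s th (pmap (gD g0 M) p)) &&
      (w4 K1 (chk4 WU WY B E E4 s th (pmap (gD g2 M) p)) &&
        w4 K2 (chk4 WU WY B E E4 s th (pmap (gD g3 M) p)))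
  | _ => false

/-- a point of the domain -/
structure DomW (WU WY θ u v a y w b : ℝ) : Prop where
  hv : 0 ≤ v
  hv2 : v ≤ WU
  ha : 0 ≤ a
  hu : |u - v| ≤ θ * a
  hw : 0 ≤ w
  hw2 : w ≤ WY
  hb : 0 ≤ b
  hy : |y - w| ≤ θ * b

lemma w4_chk4 {WU WY B E4 s th nd : Nat} (hWU : 1 ≤ WU) (hWY : 1 ≤ WY)
    {p : QI (DS N2) × QI (DS N2)} (o1 : OKQ nd B (E4 + 4) E4 p.1) (o2 : OKQ nd B (E4 + 4) E4 p.2)
    {a b c : ℕ} (ha : a ≤ 2) (hb : b ≤ 2) (hc : c ≤ 2) {g : Nat → Nat → Nat}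
    (hg : gD g (B ^ 4) = gd a b c (B ^ 4)) {K : Nat}
    (h : w4 K (chk4 WU WY B (E4 + 4) E4 s th
      (pmap (gD g (B ^ 4)) (pmap (DS.dec (e2 B (B ^ 4))) p))) = true)
    {x : ℝ} (hx : 0 ≤ x) (hx1 : x ≤ 1) {u v a' y w b' : ℝ}
    (hd : DomW WU WY ((th : ℝ) / 10000) u v a' y w b') :
    0 ≤ pev (pmap (PDec.val x) (pmap (Fd a b c) p)) u v a' y w b' := by
  obtain ⟨k0, k1, k2, k3, h⟩ := w4_ex h
  rw [hg] at h
  have e1 : pmap (gd a b c (B ^ 4)) (pmap (DS.dec (e2 B (B ^ 4))) p) =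
      pmap (PDec.at' B) (pmap (Fd a b c) p) := by
    unfold pmap
    simp only
    rw [o1.at, o2.at]
  rw [e1] at h
  have q1 := o1.okQ ha hb hc
  have q2 := o2.okQ ha hb hc
  exact chk4_sound (p := pmap (Fd a b c) p) hWU hWY q1 q2 h hx hx1 hd.hv hd.hv2 hd.ha
    hd.hu hd.hw hd.hw2 hd.hb hd.hy

lemma pev_d0 {B E E4 : Nat} {p : QI (DS N2) × QI (DS N2)} (o1 : OKQ 1 B E E4 p.1)
    (o2 : OKQ 1 B E E4 p.2) (x z u v a y w b : ℝ) :
    pev (pmap (DS.val (r2 x z)) p) u v a y w b =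
      pev (pmap (PDec.val x) (pmap (Fd 1 0 0) p)) u v a y w b := by
  unfold pev pmap QI.ev QI.map
  simp only
  rw [o1.c.d0, o1.cu.d0, o1.cuu.d0, o1.cv.d0, o1.cvv.d0, o1.ca.d0, o1.caa.d0, o1.l.d0,
    o2.c.d0, o2.cu.d0, o2.cuu.d0, o2.cv.d0, o2.cvv.d0, o2.ca.d0, o2.caa.d0, o2.l.d0]

lemma pev_d1 {B E E4 : Nat} {p : QI (DS N2) × QI (DS N2)} (o1 : OKQ 2 B E E4 p.1)
    (o2 : OKQ 2 B E E4 p.2) (x z u v a y w b : ℝ) :
    pev (pmap (DS.val (r2 x z)) p) u v a y w b =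
      (1 - z) * pev (pmap (PDec.val x) (pmap (Fd 1 0 0) p)) u v a y w b +
      z * pev (pmap (PDec.val x) (pmap (Fd 1 1 0) p)) u v a y w b := by
  unfold pev pmap QI.ev QI.map
  simp only
  rw [o1.c.d1, o1.cu.d1, o1.cuu.d1, o1.cv.d1, o1.cvv.d1, o1.ca.d1, o1.caa.d1, o1.l.d1,
    o2.c.d1, o2.cu.d1, o2.cuu.d1, o2.cv.d1, o2.cvv.d1, o2.ca.d1, o2.caa.d1, o2.l.d1]
  ring

lemma pev_d2 {B E E4 : Nat} {p : QI (DS N2) × QI (DS N2)} (o1 : OKQ 3 B E E4 p.1)
    (o2 : OKQ 3 B E E4 p.2) (x z u v a y w b : ℝ) :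
    pev (pmap (DS.val (r2 x z)) p) u v a y w b =
      (1 - z) ^ 2 * pev (pmap (PDec.val x) (pmap (Fd 1 0 0) p)) u v a y w b +
      (z * (1 - z)) * pev (pmap (PDec.val x) (pmap (Fd 2 1 0) p)) u v a y w b +
      z ^ 2 * pev (pmap (PDec.val x) (pmap (Fd 1 1 1) p)) u v a y w b := by
  unfold pev pmap QI.ev QI.map
  simp only
  rw [o1.c.d2, o1.cu.d2, o1.cuu.d2, o1.cv.d2, o1.cvv.d2, o1.ca.d2, o1.caa.d2, o1.l.d2,
    o2.c.d2, o2.cu.d2, o2.cuu.d2, o2.cv.d2, o2.cvv.d2, o2.ca.d2, o2.caa.d2, o2.l.d2]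
  ring

theorem chkP_sound {nd WU WY B M E4 s th : Nat} (hM : M = B ^ 4) (hWU : 1 ≤ WU) (hWY : 1 ≤ WY)
    {p : QI (DS N2) × QI (DS N2)} {K0 K1 K2 : Nat}
    (o1 : OKQ nd B (E4 + 4) E4 p.1) (o2 : OKQ nd B (E4 + 4) E4 p.2)
    (h : chkP nd WU WY B M (E4 + 4) E4 s th (pmap (DS.dec (e2 B M)) p) K0 K1 K2 = true)
    {x z : ℝ} (hx : 0 ≤ x) (hx1 : x ≤ 1) (hz : 0 ≤ z) (hz1 : z ≤ 1) {u v a y w b : ℝ}
    (hd : DomW WU WY ((th : ℝ) / 10000) u v a y w b) :
    0 ≤ pev (pmap (DS.val (r2 x z)) p) u v a y w b := by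
  subst hM
  have hz' : 0 ≤ 1 - z := by linarith
  rcases nd with _ | _ | _ | _ | nd
  · simp [chkP] at h
  · rw [pev_d0 o1 o2]
    exact w4_chk4 hWU hWY o1 o2 (by norm_num) (by norm_num) (by norm_num) (g0_eq _) h hx hx1 hd
  · simp only [chkP, Bool.and_eq_true] at h
    rw [pev_d1 o1 o2]
    have h0 := w4_chk4 hWU hWY o1 o2 (by norm_num) (by norm_num) (by norm_num) (g0_eq _) h.1
      hx hx1 hd
    have h1 := w4_chk4 hWU hWY o1 o2 (by norm_num) (by norm_num) (by norm_num) (g1_eq _) h.2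
      hx hx1 hd
    exact add_nonneg (mul_nonneg hz' h0) (mul_nonneg hz h1)
  · simp only [chkP, Bool.and_eq_true] at h
    rw [pev_d2 o1 o2]
    have h0 := w4_chk4 hWU hWY o1 o2 (by norm_num) (by norm_num) (by norm_num) (g0_eq _) h.1
      hx hx1 hd
    have h1 := w4_chk4 hWU hWY o1 o2 (by norm_num) (by norm_num) (by norm_num) (g2_eq _) h.2.1
      hx hx1 hd
    have h2 := w4_chk4 hWU hWY o1 o2 (by norm_num) (by norm_num) (by norm_num) (g3_eq _) h.2.2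
      hx hx1 hd
    exact add_nonneg (add_nonneg (mul_nonneg (pow_nonneg hz' 2) h0)
      (mul_nonneg (mul_nonneg hz hz') h1)) (mul_nonneg (pow_nonneg hz 2) h2)
  · simp [chkP] at h

/-- the test of a list of inequalities; `K` contains `4 nd` numbers for every inequality -/
def chkL2 (nd WU WY B M E E4 s th : Nat) :
    List (QI Dec × QI Dec) → List (QI Dec × QI Dec) → List (QI Dec × QI Dec) → Nat → Bool
  | [], _, _, _ => true
  | p :: l, pB :: lB, p1 :: l1, K =>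
    okQ2 nd B M E E4 p.1 pB.1 p1.1 && (okQ2 nd B M E E4 p.2 pB.2 p1.2 &&
      (chkP nd WU WY B M E E4 s th p (Nat.mod K (Nat.pow 2097152 4))
        (Nat.mod (Nat.div K (Nat.pow 2097152 4)) (Nat.pow 2097152 4))
        (Nat.mod (Nat.div K (Nat.pow 2097152 8)) (Nat.pow 2097152 4)) &&
        chkL2 nd WU WY B M E E4 s th l lB l1 (Nat.div K (Nat.pow 2097152 (Nat.mul 4 nd)))))
  | _ :: _, _, _, _ => false

/-- **soundness of the test in two variables** -/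
theorem chkL2_sound {nd WU WY B M E4 s th : Nat} (hM : M = B ^ 4) (hWU : 1 ≤ WU)
    (hWY : 1 ≤ WY) : ∀ {G : List (QI (DS N2) × QI (DS N2))} {K : Nat},
    chkL2 nd WU WY B M (E4 + 4) E4 s th (G.map (pmap (DS.dec (e2 B M))))
      (G.map (pmap (DS.dec (e2 B 1)))) (G.map (pmap (DS.dec (e2 1 1)))) K = true →
    ∀ p ∈ G, ∀ x z : ℝ, 0 ≤ x → x ≤ 1 → 0 ≤ z → z ≤ 1 → ∀ u v a y w b : ℝ,
    DomW WU WY ((th : ℝ) / 10000) u v a y w b →
    0 ≤ pev (pmap (DS.val (r2 x z)) p) u v a y w b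
  | [], _, _, p, hp => by simp at hp
  | q :: G, K, h, p, hp => by
    intro x z hx hx1 hz hz1 u v a y w b hd
    simp only [List.map_cons, chkL2, Bool.and_eq_true] at h
    obtain ⟨o1, o2, c, hr⟩ := h
    rcases List.mem_cons.1 hp with rfl | hp
    · exact chkP_sound hM hWU hWY (okQ2_iff hM o1) (okQ2_iff hM o2) c hx hx1 hz hz1 hd
    · exact chkL2_sound hM hWU hWY hr p hp x z hx hx1 hz hz1 u v a y w b hd

/-! ### search for the indices (only for `#eval`) -/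

/-- four indices and the verdict -/
def find4 (WU WY B E E4 s th : Nat) (p : QI Dec × QI Dec) : Nat × Bool :=
  let r := [findJ cz0 WU WY B E E4 s th p, findJ cz1 WU WY B E E4 s th p,
    findJ cz2 WU WY B E E4 s th p, findJ cz3 WU WY B E E4 s th p]
  (r.foldr (fun a K => K * 2097152 + a.1) 0, r.all Prod.snd)

/-- the packed indices of a pair of forms and the verdict -/
def findP (nd WU WY B M E E4 s th : Nat) (p : QI Dec × QI Dec) : Nat × Bool :=
  let r := match nd with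
    | 1 => [find4 WU WY B E E4 s th (pmap (gD g0 M) p)]
    | 2 => [find4 WU WY B E E4 s th (pmap (gD g0 M) p),
        find4 WU WY B E E4 s th (pmap (gD g1 M) p)]
    | _ => [find4 WU WY B E E4 s th (pmap (gD g0 M) p),
        find4 WU WY B E E4 s th (pmap (gD g2 M) p), find4 WU WY B E E4 s th (pmap (gD g3 M) p)]
  (r.foldr (fun a K => K * 2097152 ^ 4 + a.1) 0, r.all Prod.snd)

/-- the packed indices of a list and the verdicts -/
def findL2 (nd WU WY B M E E4 s th : Nat) :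
    List (QI Dec × QI Dec) → List (QI Dec × QI Dec) → List (QI Dec × QI Dec) → Nat × List Bool
  | p :: l, pB :: lB, p1 :: l1 =>
    let r := findP nd WU WY B M E E4 s th p
    let t := findL2 nd WU WY B M E E4 s th l lB l1
    (t.1 * 2097152 ^ (4 * nd) + r.1, (okQ2 nd B M E E4 p.1 pB.1 p1.1 &&
      okQ2 nd B M E E4 p.2 pB.2 p1.2 && r.2) :: t.2)
  | _, _, _ => (0, [])

end Pool.Agent.TSC
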