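import Pool.Agent.TSC.Dec

set_option autoImplicit false

/-!
# A boolean test for quadratic inequalities on the state domain (MP_d27362_co)

Domain: `0 ≤ v ≤ 2`, `0 ≤ a`, `|u - v| ≤ θ a`. Form:
`c + cu u + cuu u² + cv v + cvv v² + ca a + caa a² - l √(v² + a²)` with `cv, cvv ≤ 0 ≤ l`.
-/

namespace Pool.Agent.TSC

open Dec

/-- copositivity of `a x² + 2 b x y + c y²` -/
def cop2 (a b c : Dec) : Bool :=
  nn a && (nn c && (nn b || nn (sub (mul a c) (mul b b))))

lemma cop2_sound {a b c : Dec} (h : cop2 a b c = true) {x y : ℝ} (hx : 0 ≤ x) (hy : 0 ≤ y) :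
    0 ≤ a.val * x ^ 2 + 2 * b.val * x * y + c.val * y ^ 2 := by
  unfold cop2 at h
  simp only [Bool.and_eq_true, Bool.or_eq_true] at h
  obtain ⟨ha, hc, hb⟩ := h
  have ha := nn_iff ha
  have hc := nn_iff hc
  have hxy := mul_nonneg hx hy
  rcases hb with hb | hb
  · have hb := nn_iff hb
    have := mul_nonneg hb hxy
    nlinarith [mul_nonneg ha (sq_nonneg x), mul_nonneg hc (sq_nonneg y)]
  · have hb := nn_iff hb
    rw [val_sub, val_mul, val_mul] at hb
    rcases eq_or_lt_of_le ha with h0 | h0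
    · have hb0 : b.val = 0 := by
        have : b.val * b.val ≤ 0 := by rw [← h0] at hb; linarith
        exact mul_self_eq_zero.1 (le_antisymm this (mul_self_nonneg _))
      rw [← h0, hb0]
      nlinarith [mul_nonneg hc (sq_nonneg y)]
    · have h1 : 0 ≤ a.val * (a.val * x ^ 2 + 2 * b.val * x * y + c.val * y ^ 2) := by
        have e : a.val * (a.val * x ^ 2 + 2 * b.val * x * y + c.val * y ^ 2) =
            (a.val * x + b.val * y) ^ 2 + (a.val * c.val - b.val * b.val) * y ^ 2 := by ring
        rw [e]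
        exact add_nonneg (sq_nonneg _) (mul_nonneg hb (sq_nonneg _))
      by_contra hneg
      push Not at hneg
      have := mul_neg_of_pos_of_neg h0 hneg
      linarith

/-- Schur complement test with the pivot `a`: the form
`a x² + b y² + c z² + 2 d x y + 2 e x z + 2 f y z` -/
def schur (a b c d e f : Dec) : Bool :=
  ps a && cop2 (sub (mul a b) (mul d d)) (sub (mul a f) (mul d e)) (sub (mul a c) (mul e e))

lemma schur_sound {a b c d e f : Dec} (h : schur a b c d e f = true) {x y z : ℝ}
    (hy : 0 ≤ y) (hz : 0 ≤ z) :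
    0 ≤ a.val * x ^ 2 + b.val * y ^ 2 + c.val * z ^ 2 + 2 * d.val * x * y + 2 * e.val * x * z +
      2 * f.val * y * z := by
  unfold schur at h
  simp only [Bool.and_eq_true] at h
  obtain ⟨ha, hc⟩ := h
  have ha := ps_iff ha
  have hc := cop2_sound hc hy hz
  rw [val_sub, val_sub, val_sub, val_mul, val_mul, val_mul, val_mul, val_mul, val_mul] at hc
  by_contra hneg
  push Not at hneg
  have h1 := mul_neg_of_pos_of_neg ha hneg
  have e1 : a.val * (a.val * x ^ 2 + b.val * y ^ 2 + c.val * z ^ 2 + 2 * d.val * x * y +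
      2 * e.val * x * z + 2 * f.val * y * z) = (a.val * x + d.val * y + e.val * z) ^ 2 +
      ((a.val * b.val - d.val * d.val) * y ^ 2 +
        2 * (a.val * f.val - d.val * e.val) * y * z +
        (a.val * c.val - e.val * e.val) * z ^ 2) := by ring
  rw [e1] at h1
  linarith [sq_nonneg (a.val * x + d.val * y + e.val * z)]

/-- copositivity of `a x² + b y² + c z² + 2 d x y + 2 e x z + 2 f y z` -/
def cop3 (a b c d e f : Dec) : Bool :=
  nn a && (nn b && (nn c &&
    ((nn d && (nn e && cop2 b f c)) || ((nn d && (nn f && cop2 a e c)) ||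
      ((nn e && (nn f && cop2 a d b)) || (schur a b c d e f ||
        (schur b a c d f e || schur c a b e f d)))))))

lemma cop3_sound {a b c d e f : Dec} (h : cop3 a b c d e f = true) {x y z : ℝ}
    (hx : 0 ≤ x) (hy : 0 ≤ y) (hz : 0 ≤ z) :
    0 ≤ a.val * x ^ 2 + b.val * y ^ 2 + c.val * z ^ 2 + 2 * d.val * x * y + 2 * e.val * x * z +
      2 * f.val * y * z := by
  unfold cop3 at h
  simp only [Bool.and_eq_true, Bool.or_eq_true] at h
  obtain ⟨ha, hb, hc, h⟩ := h
  have ha := nn_iff ha
  have hb := nn_iff hb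
  have hc := nn_iff hc
  have hxy := mul_nonneg hx hy
  have hxz := mul_nonneg hx hz
  have hyz := mul_nonneg hy hz
  rcases h with ⟨h1, h2, h3⟩ | ⟨h1, h2, h3⟩ | ⟨h1, h2, h3⟩ | h | h | h
  · have h1 := mul_nonneg (nn_iff h1) hxy
    have h2 := mul_nonneg (nn_iff h2) hxz
    have h3 := cop2_sound h3 hy hz
    nlinarith [mul_nonneg ha (sq_nonneg x)]
  · have h1 := mul_nonneg (nn_iff h1) hxy
    have h2 := mul_nonneg (nn_iff h2) hyz
    have h3 := cop2_sound h3 hx hz
    nlinarith [mul_nonneg hb (sq_nonneg y)]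
  · have h1 := mul_nonneg (nn_iff h1) hxz
    have h2 := mul_nonneg (nn_iff h2) hyz
    have h3 := cop2_sound h3 hx hy
    nlinarith [mul_nonneg hc (sq_nonneg z)]
  · exact schur_sound h hy hz
  · have := schur_sound h (x := y) (y := x) (z := z) hx hz
    linarith
  · have := schur_sound h (x := z) (y := x) (z := y) hx hy
    linarith

/-- a quadratic form on the state domain -/
structure QI (α : Type) where
  c : α
  cu : α
  cuu : α
  cv : α
  cvv : α
  ca : α
  caa : α
  l : α

/-- the value of the form at a state -/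
noncomputable def QI.ev (q : QI ℝ) (u v a : ℝ) : ℝ :=
  q.c + q.cu * u + q.cuu * u ^ 2 + q.cv * v + q.cvv * v ^ 2 + q.ca * a + q.caa * a ^ 2 -
    q.l * Real.sqrt (v ^ 2 + a ^ 2)

/-- apply a function to all the coefficients -/
def QI.map {α β : Type} (f : α → β) (q : QI α) : QI β :=
  ⟨f q.c, f q.cu, f q.cuu, f q.cv, f q.cvv, f q.ca, f q.caa, f q.l⟩

/-- the two faces, for one support line `√(v² + a²) ≤ k v + s a` -/
def faces (k s : Dec) (θ : Dec) (q : QI Dec) : Bool :=
  let lk := mul q.l k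
  let ls := mul q.l s
  let tcu := mul θ q.cu
  let tuu := mul (mul θ θ) q.cuu
  let G := nsm 4 (mul θ q.cuu)
  let N := nsm 2 (add q.caa tuu)
  let A1 := sub (nsm 2 (add (add q.c (nsm 2 (add q.cu q.cv))) (nsm 4 (add q.cuu q.cvv)))) (nsm 4 lk)
  let E := sub (sub q.ca tcu) ls
  let EG := sub E G
  cop3 (nsm 2 q.c) A1 N (sub (nsm 2 (add q.c (add q.cu q.cv))) (nsm 2 lk)) E EG &&
    cop3 A1 N N (add (sub (add q.ca tcu) ls) G) EG (nsm 2 (sub q.caa tuu))

lemma faces_sound {k s θ : Dec} {q : QI Dec} (h : faces k s θ q = true)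
    (hcv : q.cv.val ≤ 0) (hcvv : q.cvv.val ≤ 0) (hl : 0 ≤ q.l.val) {u v a : ℝ}
    (hv : 0 ≤ v) (hv2 : v ≤ 2) (ha : 0 ≤ a) (hu : |u - v| ≤ θ.val * a)
    (hks : Real.sqrt ((min 2 (u + θ.val * a)) ^ 2 + a ^ 2) ≤
      k.val * min 2 (u + θ.val * a) + s.val * a) :
    0 ≤ (q.map val).ev u v a := by
  unfold faces at h
  simp only [Bool.and_eq_true] at h
  obtain ⟨h1, h2⟩ := h
  obtain ⟨hu1, hu2⟩ := abs_le.1 hu
  -- monotonicity in v
  have mono : ∀ v' : ℝ, v ≤ v' → (q.map val).ev u v' a ≤ (q.map val).ev u v a := by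
    intro v' hvv
    unfold QI.ev QI.map
    simp only
    have e1 : Real.sqrt (v ^ 2 + a ^ 2) ≤ Real.sqrt (v' ^ 2 + a ^ 2) :=
      Real.sqrt_le_sqrt (by nlinarith)
    have e2 := mul_le_mul_of_nonneg_left e1 hl
    have e3 : q.cv.val * v' ≤ q.cv.val * v := mul_le_mul_of_nonpos_left hvv hcv
    have e4 : q.cvv.val * v' ^ 2 ≤ q.cvv.val * v ^ 2 :=
      mul_le_mul_of_nonpos_left (by nlinarith) hcvv
    linarith
  rcases le_total (u + θ.val * a) 2 with h2' | h2'
  · -- face u = v - θ a
    have hvle : v ≤ u + θ.val * a := by linarith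
    refine le_trans ?_ (mono (u + θ.val * a) hvle)
    have hs := hks
    rw [min_eq_right h2'] at hs
    set w := u + θ.val * a with hw
    have hw0 : 0 ≤ w := le_trans hv hvle
    have huw : u = w - θ.val * a := by rw [hw]; ring
    have hls := mul_le_mul_of_nonneg_left hs hl
    have key := cop3_sound h1 (x := 1 - w / 2) (y := w / 2) (z := a) (by linarith) (by linarith) ha
    simp only [val_sub, val_add, val_mul, val_nsm] at key
    push_cast at key
    unfold QI.ev QI.map
    simp only
    rw [huw]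
    nlinarith
  · -- face v = 2
    refine le_trans ?_ (mono 2 hv2)
    have hs := hks
    rw [min_eq_left h2'] at hs
    have hls := mul_le_mul_of_nonneg_left hs hl
    rcases eq_or_lt_of_le ha with ha0 | ha0
    · have hu2' : u = 2 := by rw [← ha0] at hu1 hu2 h2'; linarith
      have key := cop3_sound h2 (x := 1) (y := 0) (z := 0) (by norm_num) le_rfl le_rfl
      simp only [val_sub, val_add, val_mul, val_nsm] at key
      push_cast at key
      unfold QI.ev QI.map
      simp only
      rw [← ha0, hu2']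
      rw [← ha0] at hls
      nlinarith
    · -- u = 2 + θ (y - z), a = y + z
      rcases eq_or_lt_of_le (show 0 ≤ θ.val by
        by_contra hθ
        push Not at hθ
        have := mul_neg_of_neg_of_pos hθ ha0
        have := abs_nonneg (u - v)
        linarith) with hθ | hθ
      · have hu2' : u = 2 := by rw [← hθ] at hu1 hu2 h2'; linarith
        have key := cop3_sound h2 (x := 1) (y := a / 2) (z := a / 2) (by norm_num)
          (by linarith) (by linarith)
        simp only [val_sub, val_add, val_mul, val_nsm] at key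
        push_cast at key
        unfold QI.ev QI.map
        simp only
        rw [hu2']
        rw [← hθ] at key
        nlinarith
      · have hy : 0 ≤ (a + (u - 2) / θ.val) / 2 := by
          have : - a ≤ (u - 2) / θ.val := by
            rw [le_div_iff₀ hθ]; nlinarith
          linarith
        have hz : 0 ≤ (a - (u - 2) / θ.val) / 2 := by
          have : (u - 2) / θ.val ≤ a := by
            rw [div_le_iff₀ hθ]; nlinarith
          linarith
        have key := cop3_sound h2 (x := 1) (y := (a + (u - 2) / θ.val) / 2)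
          (z := (a - (u - 2) / θ.val) / 2) (by norm_num) hy hz
        simp only [val_sub, val_add, val_mul, val_nsm] at key
        push_cast at key
        unfold QI.ev QI.map
        simp only
        set r := (u - 2) / θ.val with hr
        have hur : u = 2 + θ.val * r := by rw [hr]; field_simp; ring
        rw [hur]
        nlinarith

/-! ### support lines of the norm -/

lemma norm_le_of_sq {k s v a : ℝ} (h : v ^ 2 + a ^ 2 ≤ (k * v + s * a) ^ 2)
    (h0 : 0 ≤ k * v + s * a) : Real.sqrt (v ^ 2 + a ^ 2) ≤ k * v + s * a := by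
  rw [← Real.sqrt_sq h0]
  exact Real.sqrt_le_sqrt h

lemma norm_le_one {v a : ℝ} (hv : 0 ≤ v) (ha : 0 ≤ a) :
    Real.sqrt (v ^ 2 + a ^ 2) ≤ one.val * v + one.val * a := by
  rw [val_one]
  exact norm_le_of_sq (by nlinarith [mul_nonneg hv ha]) (by linarith)

/-- the six support lines -/
def L1 : Dec × Dec := (⟨1, 0, 0⟩, ⟨1327, 0, 4⟩)
def L2 : Dec × Dec := (⟨9312, 0, 4⟩, ⟨3879, 0, 4⟩)
def L3 : Dec × Dec := (⟨7995, 0, 4⟩, ⟨6148, 0, 4⟩)
def L4 : Dec × Dec := (⟨6148, 0, 4⟩, ⟨7995, 0, 4⟩)
def L5 : Dec × Dec := (⟨3879, 0, 4⟩, ⟨9312, 0, 4⟩)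
def L6 : Dec × Dec := (⟨1327, 0, 4⟩, ⟨1, 0, 0⟩)

/-- the line `i` bounds the norm at `(v, a)` -/
def Supp (L : Dec × Dec) (v a : ℝ) : Prop :=
  Real.sqrt (v ^ 2 + a ^ 2) ≤ L.1.val * v + L.2.val * a

lemma supp_all {v a : ℝ} (hv : 0 ≤ v) (ha : 0 ≤ a) :
    Supp L1 v a ∨ Supp L2 v a ∨ Supp L3 v a ∨ Supp L4 v a ∨ Supp L5 v a ∨ Supp L6 v a := by
  have hva := mul_nonneg hv ha
  unfold Supp L1 L2 L3 L4 L5 L6
  unfold Dec.val
  norm_num only [Nat.cast_ofNat, Nat.cast_one, Nat.cast_zero]
  rcases le_total a v with h | h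
  · rcases le_total a (27 / 100 * v) with h1 | h1
    · left
      refine norm_le_of_sq ?_ (by positivity)
      nlinarith [mul_nonneg ha (sub_nonneg.2 h1)]
    · right
      rcases le_total a (58 / 100 * v) with h2 | h2
      · left
        refine norm_le_of_sq ?_ (by positivity)
        nlinarith [mul_nonneg (sub_nonneg.2 h1) (sub_nonneg.2 h2)]
      · right; left
        refine norm_le_of_sq ?_ (by positivity)
        nlinarith [mul_nonneg (sub_nonneg.2 h) (sub_nonneg.2 h2)]
  · right; right; right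
    rcases le_total v (27 / 100 * a) with h1 | h1
    · right; right
      refine norm_le_of_sq ?_ (by positivity)
      nlinarith [mul_nonneg hv (sub_nonneg.2 h1)]
    · rcases le_total v (58 / 100 * a) with h2 | h2
      · right; left
        refine norm_le_of_sq ?_ (by positivity)
        nlinarith [mul_nonneg (sub_nonneg.2 h1) (sub_nonneg.2 h2)]
      · left
        refine norm_le_of_sq ?_ (by positivity)
        nlinarith [mul_nonneg (sub_nonneg.2 h) (sub_nonneg.2 h2)]

/-- the test -/
def chk (θ : Dec) (q : QI Dec) : Bool :=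
  nn (neg q.cv) && (nn (neg q.cvv) && (nn q.l &&
    (faces one one θ q || (faces L1.1 L1.2 θ q && (faces L2.1 L2.2 θ q &&
      (faces L3.1 L3.2 θ q && (faces L4.1 L4.2 θ q && (faces L5.1 L5.2 θ q &&
        faces L6.1 L6.2 θ q))))))))

/-- **soundness of the test** -/
theorem chk_sound {θ : Dec} {q : QI Dec} (h : chk θ q = true) {u v a : ℝ}
    (hv : 0 ≤ v) (hv2 : v ≤ 2) (ha : 0 ≤ a) (hu : |u - v| ≤ θ.val * a) :
    0 ≤ (q.map val).ev u v a := by
  unfold chk at h
  simp only [Bool.and_eq_true, Bool.or_eq_true] at h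
  obtain ⟨h1, h2, h3, h⟩ := h
  have h1 := nn_iff h1
  have h2 := nn_iff h2
  have h3 := nn_iff h3
  rw [val_neg] at h1 h2
  have hcv : q.cv.val ≤ 0 := by linarith
  have hcvv : q.cvv.val ≤ 0 := by linarith
  have hw : 0 ≤ min 2 (u + θ.val * a) := by
    refine le_min (by norm_num) ?_
    have := (abs_le.1 hu).1
    linarith
  rcases h with h | ⟨f1, f2, f3, f4, f5, f6⟩
  · exact faces_sound h hcv hcvv h3 hv hv2 ha hu (norm_le_one hw ha)
  · rcases supp_all hw ha with s | s | s | s | s | s
    · exact faces_sound f1 hcv hcvv h3 hv hv2 ha hu s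
    · exact faces_sound f2 hcv hcvv h3 hv hv2 ha hu s
    · exact faces_sound f3 hcv hcvv h3 hv hv2 ha hu s
    · exact faces_sound f4 hcv hcvv h3 hv hv2 ha hu s
    · exact faces_sound f5 hcv hcvv h3 hv hv2 ha hu s
    · exact faces_sound f6 hcv hcvv h3 hv hv2 ha hu s

end Pool.Agent.TSC
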