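import Pool.Agent.TSC.Base

set_option autoImplicit false

/-!
# TSC: exact targets

Everything about the quantities `dg h v A` (degree of `v` into `A`) and `cr h A B` (edges between
`A` and `B`) is in `Base.lean`. Below d(v,A) = dg h v A, c(A,B) = cr h A B. A pair u v is heavy if
h u v = 0.
-/

open Classical

namespace TSC

/-! ## Part 1: the theorem (MG) -/

/-- T_OPT. A subset A of S maximising J h S gives an optimal partition (X, Y) = (A, S \ A).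
Proof. S.powerset is finite and nonempty: take X maximising J h S (Finset.exists_max_image). By
hypothesis J h S X > 0, so X and Y := S \ X are nonempty (J h S ∅ = J h S S = 0).
Let A ⊆ Y, B = Y \ A. J h S (X ∪ A) ≤ J h S X, where S \ (X ∪ A) = B, says
3 c(X,B) + 3 c(A,B) - 2 |X||B| - 2|A||B| ≤ 3 c(X,A) + 3 c(X,B) - 2 |X||A| - 2 |X||B|, that is
(J1) 3 c(A,B) + 2|A||X| ≤ 3 c(A,X) + 2|A||B|.
The degrees give c(A,A) + c(A,B) + c(A,X) = c(A,S) ≤ (2k-1)|A|. Hence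
3c(A,B) + 2|A||X| ≤ 3(2k-1)|A| - 3c(A,A) - 3c(A,B) + 2|A||B|, and 6k = 2|X| + 2|A| + 2|B| gives
starY. starX: J h S (X \ A) ≤ J h S X for A ⊆ X in the same way (J h S Z = J h S (S \ Z), as c is
symmetric). -/
def T_OPT : Prop := ∀ (V : Type) (h : V → V → ℕ) (k : ℕ) (S : Finset V), HG h →
  S.card = 3 * k → (∀ v ∈ S, dg h v S + 1 ≤ 2 * k) → (∃ A ⊆ S, 0 < J h S A) →
  ∃ X Y : Finset V, Opt h k S X Y

/-- T_RIA. There is a good triple in S.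
Proof. Take a ∈ S. d(a,S) ≤ 2k-1 < 3k-1, so there is b ∈ S, b ≠ a with h a b = 0 (exists_heavy for
S.erase a). Now d(a,·) + d(b,·) ≤ 4k-2 < 2(3k-2) as k ≥ 2, so exists_pair for (S.erase a).erase b
gives w with h a w + h b w ≤ 1; {a, b, w} is good. -/
def T_RIA : Prop := ∀ (V : Type) (h : V → V → ℕ) (k : ℕ) (S : Finset V), HG h → 2 ≤ k →
  S.card = 3 * k → (∀ v ∈ S, dg h v S + 1 ≤ 2 * k) → ∃ Q ⊆ S, Good h Q

/-- T_RIB. Let Q be a good triple of S (|S| = 3(j+1)) with out(Q) = c(Q, S \ Q) maximum, and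
J ≤ 0 on all subsets of S. Then all degrees in S \ Q are at most 2j - 1.
Proof. Q = {a,b,c}, e = h a b + h a c + h b c ≤ 1, D = d(a,S)+d(b,S)+d(c,S), out(Q) = D - 2e.
Suppose w ∈ S \ Q has δ := d(w,S \ Q) ≥ 2j. As d(w,S) ≤ 2j+1, u := d(w,Q) = h w a + h w b + h w c
≤ 1, d(w,S) = δ + u. We show J h S (insert w Q) > 0 (a contradiction): with k = j+1,
c(insert w Q, rest) = D - 2e - u + δ - u + ... precisely: edges from Q to outside insert w Q: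
D - 2e - u; from w: δ; so J = 3(D - 2e - u + δ) - 8(3k-4) and we want
3(D - 2e - u + δ) > 24k - 32 = 24 j - 8.
Exchange: for each q ∈ Q the triple Q' = Q - q + w, if good with e' edges, has
out(Q') = D - d(q) + d(w,S) - 2e' ≤ D - 2e, that is d(q,S) ≥ δ + u + 2e - 2e'.
* e = 0, u = 0: all three Q' have e' = 0: D ≥ 3δ, 3(4δ) ≥ 24j > 24j - 8.
* e = 0, u = 1, say h w a = 1: q = a: e' = 0, d(a) ≥ δ+1; q = b, c: e' = 1, d ≥ δ - 1. So
  D ≥ 3δ - 1 and 3(4δ - 2) ≥ 24j - 6 > 24j - 8.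
* e = 1, say h a b = 1, u = 0: q = a: e' = 0, d(a) ≥ δ + 2 ≥ 2j + 2, impossible.
* e = 1 (h a b = 1), h w a = 1: q = a: e' = 0: d(a) ≥ δ + 3, impossible.
* e = 1 (h a b = 1), h w c = 1: q = a: e' = 1, q = b: e' = 1, q = c: e' = 1: each d(q) ≥ δ + 1, so
  D ≥ 3δ + 3, 3(3δ + 3 - 2 - 1 + δ) = 12δ ≥ 24j > 24j - 8.
Tip: first prove J and all exchange inequalities for a generic a,b,c with numbers
h a b, h a c, h b c, h w a, h w b, h w c, then omega after case splits. -/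
def T_RIB : Prop := ∀ (V : Type) (h : V → V → ℕ) (j : ℕ) (S Q : Finset V), HG h →
  S.card = 3 * (j + 1) → (∀ v ∈ S, dg h v S + 1 ≤ 2 * (j + 1)) → (∀ A ⊆ S, J h S A ≤ 0) →
  Q ⊆ S → Good h Q → (∀ Q' ⊆ S, Good h Q' → cr h Q' (S \ Q') ≤ cr h Q (S \ Q)) →
  ∀ w ∈ S \ Q, dg h w (S \ Q) + 1 ≤ 2 * j

/-- T_RIC. In the situation of T_RIB (degrees in S \ Q at most 2j-1) S \ Q has no barrier.
Proof. Bar.elim gives S \ Q = A ∪ B, |A|, |B| not divisible by 3, |A| + |B| = 3j, h ≥ 1 across.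
a ∈ A: |B| ≤ d(a,S \ Q) ≤ 2j-1, so |A| ≥ j+1; also |B| ≥ j+1, |A| ≤ 2j-1. J h S A ≤ 0 and
S \ A = B ∪ Q: 3|A||B| + 3c(A,Q) ≤ 2|A|(|B|+3), so |A||B| + 3c(A,Q) ≤ 6|A|, so |B| ≤ 6 and
3c(A,Q) ≤ |A|(6-|B|); likewise |A| ≤ 6 and 3c(B,Q) ≤ |B|(6-|A|). All this forces j = 3,
{|A|,|B|} = {4,5}; say |A| = 4, |B| = 5: c(A,Q) ≤ 1, c(B,Q) ≤ 3, so out(Q) = c(Q,S \ Q) ≤ 4.
A vertex b of the 5-side B has d(b,S \ Q) ≤ 5 and d(b,A) ≥ 4, so d(b,B) ≤ 1. Any three vertices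
of B form a good triple T (c(T,T) ≤ 3 and it is even, or use cr_triple), and
out(T) ≥ c(T,A) ≥ 12 > 4. Contradiction. -/
def T_RIC : Prop := ∀ (V : Type) (h : V → V → ℕ) (j : ℕ) (S Q : Finset V), HG h →
  S.card = 3 * (j + 1) → (∀ v ∈ S, dg h v S + 1 ≤ 2 * (j + 1)) → (∀ A ⊆ S, J h S A ≤ 0) →
  Q ⊆ S → Good h Q → (∀ Q' ⊆ S, Good h Q' → cr h Q' (S \ Q') ≤ cr h Q (S \ Q)) →
  (∀ w ∈ S \ Q, dg h w (S \ Q) + 1 ≤ 2 * j) → ¬ Bar h (S \ Q)

/-- T_RI. Regime I. From T_RIA, T_RIB, T_RIC: take a good triple Q ⊆ S with c(Q, S \ Q) maximum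
(S.powerset.filter Good is finite, nonempty by T_RIA); |S \ Q| = 3(k-1); MG h (k-1) applies by
T_RIB; no barrier by T_RIC; so Fac h (S \ Q) and fac_of_good. -/
def T_RI : Prop := ∀ (V : Type) (h : V → V → ℕ) (k : ℕ) (S : Finset V), HG h → 2 ≤ k →
  (∀ j < k, MG h j) → S.card = 3 * k → (∀ v ∈ S, dg h v S + 1 ≤ 2 * k) →
  (∀ A ⊆ S, J h S A ≤ 0) → Fac h S

/-- T_C00. Optimal partition with both sizes divisible by three.
Proof. |X| = 3m, |Y| = 3m', m + m' = k, m, m' ≥ 1, so m, m' < k. starY for {y} gives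
6 d(y,Y) + 5 ≤ 4|Y| = 12 m', so d(y,Y) ≤ 2m' - 1. The same for X. MG h m' for Y: either Fac h Y or
Y has a barrier: Y = A ∪ B (Bar.elim), h ≥ 1 across, A, B nonempty. c(A,B) ≥ |A||B| and starY for A
(B = Y \ A) give 6|A||B| + 3|A| ≤ 2|A|² + 4|A||B|, so 2|B| + 3 ≤ 2|A|; and starY for B gives
2|A| + 3 ≤ 2|B|. Contradiction. Same for X. So Fac h X, Fac h Y, Fac.union. -/
def T_C00 : Prop := ∀ (V : Type) (h : V → V → ℕ) (k : ℕ) (S X Y : Finset V), HG h →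
  Opt h k S X Y → (∀ j < k, MG h j) → 3 ∣ X.card → Fac h S

/-- T_F. Degrees in the parts. Proof. starX for {x} (c({x},{x}) = h x x = 0, c({x},X \ {x}) =
d(x,X)): 6 d(x,X) + 5 ≤ 4(3s+1), so s ≥ 1 and d(x,X) ≤ 2s - 1. starY for {y}:
6 d(y,Y) + 5 ≤ 4(3r+2), so d(y,Y) ≤ 2r. -/
def T_F : Prop := ∀ (V : Type) (h : V → V → ℕ) (s r : ℕ) (S X Y : Finset V), Ctx h s r S X Y →
  1 ≤ s ∧ (∀ x ∈ X, dg h x X + 1 ≤ 2 * s) ∧ ∀ y ∈ Y, dg h y Y ≤ 2 * r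

/-- T_FX (from T_F). Proof. |X.erase x| = 3s, degrees ≤ 2s-1 by T_F, s < s+r+1, so by MG h s either
done or (Bar.elim) X.erase x = A ∪ B, h ≥ 1 across, |A|, |B| not divisible by 3. starX for A, whose
complement in X is B ∪ {x}: 6|A||B| + 3|A| ≤ 6c(A,B∪x) + 3|A| ≤ 2|A|² + 4|A|(|B|+1), so
2|B| ≤ 2|A| + 1, |B| ≤ |A|. Symmetrically |A| ≤ |B|. Then 2|A| = 3s and 3 divides |A|.
Contradiction. -/
def T_FX : Prop := ∀ (V : Type) (h : V → V → ℕ) (s r : ℕ) (S X Y : Finset V), Ctx h s r S X Y →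
  ∀ x ∈ X, Fac h (X.erase x)

/-- T_GY (from T_FX). If Y minus {v,w} has a factor, then {x,v,w} is not good, for else
S = {x,v,w} ∪ X.erase x ∪ (Y minus {v,w}) has a factor, against Ctx.nf. -/
def T_GY : Prop := ∀ (V : Type) (h : V → V → ℕ) (s r : ℕ) (S X Y : Finset V), Ctx h s r S X Y →
  ∀ x ∈ X, ∀ v ∈ Y, ∀ w ∈ Y, v ≠ w → Fac h ((Y.erase v).erase w) →
  2 ≤ h x v + h x w + h v w

/-- T_TL. The tight lemma. Z = (Y.erase t).erase y', |Z| = 3r, all degrees in Z ≤ 2r-1, and t is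
tight: d(t,Y) = 2r. Then Fac h Z.
Proof. r = 0: Z = ∅. r ≥ 1: MG h r applies. If Z has a barrier, Bar.elim: Z = A ∪ B, |A| ≤ |B|,
h ≥ 1 across, |A|, |B| not divisible by 3, so |A| < |B| (else 2|A| = 3r). Put a = |A|, b = |B|.
starY for A' = insert t A with complement B' = insert y' B in Y:
3c(A',A') + 6c(A',B') ≥ 6 d(t,A) + 6 c(A,B) + 6 d(t,B') = 6 c(A,B) + 6 d(t,Y) ≥ 6ab + 12r
(c(A',A') ≥ 2 d(t,A), d(t,Y) = d(t,A) + d(t,B') as h t t = 0). With 12 r = 4a + 4b: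
6ab + 4a + 4b + 3(a+1) ≤ 2(a+1)² + 4(a+1)(b+1), that is 2a(b-a) ≤ a + 3, so 2a ≤ a+3, a ≤ 3,
so a ∈ {1,2}. A vertex of A has at least b edges to B: b ≤ 2r-1, so a ≥ r+1, so r ≤ 1,
r = 1, b ≤ 1 < a: contradiction with a < b. -/
def T_TL : Prop := ∀ (V : Type) (h : V → V → ℕ) (s r : ℕ) (S X Y : Finset V), Ctx h s r S X Y →
  ∀ t ∈ Y, dg h t Y = 2 * r → ∀ y' ∈ Y, y' ≠ t →
  (∀ v ∈ (Y.erase t).erase y', dg h v ((Y.erase t).erase y') + 1 ≤ 2 * r) →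
  Fac h ((Y.erase t).erase y')

/-- T_SA (from T_F, T_GY, T_TL). Two tight vertices are not heavy to each other.
Proof. Suppose h t t' = 0, both tight. (i) No third tight vertex t'' is heavy to both: starY for
A = {t,t',t''}, c(A,A) = 0, c(A,Y \ A) = 6r, gives 36r + 9 ≤ 18 + 12(3r-1) = 36 r + 6, false.
(ii) So for v ∈ Z = Y minus {t,t'}: d(v,Z) ≤ 2r-1 (if v is not tight clear from T_F; if v is tight
then h v t + h v t' ≥ 1). By T_TL Fac h Z. (iii) By T_GY h x t + h x t' ≥ 2 for all x ∈ X, so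
d(t,X) + d(t',X) ≥ 2(3s+1). But d(t,X) ≤ 2(s+r+1) - 1 - 2r = 2s+1, same for t': 4s+2 ≥ 6s+2 and
s ≥ 1: contradiction. -/
def T_SA : Prop := ∀ (V : Type) (h : V → V → ℕ) (s r : ℕ) (S X Y : Finset V), Ctx h s r S X Y →
  ∀ t ∈ Y, ∀ t' ∈ Y, t ≠ t' → dg h t Y = 2 * r → dg h t' Y = 2 * r → 1 ≤ h t t'

/-- T_SB (from T_F, T_GY, T_TL, T_SA). No tight vertices. Proof. Suppose t ∈ Y, d(t,Y) = 2r.
For y' ∈ Y, y' ≠ t, Z = Y minus {t,y'}: all degrees in Z ≤ 2r-1 (a tight v ∈ Z has h v t ≥ 1 by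
T_SA, so d(v,Z) ≤ 2r - 1). T_TL: Fac h Z, so by T_GY 2 ≤ h x t + h x y' + h t y' for all x ∈ X,
y' ∈ Y \ t. (a) d(t,X) ≤ 2s+1 < 3s+1 = |X| (s ≥ 1), so some x ∈ X has h x t = 0; then
h x y' + h t y' ≥ 2 for all y' ∈ Y \ t: d(x,Y) + 2r ≥ 2(3r+1), d(x,Y) ≥ 4r+2, and
d(x,Y) ≤ 2s+2r+1, so r < s. (b) d(t,Y) = 2r < 3r+1, so some y' ∈ Y \ t has h t y' = 0; then
h x t + h x y' ≥ 2 for all x: d(t,X) + d(y',X) ≥ 6s+2, so d(y',X) ≥ 4s+1, and
d(y',X) ≤ 2s+2r+1, so s ≤ r. Contradiction. So d(y,Y) ≤ 2r-1 for all y ∈ Y, and r ≥ 1 as Y is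
nonempty. -/
def T_SB : Prop := ∀ (V : Type) (h : V → V → ℕ) (s r : ℕ) (S X Y : Finset V), Ctx h s r S X Y →
  1 ≤ r ∧ ∀ y ∈ Y, dg h y Y + 1 ≤ 2 * r

/-- T_BS (from T_SB). Sizes for a bad pair. Proof. Bar.elim for (Y.erase v).erase w of size 3r:
A, B with |A| ≤ |B|, not divisible by 3, so |A| < |B| (else 2|A| = 3r). Both nonempty; a ∈ A:
|B| ≤ d(a,Y) ≤ 2r-1, so |A| ≥ r+1. If r ≤ 2 then r + 1 ≤ |A| < |B| ≤ 2r - 1 is impossible. -/
def T_BS : Prop := ∀ (V : Type) (h : V → V → ℕ) (s r : ℕ) (S X Y : Finset V), Ctx h s r S X Y →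
  ∀ v ∈ Y, ∀ w ∈ Y, v ≠ w → BP h Y v w → 3 ≤ r ∧ ∃ A B : Finset V, Disjoint A B ∧
    A ∪ B = (Y.erase v).erase w ∧ r + 1 ≤ A.card ∧ A.card < B.card ∧ B.card + 1 ≤ 2 * r ∧
    A.card + B.card = 3 * r ∧ (∀ a ∈ A, ∀ b ∈ B, 1 ≤ h a b) ∧ (∀ b ∈ B, ∀ a ∈ A, 1 ≤ h b a)

/-- T_NB (from T_SB, T_GY). If {v,w} is not a bad pair then MG h r (degrees ≤ 2r-1 by T_SB) gives
Fac h ((Y.erase v).erase w), and T_GY applies. -/
def T_NB : Prop := ∀ (V : Type) (h : V → V → ℕ) (s r : ℕ) (S X Y : Finset V), Ctx h s r S X Y →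
  ∀ v ∈ Y, ∀ w ∈ Y, v ≠ w → ¬ BP h Y v w → ∀ x ∈ X, 2 ≤ h x v + h x w + h v w

/-- T_CS. Cut vertex sizes. Proof. starY for A = S1, whose complement in Y is insert c S2:
c(S1, insert c S2) ≥ |S1||S2| + d(c,S1), so 6|S1||S2| + 6 d(c,S1) + 3|S1| ≤
2|S1|² + 4|S1|(|S2|+1), i.e. 2|S1||S2| + 6 d(c,S1) ≤ 2|S1|² + |S1|. Hence 2|S2| ≤ 2|S1| + 1, so
|S2| ≤ |S1|; symmetrically |S1| ≤ |S2|. With equality the inequality says 6 d(c,S1) ≤ |S1|, and
likewise for S2. |S1| + |S2| = 3r+1. -/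
def T_CS : Prop := ∀ (V : Type) (h : V → V → ℕ) (s r : ℕ) (S X Y : Finset V), Ctx h s r S X Y →
  ∀ c ∈ Y, ∀ S1 S2 : Finset V, S1.Nonempty → S2.Nonempty → Disjoint S1 S2 →
    S1 ∪ S2 = Y.erase c → (∀ u ∈ S1, ∀ v ∈ S2, 1 ≤ h u v) →
    S1.card = S2.card ∧ 2 * S1.card = 3 * r + 1 ∧ 6 * dg h c S1 ≤ S1.card ∧
      6 * dg h c S2 ≤ S2.card

/-- T_CB (from T_BS, T_CS). If c is a cut vertex, every bad pair contains c. Proof. Let {v,w} be a
bad pair with v, w ≠ c, A, B from T_BS. c lies in A or in B; let W be the other part. All of W is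
joined to c (h c u ≥ 1), W ⊆ Y.erase c = S1 ∪ S2, so d(c,S1) + d(c,S2) ≥ |W| ≥ r+1. But
d(c,S1) + d(c,S2) ≤ (3r+1)/6 by T_CS. Contradiction. -/
def T_CB : Prop := ∀ (V : Type) (h : V → V → ℕ) (s r : ℕ) (S X Y : Finset V), Ctx h s r S X Y →
  ∀ c ∈ Y, CutV h Y c → ∀ v ∈ Y, ∀ w ∈ Y, v ≠ w → v ≠ c → w ≠ c → ¬ BP h Y v w

/-- T_CN (from T_SB, T_NB, T_CS, T_CB). There is no cut vertex. Proof. Let c, S1, S2 be as in CutV,
|S1| = |S2| = σ, 2σ = 3r+1 (T_CS). Case 1: no heavy pair (x,v) with x ∈ X, v ∈ Y \ c. Choose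
x ∈ X, u ∈ S1, v ∈ S2: d(x,S) ≥ |S1| + |S2|, d(u,S) ≥ |X| + |S2|, d(v,S) ≥ |X| + |S1|, total
≥ 2(|X| + 2σ) = 2(3k-1) = 6k - 2 where k = s+r+1, but the total is ≤ 3(2k-1). Contradiction.
Case 2: h x v = 0, x ∈ X, v ∈ Y \ c. For v' ∈ Y minus {v,c} the pair {v,v'} does not contain c, so
it is not bad (T_CB), so by T_NB h x v' + h v v' ≥ 2. Summing over the 3r vertices v':
d(x,Y.erase c) + d(v,Y) ≥ 6r, and d(v,Y) ≤ 2r-1, so d(x,Y.erase c) ≥ 4r+1 (*). Hence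
4r+1 ≤ 2k-1 = 2s+2r+1 and r ≤ s. Every x' ∈ X has d(x',Y.erase c) ≥ 3r+1 = 2σ: either x' has a heavy
v' ∈ Y.erase c and (*) applies, or all h x' v' ≥ 1. So c(Y.erase c, X) ≥ |X| 2σ; and
c(Y.erase c,Y.erase c) ≥ 2σ² (pairs S1-S2 both ways). The 2σ vertices of Y.erase c have degree
≤ 2k-1: 2σ(2k-1) ≥ 2σ|X| + 2σ², so 2k-1 ≥ 3s+1+σ, i.e. 2(2s+2r+1) ≥ 6s+2+3r+1, 2s ≤ r-1.
Contradiction with r ≤ s. -/
def T_CN : Prop := ∀ (V : Type) (h : V → V → ℕ) (s r : ℕ) (S X Y : Finset V), Ctx h s r S X Y →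
  ∀ c ∈ Y, ¬ CutV h Y c

/-- T_DV (from T_SB, T_BS, T_CN). Every v ∈ Y is in at most two bad pairs. Proof. Suppose w1, w2, w3
are three different vertices with {v,w_i} bad; T_BS gives partitions (A_i,B_i) of Y minus {v,w_i},
parts of size ≥ r+1, no heavy pair across. For i ≠ j let Q_i(j) be the part of partition i that does
not contain w_j. Claim 1: Q_i(j) and Q_j(i) are disjoint. Otherwise let I be their intersection,
u ∈ I, z ∈ Y, z ≠ v, z ∉ I, and suppose h u z = 0. If z ∉ Q_i(j): z is in the other part of partition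
i, impossible as u ∈ Q_i(j); or z = w_i: then w_i is in the part of partition j other than Q_j(i)
while u ∈ Q_j(i), impossible. Symmetric if z ∉ Q_j(i). So all pairs between I and (Y.erase v) \ I
(which contains w_i) have h ≥ 1 and v is a cut vertex, against T_CN.
Claim 2: no partition i has w_j and w_l in different parts ({i,j,l} = {1,2,3}). Say i = 1,
w2 ∈ A_1, w3 ∈ B_1, so Q_1(2) = B_1, Q_1(3) = A_1. By Claim 1 Q_2(1) is disjoint from B_1 and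
Q_3(1) is disjoint from A_1; neither contains w1 or v; so Q_2(1) ⊆ A_1, Q_3(1) ⊆ B_1, they are
disjoint, of size ≥ r+1 each, and w1 has no heavy neighbour in either (it lies in the other part of
partition 2 resp. 3). So d(w1,Y) ≥ 2r+2, against d(w1,Y) ≤ 2r-1.
So w_j, w_l are in the same part of partition i, and Q_i := Q_i(j) = Q_i(l). Q_1, Q_2, Q_3 are
pairwise disjoint subsets of Y minus {v,w1,w2,w3}, of total size ≥ 3(r+1) > 3r-2. Contradiction. -/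
def T_DV : Prop := ∀ (V : Type) (h : V → V → ℕ) (s r : ℕ) (S X Y : Finset V), Ctx h s r S X Y →
  ∀ v ∈ Y, (Y.filter (fun w => w ≠ v ∧ BP h Y v w)).card ≤ 2

/-- T_NP (from T_SB, T_BS, T_NB, T_DV). There are no bad pairs. Proof. Let {p,q} be bad, A, B from
T_BS (r ≥ 3, |A| = a < |B| = b, a + b = 3r). Take v ∈ A. d(v,A) ≤ d(v,Y) - b ≤ 2r-1-b, so v has at
least (a-1) - (2r-1-b) = r ≥ 3 heavy neighbours in A \ v, one of which, w, has {v,w} not bad (T_DV).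
T_NB: h x v + h x w ≥ 2 for all x, so d(v,X) + d(w,X) ≥ 6s+2. v, w ∈ A have ≥ b edges to B, so
d(v,X), d(w,X) ≤ 2(s+r+1) - 1 - b. So 6s + 2 ≤ 4s + 4r + 2 - 2b, s ≤ 2r - b, and 2b ≥ 3r+1 gives
2s ≤ r - 1. Take a heavy pair x ∈ X, v ∈ Y (Ctx.nb). For w ∈ Y \ v with {v,w} not bad:
h x w + h v w ≥ 2; there are at least 3r+1-2 such w (T_DV), so d(x,Y) + d(v,Y) ≥ 2(3r-1), so
d(x,Y) ≥ 4r-1 and 4r-1 ≤ 2s+2r+1, r ≤ s+1. Then 2(r-1) ≤ 2s ≤ r-1, r ≤ 1. Contradiction.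
(BP h Y v w and BP h Y w v are equivalent: Finset.erase_right_comm.) -/
def T_NP : Prop := ∀ (V : Type) (h : V → V → ℕ) (s r : ℕ) (S X Y : Finset V), Ctx h s r S X Y →
  ∀ v ∈ Y, ∀ w ∈ Y, v ≠ w → ¬ BP h Y v w

/-- T_D1 (from T_SB, T_NB, T_NP). By T_NP and T_NB: 2 ≤ h x v + h x w + h v w for all x ∈ X,
v ≠ w ∈ Y (**). Proof. Heavy x, y: h x w + h y w ≥ 2 for the 3r+1 other w, so
d(x,Y) + d(y,Y) ≥ 6r+2, d(y,Y) ≤ 2r-1, d(x,Y) ≥ 4r+3. As d(x,Y) ≤ 2s+2r+1: r+1 ≤ s. A vertex x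
without heavy y has d(x,Y) ≥ |Y| = 3r+2. So c(X,Y) ≥ |X||Y| + 1 (use Ctx.nb), so some y has
d(y,X) ≥ |X| + 1 = 3s+2, so 3s+2 ≤ 2s+2r+1, s ≤ 2r-1, and then r ≥ 2. -/
def T_D1 : Prop := ∀ (V : Type) (h : V → V → ℕ) (s r : ℕ) (S X Y : Finset V), Ctx h s r S X Y →
  (∀ x ∈ X, ∀ v ∈ Y, ∀ w ∈ Y, v ≠ w → 2 ≤ h x v + h x w + h v w) ∧
  (∀ x ∈ X, ∀ y ∈ Y, h x y = 0 → 6 * r + 2 ≤ dg h x Y + dg h y Y ∧ 4 * r + 3 ≤ dg h x Y) ∧
  (∀ x ∈ X, 3 * r + 2 ≤ dg h x Y) ∧ r + 1 ≤ s ∧ s + 1 ≤ 2 * r ∧ 2 ≤ r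

/-- T_D2 (from T_SB, T_D1). Two disjoint heavy pairs between X and Y. Proof. Otherwise all heavy
pairs (x,y), x ∈ X, y ∈ Y, share a vertex (there is one by Ctx.nb; if (x0,y0) is one, another has
x1 ≠ x0 and another has y2 ≠ y0, then two of the three are disjoint).
Star at x0: all x ≠ x0 have h x y ≥ 1 for all y ∈ Y. (x0,y0) heavy: d(y0,X) ≥ 3s, so
d(y0,Y) ≤ 2s+2r+1-3s = 2r+1-s, d(x0,Y) ≥ 6r+2-(2r+1-s) = 4r+1+s, and ≤ 2s+2r+1, so 2r ≤ s: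
contradiction with s+1 ≤ 2r. Star at y0, with heavy neighbours N ⊆ X of y0, |N| = η ≥ 1: y0 has a
heavy neighbour y' ∈ Y (d(y0,Y) ≤ 2r-1 < 3r+1). For x ∈ N: h x y' ≥ 2 by the first part of T_D1; for
x ∈ X \ N: h x y' ≥ 1 (star). So 3s+1+η ≤ d(y',X) ≤ 2s+2r+1, η ≤ 2r-s.
d(y0,X) ≥ 3s+1-η, so d(y0,Y) ≤ 2r-s+η ≤ 4r-2s. For x1 ∈ N: d(x1,Y) ≥ 6r+2-(4r-2s) = 2r+2s+2,
but it is ≤ 2s+2r+1. Contradiction. -/
def T_D2 : Prop := ∀ (V : Type) (h : V → V → ℕ) (s r : ℕ) (S X Y : Finset V), Ctx h s r S X Y →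
  ∃ x0 ∈ X, ∃ x1 ∈ X, ∃ y0 ∈ Y, ∃ y1 ∈ Y, x0 ≠ x1 ∧ y0 ≠ y1 ∧ h x0 y0 = 0 ∧ h x1 y1 = 0

/-- T_D3 (from T_F, T_SB, T_NP, T_D1, T_D2). The context is contradictory. Proof. Take the two
disjoint heavy pairs. For i = 0, 1: d(x_i,X) + d(y_i,X) ≤ 2(2k-1) - (6r+2) = 4s - 2r
(k = s+r+1), so at most 2s-r vertices x' ∈ X.erase x_i have h x_i x' + h y_i x' ≥ 2 and at least
s + r ≥ 5 have ≤ 1. Choose x0' ∉ {x0,x1} and then x1' ∉ {x0,x1,x0'} such that {x0,x0',y0} and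
{x1,x1',y1} are good. Let X' = X minus {x0,x0',x1,x1'}, |X'| = 3(s-1). Degrees in X':
d(x,X) ≤ 2k-1 - d(x,Y) ≤ 2s+2r+1-(3r+2) = 2s-r-1 ≤ 2s-3. MG h (s-1): if X' has a barrier A ∪ B
(both nonempty) then for a ∈ A: |B| + 3r+2 ≤ 2k-1, and |A| + 3r+2 ≤ 2k-1; with |A|+|B| = 3s-3 and
3s+2 ≤ 2k-1 (from s+1 ≤ 2r) all three are equalities, so |A| = |B|, 2|A| = 3s-3, so 3 divides |A|:
contradiction. So Fac h X'. Also Fac h (Y minus {y0,y1}) by MG h r (degrees by T_SB, no barrier by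
T_NP). All together Fac h S, against Ctx.nf. -/
def T_D3 : Prop := ∀ (V : Type) (h : V → V → ℕ) (s r : ℕ) (S X Y : Finset V), ¬ Ctx h s r S X Y

/-- T_MG (from T_RI, T_OPT, T_C00, T_D3). The main theorem on weights. Proof. Strong induction on k.
k = 0: S = ∅, Fac.empty. k = 1: |S| = 3, degrees ≤ 1, so S is good (c(S,S) ≤ 3 and it is twice a
number, cr_triple). k ≥ 2: suppose not Fac h S. If J h S A ≤ 0 for all A ⊆ S: T_RI. Otherwise T_OPT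
gives X, Y. If 3 ∣ |X|: T_C00. Otherwise, swapping X and Y (Opt.swap) if needed, |X| = 3s+1,
|Y| = 3r+2, k = s+r+1. If there is no heavy pair between X and Y, X is a barrier of S
(S \ X = Y). Otherwise Ctx holds, against T_D3. -/
def T_MG : Prop := ∀ (V : Type) (h : V → V → ℕ), HG h → ∀ k, MG h k

/-! ## Part 2: digraphs -/

/-- The set S splits into cyclic triangles of D. -/
inductive CFac {V : Type} (D : V → V → Prop) : Finset V → Prop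
  | empty : CFac D ∅
  | add (u v w : V) (S : Finset V) : CTri D u v w → Disjoint {u, v, w} S → CFac D S →
      CFac D ({u, v, w} ∪ S)

/-- T_HST. A good triple carries every tournament with three vertices. Proof. hD D a b ≤ 1 for each
of the three pairs and at most one pair has hD = 1. With all three pairs double any injection works.
If only v → u is present between u and v and everything else is present: choose an arc a → b of T
(there is one between 0 and 1), map a to v, b to u and the third to w. -/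
def T_HST : Prop := ∀ (V : Type) (D : V → V → Prop), (∀ v, ¬ D v v) → ∀ A : Finset V,
  Good (hD D) A → ∀ T : Fin 3 → Fin 3 → Prop, Tour T → Host D A T

/-- T_FAM. A factor as a family. Induction on Fac; the cardinality is 3 m. -/
def T_FAM : Prop := ∀ (V : Type) (h : V → V → ℕ) (S : Finset V) (m : ℕ), Fac h S →
  S.card = 3 * m → ∃ A : Fin m → Finset V, (∀ i, Good h (A i)) ∧ (∀ i, A i ⊆ S) ∧
    ∀ i j, i ≠ j → Disjoint (A i) (A j)

/-- T_CFM. A cyclic factor as a family, hosting any cyclic tournaments; Fac gives CFac (every good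
triple contains a cyclic triangle: T_HST for the cyclic tournament, or directly); union; reversal.
-/
def T_CFM : Prop :=
  (∀ (V : Type) (D : V → V → Prop) (S : Finset V) (m : ℕ), (∀ v, ¬ D v v) → CFac D S →
    S.card = 3 * m → ∃ A : Fin m → Finset V, (∀ i, (A i).card = 3) ∧ (∀ i, A i ⊆ S) ∧
      (∀ i j, i ≠ j → Disjoint (A i) (A j)) ∧
      ∀ i, ∀ T : Fin 3 → Fin 3 → Prop, Tour T → IsCyc T → Host D (A i) T) ∧
  (∀ (V : Type) (D : V → V → Prop) (S : Finset V), (∀ v, ¬ D v v) → Fac (hD D) S → CFac D S) ∧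
  (∀ (V : Type) (D : V → V → Prop) (S S' : Finset V), CFac D S → CFac D S' → Disjoint S S' →
    CFac D (S ∪ S')) ∧
  (∀ (V : Type) (D : V → V → Prop) (S : Finset V), CFac (fun u v => D v u) S → CFac D S)

/-- T_DB. Bounds. Proof. |X| ≡ 1, |Y| ≡ 2 mod 3, so both nonempty; x ∈ X: |Y| ≤ d(x,Y) ≤
2k-1-d(x,X). So |Y| ≤ 2k-1, |X| = 3k-|Y| ≥ k+1, and conversely. k = 2 would give |X| = |Y| = 3, and
k ≤ 1 is impossible too, so k ≥ 3. Let N = {y ∈ Y | h x y ≤ 1}: d(x,Y) ≥ |N| + 2(|Y|-|N|)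
= 2|Y| - |N|. -/
def T_DB : Prop := ∀ (V : Type) (D : V → V → Prop) (k : ℕ) (S X Y : Finset V), DCtx D k S X Y →
  3 ≤ k ∧ k + 1 ≤ X.card ∧ X.card + 1 ≤ 2 * k ∧ k + 1 ≤ Y.card ∧ Y.card + 1 ≤ 2 * k ∧
  X.card + Y.card = 3 * k ∧
  (∀ x ∈ X, dg (hD D) x X + dg (hD D) x Y + 1 ≤ 2 * k ∧ Y.card ≤ dg (hD D) x Y ∧
    2 * Y.card ≤ dg (hD D) x Y + (Y.filter (fun y => hD D x y ≤ 1)).card) ∧
  (∀ y ∈ Y, dg (hD D) y X + dg (hD D) y Y + 1 ≤ 2 * k ∧ X.card ≤ dg (hD D) y X)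

/-- T_RX (from T_MG, T_DB). |X.erase x| = a - 1 = 3m, a = |X|, b = |Y|. Degrees in it are
≤ 2k-1-b = a-k-1 ≤ 2m - 1 (as a ≤ 3k-2). A barrier A ∪ B would have |A|, |B| ≤ a-k-1 (Bar.elim,
both nonempty), a - 1 ≤ 2(a-k-1), a ≥ 2k+1. Contradiction. -/
def T_RX : Prop := ∀ (V : Type) (D : V → V → Prop) (k : ℕ) (S X Y : Finset V), DCtx D k S X Y →
  ∀ x ∈ X, Fac (hD D) (X.erase x)

/-- T_RY (from T_MG, T_DB). |Z| = b - 2 = 3m. Degrees ≤ 2k-1-a = b-k-1 ≤ 2m-1 (as b ≤ 3k-4, true as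
b ≤ 2k-1 and k ≥ 3). Barrier: b - 2 ≤ 2(b-k-1), b ≥ 2k. Contradiction. -/
def T_RY : Prop := ∀ (V : Type) (D : V → V → Prop) (k : ℕ) (S X Y : Finset V), DCtx D k S X Y →
  ∀ y ∈ Y, ∀ y' ∈ Y, y ≠ y' → Fac (hD D) ((Y.erase y).erase y')

/-- T_TR (from T_DB). A crossing triple with all noncyclic tournaments. Proof. Take x ∈ X,
N = {y ∈ Y | h x y ≤ 1}, |N| ≥ 2b - (2k-1) ≥ 3. Take y ∈ N. d(y,Y) ≤ 2k-1-a = b-k-1 < |N| - 1, so
some y' ∈ N.erase y has h y y' = 0 (both arcs). Between x and y, and x and y' there is exactly one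
arc. In all four cases {x,y,y'} contains a transitive triangle and T is transitive. -/
def T_TR : Prop := ∀ (V : Type) (D : V → V → Prop) (k : ℕ) (S X Y : Finset V), DCtx D k S X Y →
  ∃ x ∈ X, ∃ y ∈ Y, ∃ y' ∈ Y, y ≠ y' ∧ ∀ T : Fin 3 → Fin 3 → Prop, Tour T → ¬ IsCyc T →
    Host D {x, y, y'} T

/-- T_DIR (from T_DB). If there is no crossing cyclic triangle, all arcs between x and Y have the same
direction. Proof. O = {y ∈ Y | x → y}, I = {y ∈ Y | y → x}: disjoint because h x y ≥ 1, and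
N = {y | h x y ≤ 1} = O ∪ I has |N| ≥ 2b-2k+1. Suppose both nonempty. y ∈ O, y' ∈ I: not y → y',
so h y y' ≥ 1. So |I| ≤ d(y,Y) ≤ 2k-1-a = b-k-1 and |O| ≤ b-k-1, so |N| ≤ 2b-2k-2.
Contradiction. -/
def T_DIR : Prop := ∀ (V : Type) (D : V → V → Prop) (k : ℕ) (S X Y : Finset V), DCtx D k S X Y →
  (∀ x ∈ X, ∀ y ∈ Y, ∀ y' ∈ Y, ¬ CTri D x y y') → ∀ x ∈ X, Pos D Y x ∨ Neg D Y x

/-- T_CON (from T_DB). Proof. Pos and Neg cannot both hold (|{y | h x y ≤ 1}| ≥ 1 by T_DB, one of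
the arcs is present). If all x ∈ X outside {z} are Pos: there is x' ∈ X.erase z, y ∈ Y; take z (or, if
the set of Neg vertices is empty, z any vertex of X). A walk from y to x' avoiding z has a first step from Y to
X \ z (all of V is X ∪ Y), i.e. an arc y'' → x'', but x'' is Pos. So at least two vertices of X are
Neg. Same for Pos with walks from x' to y. -/
def T_CON : Prop := ∀ (V : Type) (D : V → V → Prop) (k : ℕ) (S X Y : Finset V), DCtx D k S X Y →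
  (∀ v, v ∈ S) →
  (∀ x u v : V, u ≠ x → v ≠ x →
    Relation.ReflTransGen (fun a b => a ≠ x ∧ b ≠ x ∧ D a b) u v) →
  (∀ x ∈ X, Pos D Y x ∨ Neg D Y x) →
  2 ≤ (X.filter (fun x => Neg D Y x)).card ∧ 2 ≤ (X.filter (fun x => Pos D Y x)).card ∧
  (∀ x ∈ X, ¬ (Pos D Y x ∧ Neg D Y x))

/-- T_TRI (from T_DB). Triangles through Neg vertices. Let XP, XN be the Pos and Neg vertices of X,
p = |XN| ≤ q = |XP|, p + q = a. Proof. x ∈ XN. O = {c ∈ XP | x → c}, N = {y ∈ Y | h x y ≤ 1} (all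
these have y → x, as x is Neg). Degrees: d(x,XP) ≥ q - |O| (c ∉ O: the arc x → c is missing), d(x,Y)
≥ 2b - |N|, so |N| + |O| ≥ 2b + q - 2k + 1. As |N| ≤ b: |O| ≥ b+q-2k+1, and 2q ≥ a, a ≤ 2k-1 give
|O| ≥ 2; |N| ≥ 2b-2k+1 ≥ 3. Let O' = O.erase z, N' = N.erase w, nonempty. Suppose no c ∈ O',
y ∈ N' has c → y. As c is Pos, h c y = 2 for all c ∈ O', y ∈ N'. So for c ∈ O': b + |N'| ≤ d(c,Y) ≤
2k-1, for y ∈ N': a + |O'| ≤ d(y,X) ≤ 2k-1. Sum: |N| + |O| - 2 ≤ |N'| + |O'| ≤ 4k-2-a-b = k - 2,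
so 2b+q-2k+1 ≤ k, with b = 3k-a: q ≤ 2a - 3k - 1, and 2q ≥ a gives 3a ≥ 6k+2, against a ≤ 2k-1. -/
def T_TRI : Prop := ∀ (V : Type) (D : V → V → Prop) (k : ℕ) (S X Y : Finset V), DCtx D k S X Y →
  (∀ x ∈ X, Pos D Y x ∨ Neg D Y x) → (∀ x ∈ X, ¬ (Pos D Y x ∧ Neg D Y x)) →
  (X.filter (fun x => Neg D Y x)).card ≤ (X.filter (fun x => Pos D Y x)).card →
  ∀ x ∈ X, Neg D Y x → ∀ z w : V, ∃ c ∈ X, ∃ y ∈ Y, Pos D Y c ∧ c ≠ z ∧ y ≠ w ∧ CTri D y x c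

/-- T_R4 (from T_MG, T_DB). a = |X| ≤ 2k-2, R ⊆ X with four vertices. Proof. a ≡ 1 mod 3 and
k+1 ≤ a ≤ 2k-2 give: k = 3, a = 4 (then X \ R = ∅), or a ≤ 3k-8 (check k = 4: impossible; k = 5:
a = 7; k ≥ 6: clear). |X \ R| = a - 4 = 3m, degrees ≤ a-k-1 ≤ 2m-1 (iff a ≤ 3k-8). Barrier A ∪ B:
|A|, |B| ≤ a-k-1, a-4 ≤ 2a-2k-2 so a = 2k-2 and |A| = |B| = k-3, 2(k-3) = a - 4 divisible by 3,
so 3 ∣ |A|. Contradiction. -/
def T_R4 : Prop := ∀ (V : Type) (D : V → V → Prop) (k : ℕ) (S X Y : Finset V), DCtx D k S X Y →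
  X.card + 2 ≤ 2 * k → ∀ R ⊆ X, R.card = 4 → Fac (hD D) (X \ R)

/-- T_K4. The case of seven vertices: X = P ∪ N, |X| = 7, 2 ≤ |N| ≤ |P|, all degrees in X at most 2.
There are u ≠ v in N, c ≠ d in P with u c and v d heavy and X minus {u,v,c,d} good.
Proof. |N| = 3, |P| = 4: there is a heavy matching u_i c_i (i = 1,2,3) of N into P by Hall: every
vertex of N has ≥ 2 heavy neighbours in P; two of them have together ≥ 2; if all three have together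
only 2, the two other vertices of P are joined to all three of N, degree 3. Let c_4 be the fourth
vertex of P. T_i = {u_i,c_i,c_4} is good if h u_i c_4 + h c_i c_4 ≤ 1; the sum over i is
≤ d(c_4,X) ≤ 2, so some T_i is good; use the two other pairs.
|N| = 2, N = {u,v}, |P| = 5: let A_u = {c ∈ P | h u c ≥ 1}, A_v likewise, sizes ≤ 2. It is enough
to find a good T ⊆ P, |T| = 3, with A_u ∩ A_v ⊆ T, T ∩ A_u ≠ ∅ if |A_u| = 2, and
T ∩ A_v ≠ ∅ if |A_v| = 2 (then the two remaining vertices of P can be matched to u, v). A vertex in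
A_u or A_v has degree ≤ 1 in P; one in both has degree 0 in P. If |A_u ∩ A_v| = 2: T = A_u + any.
If A_u ∩ A_v = {e}: T = {e,f,g} with h f g ≤ 1. If A_u ∩ A_v = ∅: choose e ∈ A_u (if |A_u| = 2),
f ∈ A_v (if |A_v| = 2), completed arbitrarily but heavy to each other if possible, and then g by
exists_pair: if h e f = 0 and d(e,P) + d(f,P) ≤ 5 < 6 some g of the 3 others has
h e g + h f g ≤ 1; if both e and f are in A_u ∪ A_v and h e f = 1, they have no other edges in P.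
(Any other proof of this finite statement is fine.) -/
def T_K4 : Prop := ∀ (V : Type) (h : V → V → ℕ) (X P N : Finset V), HG h → X.card = 7 →
  Disjoint P N → P ∪ N = X → 2 ≤ N.card → N.card ≤ P.card → (∀ x ∈ X, dg h x X ≤ 2) →
  ∃ u ∈ N, ∃ v ∈ N, ∃ c ∈ P, ∃ d ∈ P, u ≠ v ∧ c ≠ d ∧ h u c = 0 ∧ h v d = 0 ∧
    Good h (X \ {u, v, c, d})

/-- T_K7 (from T_MG). Here |X| = 2k-1, k = 3m+1 ≥ 7, degrees in X at most k-2, X = P ∪ N,
2 ≤ |N| ≤ |P|. Proof. |P| ≥ k, so each u ∈ N has at least |P| - (k-2) ≥ 2 heavy neighbours in P.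
For distinct u,v ∈ N choose heavy u c, v d with c ≠ d. R = {u,v,c,d}: X \ R has 2k-5 = 3(2m-1)
vertices, degrees ≤ k-2 ≤ 2(2m-1)-1 (as k ≥ 7), so MG applies: Fac (done) or a barrier.
Suppose (A,B) (Bar.elim, |A| ≤ |B|) is a barrier of X \ R: |A|,|B| ≤ k-2, |A|+|B| = 2k-5, so
|A| = k-3, |B| = k-2. v ∈ A: d(v,B) ≥ k-2 so d(v,A ∪ R) = 0. v ∈ B: d(v,A) ≥ k-3, so
d(v,B ∪ R) ≤ 1. (!) Lemma: if R' ⊆ X, |R'| = 4, |R' \ R| ≤ 2, X \ R' has a barrier and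
r ∈ R \ R', then r is joined (h ≥ 1) to all of B \ R'. Proof: let (U,W) be a barrier partition of
X \ R'. A \ R' is nonempty (k-3 > 2), it is heavy to itself and to R \ R', so (A ∪ R) \ R' lies in
one part, say U. B \ R' has at least k-4 ≥ 3 vertices and each has at most one non-heavy partner in
it, so it lies in one part (if v, v' ∈ B \ R' are in different parts, h v v' ≥ 1, so a third one v''
is heavy to both). It is not U (W is nonempty), so it is W, and r ∈ U. Now the final step: let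
R = {u,v,c,d} as above with a barrier. If |N| ≥ 3: take u' ∈ N \ {u,v}; u' has a heavy
neighbour c' ∈ P, c' ≠ c, and a heavy neighbour d' ∈ P, d' ≠ d. R1 = {u,c,u',c'} (leaves v),
R2 = {v,d,u',d'} (leaves u). If both X \ R1, X \ R2 have a barrier, v is joined to all of
B \ R1, u to all of B \ R2. If |N| = 2: |P| = 2k-3 and u has ≥ k-1 ≥ 3 heavy neighbours in P:
take c' ≠ c,d; R1 = {u,c',v,d} leaves c. v has ≥ 3 heavy neighbours in P: take d' ≠ c,d;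
R2 = {u,c,v,d'} leaves d. In both cases two different vertices r1, r2 of R are joined to all of
B \ (R1 ∪ R2), which is nonempty (|B| = k-2 ≥ 5, |(R1 ∪ R2) \ R| ≤ 4), a vertex of it has degree
≥ 2 into R, against d(v,B ∪ R) ≤ 1. -/
def T_K7 : Prop := ∀ (V : Type) (h : V → V → ℕ) (m : ℕ) (X P N : Finset V), HG h → 2 ≤ m →
  X.card = 2 * (3 * m + 1) - 1 → Disjoint P N → P ∪ N = X → 2 ≤ N.card → N.card ≤ P.card →
  (∀ x ∈ X, dg h x X + 2 ≤ 3 * m + 1) →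
  ∃ u ∈ N, ∃ v ∈ N, ∃ c ∈ P, ∃ d ∈ P, u ≠ v ∧ c ≠ d ∧ h u c = 0 ∧ h v d = 0 ∧
    Fac h (X \ {u, v, c, d})

/-- T_CYA (from T_RX, T_RY, T_CFM). With a crossing cyclic triangle x → y → y' → x: S is the union
of {x,y,y'}, X.erase x and Y minus {y,y'} (y ≠ y' as D is loopless). -/
def T_CYA : Prop := ∀ (V : Type) (D : V → V → Prop) (k : ℕ) (S X Y : Finset V), DCtx D k S X Y →
  (∃ x ∈ X, ∃ y ∈ Y, ∃ y' ∈ Y, CTri D x y y') → CFac D S

/-- T_CYB (from T_DB, T_RY, T_TRI, T_R4, T_K4, T_K7, T_CFM). Proof. XN, XP the Neg and Pos vertices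
of X, 2 ≤ |XN| ≤ |XP|. Case a = |X| ≤ 2k-2: take u ≠ v in XN; T_TRI gives a cyclic triangle
y → u → c → y, and then y' → v → d → y' with d ≠ c, y' ≠ y. R = {u,v,c,d} has four vertices (c, d are
Pos and not Neg). Fac (X \ R) by T_R4, Fac (Y minus {y,y'}) by T_RY, T_CFM. Case a = 2k-1: a ≡ 1
mod 3, so k = 3m+1 ≥ 4 and b = k+1. For y ∈ Y: a ≤ d(y,X) ≤ 2k-1, so d(y,X) = a and all h x y = 1
exactly. So for every x ∈ XN, y → x, and for every c ∈ XP, c → y. d(x,X) ≤ 2k-1-b = k-2. m = 1: T_K4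
(|X| = 7), m ≥ 2: T_K7; u c and v d are heavy, so u → c and v → d; with any y ≠ y' in Y the
triangles y → u → c → y and y' → v → d → y' are cyclic. Conclude as before. -/
def T_CYB : Prop := ∀ (V : Type) (D : V → V → Prop) (k : ℕ) (S X Y : Finset V), DCtx D k S X Y →
  (∀ x ∈ X, Pos D Y x ∨ Neg D Y x) → (∀ x ∈ X, ¬ (Pos D Y x ∧ Neg D Y x)) →
  2 ≤ (X.filter (fun x => Neg D Y x)).card →
  (X.filter (fun x => Neg D Y x)).card ≤ (X.filter (fun x => Pos D Y x)).card → CFac D S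

/-- T_CYC (from T_DIR, T_CON, T_CYA, T_CYB, T_CFM). Proof. If there is a crossing cyclic triangle:
T_CYA. Otherwise T_DIR and T_CON. If |XN| ≤ |XP|: T_CYB. Otherwise T_CYB for the reversed digraph
D' = fun u v => D v u (hD D' = hD D, DCtx D', Pos and Neg are exchanged), and the reversal part of
T_CFM. -/
def T_CYC : Prop := ∀ (V : Type) (D : V → V → Prop) (k : ℕ) (S X Y : Finset V), DCtx D k S X Y →
  (∀ v, v ∈ S) →
  (∀ x u v : V, u ≠ x → v ≠ x →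
    Relation.ReflTransGen (fun a b => a ≠ x ∧ b ≠ x ∧ D a b) u v) → CFac D S

/-- T_FIN (from T_MG, T_HST, T_FAM, T_CFM, T_RX, T_RY, T_TR, T_CYC). The final theorem.
Proof. S = univ, hD D. d(v,S) = 2(3k-1) - (in-degree + out-degree) ≤ 2k-1. T_MG: Fac (hD D) S, or a
barrier. Fac: T_FAM with m = k, T_HST. A barrier gives (possibly after exchanging the two parts:
|X| + |Y| = 3k, neither divisible by 3) DCtx D k S X Y. If all T i are cyclic: T_CYC and T_CFM.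
Otherwise let T i0 be not cyclic: T_TR gives {x,y,y'} hosting T i0; T_RX, T_RY: the rest
(X.erase x) ∪ ((Y.erase y).erase y') has a factor into k-1 good triples, T_FAM; distribute them to the
indices i ≠ i0 (Fin k minus one element has k-1 elements; e.g. use k = n+1 and Fin.succAbove, or an
equivalence). -/
def T_FIN : Prop := ∀ (V : Type) [Fintype V] (D : V → V → Prop) (k : ℕ), (∀ v, ¬ D v v) →
  Fintype.card V = 3 * k →
  (∀ x u v : V, u ≠ x → v ≠ x →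
    Relation.ReflTransGen (fun a b => a ≠ x ∧ b ≠ x ∧ D a b) u v) →
  (∀ v : V, 4 * k ≤ (Finset.univ.filter (fun w => D v w)).card +
    (Finset.univ.filter (fun w => D w v)).card + 1) →
  ∀ T : Fin k → Fin 3 → Fin 3 → Prop, (∀ i, Tour (T i)) →
  ∃ f : Fin k × Fin 3 → V, Function.Injective f ∧
    ∀ i a b, T i a b → D (f (i, a)) (f (i, b))

end TSC
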