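import Pool.Agent.TSC.Pack2

set_option autoImplicit false

/-!
# Vectorised test of a form (MP_d27362_co): the functions

All the coefficients of a form are polynomials of degree at most 3 in `lam` and at most 1 in `mu`.
They are packed in one number in the base `B = 2 ^ 256` (`lam = B`, `mu = B ^ 4`) with an offset.
The linear conditions on all the 8 control forms are tested at once with a mask. The copositivity of
a matrix `M` of order 3 is tested by `M x ≥ 0` for a positive vector `x` from the certificate.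
-/

namespace Pool.Agent.TSC.V3

open Pool.Agent.TSC

/-- the base -/
def cB : Nat := Nat.pow 2 256
/-- `B^4` -/
def cM : Nat := Nat.pow 2 1024
/-- `B^16` -/
def cQ : Nat := Nat.pow 2 4096
/-- `1 + B + ... + B^7` -/
def cH : Nat := Nat.mul (Nat.add 1 cM) (Nat.add (Nat.add 1 cB) (Nat.mul (Nat.pow cB 2) (Nat.add 1 cB)))
/-- offset of the coefficients -/
def cZ0 : Nat := Nat.mul (Nat.pow 2 180) cH
/-- twice the offset -/
def cZ02 : Nat := Nat.mul 2 cZ0
/-- offset of the entries -/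
def cZh : Nat := Nat.mul (Nat.pow 2 210) cH
def cZh2 : Nat := Nat.mul 2 cZh
/-- offset of the entries of the scale `10^8` -/
def cZn : Nat := Nat.mul 10000 cZh
def cZn2 : Nat := Nat.mul 2 cZn
/-- `2^14 * 10^4` -/
def cG : Nat := 163840000
/-- `2^14` -/
def cG4 : Nat := 16384

/-- the multipliers of the controls -/
def m0 : Nat := Nat.add 1 cM
def m1 : Nat := Nat.mul m0 (Nat.add 1 (Nat.mul 3 cB))
def m2 : Nat := Nat.mul m0 (Nat.add 1 (Nat.mul cB (Nat.add 2 (Nat.mul 3 cB))))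
def m3 : Nat := Nat.mul m0 (Nat.mul (Nat.add 1 cB) (Nat.add 1 (Nat.mul cB cB)))

/-- the common offset of the tested numbers: `2^14 * 10^4 * 2^210` -/
def cO : Nat := Nat.mul cG (Nat.pow 2 210)
/-- `2^255` -/
def cT : Nat := Nat.pow 2 255

/-- `2^255 - c O` at `B^i` and `2^255 - 2 c O` at `B^(i+4)` -/
def aOf (c i : Nat) : Nat :=
  Nat.mul (Nat.pow cB i) (Nat.add (Nat.sub cT (Nat.mul c cO))
    (Nat.mul cM (Nat.sub cT (Nat.mul c (Nat.mul 2 cO)))))
def a0 : Nat := aOf 1 0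
def a1 : Nat := aOf 4 1
def a2 : Nat := aOf 6 2
def a3 : Nat := aOf 4 3

/-- the masks of single controls -/
def k0 : Nat := Nat.mul cT (Nat.pow cB 0)
def k1 : Nat := Nat.mul cT (Nat.pow cB 1)
def k2 : Nat := Nat.mul cT (Nat.pow cB 2)
def k3 : Nat := Nat.mul cT (Nat.pow cB 3)

/-- `1 + Q + ... + Q^(n-1)` -/
def geo (n : Nat) : Nat := Nat.div (Nat.sub (Nat.pow cQ n) 1) (Nat.sub cQ 1)
def g3 : Nat := geo 3
def g8 : Nat := geo 8
def g12 : Nat := geo 12

/-- one control; `m` multiplier, `a` constant, `k` mask, `g = geo n` -/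
def land1 (m a k g X : Nat) : Nat := Nat.land (Nat.add (Nat.mul X m) (Nat.mul a g)) (Nat.mul k g)

/-- all the controls -/
def tst (g X : Nat) : Bool :=
  Nat.beq (Nat.add (Nat.add (land1 m0 a0 (Nat.mul k0 m0) g X) (land1 m1 a1 (Nat.mul k1 m0) g X))
      (Nat.add (land1 m2 a2 (Nat.mul k2 m0) g X) (land1 m3 a3 (Nat.mul k3 m0) g X)))
    (Nat.mul (Nat.mul m0 (Nat.add (Nat.add k0 k1) (Nat.add k2 k3))) g)

/-- one control; `j` is `1` or `M` -/
def tst1 (m a k j g X : Nat) : Bool :=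
  Nat.beq (land1 m a (Nat.mul k j) g X) (Nat.mul (Nat.mul k j) g)

/-- six numbers side by side -/
def pk6 (x1 x2 x3 x4 x5 x6 Y : Nat) : Nat :=
  Nat.add x1 (Nat.mul cQ (Nat.add x2 (Nat.mul cQ (Nat.add x3 (Nat.mul cQ (Nat.add x4 (Nat.mul cQ
    (Nat.add x5 (Nat.mul cQ (Nat.add x6 (Nat.mul cQ Y)))))))))))

/-- the numbers of the first and the third face -/
def faceI' (x1 x2 x3 a b n d e f sd se sf Y : Nat) : Nat :=
  pk6 (Nat.mul 10000 (Nat.add (Nat.mul x1 a) (Nat.add (Nat.mul x2 d) (Nat.mul x3 e))))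
    (Nat.mul 10000 (Nat.add (Nat.mul x1 d) (Nat.add (Nat.mul x2 b) (Nat.mul x3 f))))
    (Nat.add (Nat.mul 10000 (Nat.add (Nat.mul x1 e) (Nat.mul x2 f))) (Nat.mul x3 n))
    (Nat.mul cG sd) (Nat.mul cG se) (Nat.mul cG sf) Y

/-- the numbers of the first and the third face; `s = true`: the entry is used -/
def faceI (s1 s2 s3 : Bool) (x1 x2 x3 a b n d e f Y : Nat) : Nat :=
  faceI' x1 x2 x3 a b n (cond s1 d cZh) (cond s2 e cZh) (cond s3 f cZh)
    (cond s1 (Nat.sub cZh2 d) d) (cond s2 (Nat.sub cZh2 e) e) (cond s3 (Nat.sub cZh2 f) f) Y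

/-- the numbers of the second and the fourth face -/
def faceII' (x1 x2 x3 b n d e f sd se sf : Nat) : Nat :=
  pk6 (Nat.mul 10000 (Nat.add (Nat.mul x1 b) (Nat.add (Nat.mul x2 d) (Nat.mul x3 e))))
    (Nat.add (Nat.mul 10000 (Nat.mul x1 d)) (Nat.add (Nat.mul x2 n) (Nat.mul x3 f)))
    (Nat.add (Nat.mul 10000 (Nat.mul x1 e)) (Nat.add (Nat.mul x2 f) (Nat.mul x3 n)))
    (Nat.mul cG sd) (Nat.mul cG se) (Nat.mul cG4 sf) 0

def faceII (s1 s2 s3 : Bool) (x1 x2 x3 b n d e f : Nat) : Nat :=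
  faceII' x1 x2 x3 b n (cond s1 d cZh) (cond s2 e cZh) (cond s3 f cZn)
    (cond s1 (Nat.sub cZh2 d) d) (cond s2 (Nat.sub cZh2 e) e) (cond s3 (Nat.sub cZn2 f) f)

/-- read the certificate of a face: three bits, `x1`, `x2` -/
def rd (K : Nat) (f : Bool → Bool → Bool → Nat → Nat → Nat → Bool) : Bool :=
  f (Nat.beq (Nat.mod K 2) 1) (Nat.beq (Nat.mod (Nat.div K 2) 2) 1)
    (Nat.beq (Nat.mod (Nat.div K 4) 2) 1) (Nat.mod (Nat.div K 8) 16384)
    (Nat.mod (Nat.div K 131072) 16384)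
    (Nat.sub 16384 (Nat.add (Nat.mod (Nat.div K 8) 16384) (Nat.mod (Nat.div K 131072) 16384)))

/-- one class, faces of the kind (I, II); `T` is the test -/
def cls0 (T : Nat → Nat → Bool) (a b bb n d e f dd ee pn K : Nat) : Bool :=
  rd K fun s1 s2 s3 x1 x2 x3 =>
    Nat.ble 1 (Nat.mul x1 (Nat.mul x2 x3)) &&
    rd (Nat.div K 2147483648) fun t1 t2 t3 y1 y2 y3 =>
      cond (Nat.beq y1 0)
        (T g8 (faceI s1 s2 s3 x1 x2 x3 a b n d e f
          (Nat.add (Nat.mul cG dd) (Nat.mul cQ (Nat.mul cG4 pn)))))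
        (Nat.ble 1 (Nat.mul y1 (Nat.mul y2 y3)) &&
          T g12 (faceI s1 s2 s3 x1 x2 x3 a b n d e f (faceII t1 t2 t3 y1 y2 y3 bb n dd ee pn)))

/-- the numbers of the exact test: rows and diagonal, face I -/
def gen1 (x1 x2 x3 a b n d e f Y : Nat) : Nat :=
  pk6 (Nat.mul 10000 (Nat.add (Nat.mul x1 a) (Nat.add (Nat.mul x2 d) (Nat.mul x3 e))))
    (Nat.mul 10000 (Nat.add (Nat.mul x1 d) (Nat.add (Nat.mul x2 b) (Nat.mul x3 f))))
    (Nat.add (Nat.mul 10000 (Nat.add (Nat.mul x1 e) (Nat.mul x2 f))) (Nat.mul x3 n))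
    (Nat.mul cG a) (Nat.mul cG b) (Nat.mul cG4 n) Y

/-- the numbers of the exact test: edges, face I -/
def gen2 (p q r p' q' r' a b n d e f Y : Nat) : Nat :=
  pk6 (Nat.mul 10000 (Nat.add (Nat.mul p a) (Nat.mul p' d)))
    (Nat.mul 10000 (Nat.add (Nat.mul p d) (Nat.mul p' b)))
    (Nat.mul 10000 (Nat.add (Nat.mul q a) (Nat.mul q' e)))
    (Nat.add (Nat.mul 10000 (Nat.mul q e)) (Nat.mul q' n))
    (Nat.mul 10000 (Nat.add (Nat.mul r b) (Nat.mul r' f)))
    (Nat.add (Nat.mul 10000 (Nat.mul r f)) (Nat.mul r' n)) Y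

/-- the numbers of the exact test: face II -/
def gen3 (y1 y2 y3 s s' b n d e f : Nat) : Nat :=
  pk6 (Nat.mul 10000 (Nat.add (Nat.mul y1 b) (Nat.add (Nat.mul y2 d) (Nat.mul y3 e))))
    (Nat.add (Nat.mul 10000 (Nat.mul y1 d)) (Nat.add (Nat.mul y2 n) (Nat.mul y3 f)))
    (Nat.add (Nat.mul 10000 (Nat.mul y1 e)) (Nat.add (Nat.mul y2 f) (Nat.mul y3 n)))
    (Nat.mul 10000 (Nat.add (Nat.mul s b) (Nat.mul s' d)))
    (Nat.add (Nat.mul 10000 (Nat.mul s d)) (Nat.mul s' n))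
    (Nat.mul 8192 (Nat.add n f)) 0

/-- `1 + Q + ... + Q^17` -/
def g18 : Nat := geo 18

/-- the exact test of one class -/
def clsG' (T : Nat → Nat → Bool) (a b bb n d e f dd ee pn x1 x2 p q r y1 y2 s : Nat) : Bool :=
  Nat.ble (Nat.add x1 x2) 16384 && (Nat.ble (Nat.add y1 y2) 16384 &&
    T g18 (gen1 x1 x2 (Nat.sub 16384 (Nat.add x1 x2)) a b n d e f
      (gen2 p q r (Nat.sub 16384 p) (Nat.sub 16384 q) (Nat.sub 16384 r) a b n d e f
        (gen3 y1 y2 (Nat.sub 16384 (Nat.add y1 y2)) s (Nat.sub 16384 s) bb n dd ee pn))))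

/-- the exact test of one class; the certificate has 8 numbers of 14 bits -/
def clsG (T : Nat → Nat → Bool) (a b bb n d e f dd ee pn K : Nat) : Bool :=
  clsG' T a b bb n d e f dd ee pn (Nat.mod K 16384) (Nat.mod (Nat.div K 16384) 16384)
    (Nat.mod (Nat.div K 268435456) 16384) (Nat.mod (Nat.div K 4398046511104) 16384)
    (Nat.mod (Nat.div K 72057594037927936) 16384)
    (Nat.mod (Nat.div K 1180591620717411303424) 16384)
    (Nat.mod (Nat.div K 19342813113834066795298816) 16384)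
    (Nat.mod (Nat.div K 316912650057057350374175801344) 16384)

/-- one class; `gm = true`: the exact test -/
def cls (gm : Bool) (T : Nat → Nat → Bool) (a b bb n d e f dd ee pn K : Nat) : Bool :=
  cond gm (clsG T a b bb n d e f dd ee pn K) (cls0 T a b bb n d e f dd ee pn K)

/-- one class, the faces 1, 2 and (if `cvm`) the faces 3, 4 -/
def cls4 (T : Nat → Nat → Bool) (gm cvm : Bool) (a b n d e ep f fp pn K : Nat) : Bool :=
  cls gm T a b b n d e f fp f pn K &&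
    cond cvm (cls gm T a b a n d ep fp ep e pn
      (Nat.div K (cond gm 5192296858534827628530496329220096 4611686018427387904))) true

/-- the classes of a line; `nc = true`: 8 classes -/
def lnc (nc gm cvm : Bool) (fs a b n d e ep f fp pn K : Nat) : Bool :=
  cond nc
    (cls4 (tst1 m0 a0 k0 1) gm cvm a b n d e ep f fp pn K &&
    (cls4 (tst1 m1 a1 k1 1) gm cvm a b n d e ep f fp pn (Nat.div K fs) &&
    (cls4 (tst1 m2 a2 k2 1) gm cvm a b n d e ep f fp pn (Nat.div K (Nat.pow fs 2)) &&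
    (cls4 (tst1 m3 a3 k3 1) gm cvm a b n d e ep f fp pn (Nat.div K (Nat.pow fs 3)) &&
    (cls4 (tst1 m0 a0 k0 cM) gm cvm a b n d e ep f fp pn (Nat.div K (Nat.pow fs 4)) &&
    (cls4 (tst1 m1 a1 k1 cM) gm cvm a b n d e ep f fp pn (Nat.div K (Nat.pow fs 5)) &&
    (cls4 (tst1 m2 a2 k2 cM) gm cvm a b n d e ep f fp pn (Nat.div K (Nat.pow fs 6)) &&
    cls4 (tst1 m3 a3 k3 cM) gm cvm a b n d e ep f fp pn (Nat.div K (Nat.pow fs 7)))))))))
    (cls4 tst gm cvm a b n d e ep f fp pn K)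

/-- normalisation constant: offset `H - w H0` -/
def zn (w : Nat) : Nat := Nat.sub cZh (Nat.mul w cZ0)
/-- normalisation constant: offset `10^4 H - w H0` -/
def znn (w : Nat) : Nat := Nat.sub cZn (Nat.mul w cZ0)

/-- one line `(k, s)` -/
def line (nc gm cvm : Bool) (W th fs k s a b0 d0 e0 ep0 n pn gb gp Lb K : Nat) : Bool :=
  lnc nc gm cvm fs a
    (Nat.add (Nat.add b0 (Nat.mul (Nat.mul 20000 (Nat.mul W k)) Lb))
      (zn (Nat.mul 10000 (Nat.add (Nat.add 2 (Nat.mul 4 (Nat.mul W (Nat.add 1 W)))) (Nat.mul 2 (Nat.mul W k))))))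
    n
    (Nat.add (Nat.add d0 (Nat.mul (Nat.mul 10000 (Nat.mul W k)) Lb))
      (zn (Nat.mul 10000 (Nat.add (Nat.add 2 (Nat.mul 2 W)) (Nat.mul W k)))))
    (Nat.add (Nat.add e0 (Nat.mul (Nat.mul 10000 s) Lb))
      (zn (Nat.add (Nat.add 10000 th) (Nat.mul 10000 s))))
    (Nat.add (Nat.add ep0 (Nat.mul (Nat.mul 10000 s) Lb))
      (zn (Nat.add (Nat.add 10000 th) (Nat.mul 10000 s))))
    (Nat.add (Nat.add (Nat.add e0 (Nat.mul (Nat.mul 10000 s) Lb)) gb)
      (zn (Nat.add (Nat.add (Nat.add 10000 th) (Nat.mul 10000 s)) (Nat.mul 2 (Nat.mul W th)))))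
    (Nat.add (Nat.add (Nat.add ep0 (Nat.mul (Nat.mul 10000 s) Lb)) gp)
      (zn (Nat.add (Nat.add (Nat.add 10000 th) (Nat.mul 10000 s)) (Nat.mul 2 (Nat.mul W th)))))
    pn K

/-- the lines -/
def lines3 (md : Nat) (nc gm cvm : Bool) (W th fs ls a b0 d0 e0 ep0 n pn gb gp Lb K : Nat) : Bool :=
  cond (Nat.beq md 0) (line nc gm cvm W th fs 10000 10000 a b0 d0 e0 ep0 n pn gb gp Lb K)
  (cond (Nat.beq md 1)
    (line nc gm cvm W th fs 10000 4143 a b0 d0 e0 ep0 n pn gb gp Lb K &&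
      line nc gm cvm W th fs 4143 10000 a b0 d0 e0 ep0 n pn gb gp Lb (Nat.div K ls))
    (line nc gm cvm W th fs 10000 1327 a b0 d0 e0 ep0 n pn gb gp Lb K &&
    (line nc gm cvm W th fs 9312 3879 a b0 d0 e0 ep0 n pn gb gp Lb (Nat.div K ls) &&
    (line nc gm cvm W th fs 7995 6148 a b0 d0 e0 ep0 n pn gb gp Lb (Nat.div K (Nat.pow ls 2)) &&
    (line nc gm cvm W th fs 6148 7995 a b0 d0 e0 ep0 n pn gb gp Lb (Nat.div K (Nat.pow ls 3)) &&
    (line nc gm cvm W th fs 3879 9312 a b0 d0 e0 ep0 n pn gb gp Lb (Nat.div K (Nat.pow ls 4)) &&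
    line nc gm cvm W th fs 1327 10000 a b0 d0 e0 ep0 n pn gb gp Lb (Nat.div K (Nat.pow ls 5))))))))

/-- a coefficient with the scale `10^E` and the offset `Z` -/
def cf (E Z : Nat) (x : Dec) : Nat :=
  Nat.sub (Nat.add (Nat.mul x.p (Nat.pow 10 (Nat.sub E x.e))) Z)
    (Nat.mul x.n (Nat.pow 10 (Nat.sub E x.e)))

/-- the signs: `cvv ≤ 0`, `l ≥ 0`, and (if not `cvm`) `cv ≤ 0` -/
def signs (cvm : Bool) (CV CVV L : Nat) : Bool :=
  tst g3 (Nat.add (Nat.mul 175921860444160000 (Nat.sub cZ02 CVV)) (Nat.mul cQ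
    (Nat.add (Nat.mul 175921860444160000 L)
      (Nat.mul cQ (Nat.mul 175921860444160000 (cond cvm cZ0 (Nat.sub cZ02 CV)))))))

/-- the test of a form, given the packed coefficients -/
def hf1 (md : Nat) (nc gm cvm : Bool) (W th fs ls C CU CUU CV CVV CA CAA L K : Nat) : Bool :=
  signs cvm CV CVV L &&
  lines3 md nc gm cvm W th fs ls
    (Nat.add (Nat.mul 20000 C) (zn 20000))
    (Nat.mul 10000 (Nat.add (Nat.mul 2 C) (Nat.add (Nat.mul (Nat.mul 2 W) (Nat.add CU CV))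
      (Nat.mul (Nat.mul 2 (Nat.mul W W)) (Nat.add CUU CVV)))))
    (Nat.mul 10000 (Nat.add (Nat.mul 2 C) (Nat.mul W (Nat.add CU CV))))
    (Nat.add (Nat.mul 10000 CA) (Nat.mul th (Nat.sub cZ02 CU)))
    (Nat.add (Nat.mul 10000 CA) (Nat.mul th CU))
    (Nat.add (Nat.add (Nat.mul 200000000 CAA) (Nat.mul (Nat.mul 2 (Nat.mul th th)) CUU))
      (znn (Nat.add 200000000 (Nat.mul 2 (Nat.mul th th)))))
    (Nat.add (Nat.add (Nat.mul 200000000 CAA) (Nat.mul (Nat.mul 2 (Nat.mul th th)) (Nat.sub cZ02 CUU)))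
      (znn (Nat.add 200000000 (Nat.mul 2 (Nat.mul th th)))))
    (Nat.mul (Nat.mul 2 (Nat.mul W th)) (Nat.sub cZ02 CUU))
    (Nat.mul (Nat.mul 2 (Nat.mul W th)) CUU)
    (Nat.sub cZ02 L) K

/-- the test of a form; the first 5 bits of the certificate: `nc`, `cvm`, `md`, `gm`; `f` gets the
rest -/
def hf (W th Z : Nat) (q : QI Dec) (K : Nat) (f : Nat → Bool) : Bool :=
  (fun (md : Nat) (nc gm cvm : Bool) =>
    (fun (fs : Nat) =>
      (fun (ls : Nat) =>
        hf1 md nc gm cvm W th fs ls (cf 44 Z q.c) (cf 44 cZ0 q.cu) (cf 44 cZ0 q.cuu)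
          (cf 44 cZ0 q.cv) (cf 44 cZ0 q.cvv) (cf 44 cZ0 q.ca) (cf 44 cZ0 q.caa) (cf 40 cZ0 q.l)
          (Nat.div K 32) &&
        f (Nat.div (Nat.div K 32)
          (cond (Nat.beq md 0) ls (cond (Nat.beq md 1) (Nat.pow ls 2) (Nat.pow ls 6)))))
      (cond nc (Nat.pow fs 8) fs))
    (cond cvm
      (cond gm 26959946667150639794667015087019630673637144422540572481103610249216
        21267647932558653966460912964485513216)
      (cond gm 5192296858534827628530496329220096 4611686018427387904)))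
  (Nat.mod (Nat.div K 4) 4) (Nat.beq (Nat.mod K 2) 1) (Nat.beq (Nat.mod (Nat.div K 16) 2) 1)
  (Nat.beq (Nat.mod (Nat.div K 2) 2) 1)

/-- the constants of a group: `kappa = 10^39 ((i0 - 2^20) + (i1 - 2^20) lam + mu (..))` -/
def kZ (K : Nat) : Nat :=
  Nat.mul 1000000000000000000000000000000000000000
    (Nat.add (Nat.add (Nat.mod K 2097152) (Nat.mul cB (Nat.mod (Nat.div K 2097152) 2097152)))
      (Nat.mul cM (Nat.add (Nat.mod (Nat.div K 4398046511104) 2097152)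
        (Nat.mul cB (Nat.mod (Nat.div K 9223372036854775808) 2097152)))))
/-- the middle -/
def kM : Nat :=
  Nat.mul (Nat.mul 1048576000000000000000000000000000000000000000 (Nat.add 1 cB)) m0

/-- a list of forms -/
def hfs (W th Z : Nat) : List (QI Dec) → Nat → (Nat → Bool) → Bool
  | [], K, f => f K
  | q :: l, K, f => hf W th Z q K fun K' => hfs W th Z l K' f

/-- a group -/
def grp (WU WY th : Nat) (Fs Gs : List (QI Dec)) (K : Nat) : Bool :=
  hfs WU th (Nat.sub (Nat.add cZ0 kM) (kZ K)) Fs (Nat.div K 19342813113834066795298816)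
    fun K' => hfs WY th (Nat.sub (Nat.add cZ0 (kZ K)) kM) Gs K' fun _ => true

end Pool.Agent.TSC.V3
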