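import Pool.Agent.TSC.V3Grp

set_option autoImplicit false

/-!
# Bounds of the coefficients by an evaluation with natural numbers (MP_d27362_co)

`p + n` of a decimal polynomial is multiplicative and additive, so the bound algebra is the
semiring of natural numbers. Two evaluations give the degrees and the size of the coefficients.
-/

namespace Pool.Agent.TSC.V3

open Pool.Agent.TSC
open Polynomial

/-- the arithmetic of the bounds -/
@[reducible] def arN : Ar ℕ where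
  zero := 0
  one := 1
  add x y := Nat.add x y
  mul x y := Nat.mul x y
  neg x := x
  sub x y := Nat.add x y
  nsm k x := Nat.mul k x

/-- the bound of a constant -/
def cb (d : Dec) : ℕ :=
  Nat.div (Nat.add (Nat.add d.p d.n) (Nat.sub (Nat.pow 10 d.e) 1)) (Nat.pow 10 d.e)

lemma cb_le (d : Dec) : d.p + d.n ≤ 10 ^ d.e * cb d := by
  have e1 : cb d = (d.p + d.n + (10 ^ d.e - 1)) / 10 ^ d.e := rfl
  rw [e1]
  have h : 0 < 10 ^ d.e := by positivity
  have h1 := Nat.div_add_mod (d.p + d.n + (10 ^ d.e - 1)) (10 ^ d.e)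
  have h2 := Nat.mod_lt (d.p + d.n + (10 ^ d.e - 1)) h
  omega

/-- `h` bounds `f` -/
def Rb (f : DS N2) (h : N2) : Prop := ∃ g : N2, f.p + f.n + g = 10 ^ f.e * h

/-- pairs of a decimal polynomial and a bound -/
def RS : Type := {x : DS N2 × N2 // Rb x.1 x.2}

lemma Rb.zero : Rb ⟨0, 0, 0⟩ 0 := ⟨0, by simp⟩
lemma Rb.one : Rb ⟨1, 0, 0⟩ 1 := ⟨0, by simp⟩

lemma pow_a (a b : ℕ) : (10 : N2) ^ (a + (b - a)) = 10 ^ a * 10 ^ (b - a) := pow_add _ _ _

lemma pow_b (a b : ℕ) : (10 : N2) ^ (a + (b - a)) = 10 ^ b * 10 ^ (a - b) := by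
  rw [← pow_add]
  congr 1
  omega

lemma Rb.add {x y : DS N2} {h k : N2} (hx : Rb x h) (hy : Rb y k) :
    Rb (Ar.add x y) (h + k) := by
  obtain ⟨g, hg⟩ := hx
  obtain ⟨g', hg'⟩ := hy
  refine ⟨g * 10 ^ (y.e - x.e) + g' * 10 ^ (x.e - y.e), ?_⟩
  show (x.p * 10 ^ (y.e - x.e) + y.p * 10 ^ (x.e - y.e)) +
    (x.n * 10 ^ (y.e - x.e) + y.n * 10 ^ (x.e - y.e)) + _ = 10 ^ (x.e + (y.e - x.e)) * (h + k)
  have e1 : (10 : N2) ^ (x.e + (y.e - x.e)) * (h + k) =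
      (10 ^ x.e * h) * 10 ^ (y.e - x.e) + (10 ^ y.e * k) * 10 ^ (x.e - y.e) := by
    rw [mul_add]
    congr 1
    · rw [pow_a]; ring
    · rw [pow_b]; ring
  rw [e1, ← hg, ← hg']
  ring

lemma Rb.sub {x y : DS N2} {h k : N2} (hx : Rb x h) (hy : Rb y k) :
    Rb (Ar.sub x y) (h + k) := by
  obtain ⟨g, hg⟩ := hx
  obtain ⟨g', hg'⟩ := hy
  refine ⟨g * 10 ^ (y.e - x.e) + g' * 10 ^ (x.e - y.e), ?_⟩
  show (x.p * 10 ^ (y.e - x.e) + y.n * 10 ^ (x.e - y.e)) +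
    (x.n * 10 ^ (y.e - x.e) + y.p * 10 ^ (x.e - y.e)) + _ = 10 ^ (x.e + (y.e - x.e)) * (h + k)
  have e1 : (10 : N2) ^ (x.e + (y.e - x.e)) * (h + k) =
      (10 ^ x.e * h) * 10 ^ (y.e - x.e) + (10 ^ y.e * k) * 10 ^ (x.e - y.e) := by
    rw [mul_add]
    congr 1
    · rw [pow_a]; ring
    · rw [pow_b]; ring
  rw [e1, ← hg, ← hg']
  ring

lemma Rb.mul {x y : DS N2} {h k : N2} (hx : Rb x h) (hy : Rb y k) :
    Rb (Ar.mul x y) (h * k) := by
  obtain ⟨g, hg⟩ := hx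
  obtain ⟨g', hg'⟩ := hy
  refine ⟨g * (y.p + y.n + g') + (x.p + x.n) * g', ?_⟩
  show (x.p * y.p + x.n * y.n) + (x.p * y.n + x.n * y.p) + _ = 10 ^ (x.e + y.e) * (h * k)
  have e1 : (10 : N2) ^ (x.e + y.e) * (h * k) = (10 ^ x.e * h) * (10 ^ y.e * k) := by
    rw [pow_add]; ring
  rw [e1, ← hg, ← hg']
  ring

lemma Rb.neg {x : DS N2} {h : N2} (hx : Rb x h) : Rb (Ar.neg x) h := by
  obtain ⟨g, hg⟩ := hx
  refine ⟨g, ?_⟩
  show x.n + x.p + g = 10 ^ x.e * h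
  rw [← hg]
  ring

lemma Rb.nsm {x : DS N2} {h : N2} (k : ℕ) (hx : Rb x h) : Rb (Ar.nsm k x) ((k : N2) * h) := by
  obtain ⟨g, hg⟩ := hx
  refine ⟨(k : N2) * g, ?_⟩
  show (k : N2) * x.p + (k : N2) * x.n + _ = 10 ^ x.e * ((k : N2) * h)
  have e1 : (10 : N2) ^ x.e * ((k : N2) * h) = (k : N2) * (10 ^ x.e * h) := by ring
  rw [e1, ← hg]
  ring

noncomputable instance : Ar RS where
  zero := ⟨(⟨0, 0, 0⟩, 0), Rb.zero⟩
  one := ⟨(⟨1, 0, 0⟩, 1), Rb.one⟩
  add x y := ⟨(Ar.add x.1.1 y.1.1, x.1.2 + y.1.2), x.2.add y.2⟩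
  mul x y := ⟨(Ar.mul x.1.1 y.1.1, x.1.2 * y.1.2), x.2.mul y.2⟩
  neg x := ⟨(Ar.neg x.1.1, x.1.2), x.2.neg⟩
  sub x y := ⟨(Ar.sub x.1.1 y.1.1, x.1.2 + y.1.2), x.2.sub y.2⟩
  nsm k x := ⟨(Ar.nsm k x.1.1, (k : N2) * x.1.2), x.2.nsm k⟩

/-- the decimal polynomial -/
def RS.f (x : RS) : DS N2 := x.1.1

/-- the value of the bound -/
noncomputable def RS.b (L M : ℕ) (x : RS) : ℕ := e2 L M x.1.2

lemma RS.f_hom : ArHom RS.f :=
  ⟨rfl, rfl, fun _ _ => rfl, fun _ _ => rfl, fun _ => rfl, fun _ _ => rfl, fun _ _ => rfl⟩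

lemma RS.b_hom (L M : ℕ) : @ArHom RS ℕ _ arN (RS.b L M) :=
  @ArHom.mk RS ℕ _ arN (RS.b L M) (map_zero _) (map_one _) (fun _ _ => map_add _ _ _)
    (fun _ _ => map_mul _ _ _) (fun _ => rfl) (fun _ _ => map_add _ _ _)
    (fun k x => by
      show e2 L M ((k : N2) * x.1.2) = k * e2 L M x.1.2
      rw [map_mul, map_natCast]
      rfl)

/-- a constant -/
noncomputable def RS.const (d : Dec) : RS :=
  ⟨(DS.const d, ((cb d : ℕ) : N2)), by
    obtain ⟨g, hg⟩ := Nat.exists_eq_add_of_le (cb_le d)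
    refine ⟨(g : N2), ?_⟩
    show ((d.p : ℕ) : N2) + ((d.n : ℕ) : N2) + _ = 10 ^ d.e * _
    have h1 := congrArg (fun n : ℕ => (n : N2)) hg
    push_cast at h1
    exact h1.symm⟩

/-- the variable `lam` -/
noncomputable def RS.lam : RS := ⟨(DS.of (C X), C X), ⟨0, by simp [DS.of]⟩⟩

/-- the variable `mu` -/
noncomputable def RS.mu : RS := ⟨(DS.of X, X), ⟨0, by simp [DS.of]⟩⟩

lemma RS.b_const (L M : ℕ) (d : Dec) : RS.b L M (RS.const d) = cb d := by
  show e2 L M ((cb d : ℕ) : N2) = cb d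
  rw [map_natCast]
  rfl

lemma RS.b_lam (L M : ℕ) : RS.b L M RS.lam = L := e2_CX L M
lemma RS.b_mu (L M : ℕ) : RS.b L M RS.mu = M := e2_X L M

/-! ### the coefficients -/

lemma coef_le (h : N2) (L M a b : ℕ) : (h.coeff b).coeff a * L ^ a * M ^ b ≤ e2 L M h := by
  have e1 : e2 L M h = h.eval₂ (evalRingHom L) M := rfl
  have h1 : (h.coeff b).coeff a * L ^ a ≤ (evalRingHom L) (h.coeff b) := by
    show _ ≤ (h.coeff b).eval L
    rw [eval_eq_sum_range]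
    rcases Nat.lt_or_ge (h.coeff b).natDegree a with hd | hd
    · rw [coeff_eq_zero_of_natDegree_lt hd]
      simp
    · exact Finset.single_le_sum (f := fun i => (h.coeff b).coeff i * L ^ i)
        (fun _ _ => Nat.zero_le _) (Finset.mem_range.2 (Nat.lt_succ_of_le hd))
  have h2 : (evalRingHom L) (h.coeff b) * M ^ b ≤ e2 L M h := by
    rw [e1, eval₂_eq_sum_range]
    rcases Nat.lt_or_ge h.natDegree b with hd | hd
    · rw [coeff_eq_zero_of_natDegree_lt hd]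
      simp
    · exact Finset.single_le_sum (f := fun i => (evalRingHom L) (h.coeff i) * M ^ i)
        (fun _ _ => Nat.zero_le _) (Finset.mem_range.2 (Nat.lt_succ_of_le hd))
  exact (Nat.mul_le_mul_right _ h1).trans h2

lemma coef_ten (h : N2) (e a b : ℕ) : (((10 : N2) ^ e * h).coeff b).coeff a =
    10 ^ e * (h.coeff b).coeff a := by
  have e1 : ((10 : N2) ^ e) = C (C (10 ^ e : ℕ)) := by
    rw [C_pow, C_pow]
    rfl
  rw [e1, coeff_C_mul, coeff_C_mul]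

lemma Rb.coef {f : DS N2} {h : N2} (hf : Rb f h) (a b : ℕ) :
    (f.p.coeff b).coeff a + (f.n.coeff b).coeff a ≤ 10 ^ f.e * (h.coeff b).coeff a := by
  obtain ⟨g, hg⟩ := hf
  have h1 : ((f.p + f.n + g).coeff b).coeff a = ((10 ^ f.e * h).coeff b).coeff a := by rw [hg]
  rw [coef_ten, coeff_add, coeff_add, coeff_add, coeff_add] at h1
  omega

/-- `2^24` -/
def L1 : ℕ := 16777216
/-- `2^96` -/
def B1 : ℕ := 79228162514264337593543950336
/-- `2^16` -/
def M1 : ℕ := 65536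
/-- `2^32` -/
def B2 : ℕ := 4294967296

lemma bd_of {E : ℕ} (hE : E ≤ 44) {x : RS} (he : x.f.e ≤ E) (h1 : x.b L1 1 < B1)
    (h2 : x.b 1 M1 < B2) : BD E x.f := by
  have hz : ∀ a b, (4 ≤ a ∨ 2 ≤ b) → (x.1.2.coeff b).coeff a = 0 := by
    intro a b hab
    by_contra hne
    have hpos : 1 ≤ (x.1.2.coeff b).coeff a := Nat.one_le_iff_ne_zero.2 hne
    rcases hab with ha | hb
    · have k1 := coef_le x.1.2 L1 1 a b
      rw [one_pow, mul_one] at k1
      have k2 : L1 ^ 4 ≤ L1 ^ a := Nat.pow_le_pow_right (by unfold L1; norm_num) ha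
      have k3 : L1 ^ 4 = B1 := by unfold L1 B1; norm_num
      have k4 : 1 * L1 ^ 4 ≤ (x.1.2.coeff b).coeff a * L1 ^ a := Nat.mul_le_mul hpos k2
      have k5 : x.b L1 1 = e2 L1 1 x.1.2 := rfl
      omega
    · have k1 := coef_le x.1.2 1 M1 a b
      rw [one_pow, mul_one] at k1
      have k2 : M1 ^ 2 ≤ M1 ^ b := Nat.pow_le_pow_right (by unfold M1; norm_num) hb
      have k3 : M1 ^ 2 = B2 := by unfold M1 B2; norm_num
      have k4 : 1 * M1 ^ 2 ≤ (x.1.2.coeff b).coeff a * M1 ^ b := Nat.mul_le_mul hpos k2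
      have k5 : x.b 1 M1 = e2 1 M1 x.1.2 := rfl
      omega
  have hc : ∀ a b, (x.1.2.coeff b).coeff a ≤ B2 := by
    intro a b
    have k1 := coef_le x.1.2 1 M1 a b
    have k5 : x.b 1 M1 = e2 1 M1 x.1.2 := rfl
    have k6 : (x.1.2.coeff b).coeff a * 1 ^ a * 1 ≤ (x.1.2.coeff b).coeff a * 1 ^ a * M1 ^ b :=
      Nat.mul_le_mul_left _ (Nat.one_le_pow _ _ (by unfold M1; norm_num))
    rw [one_pow, mul_one, mul_one] at k6
    rw [one_pow, mul_one] at k1
    omega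
  have hp : ∀ a b, (x.f.p.coeff b).coeff a ≤ 10 ^ x.f.e * (x.1.2.coeff b).coeff a := by
    intro a b
    have := x.2.coef a b
    exact le_trans (Nat.le_add_right _ _) this
  have hn : ∀ a b, (x.f.n.coeff b).coeff a ≤ 10 ^ x.f.e * (x.1.2.coeff b).coeff a := by
    intro a b
    have := x.2.coef a b
    exact le_trans (Nat.le_add_left _ _) this
  have key : ∀ c a b : ℕ, c ≤ 10 ^ x.f.e * (x.1.2.coeff b).coeff a →
      c * 10 ^ (E - x.f.e) ≤ H1 := by
    intro c a b h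
    have k1 : c ≤ 10 ^ x.f.e * B2 := h.trans (Nat.mul_le_mul_left _ (hc a b))
    have k2 := Nat.mul_le_mul_right (10 ^ (E - x.f.e)) k1
    have k3 : 10 ^ x.f.e * B2 * 10 ^ (E - x.f.e) = 10 ^ E * B2 := by
      have : 10 ^ E = 10 ^ x.f.e * 10 ^ (E - x.f.e) := by
        rw [← pow_add, Nat.add_sub_cancel' he]
      rw [this]
      ring
    have k4 : 10 ^ E ≤ 10 ^ 44 := Nat.pow_le_pow_right (by norm_num) hE
    have k5 : 10 ^ 44 * B2 ≤ H1 := by
      unfold B2 H1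
      rw [Nat.pow_eq]
      norm_num
    rw [k3] at k2
    exact k2.trans ((Nat.mul_le_mul_right _ k4).trans k5)
  exact
    { e := he
      p := fun a b hab => by
        have := hp a b
        rw [hz a b hab, mul_zero] at this
        exact Nat.le_zero.1 this
      n := fun a b hab => by
        have := hn a b
        rw [hz a b hab, mul_zero] at this
        exact Nat.le_zero.1 this
      pb := fun q => key _ _ _ (hp (q % 4) (q / 4))
      nb := fun q => key _ _ _ (hn (q % 4) (q / 4)) }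

/-! ### the arithmetic of the test -/

/-- a packed number with two bounds -/
structure D5 where
  /-- positive part -/
  p : ℕ
  /-- negative part -/
  n : ℕ
  /-- exponent -/
  e : ℕ
  /-- bound at `(L1, 1)` -/
  a : ℕ
  /-- bound at `(1, M1)` -/
  b : ℕ

instance : Ar D5 where
  zero := ⟨0, 0, 0, 0, 0⟩
  one := ⟨1, 0, 0, 1, 1⟩
  add x y := ⟨Nat.add (Nat.mul x.p (Nat.pow 10 (Nat.sub y.e x.e)))
      (Nat.mul y.p (Nat.pow 10 (Nat.sub x.e y.e))),
    Nat.add (Nat.mul x.n (Nat.pow 10 (Nat.sub y.e x.e)))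
      (Nat.mul y.n (Nat.pow 10 (Nat.sub x.e y.e))),
    Nat.add x.e (Nat.sub y.e x.e), Nat.add x.a y.a, Nat.add x.b y.b⟩
  mul x y := ⟨Nat.add (Nat.mul x.p y.p) (Nat.mul x.n y.n),
    Nat.add (Nat.mul x.p y.n) (Nat.mul x.n y.p), Nat.add x.e y.e, Nat.mul x.a y.a,
    Nat.mul x.b y.b⟩
  neg x := ⟨x.n, x.p, x.e, x.a, x.b⟩
  sub x y := ⟨Nat.add (Nat.mul x.p (Nat.pow 10 (Nat.sub y.e x.e)))
      (Nat.mul y.n (Nat.pow 10 (Nat.sub x.e y.e))),
    Nat.add (Nat.mul x.n (Nat.pow 10 (Nat.sub y.e x.e)))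
      (Nat.mul y.p (Nat.pow 10 (Nat.sub x.e y.e))),
    Nat.add x.e (Nat.sub y.e x.e), Nat.add x.a y.a, Nat.add x.b y.b⟩
  nsm k x := ⟨Nat.mul k x.p, Nat.mul k x.n, x.e, Nat.mul k x.a, Nat.mul k x.b⟩

/-- a constant -/
def D5.c (d : Dec) : D5 := ⟨d.p, d.n, d.e, cb d, cb d⟩

/-- the packed number -/
def D5.d (x : D5) : Dec := ⟨x.p, x.n, x.e⟩

/-- the packed number of a polynomial with its bounds -/
noncomputable def RS.g (x : RS) : D5 :=
  ⟨e2 cB cM x.1.1.p, e2 cB cM x.1.1.n, x.1.1.e, e2 L1 1 x.1.2, e2 1 M1 x.1.2⟩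

lemma RS.g_hom : ArHom RS.g where
  zero := by
    show RS.g ⟨(⟨0, 0, 0⟩, 0), _⟩ = ⟨0, 0, 0, 0, 0⟩
    simp only [RS.g, map_zero]
  one := by
    show RS.g ⟨(⟨1, 0, 0⟩, 1), _⟩ = ⟨1, 0, 0, 1, 1⟩
    simp only [RS.g, map_zero, map_one]
  add x y := by
    have h10 : e2 cB cM 10 = 10 := map_ofNat _ 10
    show D5.mk (e2 cB cM (x.1.1.p * 10 ^ (y.1.1.e - x.1.1.e) + y.1.1.p * 10 ^ (x.1.1.e - y.1.1.e)))
      (e2 cB cM (x.1.1.n * 10 ^ (y.1.1.e - x.1.1.e) + y.1.1.n * 10 ^ (x.1.1.e - y.1.1.e)))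
      (x.1.1.e + (y.1.1.e - x.1.1.e)) (e2 L1 1 (x.1.2 + y.1.2)) (e2 1 M1 (x.1.2 + y.1.2)) = _
    simp only [map_add, map_mul, map_pow, h10]
    rfl
  mul x y := by
    show D5.mk (e2 cB cM (x.1.1.p * y.1.1.p + x.1.1.n * y.1.1.n))
      (e2 cB cM (x.1.1.p * y.1.1.n + x.1.1.n * y.1.1.p))
      (x.1.1.e + y.1.1.e) (e2 L1 1 (x.1.2 * y.1.2)) (e2 1 M1 (x.1.2 * y.1.2)) = _
    simp only [map_add, map_mul]
    rfl
  neg x := rfl
  sub x y := by
    have h10 : e2 cB cM 10 = 10 := map_ofNat _ 10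
    show D5.mk (e2 cB cM (x.1.1.p * 10 ^ (y.1.1.e - x.1.1.e) + y.1.1.n * 10 ^ (x.1.1.e - y.1.1.e)))
      (e2 cB cM (x.1.1.n * 10 ^ (y.1.1.e - x.1.1.e) + y.1.1.p * 10 ^ (x.1.1.e - y.1.1.e)))
      (x.1.1.e + (y.1.1.e - x.1.1.e)) (e2 L1 1 (x.1.2 + y.1.2)) (e2 1 M1 (x.1.2 + y.1.2)) = _
    simp only [map_add, map_mul, map_pow, h10]
    rfl
  nsm k x := by
    show D5.mk (e2 cB cM ((k : N2) * x.1.1.p)) (e2 cB cM ((k : N2) * x.1.1.n))
      x.1.1.e (e2 L1 1 ((k : N2) * x.1.2)) (e2 1 M1 ((k : N2) * x.1.2)) = _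
    simp only [map_mul, map_natCast]
    rfl

lemma RS.g_const (d : Dec) : (RS.const d).g = D5.c d := by
  show D5.mk (e2 cB cM ((d.p : ℕ) : N2)) (e2 cB cM ((d.n : ℕ) : N2)) d.e
    (e2 L1 1 ((cb d : ℕ) : N2)) (e2 1 M1 ((cb d : ℕ) : N2)) = _
  simp only [map_natCast]
  rfl

lemma RS.g_lam : RS.lam.g = ⟨cB, 0, 0, L1, 1⟩ := by
  show D5.mk (e2 cB cM (C X)) (e2 cB cM 0) 0 (e2 L1 1 (C X)) (e2 1 M1 (C X)) = _
  rw [e2_CX, e2_CX, e2_CX, map_zero]

lemma RS.g_mu : RS.mu.g = ⟨cM, 0, 0, 1, M1⟩ := by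
  show D5.mk (e2 cB cM X) (e2 cB cM 0) 0 (e2 L1 1 X) (e2 1 M1 X) = _
  rw [e2_X, e2_X, e2_X, map_zero]

/-! ### the tests of the lists -/

/-- the test of a coefficient -/
def ok5 (E : ℕ) (x : D5) : Bool := Nat.ble x.e E && (Nat.blt x.a B1 && Nat.blt x.b B2)

/-- the test of the coefficients of a form -/
def qok (q : QI D5) : Bool :=
  ok5 44 q.c && (ok5 44 q.cu && (ok5 44 q.cuu && (ok5 44 q.cv && (ok5 44 q.cvv &&
    (ok5 44 q.ca && (ok5 44 q.caa && ok5 40 q.l))))))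

/-- a group of forms -/
abbrev GP' (α : Type) := List (QI α) × List (QI α)

/-- apply a function to the coefficients -/
def gmap' {α β : Type} (f : α → β) (g : GP' α) : GP' β := (g.1.map (QI.map f), g.2.map (QI.map f))

/-- all the forms of a list -/
def lall {α : Type} (f : QI α → Bool) : List (QI α) → Bool
  | [] => true
  | q :: l => f q && lall f l

/-- the groups with their packed numbers -/
def grps (WU WY th : ℕ) : List (GP' D5) → List ℕ → Bool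
  | [], _ => true
  | g :: l, K :: Ks => grp WU WY th (g.1.map (QI.map D5.d)) (g.2.map (QI.map D5.d)) K &&
      (lall qok g.1 && (lall qok g.2 && grps WU WY th l Ks))
  | _ :: _, [] => false

lemma lall_sound {α : Type} {f : QI α → Bool} : ∀ {l : List (QI α)}, lall f l = true →
    ∀ q ∈ l, f q = true
  | [], _, q, hq => by simp at hq
  | p :: l, h, q, hq => by
    simp only [lall, Bool.and_eq_true] at h
    rcases List.mem_cons.1 hq with rfl | hq
    · exact h.1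
    · exact lall_sound h.2 q hq

lemma grps_sound {WU WY th : ℕ} : ∀ {l : List (GP' D5)} {Ks : List ℕ},
    grps WU WY th l Ks = true → ∀ g ∈ l,
      (∃ K, grp WU WY th (g.1.map (QI.map D5.d)) (g.2.map (QI.map D5.d)) K = true) ∧
      (∀ q ∈ g.1, qok q = true) ∧ ∀ q ∈ g.2, qok q = true
  | [], _, _, g, hg => by simp at hg
  | p :: l, [], h, g, hg => by simp [grps] at h
  | p :: l, K :: Ks, h, g, hg => by
    simp only [grps, Bool.and_eq_true] at h
    rcases List.mem_cons.1 hg with rfl | hg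
    · exact ⟨⟨K, h.1⟩, lall_sound h.2.1, lall_sound h.2.2.1⟩
    · exact grps_sound h.2.2.2 g hg

lemma bd_ok {E : ℕ} (hE : E ≤ 44) {x : RS} (h : ok5 E x.g = true) : BD E x.f := by
  simp only [ok5, Bool.and_eq_true, Nat.blt_eq] at h
  exact bd_of hE (Nat.le_of_ble_eq_true h.1) h.2.1 h.2.2

lemma bq_of {q : QI RS} (h : qok (q.map RS.g) = true) : BQ (q.map RS.f) := by
  simp only [qok, Bool.and_eq_true] at h
  obtain ⟨a1, a2, a3, a4, a5, a6, a7, a8⟩ := h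
  exact
    { c := bd_ok (by norm_num) a1
      cu := bd_ok (by norm_num) a2
      cuu := bd_ok (by norm_num) a3
      cv := bd_ok (by norm_num) a4
      cvv := bd_ok (by norm_num) a5
      ca := bd_ok (by norm_num) a6
      caa := bd_ok (by norm_num) a7
      l := bd_ok (by norm_num) a8 }

/-! ### the test of a natural list of groups -/

/-- a list of groups, natural in the coefficients; the arguments are the embedding of the
decimal numbers, `lam` and `mu` -/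
structure GQ where
  /-- the list -/
  L : (α : Type) → [Ar α] → (Dec → α) → α → α → List (GP' α)
  /-- naturality -/
  nat : ∀ {α β : Type} [Ar α] [Ar β] {f : α → β}, ArHom f → ∀ (c : Dec → α) (l m : α),
    (L α c l m).map (gmap' f) = L β (fun x => f (c x)) (f l) (f m)

/-- the test of the groups -/
def chk3 (G : GQ) (WU WY th : ℕ) (Ks : List ℕ) : Bool :=
  grps WU WY th (G.L D5 D5.c ⟨cB, 0, 0, L1, 1⟩ ⟨cM, 0, 0, 1, M1⟩) Ks

attribute [local irreducible] cB cM B1 B2 L1 M1 DS.dec DS.val e2 r2 in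
/-- **soundness of the test** -/
theorem chk3_sound {G : GQ} {WU WY th : ℕ} {Ks : List ℕ} (hU1 : 1 ≤ WU) (hU : WU ≤ 2)
    (hY1 : 1 ≤ WY) (hY : WY ≤ 2) (hth : th ≤ 10000) (h : chk3 G WU WY th Ks = true) {x m : ℝ}
    (hx : 0 ≤ x) (hx1 : x ≤ 1) (hm : 0 ≤ m) (hm1 : m ≤ 1) :
    ∀ g ∈ G.L ℝ Dec.val x m, ∀ (u v a y w b : ℝ), DomW WU WY ((th : ℝ) / 10000) u v a y w b →
      ∀ F ∈ g.1, ∀ H ∈ g.2, 0 ≤ F.ev u v a + H.ev y w b := by
  unfold chk3 at h
  have eD : (G.L RS RS.const RS.lam RS.mu).map (gmap' RS.g) =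
      G.L D5 D5.c ⟨cB, 0, 0, L1, 1⟩ ⟨cM, 0, 0, 1, M1⟩ := by
    rw [G.nat RS.g_hom, RS.g_lam, RS.g_mu]
    congr 1
    funext d
    exact RS.g_const d
  have eR : (G.L RS RS.const RS.lam RS.mu).map (gmap' fun z => z.f.val (r2 x m)) =
      G.L ℝ Dec.val x m := by
    have hh : ArHom (fun z : RS => z.f.val (r2 x m)) := by
      have k1 := RS.f_hom
      have k2 := DS.val_hom (R := N2) (r2 x m)
      exact ⟨by rw [k1.zero, k2.zero], by rw [k1.one, k2.one],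
        fun x y => by rw [k1.add, k2.add], fun x y => by rw [k1.mul, k2.mul],
        fun x => by rw [k1.neg, k2.neg], fun x y => by rw [k1.sub, k2.sub],
        fun k x => by rw [k1.nsm, k2.nsm]⟩
    rw [G.nat hh]
    have c1 : (fun d : Dec => (RS.const d).f.val (r2 x m)) = Dec.val := by
      funext d
      exact DS.val_const _ d
    have c2 : RS.lam.f.val (r2 x m) = x := by
      show DS.val (R := N2) (r2 x m) (DS.of (C X)) = _
      rw [DS.val_of, r2_CX]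
    have c3 : RS.mu.f.val (r2 x m) = m := by
      show DS.val (R := N2) (r2 x m) (DS.of X) = _
      rw [DS.val_of, r2_X]
    rw [c1, c2, c3]
  intro g hg u v a y w b hd F hF H hH
  rw [← eR] at hg
  obtain ⟨g0, hg0, rfl⟩ := List.mem_map.1 hg
  rw [← eD] at h
  obtain ⟨⟨K, hK⟩, kF, kG⟩ := grps_sound h (gmap' RS.g g0) (List.mem_map.2 ⟨g0, hg0, rfl⟩)
  have bF : ∀ q ∈ g0.1.map (QI.map RS.f), BQ q := by
    intro q hq
    obtain ⟨q0, hq0, rfl⟩ := List.mem_map.1 hq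
    exact bq_of (kF _ (List.mem_map.2 ⟨q0, hq0, rfl⟩))
  have bG : ∀ q ∈ g0.2.map (QI.map RS.f), BQ q := by
    intro q hq
    obtain ⟨q0, hq0, rfl⟩ := List.mem_map.1 hq
    exact bq_of (kG _ (List.mem_map.2 ⟨q0, hq0, rfl⟩))
  have eF : ∀ l : List (QI RS), (l.map (QI.map RS.g)).map (QI.map D5.d) =
      (l.map (QI.map RS.f)).map fun q => q.map (DS.dec (e2 cB cM)) := by
    intro l
    rw [List.map_map, List.map_map]
    apply List.map_congr_left
    intro q _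
    show QI.map D5.d (QI.map RS.g q) = QI.map (DS.dec (e2 cB cM)) (QI.map RS.f q)
    have e1 : ∀ z : RS, D5.d z.g = DS.dec (e2 cB cM) z.f := by
      intro z
      unfold DS.dec
      rfl
    simp only [QI.map, e1]
  have hK' : grp WU WY th ((g0.1.map (QI.map RS.f)).map fun q => q.map (DS.dec (e2 cB cM)))
      ((g0.2.map (QI.map RS.f)).map fun q => q.map (DS.dec (e2 cB cM))) K = true := by
    rw [← eF, ← eF]
    exact hK
  have res := grp_ok hU1 hU hY1 hY hth bF bG hK' hx hx1 hm hm1 hd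
  obtain ⟨F0, hF0, rfl⟩ := List.mem_map.1 hF
  obtain ⟨H0', hH0, rfl⟩ := List.mem_map.1 hH
  exact res _ (List.mem_map.2 ⟨F0, hF0, rfl⟩) _ (List.mem_map.2 ⟨H0', hH0, rfl⟩)

end Pool.Agent.TSC.V3
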