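import Pool.Agent.TSC.V3Msk

set_option autoImplicit false

/-!
# The copositivity tests (MP_d27362_co)
-/

namespace Pool.Agent.TSC.V3

open Pool.Agent.TSC

attribute [local irreducible] cB cM cQ cT m0 m1 m2 m3 a0 a1 a2 a3 k0 k1 k2 k3

/-- copositivity from a positive vector -/
lemma copX {a b c d e f d' e' f' x y z : ℝ} (hx : 0 < x) (hy : 0 < y) (hz : 0 < z)
    (hd : d' ≤ d) (he : e' ≤ e) (hf : f' ≤ f) (hd0 : d' ≤ 0) (he0 : e' ≤ 0) (hf0 : f' ≤ 0)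
    (h1 : 0 ≤ x * a + y * d' + z * e') (h2 : 0 ≤ x * d' + y * b + z * f')
    (h3 : 0 ≤ x * e' + y * f' + z * c) : Cop3 a b c d e f := by
  intro X Y Z hX hY hZ
  obtain ⟨p, rfl⟩ : ∃ p, X = x * p := ⟨X / x, by field_simp⟩
  obtain ⟨q, rfl⟩ : ∃ q, Y = y * q := ⟨Y / y, by field_simp⟩
  obtain ⟨r, rfl⟩ : ∃ r, Z = z * r := ⟨Z / z, by field_simp⟩
  have t1 := mul_nonneg (mul_nonneg hx.le h1) (sq_nonneg p)
  have t2 := mul_nonneg (mul_nonneg hy.le h2) (sq_nonneg q)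
  have t3 := mul_nonneg (mul_nonneg hz.le h3) (sq_nonneg r)
  have t4 := mul_nonneg (mul_nonneg (neg_nonneg.2 hd0) (mul_nonneg hx.le hy.le)) (sq_nonneg (p - q))
  have t5 := mul_nonneg (mul_nonneg (neg_nonneg.2 he0) (mul_nonneg hx.le hz.le)) (sq_nonneg (p - r))
  have t6 := mul_nonneg (mul_nonneg (neg_nonneg.2 hf0) (mul_nonneg hy.le hz.le)) (sq_nonneg (q - r))
  have u1 := mul_nonneg (sub_nonneg.2 hd) (mul_nonneg hX hY)
  have u2 := mul_nonneg (sub_nonneg.2 he) (mul_nonneg hX hZ)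
  have u3 := mul_nonneg (sub_nonneg.2 hf) (mul_nonneg hY hZ)
  have key : a * (x * p) ^ 2 + b * (y * q) ^ 2 + c * (z * r) ^ 2 + 2 * d * (x * p) * (y * q) +
      2 * e * (x * p) * (z * r) + 2 * f * (y * q) * (z * r) =
      x * (x * a + y * d' + z * e') * p ^ 2 + y * (x * d' + y * b + z * f') * q ^ 2 +
      z * (x * e' + y * f' + z * c) * r ^ 2 + -d' * (x * y) * (p - q) ^ 2 +
      -e' * (x * z) * (p - r) ^ 2 + -f' * (y * z) * (q - r) ^ 2 +
      2 * ((d - d') * (x * p * (y * q))) + 2 * ((e - e') * (x * p * (z * r))) +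
      2 * ((f - f') * (y * q * (z * r))) := by ring
  rw [key]
  linarith

/-- `2^210` -/
def HH : ℕ := Nat.pow 2 210

lemma cZh_eq : cZh = HH * cH := rfl
lemma cZh2_eq : cZh2 = 2 * (HH * cH) := rfl
lemma cZn_eq : cZn = 10000 * HH * cH := by
  show 10000 * (HH * cH) = _
  ring
lemma cZn2_eq : cZn2 = 2 * (10000 * HH * cH) := by
  show 2 * (10000 * (HH * cH)) = _
  ring
lemma cO_eq : cO = 163840000 * HH := rfl

attribute [local irreducible] HH cH cZh cZh2 cZn cZn2 cO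

lemma Rep.cast {X : ℕ} {y : ℕ → ℤ} {O O' : ℕ} (h : Rep X y O) (e : O = O') : Rep X y O' := e ▸ h

/-- the row `x1 a + x2 d + x3 e`, all of the offset `H` -/
lemma rep_R1 {x1 x2 x3 a d e : ℕ} {ya yd ye : ℕ → ℤ} (hx : x1 + x2 + x3 = 16384)
    (ha : Rep a ya HH) (hd : Rep d yd HH) (he : Rep e ye HH) :
    Rep (Nat.mul 10000 (Nat.add (Nat.mul x1 a) (Nat.add (Nat.mul x2 d) (Nat.mul x3 e))))
      (fun p => (10000 : ℕ) * (x1 * ya p + (x2 * yd p + x3 * ye p))) cO := by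
  refine (((ha.smul x1).add ((hd.smul x2).add (he.smul x3))).smul 10000).cast ?_
  rw [cO_eq]
  calc 10000 * (x1 * HH + (x2 * HH + x3 * HH)) = 10000 * (x1 + x2 + x3) * HH := by ring
    _ = _ := by rw [hx]

/-- the row `x1 e + x2 f + x3 n`, `n` of the offset `10^4 H` -/
lemma rep_R3 {x1 x2 x3 e f n : ℕ} {ye yf yn : ℕ → ℤ} (hx : x1 + x2 + x3 = 16384)
    (he : Rep e ye HH) (hf : Rep f yf HH) (hn : Rep n yn (10000 * HH)) :
    Rep (Nat.add (Nat.mul 10000 (Nat.add (Nat.mul x1 e) (Nat.mul x2 f))) (Nat.mul x3 n))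
      (fun p => (10000 : ℕ) * (x1 * ye p + x2 * yf p) + x3 * yn p) cO := by
  refine ((((he.smul x1).add (hf.smul x2)).smul 10000).add (hn.smul x3)).cast ?_
  rw [cO_eq]
  calc 10000 * (x1 * HH + x2 * HH) + x3 * (10000 * HH) = 10000 * (x1 + x2 + x3) * HH := by ring
    _ = _ := by rw [hx]

/-- the row `x1 d + x2 n + x3 f`, `n`, `f` of the offset `10^4 H` -/
lemma rep_R2 {x1 x2 x3 d n f : ℕ} {yd yn yf : ℕ → ℤ} (hx : x1 + x2 + x3 = 16384)
    (hd : Rep d yd HH) (hn : Rep n yn (10000 * HH)) (hf : Rep f yf (10000 * HH)) :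
    Rep (Nat.add (Nat.mul 10000 (Nat.mul x1 d)) (Nat.add (Nat.mul x2 n) (Nat.mul x3 f)))
      (fun p => (10000 : ℕ) * (x1 * yd p) + (x2 * yn p + x3 * yf p)) cO := by
  refine (((hd.smul x1).smul 10000).add ((hn.smul x2).add (hf.smul x3))).cast ?_
  rw [cO_eq]
  calc 10000 * (x1 * HH) + (x2 * (10000 * HH) + x3 * (10000 * HH)) =
      10000 * (x1 + x2 + x3) * HH := by ring
    _ = _ := by rw [hx]

lemma rep_G {X : ℕ} {y : ℕ → ℤ} (h : Rep X y HH) :
    Rep (Nat.mul cG X) (fun p => (163840000 : ℕ) * y p) cO :=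
  (h.smul 163840000).cast cO_eq.symm

lemma rep_G4 {X : ℕ} {y : ℕ → ℤ} (h : Rep X y (10000 * HH)) :
    Rep (Nat.mul cG4 X) (fun p => (16384 : ℕ) * y p) cO := by
  refine (h.smul 16384).cast ?_
  rw [cO_eq]
  ring

/-- the used entry -/
lemma rep_use {s : Bool} {X : ℕ} {y : ℕ → ℤ} (h : Rep X y HH) :
    Rep (cond s X cZh) (cond s y fun _ => 0) HH := h.cond (Rep.zero cZh_eq)

lemma rep_sgn {s : Bool} {X : ℕ} {y : ℕ → ℤ} (h : Rep X y HH) :
    Rep (cond s (Nat.sub cZh2 X) X) (cond s (fun p => - y p) y) HH :=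
  (h.compl cZh2_eq).cond h

lemma rep_useN {s : Bool} {X : ℕ} {y : ℕ → ℤ} (h : Rep X y (10000 * HH)) :
    Rep (cond s X cZn) (cond s y fun _ => 0) (10000 * HH) := h.cond (Rep.zero cZn_eq)

lemma rep_sgnN {s : Bool} {X : ℕ} {y : ℕ → ℤ} (h : Rep X y (10000 * HH)) :
    Rep (cond s (Nat.sub cZn2 X) X) (cond s (fun p => - y p) y) (10000 * HH) :=
  (h.compl cZn2_eq).cond h

/-- the value of an entry that is used or dropped -/
lemma use_le {s : Bool} {i : ℕ} {j : Bool} {y : ℕ → ℤ}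
    (h : 0 ≤ Lam i j (cond s (fun p => - y p) y)) :
    ((Lam i j (cond s y fun _ => 0) : ℤ) : ℝ) ≤ (Lam i j y : ℤ) ∧
      ((Lam i j (cond s y fun _ => 0) : ℤ) : ℝ) ≤ 0 := by
  cases s
  · simp only [cond_false] at h ⊢
    rw [Lam_zero]
    have h' : (0 : ℝ) ≤ ((Lam i j y : ℤ) : ℝ) := by exact_mod_cast h
    exact ⟨by simpa using h', by simp⟩
  · simp only [cond_true] at h ⊢
    rw [Lam_neg] at h
    refine ⟨le_rfl, ?_⟩
    have : Lam i j y ≤ 0 := by linarith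
    exact_mod_cast this

lemma pk6_eq (x1 x2 x3 x4 x5 x6 : ℕ) (l : List ℕ) :
    pk6 x1 x2 x3 x4 x5 x6 (pkL l) = pkL (x1 :: x2 :: x3 :: x4 :: x5 :: x6 :: l) := rfl

lemma nn_of_mul {k : ℕ} (hk : 0 < k) {i : ℕ} {j : Bool} {y : ℕ → ℤ}
    (h : 0 ≤ Lam i j (fun p => (k : ℤ) * y p)) : 0 ≤ Lam i j y := by
  rw [Lam_smul] at h
  exact nonneg_of_mul_nonneg_right h (by exact_mod_cast hk)

/-- the six numbers of a face of the first kind -/
def LI (s1 s2 s3 : Bool) (x1 x2 x3 : ℕ) (a b n d e f : ℕ × (ℕ → ℤ)) : List (ℕ × (ℕ → ℤ)) :=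
  [(Nat.mul 10000 (Nat.add (Nat.mul x1 a.1) (Nat.add (Nat.mul x2 (cond s1 d.1 cZh))
      (Nat.mul x3 (cond s2 e.1 cZh)))),
    fun p => (10000 : ℕ) * (x1 * a.2 p + (x2 * (cond s1 d.2 fun _ => 0) p +
      x3 * (cond s2 e.2 fun _ => 0) p))),
   (Nat.mul 10000 (Nat.add (Nat.mul x1 (cond s1 d.1 cZh)) (Nat.add (Nat.mul x2 b.1)
      (Nat.mul x3 (cond s3 f.1 cZh)))),
    fun p => (10000 : ℕ) * (x1 * (cond s1 d.2 fun _ => 0) p + (x2 * b.2 p +
      x3 * (cond s3 f.2 fun _ => 0) p))),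
   (Nat.add (Nat.mul 10000 (Nat.add (Nat.mul x1 (cond s2 e.1 cZh))
      (Nat.mul x2 (cond s3 f.1 cZh)))) (Nat.mul x3 n.1),
    fun p => (10000 : ℕ) * (x1 * (cond s2 e.2 fun _ => 0) p +
      x2 * (cond s3 f.2 fun _ => 0) p) + x3 * n.2 p),
   (Nat.mul cG (cond s1 (Nat.sub cZh2 d.1) d.1),
    fun p => (163840000 : ℕ) * (cond s1 (fun p => - d.2 p) d.2) p),
   (Nat.mul cG (cond s2 (Nat.sub cZh2 e.1) e.1),
    fun p => (163840000 : ℕ) * (cond s2 (fun p => - e.2 p) e.2) p),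
   (Nat.mul cG (cond s3 (Nat.sub cZh2 f.1) f.1),
    fun p => (163840000 : ℕ) * (cond s3 (fun p => - f.2 p) f.2) p)]

/-- the six numbers of a face of the second kind -/
def LII (s1 s2 s3 : Bool) (x1 x2 x3 : ℕ) (b n d e f : ℕ × (ℕ → ℤ)) : List (ℕ × (ℕ → ℤ)) :=
  [(Nat.mul 10000 (Nat.add (Nat.mul x1 b.1) (Nat.add (Nat.mul x2 (cond s1 d.1 cZh))
      (Nat.mul x3 (cond s2 e.1 cZh)))),
    fun p => (10000 : ℕ) * (x1 * b.2 p + (x2 * (cond s1 d.2 fun _ => 0) p +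
      x3 * (cond s2 e.2 fun _ => 0) p))),
   (Nat.add (Nat.mul 10000 (Nat.mul x1 (cond s1 d.1 cZh))) (Nat.add (Nat.mul x2 n.1)
      (Nat.mul x3 (cond s3 f.1 cZn))),
    fun p => (10000 : ℕ) * (x1 * (cond s1 d.2 fun _ => 0) p) + (x2 * n.2 p +
      x3 * (cond s3 f.2 fun _ => 0) p)),
   (Nat.add (Nat.mul 10000 (Nat.mul x1 (cond s2 e.1 cZh))) (Nat.add (Nat.mul x2 (cond s3 f.1 cZn))
      (Nat.mul x3 n.1)),
    fun p => (10000 : ℕ) * (x1 * (cond s2 e.2 fun _ => 0) p) +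
      (x2 * (cond s3 f.2 fun _ => 0) p + x3 * n.2 p)),
   (Nat.mul cG (cond s1 (Nat.sub cZh2 d.1) d.1),
    fun p => (163840000 : ℕ) * (cond s1 (fun p => - d.2 p) d.2) p),
   (Nat.mul cG (cond s2 (Nat.sub cZh2 e.1) e.1),
    fun p => (163840000 : ℕ) * (cond s2 (fun p => - e.2 p) e.2) p),
   (Nat.mul cG4 (cond s3 (Nat.sub cZn2 f.1) f.1),
    fun p => (16384 : ℕ) * (cond s3 (fun p => - f.2 p) f.2) p)]

section faces

variable {i : ℕ} {j : Bool} {s1 s2 s3 : Bool} {x1 x2 x3 : ℕ}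

lemma LI_rep (hx : x1 + x2 + x3 = 16384) {a b n d e f : ℕ × (ℕ → ℤ)} (ha : Rep a.1 a.2 HH)
    (hb : Rep b.1 b.2 HH) (hn : Rep n.1 n.2 (10000 * HH)) (hd : Rep d.1 d.2 HH)
    (he : Rep e.1 e.2 HH) (hf : Rep f.1 f.2 HH) :
    ∀ p ∈ LI s1 s2 s3 x1 x2 x3 a b n d e f, Rep p.1 p.2 cO := by
  intro p hp
  simp only [LI, List.mem_cons, List.not_mem_nil, or_false] at hp
  rcases hp with rfl | rfl | rfl | rfl | rfl | rfl
  · exact rep_R1 hx ha (rep_use hd) (rep_use he)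
  · exact rep_R1 hx (rep_use hd) hb (rep_use hf)
  · exact rep_R3 hx (rep_use he) (rep_use hf) hn
  · exact rep_G (rep_sgn hd)
  · exact rep_G (rep_sgn he)
  · exact rep_G (rep_sgn hf)

lemma LII_rep (hx : x1 + x2 + x3 = 16384) {b n d e f : ℕ × (ℕ → ℤ)}
    (hb : Rep b.1 b.2 HH) (hn : Rep n.1 n.2 (10000 * HH)) (hd : Rep d.1 d.2 HH)
    (he : Rep e.1 e.2 HH) (hf : Rep f.1 f.2 (10000 * HH)) :
    ∀ p ∈ LII s1 s2 s3 x1 x2 x3 b n d e f, Rep p.1 p.2 cO := by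
  intro p hp
  simp only [LII, List.mem_cons, List.not_mem_nil, or_false] at hp
  rcases hp with rfl | rfl | rfl | rfl | rfl | rfl
  · exact rep_R1 hx hb (rep_use hd) (rep_use he)
  · exact rep_R2 hx (rep_use hd) hn (rep_useN hf)
  · exact rep_R2 hx (rep_use he) (rep_useN hf) hn
  · exact rep_G (rep_sgn hd)
  · exact rep_G (rep_sgn he)
  · exact rep_G4 (rep_sgnN hf)

/-- the value of a control -/
noncomputable def LR (i : ℕ) (j : Bool) (y : ℕ → ℤ) : ℝ := ((Lam i j y : ℤ) : ℝ)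

lemma LI_cop (hx1 : 1 ≤ x1) (hx2 : 1 ≤ x2) (hx3 : 1 ≤ x3) {a b n d e f : ℕ × (ℕ → ℤ)}
    (h : ∀ p ∈ LI s1 s2 s3 x1 x2 x3 a b n d e f, 0 ≤ Lam i j p.2) :
    Cop3 (LR i j a.2) (LR i j b.2) (LR i j n.2 / 10000) (LR i j d.2) (LR i j e.2) (LR i j f.2) := by
  simp only [LI, List.mem_cons, List.not_mem_nil, or_false, forall_eq_or_imp, forall_eq] at h
  obtain ⟨r1, r2, r3, sd, se, sf⟩ := h
  obtain ⟨d1, d2⟩ := use_le (nn_of_mul (by norm_num) sd)
  obtain ⟨e1, e2⟩ := use_le (nn_of_mul (by norm_num) se)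
  obtain ⟨f1, f2⟩ := use_le (nn_of_mul (by norm_num) sf)
  simp only [Lam_add, Lam_smul] at r1 r2 r3
  have q1 : (0 : ℝ) ≤ ((((10000 : ℕ) : ℤ) * (x1 * Lam i j a.2 + (x2 * Lam i j (cond s1 d.2 fun _ => 0) +
    x3 * Lam i j (cond s2 e.2 fun _ => 0))) : ℤ) : ℝ) := by exact_mod_cast r1
  have q2 : (0 : ℝ) ≤ ((((10000 : ℕ) : ℤ) * (x1 * Lam i j (cond s1 d.2 fun _ => 0) + (x2 * Lam i j b.2 +
    x3 * Lam i j (cond s3 f.2 fun _ => 0))) : ℤ) : ℝ) := by exact_mod_cast r2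
  have q3 : (0 : ℝ) ≤ ((((10000 : ℕ) : ℤ) * (x1 * Lam i j (cond s2 e.2 fun _ => 0) +
    x2 * Lam i j (cond s3 f.2 fun _ => 0)) + x3 * Lam i j n.2 : ℤ) : ℝ) := by exact_mod_cast r3
  push_cast at q1 q2 q3
  unfold LR
  refine copX (x := (x1 : ℝ)) (y := (x2 : ℝ)) (z := (x3 : ℝ)) (by exact_mod_cast hx1)
    (by exact_mod_cast hx2) (by exact_mod_cast hx3) d1 e1 f1 d2 e2 f2 ?_ ?_ ?_
  · linarith
  · linarith
  · linarith

lemma LII_cop (hx1 : 1 ≤ x1) (hx2 : 1 ≤ x2) (hx3 : 1 ≤ x3) {b n d e f : ℕ × (ℕ → ℤ)}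
    (h : ∀ p ∈ LII s1 s2 s3 x1 x2 x3 b n d e f, 0 ≤ Lam i j p.2) :
    Cop3 (LR i j b.2) (LR i j n.2 / 10000) (LR i j n.2 / 10000) (LR i j d.2) (LR i j e.2)
      (LR i j f.2 / 10000) := by
  simp only [LII, List.mem_cons, List.not_mem_nil, or_false, forall_eq_or_imp, forall_eq] at h
  obtain ⟨r1, r2, r3, sd, se, sf⟩ := h
  obtain ⟨d1, d2⟩ := use_le (nn_of_mul (by norm_num) sd)
  obtain ⟨e1, e2⟩ := use_le (nn_of_mul (by norm_num) se)
  obtain ⟨f1, f2⟩ := use_le (nn_of_mul (by norm_num) sf)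
  simp only [Lam_add, Lam_smul] at r1 r2 r3
  have q1 : (0 : ℝ) ≤ ((((10000 : ℕ) : ℤ) * (x1 * Lam i j b.2 + (x2 * Lam i j (cond s1 d.2 fun _ => 0) +
    x3 * Lam i j (cond s2 e.2 fun _ => 0))) : ℤ) : ℝ) := by exact_mod_cast r1
  have q2 : (0 : ℝ) ≤ ((((10000 : ℕ) : ℤ) * (x1 * Lam i j (cond s1 d.2 fun _ => 0)) + (x2 * Lam i j n.2 +
    x3 * Lam i j (cond s3 f.2 fun _ => 0)) : ℤ) : ℝ) := by exact_mod_cast r2
  have q3 : (0 : ℝ) ≤ ((((10000 : ℕ) : ℤ) * (x1 * Lam i j (cond s2 e.2 fun _ => 0)) +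
    (x2 * Lam i j (cond s3 f.2 fun _ => 0) + x3 * Lam i j n.2) : ℤ) : ℝ) := by exact_mod_cast r3
  push_cast at q1 q2 q3
  unfold LR
  refine copX (x := (x1 : ℝ)) (y := (x2 : ℝ)) (z := (x3 : ℝ))
    (f' := ((Lam i j (cond s3 f.2 fun _ => 0) : ℤ) : ℝ) / 10000) (by exact_mod_cast hx1)
    (by exact_mod_cast hx2) (by exact_mod_cast hx3) d1 e1 (by linarith) d2 e2 (by linarith)
    ?_ ?_ ?_
  · linarith
  · linarith
  · linarith

end faces

lemma g8_eq : g8 = gL 8 := geo_eq 8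
lemma g12_eq : g12 = gL 12 := geo_eq 12
lemma g3_eq : g3 = gL 3 := geo_eq 3

lemma prod_pos {x y z : ℕ} (h : Nat.ble 1 (Nat.mul x (Nat.mul y z)) = true) :
    1 ≤ x ∧ 1 ≤ y ∧ 1 ≤ z := by
  have h := Nat.le_of_ble_eq_true h
  rw [Nat.mul_eq, Nat.mul_eq] at h
  refine ⟨?_, ?_, ?_⟩
  · rcases Nat.eq_zero_or_pos x with h1 | h1
    · subst h1; simp at h
    · exact h1
  · rcases Nat.eq_zero_or_pos y with h1 | h1
    · subst h1; simp at h
    · exact h1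
  · rcases Nat.eq_zero_or_pos z with h1 | h1
    · subst h1; simp at h
    · exact h1

lemma rd_ex {K : ℕ} {F : Bool → Bool → Bool → ℕ → ℕ → ℕ → Bool} (h : rd K F = true) :
    ∃ s1 s2 s3 x1 x2 x3, F s1 s2 s3 x1 x2 x3 = true ∧
      (1 ≤ x3 → x1 + x2 + x3 = 16384) := by
  refine ⟨_, _, _, _, _, _, h, ?_⟩
  intro h3
  simp only [Nat.sub_eq, Nat.add_eq] at h3 ⊢
  omega

/-- soundness of the first test of one class -/
theorem cls0_sound {T : ℕ → ℕ → Bool} {i : ℕ} {j : Bool} (hT : Snd T i j)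
    {a b bb n d e f dd ee pn : ℕ × (ℕ → ℤ)} {K : ℕ} (ha : Rep a.1 a.2 HH) (hb : Rep b.1 b.2 HH)
    (hbb : Rep bb.1 bb.2 HH) (hn : Rep n.1 n.2 (10000 * HH)) (hd : Rep d.1 d.2 HH)
    (he : Rep e.1 e.2 HH) (hf : Rep f.1 f.2 HH) (hdd : Rep dd.1 dd.2 HH) (hee : Rep ee.1 ee.2 HH)
    (hpn : Rep pn.1 pn.2 (10000 * HH))
    (h : cls0 T a.1 b.1 bb.1 n.1 d.1 e.1 f.1 dd.1 ee.1 pn.1 K = true) :
    Cop3 (LR i j a.2) (LR i j b.2) (LR i j n.2 / 10000) (LR i j d.2) (LR i j e.2) (LR i j f.2) ∧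
    (Cop2 (LR i j bb.2) (LR i j ee.2) (LR i j n.2 / 10000) →
      Cop3 (LR i j bb.2) (LR i j n.2 / 10000) (LR i j n.2 / 10000) (LR i j dd.2) (LR i j ee.2)
        (LR i j pn.2 / 10000)) := by
  unfold cls0 at h
  obtain ⟨s1, s2, s3, x1, x2, x3, h, hx⟩ := rd_ex h
  rw [Bool.and_eq_true] at h
  obtain ⟨hp, h⟩ := h
  obtain ⟨p1, p2, p3⟩ := prod_pos hp
  have hx := hx p3
  obtain ⟨t1, t2, t3, y1, y2, y3, h, hy⟩ := rd_ex h
  cases hc : Nat.beq y1 0 with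
  | true =>
    rw [hc, cond_true, g8_eq] at h
    have e1 : faceI s1 s2 s3 x1 x2 x3 a.1 b.1 n.1 d.1 e.1 f.1
        (Nat.add (Nat.mul cG dd.1) (Nat.mul cQ (Nat.mul cG4 pn.1))) =
        pkL ((LI s1 s2 s3 x1 x2 x3 a b n d e f ++ [(Nat.mul cG dd.1, fun p => (163840000 : ℕ) * dd.2 p),
          (Nat.mul cG4 pn.1, fun p => (16384 : ℕ) * pn.2 p)]).map Prod.fst) := rfl
    rw [e1] at h
    have h2 := hT (LI s1 s2 s3 x1 x2 x3 a b n d e f ++
        [(Nat.mul cG dd.1, fun p => (163840000 : ℕ) * dd.2 p),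
          (Nat.mul cG4 pn.1, fun p => (16384 : ℕ) * pn.2 p)]) (by
      intro p hp
      rcases List.mem_append.1 hp with hp | hp
      · exact LI_rep hx ha hb hn hd he hf p hp
      · simp only [List.mem_cons, List.not_mem_nil, or_false] at hp
        rcases hp with rfl | rfl
        · exact rep_G hdd
        · exact rep_G4 hpn) h
    have h3 := LI_cop (i := i) (j := j) p1 p2 p3 (fun p hp => h2 p (List.mem_append_left _ hp))
    refine ⟨h3, fun hk => ?_⟩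
    have h4 : 0 ≤ LR i j dd.2 := by
      have := nn_of_mul (by norm_num) (h2 (Nat.mul cG dd.1, fun p => (163840000 : ℕ) * dd.2 p)
        (List.mem_append_right _ (by simp)))
      unfold LR
      exact_mod_cast this
    have h5 : 0 ≤ LR i j pn.2 := by
      have := nn_of_mul (by norm_num) (h2 (Nat.mul cG4 pn.1, fun p => (16384 : ℕ) * pn.2 p)
        (List.mem_append_right _ (by simp)))
      unfold LR
      exact_mod_cast this
    have h6 : 0 ≤ LR i j n.2 / 10000 := by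
      have := h3 0 0 1 le_rfl le_rfl zero_le_one
      simpa using this
    intro X Y Z hX hY hZ
    have k1 := hk X Z hX hZ
    have k2 := mul_nonneg h6 (sq_nonneg Y)
    have k3 := mul_nonneg h4 (mul_nonneg hX hY)
    have k4 := mul_nonneg (show 0 ≤ LR i j pn.2 / 10000 by linarith) (mul_nonneg hY hZ)
    linarith
  | false =>
    rw [hc, cond_false, Bool.and_eq_true, g12_eq] at h
    obtain ⟨hp', h⟩ := h
    obtain ⟨q1, q2, q3⟩ := prod_pos hp'
    have hy := hy q3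
    have e1 : faceI s1 s2 s3 x1 x2 x3 a.1 b.1 n.1 d.1 e.1 f.1
        (faceII t1 t2 t3 y1 y2 y3 bb.1 n.1 dd.1 ee.1 pn.1) =
        pkL ((LI s1 s2 s3 x1 x2 x3 a b n d e f ++ LII t1 t2 t3 y1 y2 y3 bb n dd ee pn).map
          Prod.fst) := rfl
    rw [e1] at h
    have h2 := hT (LI s1 s2 s3 x1 x2 x3 a b n d e f ++ LII t1 t2 t3 y1 y2 y3 bb n dd ee pn) (by
      intro p hp
      rcases List.mem_append.1 hp with hp | hp
      · exact LI_rep hx ha hb hn hd he hf p hp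
      · exact LII_rep hy hbb hn hdd hee hpn p hp) h
    exact ⟨LI_cop (i := i) (j := j) p1 p2 p3 (fun p hp => h2 p (List.mem_append_left _ hp)),
      fun _ => LII_cop (i := i) (j := j) q1 q2 q3 (fun p hp => h2 p (List.mem_append_right _ hp))⟩

/-! ### the exact test -/

/-- an edge -/
lemma cop2E {a b d p q : ℝ} (ha : 0 ≤ a) (hb : 0 ≤ b) (hp : 0 ≤ p) (hq : 0 ≤ q) (hpq : 0 < p + q)
    (h1 : 0 ≤ p * a + q * d) (h2 : 0 ≤ p * d + q * b) : Cop2 a d b := by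
  intro X Y hX hY
  rcases hp.lt_or_eq with hp | hp
  · rcases hq.lt_or_eq with hq | hq
    · rcases le_total (p * Y) (q * X) with h | h
      · have hw : 0 ≤ q * X - p * Y := by linarith
        have key : q ^ 2 * (a * X ^ 2 + 2 * d * X * Y + b * Y ^ 2) =
            Y ^ 2 * (p * (p * a + q * d) + q * (p * d + q * b)) +
            2 * ((q * X - p * Y) * (Y * (p * a + q * d))) + a * (q * X - p * Y) ^ 2 := by ring
        have h3 : 0 ≤ q ^ 2 * (a * X ^ 2 + 2 * d * X * Y + b * Y ^ 2) := by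
          rw [key]
          have t1 := mul_nonneg (sq_nonneg Y) (add_nonneg (mul_nonneg hp.le h1)
            (mul_nonneg hq.le h2))
          have t2 := mul_nonneg hw (mul_nonneg hY h1)
          have t3 := mul_nonneg ha (sq_nonneg (q * X - p * Y))
          linarith
        exact nonneg_of_mul_nonneg_right h3 (by positivity)
      · have hw : 0 ≤ p * Y - q * X := by linarith
        have key : p ^ 2 * (a * X ^ 2 + 2 * d * X * Y + b * Y ^ 2) =
            X ^ 2 * (p * (p * a + q * d) + q * (p * d + q * b)) +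
            2 * ((p * Y - q * X) * (X * (p * d + q * b))) + b * (p * Y - q * X) ^ 2 := by ring
        have h3 : 0 ≤ p ^ 2 * (a * X ^ 2 + 2 * d * X * Y + b * Y ^ 2) := by
          rw [key]
          have t1 := mul_nonneg (sq_nonneg X) (add_nonneg (mul_nonneg hp.le h1)
            (mul_nonneg hq.le h2))
          have t2 := mul_nonneg hw (mul_nonneg hX h2)
          have t3 := mul_nonneg hb (sq_nonneg (p * Y - q * X))
          linarith
        exact nonneg_of_mul_nonneg_right h3 (by positivity)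
    · rw [← hq] at h2
      have hd : 0 ≤ d := nonneg_of_mul_nonneg_right (by linarith) hp
      positivity
  · rw [← hp] at h1 hpq
    have hd : 0 ≤ d := nonneg_of_mul_nonneg_right (by linarith) (show 0 < q by linarith)
    positivity

lemma stepT {t y Y : ℝ} (ht : 0 ≤ t) (_hy : 0 ≤ y) (hY : 0 ≤ Y) :
    ∃ t', 0 ≤ t' ∧ t' ≤ t ∧ t' * y ≤ Y ∧ (t' = t ∨ t' * y = Y) := by
  by_cases h : t * y ≤ Y
  · exact ⟨t, ht, le_rfl, h, Or.inl rfl⟩
  · push Not at h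
    have hy0 : 0 < y := by
      by_contra hc
      have : y = 0 := le_antisymm (not_lt.1 hc) _hy
      rw [this] at h
      linarith
    refine ⟨Y / y, by positivity, ?_, ?_, Or.inr ?_⟩
    · rw [div_le_iff₀ hy0]; exact h.le
    · rw [div_mul_cancel₀ _ hy0.ne']
    · rw [div_mul_cancel₀ _ hy0.ne']

lemma exT {x y z X Y Z : ℝ} (hx : 0 < x) (hy : 0 ≤ y) (hz : 0 ≤ z) (hX : 0 ≤ X) (hY : 0 ≤ Y)
    (hZ : 0 ≤ Z) : ∃ t, 0 ≤ t ∧ t * x ≤ X ∧ t * y ≤ Y ∧ t * z ≤ Z ∧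
      (t * x = X ∨ t * y = Y ∨ t * z = Z) := by
  obtain ⟨t1, h1, l1, k1, c1⟩ := stepT (t := X / x) (by positivity) hy hY
  obtain ⟨t2, h2, l2, k2, c2⟩ := stepT (t := t1) h1 hz hZ
  have e0 : X / x * x = X := div_mul_cancel₀ _ hx.ne'
  have e1 : t2 * x ≤ X := by
    calc t2 * x ≤ X / x * x := mul_le_mul_of_nonneg_right (l2.trans l1) hx.le
      _ = X := e0
  have e2 : t2 * y ≤ Y := (mul_le_mul_of_nonneg_right l2 hy).trans k1
  refine ⟨t2, h2, e1, e2, k2, ?_⟩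
  rcases c2 with c2 | c2
  · rcases c1 with c1 | c1
    · left
      rw [c2, c1]
      exact e0
    · right; left
      rw [c2]
      exact c1
  · right; right
    exact c2

lemma exT' {x y z X Y Z : ℝ} (hx : 0 ≤ x) (hy : 0 ≤ y) (hz : 0 ≤ z) (hs : 0 < x + y + z)
    (hX : 0 ≤ X) (hY : 0 ≤ Y) (hZ : 0 ≤ Z) : ∃ t, 0 ≤ t ∧ t * x ≤ X ∧ t * y ≤ Y ∧ t * z ≤ Z ∧
      (t * x = X ∨ t * y = Y ∨ t * z = Z) := by
  rcases hx.lt_or_eq with h | h
  · exact exT h hy hz hX hY hZ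
  · rcases hy.lt_or_eq with h' | h'
    · obtain ⟨t, k0, k1, k2, k3, k4⟩ := exT h' hx hz hY hX hZ
      exact ⟨t, k0, k2, k1, k3, by tauto⟩
    · have h'' : 0 < z := by linarith
      obtain ⟨t, k0, k1, k2, k3, k4⟩ := exT h'' hx hy hZ hX hY
      exact ⟨t, k0, k2, k3, k1, by tauto⟩

/-- copositivity from a nonnegative vector and the edges -/
lemma cop3E {a b c d e f x y z : ℝ} (hx : 0 ≤ x) (hy : 0 ≤ y) (hz : 0 ≤ z) (hs : 0 < x + y + z)
    (h1 : 0 ≤ x * a + y * d + z * e) (h2 : 0 ≤ x * d + y * b + z * f)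
    (h3 : 0 ≤ x * e + y * f + z * c) (hd : Cop2 a d b) (he : Cop2 a e c) (hf : Cop2 b f c) :
    Cop3 a b c d e f := by
  intro X Y Z hX hY hZ
  obtain ⟨t, k0, k1, k2, k3, k4⟩ := exT' hx hy hz hs hX hY hZ
  have key : a * X ^ 2 + b * Y ^ 2 + c * Z ^ 2 + 2 * d * X * Y + 2 * e * X * Z + 2 * f * Y * Z =
      t ^ 2 * (x * (x * a + y * d + z * e) + y * (x * d + y * b + z * f) +
        z * (x * e + y * f + z * c)) +
      2 * (t * ((X - t * x) * (x * a + y * d + z * e) + (Y - t * y) * (x * d + y * b + z * f) +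
        (Z - t * z) * (x * e + y * f + z * c))) +
      (a * (X - t * x) ^ 2 + b * (Y - t * y) ^ 2 + c * (Z - t * z) ^ 2 +
        2 * d * (X - t * x) * (Y - t * y) + 2 * e * (X - t * x) * (Z - t * z) +
        2 * f * (Y - t * y) * (Z - t * z)) := by ring
  rw [key]
  have u1 : 0 ≤ X - t * x := by linarith
  have u2 : 0 ≤ Y - t * y := by linarith
  have u3 : 0 ≤ Z - t * z := by linarith
  have t1 := mul_nonneg (sq_nonneg t) (add_nonneg (add_nonneg (mul_nonneg hx h1)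
    (mul_nonneg hy h2)) (mul_nonneg hz h3))
  have t2 := mul_nonneg k0 (add_nonneg (add_nonneg (mul_nonneg u1 h1) (mul_nonneg u2 h2))
    (mul_nonneg u3 h3))
  have t3 : 0 ≤ a * (X - t * x) ^ 2 + b * (Y - t * y) ^ 2 + c * (Z - t * z) ^ 2 +
        2 * d * (X - t * x) * (Y - t * y) + 2 * e * (X - t * x) * (Z - t * z) +
        2 * f * (Y - t * y) * (Z - t * z) := by
    rcases k4 with k4 | k4 | k4
    · have := hf (Y - t * y) (Z - t * z) u2 u3
      rw [show X - t * x = 0 by linarith]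
      linarith
    · have := he (X - t * x) (Z - t * z) u1 u3
      rw [show Y - t * y = 0 by linarith]
      linarith
    · have := hd (X - t * x) (Y - t * y) u1 u2
      rw [show Z - t * z = 0 by linarith]
      linarith
  linarith

/-- the row of an edge, both of the offset `H` -/
lemma rep_E1 {p p' a d : ℕ} {ya yd : ℕ → ℤ} (hp : p + p' = 16384)
    (ha : Rep a ya HH) (hd : Rep d yd HH) :
    Rep (Nat.mul 10000 (Nat.add (Nat.mul p a) (Nat.mul p' d)))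
      (fun k => (10000 : ℕ) * (p * ya k + p' * yd k)) cO := by
  refine (((ha.smul p).add (hd.smul p')).smul 10000).cast ?_
  rw [cO_eq]
  calc 10000 * (p * HH + p' * HH) = 10000 * (p + p') * HH := by ring
    _ = _ := by rw [hp]

/-- the row of an edge, `n` of the offset `10^4 H` -/
lemma rep_E2 {p p' d n : ℕ} {yd yn : ℕ → ℤ} (hp : p + p' = 16384)
    (hd : Rep d yd HH) (hn : Rep n yn (10000 * HH)) :
    Rep (Nat.add (Nat.mul 10000 (Nat.mul p d)) (Nat.mul p' n))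
      (fun k => (10000 : ℕ) * (p * yd k) + p' * yn k) cO := by
  refine (((hd.smul p).smul 10000).add (hn.smul p')).cast ?_
  rw [cO_eq]
  calc 10000 * (p * HH) + p' * (10000 * HH) = 10000 * (p + p') * HH := by ring
    _ = _ := by rw [hp]

lemma rep_E3 {n f : ℕ} {yn yf : ℕ → ℤ} (hn : Rep n yn (10000 * HH))
    (hf : Rep f yf (10000 * HH)) :
    Rep (Nat.mul 8192 (Nat.add n f)) (fun k => (8192 : ℕ) * (yn k + yf k)) cO := by
  refine ((hn.add hf).smul 8192).cast ?_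
  rw [cO_eq]
  ring

/-- the numbers of the exact test -/
def LG (x1 x2 x3 p q r p' q' r' y1 y2 y3 s s' : ℕ) (a b bb n d e f dd ee pn : ℕ × (ℕ → ℤ)) :
    List (ℕ × (ℕ → ℤ)) :=
  [(Nat.mul 10000 (Nat.add (Nat.mul x1 a.1) (Nat.add (Nat.mul x2 d.1) (Nat.mul x3 e.1))),
    fun k => (10000 : ℕ) * (x1 * a.2 k + (x2 * d.2 k + x3 * e.2 k))),
   (Nat.mul 10000 (Nat.add (Nat.mul x1 d.1) (Nat.add (Nat.mul x2 b.1) (Nat.mul x3 f.1))),
    fun k => (10000 : ℕ) * (x1 * d.2 k + (x2 * b.2 k + x3 * f.2 k))),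
   (Nat.add (Nat.mul 10000 (Nat.add (Nat.mul x1 e.1) (Nat.mul x2 f.1))) (Nat.mul x3 n.1),
    fun k => (10000 : ℕ) * (x1 * e.2 k + x2 * f.2 k) + x3 * n.2 k),
   (Nat.mul cG a.1, fun k => (163840000 : ℕ) * a.2 k),
   (Nat.mul cG b.1, fun k => (163840000 : ℕ) * b.2 k),
   (Nat.mul cG4 n.1, fun k => (16384 : ℕ) * n.2 k),
   (Nat.mul 10000 (Nat.add (Nat.mul p a.1) (Nat.mul p' d.1)),
    fun k => (10000 : ℕ) * (p * a.2 k + p' * d.2 k)),
   (Nat.mul 10000 (Nat.add (Nat.mul p d.1) (Nat.mul p' b.1)),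
    fun k => (10000 : ℕ) * (p * d.2 k + p' * b.2 k)),
   (Nat.mul 10000 (Nat.add (Nat.mul q a.1) (Nat.mul q' e.1)),
    fun k => (10000 : ℕ) * (q * a.2 k + q' * e.2 k)),
   (Nat.add (Nat.mul 10000 (Nat.mul q e.1)) (Nat.mul q' n.1),
    fun k => (10000 : ℕ) * (q * e.2 k) + q' * n.2 k),
   (Nat.mul 10000 (Nat.add (Nat.mul r b.1) (Nat.mul r' f.1)),
    fun k => (10000 : ℕ) * (r * b.2 k + r' * f.2 k)),
   (Nat.add (Nat.mul 10000 (Nat.mul r f.1)) (Nat.mul r' n.1),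
    fun k => (10000 : ℕ) * (r * f.2 k) + r' * n.2 k),
   (Nat.mul 10000 (Nat.add (Nat.mul y1 bb.1) (Nat.add (Nat.mul y2 dd.1) (Nat.mul y3 ee.1))),
    fun k => (10000 : ℕ) * (y1 * bb.2 k + (y2 * dd.2 k + y3 * ee.2 k))),
   (Nat.add (Nat.mul 10000 (Nat.mul y1 dd.1)) (Nat.add (Nat.mul y2 n.1) (Nat.mul y3 pn.1)),
    fun k => (10000 : ℕ) * (y1 * dd.2 k) + (y2 * n.2 k + y3 * pn.2 k)),
   (Nat.add (Nat.mul 10000 (Nat.mul y1 ee.1)) (Nat.add (Nat.mul y2 pn.1) (Nat.mul y3 n.1)),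
    fun k => (10000 : ℕ) * (y1 * ee.2 k) + (y2 * pn.2 k + y3 * n.2 k)),
   (Nat.mul 10000 (Nat.add (Nat.mul s bb.1) (Nat.mul s' dd.1)),
    fun k => (10000 : ℕ) * (s * bb.2 k + s' * dd.2 k)),
   (Nat.add (Nat.mul 10000 (Nat.mul s dd.1)) (Nat.mul s' n.1),
    fun k => (10000 : ℕ) * (s * dd.2 k) + s' * n.2 k),
   (Nat.mul 8192 (Nat.add n.1 pn.1), fun k => (8192 : ℕ) * (n.2 k + pn.2 k))]

lemma g18_eq : g18 = gL 18 := geo_eq 18

/-- the real value of a row -/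
lemma row_nn {z : ℤ} (h : 0 ≤ z) : (0 : ℝ) ≤ ((z : ℤ) : ℝ) := by exact_mod_cast h

/-- soundness of the exact test -/
theorem clsG_sound {T : ℕ → ℕ → Bool} {i : ℕ} {j : Bool} (hT : Snd T i j)
    {a b bb n d e f dd ee pn : ℕ × (ℕ → ℤ)} {K : ℕ} (ha : Rep a.1 a.2 HH) (hb : Rep b.1 b.2 HH)
    (hbb : Rep bb.1 bb.2 HH) (hn : Rep n.1 n.2 (10000 * HH)) (hd : Rep d.1 d.2 HH)
    (he : Rep e.1 e.2 HH) (hf : Rep f.1 f.2 HH) (hdd : Rep dd.1 dd.2 HH) (hee : Rep ee.1 ee.2 HH)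
    (hpn : Rep pn.1 pn.2 (10000 * HH))
    (h : clsG T a.1 b.1 bb.1 n.1 d.1 e.1 f.1 dd.1 ee.1 pn.1 K = true) :
    Cop3 (LR i j a.2) (LR i j b.2) (LR i j n.2 / 10000) (LR i j d.2) (LR i j e.2) (LR i j f.2) ∧
    (Cop2 (LR i j bb.2) (LR i j ee.2) (LR i j n.2 / 10000) →
      Cop3 (LR i j bb.2) (LR i j n.2 / 10000) (LR i j n.2 / 10000) (LR i j dd.2) (LR i j ee.2)
        (LR i j pn.2 / 10000)) := by
  unfold clsG at h
  have hlt : ∀ m : ℕ, Nat.mod m 16384 < 16384 := fun m => Nat.mod_lt m (by norm_num)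
  generalize hx1 : Nat.mod K 16384 = x1 at h
  generalize hx2 : Nat.mod (Nat.div K 16384) 16384 = x2 at h
  generalize hp : Nat.mod (Nat.div K 268435456) 16384 = p at h
  generalize hq : Nat.mod (Nat.div K 4398046511104) 16384 = q at h
  generalize hr : Nat.mod (Nat.div K 72057594037927936) 16384 = r at h
  generalize hy1 : Nat.mod (Nat.div K 1180591620717411303424) 16384 = y1 at h
  generalize hy2 : Nat.mod (Nat.div K 19342813113834066795298816) 16384 = y2 at h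
  generalize hs : Nat.mod (Nat.div K 316912650057057350374175801344) 16384 = s at h
  have lp := hlt (Nat.div K 268435456)
  have lq := hlt (Nat.div K 4398046511104)
  have lr := hlt (Nat.div K 72057594037927936)
  have ls := hlt (Nat.div K 316912650057057350374175801344)
  rw [hp] at lp
  rw [hq] at lq
  rw [hr] at lr
  rw [hs] at ls
  clear hx1 hx2 hp hq hr hy1 hy2 hs hlt
  unfold clsG' at h
  rw [Bool.and_eq_true, Bool.and_eq_true] at h
  obtain ⟨c1, c2, h⟩ := h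
  have c1 := Nat.le_of_ble_eq_true c1
  have c2 := Nat.le_of_ble_eq_true c2
  generalize hx3 : Nat.sub 16384 (Nat.add x1 x2) = x3 at h
  generalize hy3 : Nat.sub 16384 (Nat.add y1 y2) = y3 at h
  generalize hp' : Nat.sub 16384 p = p' at h
  generalize hq' : Nat.sub 16384 q = q' at h
  generalize hr' : Nat.sub 16384 r = r' at h
  generalize hs' : Nat.sub 16384 s = s' at h
  simp only [Nat.sub_eq, Nat.add_eq] at hx3 hy3 hp' hq' hr' hs' c1 c2
  have sx : x1 + x2 + x3 = 16384 := by omega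
  have sy : y1 + y2 + y3 = 16384 := by omega
  have sp : p + p' = 16384 := by omega
  have sq' : q + q' = 16384 := by omega
  have sr : r + r' = 16384 := by omega
  have ss : s + s' = 16384 := by omega
  have e1 : gen1 x1 x2 x3 a.1 b.1 n.1 d.1 e.1 f.1 (gen2 p q r p' q' r' a.1 b.1 n.1 d.1 e.1 f.1
      (gen3 y1 y2 y3 s s' bb.1 n.1 dd.1 ee.1 pn.1)) =
      pkL ((LG x1 x2 x3 p q r p' q' r' y1 y2 y3 s s' a b bb n d e f dd ee pn).map Prod.fst) := rfl
  rw [e1, g18_eq] at h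
  have h2 := hT (LG x1 x2 x3 p q r p' q' r' y1 y2 y3 s s' a b bb n d e f dd ee pn) (by
    intro z hz
    simp only [LG, List.mem_cons, List.not_mem_nil, or_false] at hz
    rcases hz with rfl | rfl | rfl | rfl | rfl | rfl | rfl | rfl | rfl | rfl | rfl | rfl | rfl |
      rfl | rfl | rfl | rfl | rfl
    · exact rep_R1 sx ha hd he
    · exact rep_R1 sx hd hb hf
    · exact rep_R3 sx he hf hn
    · exact rep_G ha
    · exact rep_G hb
    · exact rep_G4 hn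
    · exact rep_E1 sp ha hd
    · exact rep_E1 sp hd hb
    · exact rep_E1 sq' ha he
    · exact rep_E2 sq' he hn
    · exact rep_E1 sr hb hf
    · exact rep_E2 sr hf hn
    · exact rep_R1 sy hbb hdd hee
    · exact rep_R2 sy hdd hn hpn
    · exact rep_R2 sy hee hpn hn
    · exact rep_E1 ss hbb hdd
    · exact rep_E2 ss hdd hn
    · exact rep_E3 hn hpn) h
  simp only [LG, List.mem_cons, List.not_mem_nil, or_false, forall_eq_or_imp, forall_eq] at h2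
  obtain ⟨r1, r2, r3, r4, r5, r6, r7, r8, r9, r10, r11, r12, r13, r14, r15, r16, r17, r18⟩ := h2
  simp only [Lam_add, Lam_smul] at r1 r2 r3 r4 r5 r6 r7 r8 r9 r10 r11 r12 r13 r14 r15 r16 r17 r18
  have r1 := row_nn r1
  have r2 := row_nn r2
  have r3 := row_nn r3
  have r4 := row_nn r4
  have r5 := row_nn r5
  have r6 := row_nn r6
  have r7 := row_nn r7
  have r8 := row_nn r8
  have r9 := row_nn r9
  have r10 := row_nn r10
  have r11 := row_nn r11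
  have r12 := row_nn r12
  have r13 := row_nn r13
  have r14 := row_nn r14
  have r15 := row_nn r15
  have r16 := row_nn r16
  have r17 := row_nn r17
  have r18 := row_nn r18
  push_cast at r1 r2 r3 r4 r5 r6 r7 r8 r9 r10 r11 r12 r13 r14 r15 r16 r17 r18
  have nx1 : (0 : ℝ) ≤ x1 := Nat.cast_nonneg _
  have nx2 : (0 : ℝ) ≤ x2 := Nat.cast_nonneg _
  have nx3 : (0 : ℝ) ≤ x3 := Nat.cast_nonneg _
  have ny1 : (0 : ℝ) ≤ y1 := Nat.cast_nonneg _
  have ny2 : (0 : ℝ) ≤ y2 := Nat.cast_nonneg _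
  have ny3 : (0 : ℝ) ≤ y3 := Nat.cast_nonneg _
  have np : (0 : ℝ) ≤ p := Nat.cast_nonneg _
  have nq : (0 : ℝ) ≤ q := Nat.cast_nonneg _
  have nr : (0 : ℝ) ≤ r := Nat.cast_nonneg _
  have ns : (0 : ℝ) ≤ s := Nat.cast_nonneg _
  have np' : (0 : ℝ) ≤ p' := Nat.cast_nonneg _
  have nq' : (0 : ℝ) ≤ q' := Nat.cast_nonneg _
  have nr' : (0 : ℝ) ≤ r' := Nat.cast_nonneg _
  have ns' : (0 : ℝ) ≤ s' := Nat.cast_nonneg _
  have tx : (0 : ℝ) < (x1 : ℝ) + x2 + x3 := by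
    have : ((x1 + x2 + x3 : ℕ) : ℝ) = 16384 := by exact_mod_cast sx
    push_cast at this
    linarith
  have ty : (0 : ℝ) < (y1 : ℝ) + y2 + y3 := by
    have : ((y1 + y2 + y3 : ℕ) : ℝ) = 16384 := by exact_mod_cast sy
    push_cast at this
    linarith
  have tp : (0 : ℝ) < (p : ℝ) + p' := by
    have : ((p + p' : ℕ) : ℝ) = 16384 := by exact_mod_cast sp
    push_cast at this
    linarith
  have tq : (0 : ℝ) < (q : ℝ) + q' := by
    have : ((q + q' : ℕ) : ℝ) = 16384 := by exact_mod_cast sq'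
    push_cast at this
    linarith
  have tr : (0 : ℝ) < (r : ℝ) + r' := by
    have : ((r + r' : ℕ) : ℝ) = 16384 := by exact_mod_cast sr
    push_cast at this
    linarith
  have ts : (0 : ℝ) < (s : ℝ) + s' := by
    have : ((s + s' : ℕ) : ℝ) = 16384 := by exact_mod_cast ss
    push_cast at this
    linarith
  unfold LR
  generalize ((Lam i j a.2 : ℤ) : ℝ) = A at *
  generalize ((Lam i j b.2 : ℤ) : ℝ) = B at *
  generalize ((Lam i j bb.2 : ℤ) : ℝ) = BB at *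
  generalize ((Lam i j n.2 : ℤ) : ℝ) = N at *
  generalize ((Lam i j d.2 : ℤ) : ℝ) = D at *
  generalize ((Lam i j e.2 : ℤ) : ℝ) = E at *
  generalize ((Lam i j f.2 : ℤ) : ℝ) = F at *
  generalize ((Lam i j dd.2 : ℤ) : ℝ) = DD at *
  generalize ((Lam i j ee.2 : ℤ) : ℝ) = EE at *
  generalize ((Lam i j pn.2 : ℤ) : ℝ) = PN at *
  have hA : 0 ≤ A := by linarith
  have hB : 0 ≤ B := by linarith
  have hN : 0 ≤ N / 10000 := by linarith
  refine ⟨cop3E nx1 nx2 nx3 tx (by linarith) (by linarith) (by linarith)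
    (cop2E hA hB np np' tp (by linarith) (by linarith))
    (cop2E hA hN nq nq' tq (by linarith) (by linarith))
    (cop2E hB hN nr nr' tr (by linarith) (by linarith)), fun hk => ?_⟩
  have hBB : 0 ≤ BB := by
    have := hk 1 0 zero_le_one le_rfl
    linarith
  exact cop3E ny1 ny2 ny3 ty (by linarith) (by linarith) (by linarith)
    (cop2E hBB hN ns ns' ts (by linarith) (by linarith)) hk
    (cop2E hN hN zero_le_one zero_le_one (by norm_num) (by linarith) (by linarith))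

/-- **soundness of the test of one class** -/
theorem cls_sound {gm : Bool} {T : ℕ → ℕ → Bool} {i : ℕ} {j : Bool} (hT : Snd T i j)
    {a b bb n d e f dd ee pn : ℕ × (ℕ → ℤ)} {K : ℕ} (ha : Rep a.1 a.2 HH) (hb : Rep b.1 b.2 HH)
    (hbb : Rep bb.1 bb.2 HH) (hn : Rep n.1 n.2 (10000 * HH)) (hd : Rep d.1 d.2 HH)
    (he : Rep e.1 e.2 HH) (hf : Rep f.1 f.2 HH) (hdd : Rep dd.1 dd.2 HH) (hee : Rep ee.1 ee.2 HH)
    (hpn : Rep pn.1 pn.2 (10000 * HH))
    (h : cls gm T a.1 b.1 bb.1 n.1 d.1 e.1 f.1 dd.1 ee.1 pn.1 K = true) :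
    Cop3 (LR i j a.2) (LR i j b.2) (LR i j n.2 / 10000) (LR i j d.2) (LR i j e.2) (LR i j f.2) ∧
    (Cop2 (LR i j bb.2) (LR i j ee.2) (LR i j n.2 / 10000) →
      Cop3 (LR i j bb.2) (LR i j n.2 / 10000) (LR i j n.2 / 10000) (LR i j dd.2) (LR i j ee.2)
        (LR i j pn.2 / 10000)) := by
  unfold cls at h
  cases gm with
  | true => exact clsG_sound hT ha hb hbb hn hd he hf hdd hee hpn h
  | false => exact cls0_sound hT ha hb hbb hn hd he hf hdd hee hpn h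

end Pool.Agent.TSC.V3
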