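import Pool.Agent.TSC.V3

set_option autoImplicit false

/-!
# Search for the certificates of the vectorised test (only for `#eval`)
-/

namespace Pool.Agent.TSC.V3

open Pool.Agent.TSC

/-- a matrix of order 3: diagonal `a, b, n`, off-diagonal `d, e, f` -/
structure Mx where
  a : Float
  b : Float
  n : Float
  d : Float
  e : Float
  f : Float

def fI (k : Int) : Float := Float.ofInt k

/-- control value of a packed number with the offset `o` (per digit) -/
def cv (X : Nat) (o : Nat) (i j : Nat) : Int :=
  let m := match i with
    | 0 => 1
    | 1 => 1 + 3 * cB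
    | 2 => 1 + 2 * cB + 3 * cB * cB
    | _ => 1 + cB + cB * cB + cB * cB * cB
  let c := match i with
    | 0 => 1
    | 1 => 4
    | 2 => 6
    | _ => 4
  let r := if j = 0 then X % cM else X % cM + X / cM % cM
  let t := (r * m / cB ^ i) % cB
  (t : Int) - ((o * c * (j + 1) : Nat) : Int)

/-- control form -/
structure CFm where
  c : Float
  cu : Float
  cuu : Float
  cv : Float
  cvv : Float
  ca : Float
  caa : Float
  l : Float

/-- `k / 10 ^ (15 + m)` -/
def scF (m : Nat) (k : Int) : Float :=
  if k == 0 then 0 else
    let r := fI (k / (10 ^ m)) / 1e15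
    -- keep the sign of tiny numbers
    if r == 0 then (if k > 0 then 1e-16 else -1e-16) else r

def ctlF (q : QI Dec) (i j : Nat) : CFm :=
  let o := 2 ^ 180
  let g := fun (E : Nat) (x : Dec) => cv (cf E cZ0 x) o i j
  ⟨scF 29 (g 44 q.c), scF 29 (g 44 q.cu), scF 29 (g 44 q.cuu), scF 29 (g 44 q.cv),
    scF 29 (g 44 q.cvv), scF 29 (g 44 q.ca), scF 29 (g 44 q.caa), scF 25 (g 40 q.l)⟩

/-- number of the unit of `kappa` in the control `i` -/
def kc (i : Nat) (k0 k1 : Int) : Int :=
  match i with
  | 0 => k0
  | 1 => 3 * k0 + k1
  | 2 => 3 * k0 + 2 * k1
  | _ => k0 + k1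

/-- entries of a control form: `a b n d e ep f fp pn` for a line -/
structure Ent where
  a : Float
  b : Float
  n : Float
  d : Float
  e : Float
  ep : Float
  f : Float
  fp : Float
  pn : Float

def ent (W th k s : Nat) (x : CFm) : Ent :=
  let W : Float := Float.ofNat W
  let th : Float := Float.ofNat th / 10000
  let k : Float := Float.ofNat k / 10000
  let s : Float := Float.ofNat s / 10000
  let e := x.ca - th * x.cu - s * x.l
  let ep := x.ca + th * x.cu - s * x.l
  ⟨2 * x.c, 2 * (x.c + W * (x.cu + x.cv) + W * W * (x.cuu + x.cvv)) - 2 * W * k * x.l,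
    2 * (x.caa + th * th * x.cuu), 2 * x.c + W * (x.cu + x.cv) - W * k * x.l, e, ep,
    e - 2 * W * th * x.cuu, ep + 2 * W * th * x.cuu, 2 * (x.caa - th * th * x.cuu)⟩

def mxI (t : Ent) : Mx := ⟨t.a, t.b, t.n, t.d, t.e, t.f⟩
def mxII (t : Ent) : Mx := ⟨t.b, t.n, t.n, t.fp, t.f, t.pn⟩
def mxIII (t : Ent) : Mx := ⟨t.a, t.b, t.n, t.d, t.ep, t.fp⟩
def mxIV (t : Ent) : Mx := ⟨t.a, t.n, t.n, t.ep, t.e, t.pn⟩

/-! ### a small linear program -/

/-- for rows `(r1, r2, r3)`: a vector `z ≥ 0` with `r z ≥ 1` for all the rows, smallest sum (dual
simplex) -/
def lp3 (rows : Array (Float × Float × Float)) : Option (Float × Float × Float) := Id.run do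
  let R := rows.size
  -- tableau: 4 columns (a1 a2 a3 b)
  let mut A : Array Float := Array.mkEmpty (4 * R)
  for (x, y, z) in rows do
    A := ((A.push x).push y).push z |>.push (-1)
  let mut c : Array Float := #[1, 1, 1]
  let mut colL : Array Nat := #[0, 1, 2]
  let mut rowL : Array Nat := (Array.range R).map (· + 3)
  for _ in [0:25] do
    let mut r := 0
    let mut br : Float := -1e-9
    let mut found := false
    for k in [0:R] do
      if (A.getD (4 * k + 3) 0) < br then
        br := (A.getD (4 * k + 3) 0)
        r := k
        found := true
    if !found then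
      let mut z : Array Float := #[0, 0, 0]
      for k in [0:R] do
        let l := (rowL.getD (k) 0)
        if l < 3 then z := z.set! l (A.getD (4 * k + 3) 0)
      return some ((z.getD (0) 0), (z.getD (1) 0), (z.getD (2) 0))
    let mut j := 3
    let mut best : Float := 1e300
    for k in [0:3] do
      let a := (A.getD (4 * r + k) 0)
      if a > 1e-10 then
        let q := (c.getD (k) 0) / a
        if q < best then
          best := q
          j := k
    if j = 3 then return none
    let aj := (A.getD (4 * r + j) 0)
    -- new row r
    let b' := - (A.getD (4 * r + 3) 0) / aj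
    let mut nr : Array Float := #[0, 0, 0]
    for k in [0:3] do
      nr := nr.set! k (if k = j then 1 / aj else - (A.getD (4 * r + k) 0) / aj)
    for m in [0:R] do
      if m = r then
        for k in [0:3] do
          A := A.set! (4 * r + k) (nr.getD (k) 0)
        A := A.set! (4 * r + 3) b'
      else
        let am := (A.getD (4 * m + j) 0)
        if am != 0 then
          A := A.set! (4 * m + 3) ((A.getD (4 * m + 3) 0) + am * b')
          for k in [0:3] do
            A := A.set! (4 * m + k) (if k = j then am * (nr.getD (k) 0) else (A.getD (4 * m + k) 0) + am * (nr.getD (k) 0))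
    let cj := (c.getD (j) 0)
    for k in [0:3] do
      c := c.set! k (if k = j then cj * (nr.getD (k) 0) else (c.getD (k) 0) + cj * (nr.getD (k) 0))
    let t := (colL.getD (j) 0)
    colL := colL.set! j (rowL.getD (r) 0)
    rowL := rowL.set! r t
  return none

/-- a normalised row -/
def nrow (x y z : Float) : Option (Float × Float × Float) :=
  let m := max (Float.abs x) (max (Float.abs y) (Float.abs z))
  if m == 0 then none else some (x / m, y / m, z / m)

def rnd14 (x : Float) : Nat :=
  let r := (x * 16384 + 0.5).floor
  if r ≤ 0 then 0 else r.toUInt64.toNat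

/-- a vector with the sum `16384` -/
def vec3 (rows : List (Float × Float × Float)) : Option (Nat × Nat × Nat) :=
  let rs := rows.filterMap fun (x, y, z) => nrow x y z
  match lp3 rs.toArray with
  | none => none
  | some (x, y, z) =>
    let t := x + y + z
    if t > 0 then
      let rx := min (rnd14 (x / t)) 16383
      let ry := min (rnd14 (y / t)) 16383
      if rx + ry > 16384 then
        some (rx, 16384 - rx, 0)
      else some (rx, ry, 16384 - rx - ry)
    else some (0, 0, 16384)

/-- a ratio for the edge `(a, d, b)` -/
def edge (l : List (Float × Float × Float)) : Option Nat :=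
  if l.any (fun (a, _, b) => a < 0 || b < 0) then none
  else if l.all (fun (_, d, _) => d ≥ 0) then some 8192
  else match vec3 ((l.map fun (a, d, _) => (a, d, 0)) ++ (l.map fun (_, d, b) => (d, b, 0))) with
    | none => none
    | some (p, q, _) =>
      if p ≥ 16384 then some 16383 else if p + q = 0 then some 8192 else some p

/-- the exact test: `x1, x2, p, q, r` of a face of the first kind -/
def genI (ms : List Mx) : Option (Nat × Nat × Nat × Nat × Nat) :=
  if ms.any (fun m => m.a < 0 || m.b < 0 || m.n < 0) then none else
  match edge (ms.map fun m => (m.a, m.d, m.b)), edge (ms.map fun m => (m.a, m.e, m.n)),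
    edge (ms.map fun m => (m.b, m.f, m.n)) with
  | some p, some q, some r =>
    match vec3 ((ms.map fun m => (m.a, m.d, m.e)) ++ (ms.map fun m => (m.d, m.b, m.f)) ++
      (ms.map fun m => (m.e, m.f, m.n))) with
    | some (x, y, _) => some (x, y, p, q, r)
    | none => none
  | _, _, _ => none

/-- the exact test: `y1, y2, s` of a face of the second kind -/
def genII (ms : List Mx) : Option (Nat × Nat × Nat) :=
  if ms.any (fun m => m.a < 0 || m.n < 0 || m.n + m.f < 0) then none else
  match edge (ms.map fun m => (m.a, m.d, m.b)) with
  | some s =>
    match vec3 ((ms.map fun m => (m.a, m.d, m.e)) ++ (ms.map fun m => (m.d, m.b, m.f)) ++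
      (ms.map fun m => (m.e, m.f, m.n))) with
    | some (x, y, _) => some (x, y, s)
    | none => none
  | none => none

/-- sign pattern of the three off-diagonal entries of a class -/
def sgnOf (l : List Float) : Option Bool :=
  if l.all (fun x => x ≥ 0) then some false
  else if l.all (fun x => x ≤ 0) then some true
  else none

/-- certificate of a class of matrices: sign bits and `x` -/
def findX (ms : List Mx) : Option (Nat × Nat × Nat) :=
  if ms.any (fun m => m.a < 0 || m.b < 0 || m.n < 0) then none else
  match sgnOf (ms.map (·.d)), sgnOf (ms.map (·.e)), sgnOf (ms.map (·.f)) with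
  | some s1, some s2, some s3 =>
    let dd := fun (m : Mx) => if s1 then m.d else 0
    let ee := fun (m : Mx) => if s2 then m.e else 0
    let ff := fun (m : Mx) => if s3 then m.f else 0
    match vec3 ((ms.map fun m => (m.a, dd m, ee m)) ++ (ms.map fun m => (dd m, m.b, ff m)) ++
      (ms.map fun m => (ee m, ff m, m.n))) with
    | none => none
    | some (x, y, _) =>
      let x := if x = 0 then 1 else x
      let y := if y = 0 then 1 else y
      let (x, y) := if x + y ≥ 16384 then (if x > y then (x - 2, y) else (x, y - 2)) else (x, y)
      if x + y ≥ 16384 || x = 0 || y = 0 then none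
      else some ((if s1 then 1 else 0) + (if s2 then 2 else 0) + (if s3 then 4 else 0), x, y)
  | _, _, _ => none

def enc (t : Nat × Nat × Nat) : Nat := t.1 + 8 * t.2.1 + 131072 * t.2.2

/-- class certificate (faces kind I, II) -/
def findCls (gm : Bool) (es : List Ent) (mI mII : Ent → Mx) : Option Nat :=
  if gm then
    match genI (es.map mI), genII (es.map mII) with
    | some (x, y, p, q, r), some (u, v, s) =>
      some (x + 2 ^ 14 * y + 2 ^ 28 * p + 2 ^ 42 * q + 2 ^ 56 * r + 2 ^ 70 * u + 2 ^ 84 * v +
        2 ^ 98 * s)
    | _, _ => none
  else
  match findX (es.map mI) with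
  | none => none
  | some x =>
    if es.all (fun t => (mII t).d ≥ 0 && (mII t).f ≥ 0) then some (enc x)
    else match findX (es.map mII) with
      | none => none
      | some y => some (enc x + 2147483648 * enc y)

def findCls4 (gm cvm : Bool) (es : List Ent) : Option Nat :=
  match findCls gm es mxI mxII with
  | none => none
  | some k => if cvm then
      match findCls gm es mxIII mxIV with
      | none => none
      | some k' => some (k + (if gm then 2 ^ 112 else 2 ^ 62) * k')
    else some k

def ctls : List (Nat × Nat) := [(0,0),(1,0),(2,0),(3,0),(0,1),(1,1),(2,1),(3,1)]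

/-- certificate of a line -/
def findLine (nc gm cvm : Bool) (fs : Nat) (es : List Ent) : Option Nat :=
  if nc then Id.run do
    let mut K := 0
    let mut p := 1
    for t in es do
      match findCls4 gm cvm [t] with
      | none => return none
      | some k =>
        K := K + p * k
        p := p * fs
    return some K
  else findCls4 gm cvm es

def lineL (md : Nat) : List (Nat × Nat) :=
  match md with
  | 0 => [(10000, 10000)]
  | 1 => [(10000, 4143), (4143, 10000)]
  | _ => [(10000, 1327), (9312, 3879), (7995, 6148), (6148, 7995), (3879, 9312), (1327, 10000)]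

/-- certificate of a form for the mode `(md, nc, gm)` -/
def findMode (W th : Nat) (cs : List CFm) (md : Nat) (nc gm : Bool) : Option (Nat × Nat) :=
  Id.run do
  let cvm := cs.any fun x => x.cv > 0
  let hs := if gm then 2 ^ 112 else 2 ^ 62
  let fs := if cvm then hs * hs else hs
  let ls := if nc then fs ^ 8 else fs
  let mut K := 0
  let mut p := 1
  for (k, s) in lineL md do
    match findLine nc gm cvm fs (cs.map (ent W th k s)) with
    | none => return none
    | some k =>
      K := K + p * k
      p := p * ls
  return some ((if nc then 1 else 0) + (if cvm then 2 else 0) + 4 * md + (if gm then 16 else 0) +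
    32 * K, 32 * p)

/-- certificate of a form with `kappa` already included -/
def findHf (W th : Nat) (cs : List CFm) : Option (Nat × Nat) := Id.run do
  if cs.any (fun x => x.cvv > 0 || x.l < 0) then return none
  let l0 := cs.all fun x => x.l == 0
  let mds := if l0 then [0] else [0, 1, 2]
  for nc in [false, true] do
    for md in mds do
      for gm in [false, true] do
        match findMode W th cs md nc gm with
        | none => pure ()
        | some r => return some r
  return none

/-- does a control form pass (exact mode) with the constant `c` changed -/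
def okC (W th : Nat) (x : CFm) (dc : Float) : Bool :=
  !(x.cvv > 0 || x.l < 0) &&
    (findMode W th [{ x with c := x.c + dc }] (if x.l == 0 then 0 else 2) false true).isSome

/-- the largest `k` such that `F - k` passes, in units of `1e-5`, for one control -/
def hiK (W th : Nat) (x : CFm) : Int := Id.run do
  let mut hi : Float := x.c
  let mut lo : Float := hi - 10
  if !(okC W th x (-lo)) then return -(10 ^ 8)
  for _ in [0:16] do
    let m := (lo + hi) / 2
    if okC W th x (-m) then lo := m else hi := m
  let r := (lo * 100000).floor
  return (if r < 0 then -((-r).toUInt64.toNat : Int) else (r.toUInt64.toNat : Int))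

/-- the smallest `k` such that `G + k` passes -/
def loK (W th : Nat) (x : CFm) : Int := - hiK W th x

def imin (l : List Int) : Int := l.foldl (fun a b => if a ≤ b then a else b) (10 ^ 9)
def imax (l : List Int) : Int := l.foldl (fun a b => if a ≥ b then a else b) (-(10 ^ 9))

def encK (k : Int) : Nat := (k + 1048576).toNat % 2097152

/-- the margins at the four corners in units of `1e-5` (`hi - lo` of `kappa`) -/
def marg (WU WY th : Nat) (Fs Gs : List (QI Dec)) : List Int :=
  let fc := Fs.map fun q => ctls.map fun (i, j) => ctlF q i j
  let gc := Gs.map fun q => ctls.map fun (i, j) => ctlF q i j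
  [0, 3, 4, 7].map fun n =>
    imin (fc.map fun l => match l[n]? with
      | some x => hiK WU th x
      | none => 0) -
    imax (gc.map fun l => match l[n]? with
      | some x => loK WY th x
      | none => 0)

/-- certificate of a group -/
def findG (WU WY th : Nat) (Fs Gs : List (QI Dec)) : Nat × Bool := Id.run do
  let fc := Fs.map fun q => ctls.map fun (i, j) => ctlF q i j
  let gc := Gs.map fun q => ctls.map fun (i, j) => ctlF q i j
  let ks : List (Int × Int) := [0, 3, 4, 7].map fun n =>
    (imax (gc.map fun l => match l[n]? with
      | some x => loK WY th x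
      | none => 0),
    imin (fc.map fun l => match l[n]? with
      | some x => hiK WU th x
      | none => 0))
  let kap := fun (t n : Nat) =>
    let (lo, hi) := ks.getD n (0, 0)
    lo + (hi - lo) * t / 8
  let mut res : Nat := 0
  for t in [4, 2, 6, 1, 7] do
    let c0 := kap t 0
    let c1 := kap t 1 - kap t 0
    let c2 := kap t 2 - kap t 0
    let c3 := kap t 3 - kap t 2 - c1
    let val := fun (i j : Nat) => if j = 0 then kc i c0 c1 else kc i (c0 + c2) (c1 + c3)
    let upd := fun (sg : Int) (l : List CFm) => (l.zip ctls).map fun (x, (i, j)) =>
      { x with c := x.c + fI (sg * val i j) / 100000 }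
    let mut K := 0
    let mut p := 2 ^ 84
    let mut ok := true
    for l in fc do
      if ok then
        match findHf WU th (upd (-1) l) with
        | none => ok := false
        | some (k, s) =>
          K := K + p * k
          p := p * s
    for l in gc do
      if ok then
        match findHf WY th (upd 1 l) with
        | none => ok := false
        | some (k, s) =>
          K := K + p * k
          p := p * s
    if ok then
      let K0 := encK c0 + 2 ^ 21 * encK c1 + 2 ^ 42 * encK c2 + 2 ^ 63 * encK c3
      if grp WU WY th Fs Gs (K0 + K) then return (K0 + K, true)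
      res := K0 + K
  return (res, false)

end Pool.Agent.TSC.V3
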