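import Pool.Agent.TSC.V3Hf

set_option autoImplicit false

/-!
# Soundness of the test of a form (MP_d27362_co): lines, signs
-/

namespace Pool.Agent.TSC.V3

open Pool.Agent.TSC

attribute [local irreducible] cB cM cQ cT m0 m1 m2 m3 a0 a1 a2 a3 k0 k1 k2 k3 HH cH cZh cZh2 cZn
  cZn2 cO cZ0 cZ02 H0

section ent

variable {C CU CUU CV CVV CA CAA L : ℕ × (ℕ → ℤ)}

lemma rep_S {X : ℕ} {y : ℕ → ℤ} (h : Rep X y H0) :
    Rep (Nat.mul 175921860444160000 X) (fun p => (175921860444160000 : ℕ) * y p) cO := by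
  refine (h.smul 175921860444160000).cast ?_
  rw [cO_eq, HH_eq]
  ring

lemma signs_sound {cvm : Bool} (hC : CR C CU CUU CV CVV CA CAA L)
    (h : signs cvm CV.1 CVV.1 L.1 = true) {i : ℕ} (hi : i < 4) (j : Bool) :
    LR i j CVV.2 ≤ 0 ∧ 0 ≤ LR i j L.2 ∧ (cvm = false → LR i j CV.2 ≤ 0) := by
  unfold signs at h
  rw [g3_eq] at h
  have e1 : Nat.add (Nat.mul 175921860444160000 (Nat.sub cZ02 CVV.1)) (Nat.mul cQ
      (Nat.add (Nat.mul 175921860444160000 L.1) (Nat.mul cQ (Nat.mul 175921860444160000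
        (cond cvm cZ0 (Nat.sub cZ02 CV.1)))))) =
      pkL (([(Nat.mul 175921860444160000 (Nat.sub cZ02 CVV.1),
          fun p => (175921860444160000 : ℕ) * (- CVV.2 p)),
        (Nat.mul 175921860444160000 L.1, fun p => (175921860444160000 : ℕ) * L.2 p),
        (Nat.mul 175921860444160000 (cond cvm cZ0 (Nat.sub cZ02 CV.1)),
          fun p => (175921860444160000 : ℕ) * (cond cvm (fun _ => 0) (fun p => - CV.2 p)) p)] :
        List (ℕ × (ℕ → ℤ))).map Prod.fst) := rfl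
  rw [e1] at h
  have h2 := snd_tst hi j _ (by
    intro p hp
    simp only [List.mem_cons, List.not_mem_nil, or_false] at hp
    rcases hp with rfl | rfl | rfl
    · exact rep_S (hC.CVV.compl cZ02_eq)
    · exact rep_S hC.L
    · exact rep_S ((Rep.zero cZ0_eq).cond (hC.CV.compl cZ02_eq))) h
  simp only [List.mem_cons, List.not_mem_nil, or_false, forall_eq_or_imp, forall_eq] at h2
  obtain ⟨q1, q2, q3⟩ := h2
  refine ⟨?_, ?_, ?_⟩
  · have q1 := nn_of_mul (by norm_num) q1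
    rw [Lam_neg] at q1
    unfold LR
    have : Lam i j CVV.2 ≤ 0 := by linarith
    exact_mod_cast this
  · have q2 := nn_of_mul (by norm_num) q2
    unfold LR
    exact_mod_cast q2
  · intro hc
    have q3 := nn_of_mul (by norm_num) q3
    rw [hc, cond_false, Lam_neg] at q3
    unfold LR
    have : Lam i j CV.2 ≤ 0 := by linarith
    exact_mod_cast this

lemma six_lines {v a : ℝ} (hv : 0 ≤ v) (ha : 0 ≤ a) :
    Real.sqrt (v ^ 2 + a ^ 2) ≤ ((10000 : ℕ) : ℝ) / 10000 * v + ((1327 : ℕ) : ℝ) / 10000 * a ∨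
    Real.sqrt (v ^ 2 + a ^ 2) ≤ ((9312 : ℕ) : ℝ) / 10000 * v + ((3879 : ℕ) : ℝ) / 10000 * a ∨
    Real.sqrt (v ^ 2 + a ^ 2) ≤ ((7995 : ℕ) : ℝ) / 10000 * v + ((6148 : ℕ) : ℝ) / 10000 * a ∨
    Real.sqrt (v ^ 2 + a ^ 2) ≤ ((6148 : ℕ) : ℝ) / 10000 * v + ((7995 : ℕ) : ℝ) / 10000 * a ∨
    Real.sqrt (v ^ 2 + a ^ 2) ≤ ((3879 : ℕ) : ℝ) / 10000 * v + ((9312 : ℕ) : ℝ) / 10000 * a ∨
    Real.sqrt (v ^ 2 + a ^ 2) ≤ ((1327 : ℕ) : ℝ) / 10000 * v + ((10000 : ℕ) : ℝ) / 10000 * a :=
  suppz hv ha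

/-- **the form with the packed coefficients** -/
theorem hf1_sound {md : ℕ} {nc gm cvm : Bool} {W th fs ls K : ℕ} (hW1 : 1 ≤ W) (hW : W ≤ 2)
    (hth : th ≤ 10000) (hC : CR C CU CUU CV CVV CA CAA L)
    (h : hf1 md nc gm cvm W th fs ls C.1 CU.1 CUU.1 CV.1 CVV.1 CA.1 CAA.1 L.1 K = true)
    {i : ℕ} (hi : i < 4) (j : Bool) {u v a : ℝ} (hv : 0 ≤ v) (hv2 : v ≤ W) (ha : 0 ≤ a)
    (hu : |u - v| ≤ (th : ℝ) / 10000 * a) :
    0 ≤ (cq i j C.2 CU.2 CUU.2 CV.2 CVV.2 CA.2 CAA.2 L.2).ev u v a := by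
  unfold hf1 at h
  rw [Bool.and_eq_true] at h
  obtain ⟨hs, hl⟩ := h
  obtain ⟨s1, s2, s3⟩ := signs_sound hC hs hi j
  have hW0 : (0 : ℝ) < W := by exact_mod_cast hW1
  have c1 : cvm = false → (cq i j C.2 CU.2 CUU.2 CV.2 CVV.2 CA.2 CAA.2 L.2).cv ≤ 0 := s3
  have c2 : (cq i j C.2 CU.2 CUU.2 CV.2 CVV.2 CA.2 CAA.2 L.2).cvv ≤ 0 := s1
  have c3 : 0 ≤ (cq i j C.2 CU.2 CUU.2 CV.2 CVV.2 CA.2 CAA.2 L.2).l := by
    show 0 ≤ 10000 * LR i j L.2
    linarith
  have e1 : ((10000 : ℕ) : ℝ) / 10000 = 1 := by norm_num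
  unfold lines3 at hl
  cases hm : Nat.beq md 0 with
  | true =>
    rw [hm, cond_true] at hl
    have f := line_sound hW hth le_rfl le_rfl hi j hC hl
    refine faces_all hW0 [(((10000 : ℕ) : ℝ) / 10000, ((10000 : ℕ) : ℝ) / 10000)] ?_ 1 ?_ ?_
      c1 c2 c3 hv hv2 ha hu
    · intro p hp
      rw [List.mem_singleton] at hp
      rw [hp]
      exact f
    · rw [e1]
      exact List.mem_singleton.2 rfl
    · intro v a hv ha
      refine ⟨_, List.mem_singleton.2 rfl, ?_⟩
      have := norm_le_one hv ha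
      rw [Dec.val_one] at this
      simp only [e1]
      exact this
  | false =>
    rw [hm, cond_false] at hl
    cases hm1 : Nat.beq md 1 with
    | true =>
      rw [hm1, cond_true, Bool.and_eq_true] at hl
      have f1 := line_sound hW hth (k := 10000) (s := 4143) (by norm_num) (by norm_num) hi j hC hl.1
      have f2 := line_sound hW hth (k := 4143) (s := 10000) (by norm_num) (by norm_num) hi j hC hl.2
      refine faces_all hW0 [(((10000 : ℕ) : ℝ) / 10000, ((4143 : ℕ) : ℝ) / 10000),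
        (((4143 : ℕ) : ℝ) / 10000, ((10000 : ℕ) : ℝ) / 10000)] ?_ (((4143 : ℕ) : ℝ) / 10000) ?_ ?_
        c1 c2 c3 hv hv2 ha hu
      · intro p hp
        simp only [List.mem_cons, List.not_mem_nil, or_false] at hp
        rcases hp with rfl | rfl
        · exact f1
        · exact f2
      · rw [e1]
        simp
      · intro v a hv ha
        rcases two_lines hv ha with h | h
        · refine ⟨_, List.mem_cons_self, ?_⟩
          simp only [e1]
          norm_num only [Nat.cast_ofNat] at h ⊢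
          linarith
        · refine ⟨_, List.mem_cons_of_mem _ List.mem_cons_self, ?_⟩
          simp only [e1]
          norm_num only [Nat.cast_ofNat] at h ⊢
          linarith
    | false =>
      rw [hm1, cond_false] at hl
      simp only [Bool.and_eq_true] at hl
      obtain ⟨l1, l2, l3, l4, l5, l6⟩ := hl
      have f1 := line_sound hW hth (k := 10000) (s := 1327) (by norm_num) (by norm_num) hi j hC l1
      have f2 := line_sound hW hth (k := 9312) (s := 3879) (by norm_num) (by norm_num) hi j hC l2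
      have f3 := line_sound hW hth (k := 7995) (s := 6148) (by norm_num) (by norm_num) hi j hC l3
      have f4 := line_sound hW hth (k := 6148) (s := 7995) (by norm_num) (by norm_num) hi j hC l4
      have f5 := line_sound hW hth (k := 3879) (s := 9312) (by norm_num) (by norm_num) hi j hC l5
      have f6 := line_sound hW hth (k := 1327) (s := 10000) (by norm_num) (by norm_num) hi j hC l6
      refine faces_all hW0 [(((10000 : ℕ) : ℝ) / 10000, ((1327 : ℕ) : ℝ) / 10000),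
        (((9312 : ℕ) : ℝ) / 10000, ((3879 : ℕ) : ℝ) / 10000),
        (((7995 : ℕ) : ℝ) / 10000, ((6148 : ℕ) : ℝ) / 10000),
        (((6148 : ℕ) : ℝ) / 10000, ((7995 : ℕ) : ℝ) / 10000),
        (((3879 : ℕ) : ℝ) / 10000, ((9312 : ℕ) : ℝ) / 10000),
        (((1327 : ℕ) : ℝ) / 10000, ((10000 : ℕ) : ℝ) / 10000)] ?_ (((1327 : ℕ) : ℝ) / 10000) ?_ ?_
        c1 c2 c3 hv hv2 ha hu
      · intro p hp
        simp only [List.mem_cons, List.not_mem_nil, or_false] at hp
        rcases hp with rfl | rfl | rfl | rfl | rfl | rfl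
        · exact f1
        · exact f2
        · exact f3
        · exact f4
        · exact f5
        · exact f6
      · rw [e1]
        simp
      · intro v a hv ha
        rcases six_lines hv ha with h | h | h | h | h | h
        · exact ⟨_, by simp only [List.mem_cons]; exact Or.inl rfl, h⟩
        · exact ⟨_, by simp only [List.mem_cons]; exact Or.inr (Or.inl rfl), h⟩
        · exact ⟨_, by simp only [List.mem_cons]; exact Or.inr (Or.inr (Or.inl rfl)), h⟩
        · exact ⟨_, by simp only [List.mem_cons]; exact Or.inr (Or.inr (Or.inr (Or.inl rfl))), h⟩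
        · exact ⟨_, by simp only [List.mem_cons]
                       exact Or.inr (Or.inr (Or.inr (Or.inr (Or.inl rfl)))), h⟩
        · exact ⟨_, by simp only [List.mem_cons]
                       exact Or.inr (Or.inr (Or.inr (Or.inr (Or.inr (Or.inl rfl))))), h⟩

end ent

/-! ### the form -/

/-- the control form of a list of coefficients -/
structure CFs where
  C : ℕ → ℤ
  CU : ℕ → ℤ
  CUU : ℕ → ℤ
  CV : ℕ → ℤ
  CVV : ℕ → ℤ
  CA : ℕ → ℤ
  CAA : ℕ → ℤ
  L : ℕ → ℤ

/-- the packed coefficients of the form `q` are represented by `y` -/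
structure QR (Z : ℕ) (q : QI Dec) (y : CFs) : Prop where
  C : Rep (cf 44 Z q.c) y.C H0
  CU : Rep (cf 44 cZ0 q.cu) y.CU H0
  CUU : Rep (cf 44 cZ0 q.cuu) y.CUU H0
  CV : Rep (cf 44 cZ0 q.cv) y.CV H0
  CVV : Rep (cf 44 cZ0 q.cvv) y.CVV H0
  CA : Rep (cf 44 cZ0 q.ca) y.CA H0
  CAA : Rep (cf 44 cZ0 q.caa) y.CAA H0
  L : Rep (cf 40 cZ0 q.l) y.L H0

/-- all the control forms are nonnegative -/
def QOk (W th : ℕ) (y : CFs) : Prop :=
  ∀ i, i < 4 → ∀ (j : Bool) (u v a : ℝ), 0 ≤ v → v ≤ W → 0 ≤ a →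
    |u - v| ≤ (th : ℝ) / 10000 * a →
    0 ≤ (cq i j y.C y.CU y.CUU y.CV y.CVV y.CA y.CAA y.L).ev u v a

theorem hf_sound {W th Z K : ℕ} {q : QI Dec} {f : ℕ → Bool} (hW1 : 1 ≤ W) (hW : W ≤ 2)
    (hth : th ≤ 10000) {y : CFs} (hq : QR Z q y) (h : hf W th Z q K f = true) :
    QOk W th y ∧ ∃ K', f K' = true := by
  unfold hf at h
  simp only [Bool.and_eq_true] at h
  refine ⟨fun i hi j u v a hv hv2 ha hu => ?_, _, h.2⟩
  exact hf1_sound (C := (_, y.C)) (CU := (_, y.CU)) (CUU := (_, y.CUU)) (CV := (_, y.CV))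
    (CVV := (_, y.CVV)) (CA := (_, y.CA)) (CAA := (_, y.CAA)) (L := (_, y.L)) hW1 hW hth
    ⟨hq.C, hq.CU, hq.CUU, hq.CV, hq.CVV, hq.CA, hq.CAA, hq.L⟩ h.1 hi j hv hv2 ha hu

theorem hfs_sound {W th Z : ℕ} (hW1 : 1 ≤ W) (hW : W ≤ 2) (hth : th ≤ 10000) (l : List (QI Dec)) :
    ∀ {K : ℕ} {f : ℕ → Bool}, hfs W th Z l K f = true →
    (∀ q ∈ l, ∀ y, QR Z q y → QOk W th y) ∧ ((∀ q ∈ l, ∃ y, QR Z q y) → ∃ K', f K' = true) := by
  induction l with
  | nil =>
    intro K f h
    exact ⟨fun q hq => by simp at hq, fun _ => ⟨K, h⟩⟩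
  | cons q l ih =>
    intro K f h
    have h1 : hf W th Z q K (fun K' => hfs W th Z l K' f) = true := h
    constructor
    · intro q' hq' y hy
      rcases List.mem_cons.1 hq' with hq' | hq'
      · rw [hq'] at hy
        exact (hf_sound hW1 hW hth hy h1).1
      · unfold hf at h1
        simp only [Bool.and_eq_true] at h1
        exact (ih h1.2).1 q' hq' y hy
    · intro hy
      unfold hf at h1
      simp only [Bool.and_eq_true] at h1
      exact (ih h1.2).2 fun q' hq' => hy q' (List.mem_cons_of_mem _ hq')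

theorem hfs_next {W th Z : ℕ} (l : List (QI Dec)) :
    ∀ {K : ℕ} {f : ℕ → Bool}, hfs W th Z l K f = true → ∃ K', f K' = true := by
  induction l with
  | nil =>
    intro K f h
    exact ⟨K, h⟩
  | cons q l ih =>
    intro K f h
    have h1 : hf W th Z q K (fun K' => hfs W th Z l K' f) = true := h
    unfold hf at h1
    simp only [Bool.and_eq_true] at h1
    exact ih h1.2

/-- **soundness of the test of a group**: there is `κ` such that all the forms of the first list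
pass with the offset `Z0 + κM - κ`, and all the forms of the second list with `Z0 + κ - κM` -/
theorem grp_sound {WU WY th K : ℕ} {Fs Gs : List (QI Dec)} (hU1 : 1 ≤ WU) (hU : WU ≤ 2)
    (hY1 : 1 ≤ WY) (hY : WY ≤ 2) (hth : th ≤ 10000) (h : grp WU WY th Fs Gs K = true) :
    (∀ q ∈ Fs, ∀ y, QR (Nat.sub (Nat.add cZ0 kM) (kZ K)) q y → QOk WU th y) ∧
    (∀ q ∈ Gs, ∀ y, QR (Nat.sub (Nat.add cZ0 (kZ K)) kM) q y → QOk WY th y) := by
  unfold grp at h
  refine ⟨(hfs_sound hU1 hU hth Fs h).1, ?_⟩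
  obtain ⟨K', h2⟩ := hfs_next Fs h
  exact (hfs_sound hY1 hY hth Gs h2).1

end Pool.Agent.TSC.V3
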