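import Pool.Agent.TSC.V3Poly

set_option autoImplicit false

/-!
# Soundness of the test of a group (MP_d27362_co)
-/

namespace Pool.Agent.TSC.V3

open Pool.Agent.TSC
open Polynomial

attribute [local irreducible] cB cM cQ cT m0 m1 m2 m3 a0 a1 a2 a3 k0 k1 k2 k3 HH cH cZh cZh2 cZn
  cZn2 cO cZ0 cZ02 H0

/-- the digits of `κ` -/
def kd (K : ℕ) : ℕ → ℤ
  | 0 => 10 ^ 39 * ((K % 2097152 : ℕ) : ℤ) - 10 ^ 39 * 1048576
  | 1 => 10 ^ 39 * ((K / 2097152 % 2097152 : ℕ) : ℤ) - 10 ^ 39 * 1048576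
  | 4 => 10 ^ 39 * ((K / 4398046511104 % 2097152 : ℕ) : ℤ) - 10 ^ 39 * 1048576
  | 5 => 10 ^ 39 * ((K / 9223372036854775808 % 2097152 : ℕ) : ℤ) - 10 ^ 39 * 1048576
  | _ => 0

lemma kd_aux (i : ℕ) : |10 ^ 39 * ((i % 2097152 : ℕ) : ℤ) - 10 ^ 39 * 1048576| ≤ 2 ^ 151 := by
  have h1 : ((i % 2097152 : ℕ) : ℤ) ≤ 2097152 := by
    exact_mod_cast (Nat.mod_lt i (by norm_num)).le
  have h2 : (0 : ℤ) ≤ ((i % 2097152 : ℕ) : ℤ) := Int.natCast_nonneg _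
  generalize ((i % 2097152 : ℕ) : ℤ) = z at h1 h2
  have h3 : (10 : ℤ) ^ 39 * 1048576 ≤ 2 ^ 151 := by norm_num
  have h4 : (0 : ℤ) < 10 ^ 39 := by positivity
  have h5 : (10 : ℤ) ^ 39 * z ≤ 10 ^ 39 * 2097152 := mul_le_mul_of_nonneg_left h1 h4.le
  have h6 : (0 : ℤ) ≤ 10 ^ 39 * z := mul_nonneg h4.le h2
  have h7 : (10 : ℤ) ^ 39 * 2097152 = 10 ^ 39 * 1048576 + 10 ^ 39 * 1048576 := by norm_num
  rw [abs_le]
  constructor
  · linarith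
  · linarith

lemma kd_abs (K p : ℕ) : |kd K p| ≤ 2 ^ 151 := by
  unfold kd
  split
  · exact kd_aux _
  · exact kd_aux _
  · exact kd_aux _
  · exact kd_aux _
  · norm_num

lemma kd_abs' (K p : ℕ) : |(fun q => - kd K q) p| ≤ 2 ^ 151 := by
  simp only [abs_neg]
  exact kd_abs K p

lemma kd_sum (K : ℕ) : ((kZ K : ℕ) : ℤ) - ((kM : ℕ) : ℤ) =
    ∑ p ∈ Finset.range 8, kd K p * (cB : ℤ) ^ p := by
  have e1 : m0 = 1 + cB ^ 4 := by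
    unfold m0; rw [cM_eq, Nat.add_eq]
  unfold kZ kM
  rw [e1, cM_eq]
  simp only [Finset.sum_range_succ, Finset.sum_range_zero, kd]
  simp only [Nat.mul_eq, Nat.add_eq, Nat.cast_mul, Nat.cast_add, Nat.cast_pow, Nat.cast_ofNat,
    Nat.cast_one]
  have f1 : Nat.mod K 2097152 = K % 2097152 := rfl
  have f2 : Nat.mod (Nat.div K 2097152) 2097152 = K / 2097152 % 2097152 := rfl
  have f3 : Nat.mod (Nat.div K 4398046511104) 2097152 = K / 4398046511104 % 2097152 := rfl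
  have f4 : Nat.mod (Nat.div K 9223372036854775808) 2097152 =
    K / 9223372036854775808 % 2097152 := rfl
  rw [f1, f2, f3, f4]
  ring

lemma sum_pos_of {z : ℕ → ℤ} (hz : ∀ p, |z p| ≤ 2 ^ 151) :
    0 ≤ ∑ p ∈ Finset.range 8, (z p + H0) * (cB : ℤ) ^ p := by
  apply Finset.sum_nonneg
  intro p _
  have h1 := (abs_le.1 (hz p)).1
  have h2 : ((2 ^ 151 : ℕ) : ℤ) ≤ (H0 : ℤ) := by
    have := H1_le
    exact_mod_cast (le_trans (Nat.le_add_left _ _) this)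
  push_cast at h2
  exact mul_nonneg (by linarith) (pow_nonneg (Int.natCast_nonneg _) _)

lemma ZY_eq (K : ℕ) : ((Nat.sub (Nat.add cZ0 (kZ K)) kM : ℕ) : ℤ) =
    ∑ p ∈ Finset.range 8, (kd K p + H0) * (cB : ℤ) ^ p := by
  have h1 := kd_sum K
  have h2 := Z0_sum
  have h3 : ((cZ0 : ℕ) : ℤ) + ((kZ K : ℕ) : ℤ) - ((kM : ℕ) : ℤ) =
      ∑ p ∈ Finset.range 8, (kd K p + H0) * (cB : ℤ) ^ p := by
    have : ((cZ0 : ℕ) : ℤ) + ((kZ K : ℕ) : ℤ) - ((kM : ℕ) : ℤ) =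
      (((kZ K : ℕ) : ℤ) - ((kM : ℕ) : ℤ)) + (cZ0 : ℤ) := by ring
    rw [this, h1, h2, ← Finset.sum_add_distrib]
    apply Finset.sum_congr rfl
    intro p _
    ring
  have h4 := sum_pos_of (kd_abs K)
  have hle : kM ≤ cZ0 + kZ K := by
    have : ((kM : ℕ) : ℤ) ≤ ((cZ0 : ℕ) : ℤ) + ((kZ K : ℕ) : ℤ) := by linarith
    exact_mod_cast this
  rw [Nat.sub_eq, Nat.add_eq, Nat.cast_sub hle, Nat.cast_add]
  exact h3

lemma ZU_eq (K : ℕ) : ((Nat.sub (Nat.add cZ0 kM) (kZ K) : ℕ) : ℤ) =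
    ∑ p ∈ Finset.range 8, ((fun q => - kd K q) p + H0) * (cB : ℤ) ^ p := by
  have h1 := kd_sum K
  have h2 := Z0_sum
  have h3 : ((cZ0 : ℕ) : ℤ) + ((kM : ℕ) : ℤ) - ((kZ K : ℕ) : ℤ) =
      ∑ p ∈ Finset.range 8, ((fun q => - kd K q) p + H0) * (cB : ℤ) ^ p := by
    have : ((cZ0 : ℕ) : ℤ) + ((kM : ℕ) : ℤ) - ((kZ K : ℕ) : ℤ) =
      (cZ0 : ℤ) - (((kZ K : ℕ) : ℤ) - ((kM : ℕ) : ℤ)) := by ring
    rw [this, h1, h2, ← Finset.sum_sub_distrib]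
    apply Finset.sum_congr rfl
    intro p _
    ring
  have h4 := sum_pos_of (z := fun q => - kd K q) (kd_abs' K)
  have hle : kZ K ≤ cZ0 + kM := by
    have : ((kZ K : ℕ) : ℤ) ≤ ((cZ0 : ℕ) : ℤ) + ((kM : ℕ) : ℤ) := by linarith
    exact_mod_cast this
  rw [Nat.sub_eq, Nat.add_eq, Nat.cast_sub hle, Nat.cast_add]
  exact h3

lemma bsum_neg (x m : ℝ) (z : ℕ → ℤ) :
    bsum x m (fun i j => LR i j fun q => - z q) = - bsum x m (fun i j => LR i j z) := by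
  simp only [LR_neg, bsum]
  ring

/-- **soundness of the test of a group** -/
theorem grp_ok {WU WY th K : ℕ} {Fs Gs : List (QI (DS N2))} (hU1 : 1 ≤ WU) (hU : WU ≤ 2)
    (hY1 : 1 ≤ WY) (hY : WY ≤ 2) (hth : th ≤ 10000) (hF : ∀ q ∈ Fs, BQ q) (hG : ∀ q ∈ Gs, BQ q)
    (h : grp WU WY th (Fs.map fun q => q.map (DS.dec (e2 cB cM)))
      (Gs.map fun q => q.map (DS.dec (e2 cB cM))) K = true) {x m : ℝ} (hx : 0 ≤ x) (hx1 : x ≤ 1)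
    (hm : 0 ≤ m) (hm1 : m ≤ 1) {u v a y w b : ℝ}
    (hd : DomW WU WY ((th : ℝ) / 10000) u v a y w b) : ∀ F ∈ Fs, ∀ G ∈ Gs,
    0 ≤ (F.map (DS.val (r2 x m))).ev u v a + (G.map (DS.val (r2 x m))).ev y w b := by
  intro F hFm G hGm
  obtain ⟨g1, g2⟩ := grp_sound hU1 hU hY1 hY hth h
  have q1 := g1 _ (List.mem_map.2 ⟨F, hFm, rfl⟩) _ ((hF F hFm).qr (ZU_eq K) (kd_abs' K))
  have q2 := g2 _ (List.mem_map.2 ⟨G, hGm, rfl⟩) _ ((hG G hGm).qr (ZY_eq K) (kd_abs K))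
  have e1 := (hF F hFm).ev (fun q => - kd K q) x m u v a
  have e2' := (hG G hGm).ev (kd K) x m y w b
  rw [bsum_neg] at e1
  have n1 := bsum_nonneg hx hx1 hm hm1
    (fun i hi j => q1 i hi j u v a hd.hv hd.hv2 hd.ha hd.hu)
  have n2 := bsum_nonneg hx hx1 hm hm1
    (fun i hi j => q2 i hi j y w b hd.hw hd.hw2 hd.hb hd.hy)
  rw [← e1] at n1
  rw [← e2'] at n2
  have key : 0 ≤ (10 : ℝ) ^ 44 * ((F.map (DS.val (r2 x m))).ev u v a +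
      (G.map (DS.val (r2 x m))).ev y w b) := by linarith
  exact nonneg_of_mul_nonneg_right key (by positivity)

end Pool.Agent.TSC.V3
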