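import Pool.Agent.TSC.V3Line

set_option autoImplicit false

/-!
# Soundness of the test of a form (MP_d27362_co)
-/

namespace Pool.Agent.TSC.V3

open Pool.Agent.TSC

attribute [local irreducible] cB cM cQ cT m0 m1 m2 m3 a0 a1 a2 a3 k0 k1 k2 k3 HH cH cZh cZh2 cZn
  cZn2 cO cZ0 cZ02 H0

section ent

variable {C CU CUU CV CVV CA CAA L : ℕ × (ℕ → ℤ)}

/-- **one line** -/
theorem line_sound {nc gm cvm : Bool} {W th fs k s K : ℕ} (hW : W ≤ 2) (hth : th ≤ 10000)
    (hk : k ≤ 10000) (hs : s ≤ 10000) {i : ℕ} (hi : i < 4) (j : Bool)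
    (hC : CR C CU CUU CV CVV CA CAA L)
    (h : line nc gm cvm W th fs k s
      (Nat.add (Nat.mul 20000 C.1) (zn 20000))
      (Nat.mul 10000 (Nat.add (Nat.mul 2 C.1) (Nat.add (Nat.mul (Nat.mul 2 W) (Nat.add CU.1 CV.1))
        (Nat.mul (Nat.mul 2 (Nat.mul W W)) (Nat.add CUU.1 CVV.1)))))
      (Nat.mul 10000 (Nat.add (Nat.mul 2 C.1) (Nat.mul W (Nat.add CU.1 CV.1))))
      (Nat.add (Nat.mul 10000 CA.1) (Nat.mul th (Nat.sub cZ02 CU.1)))
      (Nat.add (Nat.mul 10000 CA.1) (Nat.mul th CU.1))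
      (Nat.add (Nat.add (Nat.mul 200000000 CAA.1) (Nat.mul (Nat.mul 2 (Nat.mul th th)) CUU.1))
        (znn (Nat.add 200000000 (Nat.mul 2 (Nat.mul th th)))))
      (Nat.add (Nat.add (Nat.mul 200000000 CAA.1) (Nat.mul (Nat.mul 2 (Nat.mul th th))
        (Nat.sub cZ02 CUU.1))) (znn (Nat.add 200000000 (Nat.mul 2 (Nat.mul th th)))))
      (Nat.mul (Nat.mul 2 (Nat.mul W th)) (Nat.sub cZ02 CUU.1))
      (Nat.mul (Nat.mul 2 (Nat.mul W th)) CUU.1)
      (Nat.sub cZ02 L.1) K = true) :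
    Faces (cq i j C.2 CU.2 CUU.2 CV.2 CVV.2 CA.2 CAA.2 L.2) (W : ℝ) ((th : ℝ) / 10000)
      ((k : ℝ) / 10000) ((s : ℝ) / 10000) cvm := by
  have hWW : W * (1 + W) ≤ 2 * 3 := Nat.mul_le_mul hW (by omega)
  have hWk : W * k ≤ 2 * 10000 := Nat.mul_le_mul hW hk
  have hWt : W * th ≤ 2 * 10000 := Nat.mul_le_mul hW hth
  have htt : th * th ≤ 10000 * 10000 := Nat.mul_le_mul hth hth
  have rLb := hC.L.compl cZ02_eq
  have rCUb := hC.CU.compl cZ02_eq
  have rCUUb := hC.CUU.compl cZ02_eq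
  have ra := (hC.C.smul 20000).toH (by norm_num)
  have rb := (((((hC.C.smul 2).add (((hC.CU.add hC.CV).smul (Nat.mul 2 W)).add
    ((hC.CUU.add hC.CVV).smul (Nat.mul 2 (Nat.mul W W))))).smul 10000).add
      (rLb.smul (Nat.mul 20000 (Nat.mul W k)))).cast
    (O' := (Nat.mul 10000 (Nat.add (Nat.add 2 (Nat.mul 4 (Nat.mul W (Nat.add 1 W))))
      (Nat.mul 2 (Nat.mul W k)))) * H0)
    (by simp only [Nat.mul_eq, Nat.add_eq]; ring)).toH
    (by simp only [Nat.mul_eq, Nat.add_eq]; omega)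
  have rd := (((((hC.C.smul 2).add ((hC.CU.add hC.CV).smul W)).smul 10000).add
      (rLb.smul (Nat.mul 10000 (Nat.mul W k)))).cast
    (O' := (Nat.mul 10000 (Nat.add (Nat.add 2 (Nat.mul 2 W)) (Nat.mul W k))) * H0)
    (by simp only [Nat.mul_eq, Nat.add_eq]; ring)).toH
    (by simp only [Nat.mul_eq, Nat.add_eq]; omega)
  have re := ((((hC.CA.smul 10000).add (rCUb.smul th)).add
      (rLb.smul (Nat.mul 10000 s))).cast
    (O' := (Nat.add (Nat.add 10000 th) (Nat.mul 10000 s)) * H0)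
    (by simp only [Nat.mul_eq, Nat.add_eq]; ring)).toH
    (by simp only [Nat.mul_eq, Nat.add_eq]; omega)
  have rep := ((((hC.CA.smul 10000).add (hC.CU.smul th)).add
      (rLb.smul (Nat.mul 10000 s))).cast
    (O' := (Nat.add (Nat.add 10000 th) (Nat.mul 10000 s)) * H0)
    (by simp only [Nat.mul_eq, Nat.add_eq]; ring)).toH
    (by simp only [Nat.mul_eq, Nat.add_eq]; omega)
  have rf := (((((hC.CA.smul 10000).add (rCUb.smul th)).add
      (rLb.smul (Nat.mul 10000 s))).add (rCUUb.smul (Nat.mul 2 (Nat.mul W th)))).cast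
    (O' := (Nat.add (Nat.add (Nat.add 10000 th) (Nat.mul 10000 s)) (Nat.mul 2 (Nat.mul W th))) * H0)
    (by simp only [Nat.mul_eq, Nat.add_eq]; ring)).toH
    (by simp only [Nat.mul_eq, Nat.add_eq]; omega)
  have rfp := (((((hC.CA.smul 10000).add (hC.CU.smul th)).add
      (rLb.smul (Nat.mul 10000 s))).add (hC.CUU.smul (Nat.mul 2 (Nat.mul W th)))).cast
    (O' := (Nat.add (Nat.add (Nat.add 10000 th) (Nat.mul 10000 s)) (Nat.mul 2 (Nat.mul W th))) * H0)
    (by simp only [Nat.mul_eq, Nat.add_eq]; ring)).toH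
    (by simp only [Nat.mul_eq, Nat.add_eq]; omega)
  have rn := (((hC.CAA.smul 200000000).add (hC.CUU.smul (Nat.mul 2 (Nat.mul th th)))).cast
    (O' := (Nat.add 200000000 (Nat.mul 2 (Nat.mul th th))) * H0)
    (by simp only [Nat.mul_eq, Nat.add_eq]; ring)).toN
    (by simp only [Nat.mul_eq, Nat.add_eq]; omega)
  have rpn := (((hC.CAA.smul 200000000).add (rCUUb.smul (Nat.mul 2 (Nat.mul th th)))).cast
    (O' := (Nat.add 200000000 (Nat.mul 2 (Nat.mul th th))) * H0)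
    (by simp only [Nat.mul_eq, Nat.add_eq]; ring)).toN
    (by simp only [Nat.mul_eq, Nat.add_eq]; omega)
  have key := lnc_sound (a := (_, _)) (b := (_, _)) (n := (_, _)) (d := (_, _)) (e := (_, _))
    (ep := (_, _)) (f := (_, _)) (fp := (_, _)) (pn := (_, _)) (i := i) (j := j) hi
    ⟨ra, rb, rn, rd, re, rep, rf, rfp, rpn⟩ h
  obtain ⟨g1, g2, g3, g4⟩ := key
  simp only [LR_add, LR_smul, LR_neg] at g1 g2 g3 g4
  simp only [Nat.mul_eq, Nat.add_eq, Nat.cast_mul, Nat.cast_ofNat] at g1 g2 g3 g4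
  refine ⟨?_, ?_, fun hc => ?_, fun hc => ?_⟩
  · refine Cop3.scale (k := 10000) (by norm_num) ?_
    unfold cq
    simp only
    convert g1 using 1 <;> ring
  · refine Cop3.scale (k := 10000) (by norm_num) ?_
    unfold cq
    simp only
    convert g2 using 1 <;> ring
  · refine Cop3.scale (k := 10000) (by norm_num) ?_
    unfold cq
    simp only
    convert g3 hc using 1 <;> ring
  · refine Cop3.scale (k := 10000) (by norm_num) ?_
    unfold cq
    simp only
    convert g4 hc using 1 <;> ring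

end ent

end Pool.Agent.TSC.V3
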