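import Pool.Agent.TSC.V3Cls

set_option autoImplicit false

/-!
# The faces for the support lines (MP_d27362_co)
-/

namespace Pool.Agent.TSC.V3

open Pool.Agent.TSC

attribute [local irreducible] cB cM cQ cT m0 m1 m2 m3 a0 a1 a2 a3 k0 k1 k2 k3 HH cH cZh cZh2 cZn
  cZn2 cO

/-! ### real forms -/

/-- the faces for the support line `(k, s)` -/
structure Faces (q : QI ℝ) (W θ k s : ℝ) (cvm : Bool) : Prop where
  f1 : Cop3 (2 * q.c) (2 * (q.c + (W * (q.cu + q.cv) + W * W * (q.cuu + q.cvv))) -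
        2 * (W * (q.l * k)))
      (2 * (q.caa + θ * θ * q.cuu)) (2 * q.c + W * (q.cu + q.cv) - W * (q.l * k))
      (q.ca - θ * q.cu - q.l * s) (q.ca - θ * q.cu - q.l * s - 2 * (W * (θ * q.cuu)))
  f2 : Cop3 (2 * (q.c + (W * (q.cu + q.cv) + W * W * (q.cuu + q.cvv))) -
        2 * (W * (q.l * k)))
      (2 * (q.caa + θ * θ * q.cuu)) (2 * (q.caa + θ * θ * q.cuu))
      (q.ca + θ * q.cu - q.l * s + 2 * (W * (θ * q.cuu)))
      (q.ca - θ * q.cu - q.l * s - 2 * (W * (θ * q.cuu)))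
      (2 * (q.caa - θ * θ * q.cuu))
  f3 : cvm = true → Cop3 (2 * q.c) (2 * (q.c + (W * (q.cu + q.cv) + W * W * (q.cuu + q.cvv))) -
        2 * (W * (q.l * k)))
      (2 * (q.caa + θ * θ * q.cuu)) (2 * q.c + W * (q.cu + q.cv) - W * (q.l * k))
      (q.ca + θ * q.cu - q.l * s) (q.ca + θ * q.cu - q.l * s + 2 * (W * (θ * q.cuu)))
  f4 : cvm = true → Cop3 (2 * q.c) (2 * (q.caa + θ * θ * q.cuu)) (2 * (q.caa + θ * θ * q.cuu))
      (q.ca + θ * q.cu - q.l * s) (q.ca - θ * q.cu - q.l * s) (2 * (q.caa - θ * θ * q.cuu))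

/-- all the lines together -/
lemma faces_all {q : QI ℝ} {W θ : ℝ} {cvm : Bool} (hW : 0 < W) (Ls : List (ℝ × ℝ))
    (hL : ∀ p ∈ Ls, Faces q W θ p.1 p.2 cvm) (k1 : ℝ) (h1 : (k1, 1) ∈ Ls)
    (hcov : ∀ v a : ℝ, 0 ≤ v → 0 ≤ a → ∃ p ∈ Ls, Real.sqrt (v ^ 2 + a ^ 2) ≤ p.1 * v + p.2 * a)
    (hcv : cvm = false → q.cv ≤ 0) (hcvv : q.cvv ≤ 0) (hl : 0 ≤ q.l) {u v a : ℝ}
    (hv : 0 ≤ v) (hv2 : v ≤ W) (ha : 0 ≤ a) (hu : |u - v| ≤ θ * a) : 0 ≤ q.ev u v a := by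
  have hu1 := (abs_le.1 hu).1
  obtain ⟨p, hp, hs⟩ := hcov (min W (u + θ * a)) a (le_min hW.le (by linarith)) ha
  cases cvm with
  | false =>
    exact faces_real hW (hL p hp).f1 (hL p hp).f2 (hcv rfl) hcvv hl hv hv2 ha hu hs
  | true =>
    obtain ⟨p', hp', hs'⟩ := hcov (max 0 (u - θ * a)) a (le_max_left _ _) ha
    have h4 := (hL _ h1).f4 rfl
    simp only [mul_one] at h4
    exact faces_real4 hW (hL p hp).f1 (hL p hp).f2 ((hL p' hp').f3 rfl) h4 hcvv hl hv hv2 ha hu hs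
      hs'

lemma Cop3.scale {a b c d e f k : ℝ} (hk : 0 < k)
    (h : Cop3 (k * a) (k * b) (k * c) (k * d) (k * e) (k * f)) : Cop3 a b c d e f := by
  intro x y z hx hy hz
  have h1 := h x y z hx hy hz
  have e1 : k * a * x ^ 2 + k * b * y ^ 2 + k * c * z ^ 2 + 2 * (k * d) * x * y +
      2 * (k * e) * x * z + 2 * (k * f) * y * z = k * (a * x ^ 2 + b * y ^ 2 + c * z ^ 2 +
      2 * d * x * y + 2 * e * x * z + 2 * f * y * z) := by ring
  rw [e1] at h1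
  exact nonneg_of_mul_nonneg_right h1 hk

lemma two_lines {v a : ℝ} (hv : 0 ≤ v) (ha : 0 ≤ a) :
    Real.sqrt (v ^ 2 + a ^ 2) ≤ 1 * v + 4143 / 10000 * a ∨
      Real.sqrt (v ^ 2 + a ^ 2) ≤ 4143 / 10000 * v + 1 * a := by
  rcases le_total a v with h | h
  · left
    rw [Real.sqrt_le_left (by positivity)]
    nlinarith [mul_nonneg ha (sub_nonneg.2 h)]
  · right
    rw [Real.sqrt_le_left (by positivity)]
    nlinarith [mul_nonneg hv (sub_nonneg.2 h)]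

/-! ### the classes -/

/-- the faces in terms of the entries -/
structure FE (i : ℕ) (j cvm : Bool) (a b n d e ep f fp pn : ℕ → ℤ) : Prop where
  f1 : Cop3 (LR i j a) (LR i j b) (LR i j n / 10000) (LR i j d) (LR i j e) (LR i j f)
  f2 : Cop3 (LR i j b) (LR i j n / 10000) (LR i j n / 10000) (LR i j fp) (LR i j f)
    (LR i j pn / 10000)
  f3 : cvm = true → Cop3 (LR i j a) (LR i j b) (LR i j n / 10000) (LR i j d) (LR i j ep)
    (LR i j fp)
  f4 : cvm = true → Cop3 (LR i j a) (LR i j n / 10000) (LR i j n / 10000) (LR i j ep) (LR i j e)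
    (LR i j pn / 10000)

section cls

variable {a b n d e ep f fp pn : ℕ × (ℕ → ℤ)} {K : ℕ}

/-- the entries are represented -/
structure ER (a b n d e ep f fp pn : ℕ × (ℕ → ℤ)) : Prop where
  a : Rep a.1 a.2 HH
  b : Rep b.1 b.2 HH
  n : Rep n.1 n.2 (10000 * HH)
  d : Rep d.1 d.2 HH
  e : Rep e.1 e.2 HH
  ep : Rep ep.1 ep.2 HH
  f : Rep f.1 f.2 HH
  fp : Rep fp.1 fp.2 HH
  pn : Rep pn.1 pn.2 (10000 * HH)

lemma cls4_sound {T : ℕ → ℕ → Bool} {i : ℕ} {j gm cvm : Bool} (hT : Snd T i j)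
    (hE : ER a b n d e ep f fp pn)
    (h : cls4 T gm cvm a.1 b.1 n.1 d.1 e.1 ep.1 f.1 fp.1 pn.1 K = true) :
    FE i j cvm a.2 b.2 n.2 d.2 e.2 ep.2 f.2 fp.2 pn.2 := by
  unfold cls4 at h
  rw [Bool.and_eq_true] at h
  obtain ⟨h1, h2⟩ := h
  obtain ⟨g1, g2⟩ := cls_sound hT hE.a hE.b hE.b hE.n hE.d hE.e hE.f hE.fp hE.f hE.pn h1
  have c1 : Cop2 (LR i j b.2) (LR i j f.2) (LR i j n.2 / 10000) := by
    intro x y hx hy
    have := g1 0 x y le_rfl hx hy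
    linarith
  refine ⟨g1, g2 c1, fun hc => ?_, fun hc => ?_⟩
  · rw [hc, cond_true] at h2
    exact (cls_sound hT hE.a hE.b hE.a hE.n hE.d hE.ep hE.fp hE.ep hE.e hE.pn h2).1
  · rw [hc, cond_true] at h2
    refine (cls_sound hT hE.a hE.b hE.a hE.n hE.d hE.ep hE.fp hE.ep hE.e hE.pn h2).2 ?_
    intro x y hx hy
    have := g1 x 0 y hx le_rfl hy
    linarith

lemma lnc_sound {nc gm cvm : Bool} {fs i : ℕ} {j : Bool} (hi : i < 4)
    (hE : ER a b n d e ep f fp pn)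
    (h : lnc nc gm cvm fs a.1 b.1 n.1 d.1 e.1 ep.1 f.1 fp.1 pn.1 K = true) :
    FE i j cvm a.2 b.2 n.2 d.2 e.2 ep.2 f.2 fp.2 pn.2 := by
  unfold lnc at h
  cases nc with
  | false =>
    rw [cond_false] at h
    exact cls4_sound (snd_tst hi j) hE h
  | true =>
    rw [cond_true] at h
    simp only [Bool.and_eq_true] at h
    obtain ⟨c0, c1, c2, c3, c4, c5, c6, c7⟩ := h
    rcases i with _ | _ | _ | _ | i
    · cases j
      · exact cls4_sound (snd_tst1 (i := 0) (by norm_num) false) hE c0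
      · exact cls4_sound (snd_tst1 (i := 0) (by norm_num) true) hE c4
    · cases j
      · exact cls4_sound (snd_tst1 (i := 1) (by norm_num) false) hE c1
      · exact cls4_sound (snd_tst1 (i := 1) (by norm_num) true) hE c5
    · cases j
      · exact cls4_sound (snd_tst1 (i := 2) (by norm_num) false) hE c2
      · exact cls4_sound (snd_tst1 (i := 2) (by norm_num) true) hE c6
    · cases j
      · exact cls4_sound (snd_tst1 (i := 3) (by norm_num) false) hE c3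
      · exact cls4_sound (snd_tst1 (i := 3) (by norm_num) true) hE c7
    · omega

end cls

/-! ### one line -/

/-- `2^180` -/
def H0 : ℕ := Nat.pow 2 180

lemma cZ0_eq : cZ0 = H0 * cH := rfl
lemma cZ02_eq : cZ02 = 2 * (H0 * cH) := rfl
lemma HH_eq : HH = 1073741824 * H0 := by
  unfold HH H0
  rw [Nat.pow_eq, Nat.pow_eq, show (210 : ℕ) = 30 + 180 by norm_num, pow_add]
  norm_num

attribute [local irreducible] cZ0 cZ02 H0

lemma zn_eq {w : ℕ} : zn w = (HH - w * H0) * cH := by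
  unfold zn
  rw [cZh_eq, cZ0_eq, Nat.sub_eq, Nat.mul_eq, Nat.sub_mul]
  ring_nf

lemma znn_eq {w : ℕ} : znn w = (10000 * HH - w * H0) * cH := by
  unfold znn
  rw [cZn_eq, cZ0_eq, Nat.sub_eq, Nat.mul_eq, Nat.sub_mul]
  ring_nf

lemma Rep.toH {X w : ℕ} {y : ℕ → ℤ} (h : Rep X y (w * H0)) (hw : w ≤ 1073741824) :
    Rep (Nat.add X (zn w)) y HH := by
  refine h.norm ?_ zn_eq
  rw [HH_eq]
  exact Nat.mul_le_mul_right _ hw

lemma Rep.toN {X w : ℕ} {y : ℕ → ℤ} (h : Rep X y (w * H0)) (hw : w ≤ 1073741824) :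
    Rep (Nat.add X (znn w)) y (10000 * HH) := by
  refine h.norm ?_ znn_eq
  rw [HH_eq]
  calc w * H0 ≤ 1073741824 * H0 := Nat.mul_le_mul_right _ hw
    _ ≤ 10000 * (1073741824 * H0) := Nat.le_mul_of_pos_left _ (by norm_num)

/-- the packed coefficients -/
structure CR (C CU CUU CV CVV CA CAA L : ℕ × (ℕ → ℤ)) : Prop where
  C : Rep C.1 C.2 H0
  CU : Rep CU.1 CU.2 H0
  CUU : Rep CUU.1 CUU.2 H0
  CV : Rep CV.1 CV.2 H0
  CVV : Rep CVV.1 CVV.2 H0
  CA : Rep CA.1 CA.2 H0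
  CAA : Rep CAA.1 CAA.2 H0
  L : Rep L.1 L.2 H0

/-- the control form -/
noncomputable def cq (i : ℕ) (j : Bool) (C CU CUU CV CVV CA CAA L : ℕ → ℤ) : QI ℝ :=
  ⟨LR i j C, LR i j CU, LR i j CUU, LR i j CV, LR i j CVV, LR i j CA, LR i j CAA,
    10000 * LR i j L⟩

lemma LR_add (i : ℕ) (j : Bool) (y y' : ℕ → ℤ) :
    LR i j (fun p => y p + y' p) = LR i j y + LR i j y' := by
  unfold LR
  rw [Lam_add]
  push_cast
  rfl

lemma LR_smul (i : ℕ) (j : Bool) (w : ℕ) (y : ℕ → ℤ) :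
    LR i j (fun p => (w : ℤ) * y p) = w * LR i j y := by
  unfold LR
  rw [Lam_smul]
  push_cast
  rfl

lemma LR_neg (i : ℕ) (j : Bool) (y : ℕ → ℤ) :
    LR i j (fun p => - y p) = - LR i j y := by
  unfold LR
  rw [Lam_neg]
  push_cast
  rfl

end Pool.Agent.TSC.V3
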