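import Pool.Agent.TSC.V3Tst

set_option autoImplicit false

/-!
# Several numbers side by side (MP_d27362_co)
-/

namespace Pool.Agent.TSC.V3

open Pool.Agent.TSC

attribute [local irreducible] cB cM cQ cT cO m0 m1 m2 m3 a0 a1 a2 a3 k0 k1 k2 k3

/-- numbers side by side -/
def pkL : List ℕ → ℕ
  | [] => 0
  | x :: l => x + cQ * pkL l

/-- `1 + Q + ... + Q^(n-1)` -/
def gL : ℕ → ℕ
  | 0 => 0
  | n + 1 => 1 + cQ * gL n

lemma cQ_pos : 1 < cQ := by
  unfold cQ
  rw [Nat.pow_eq]
  exact Nat.one_lt_pow (by norm_num) (by norm_num)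

lemma gL_eq (n : ℕ) : gL n * (cQ - 1) + 1 = cQ ^ n := by
  induction n with
  | zero => simp [gL]
  | succ n ih =>
    have hQ := cQ_pos
    obtain ⟨q, hq⟩ : ∃ q, cQ = q + 1 := ⟨cQ - 1, by omega⟩
    rw [pow_succ, ← ih]
    simp only [gL]
    rw [hq, Nat.add_sub_cancel]
    ring

lemma geo_eq (n : ℕ) : geo n = gL n := by
  have hQ := cQ_pos
  have e1 : geo n = (cQ ^ n - 1) / (cQ - 1) := by
    unfold geo
    rfl
  rw [e1]
  rw [← gL_eq n, Nat.add_sub_cancel]
  exact Nat.mul_div_cancel _ (by omega)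

lemma pkL_map (m a : ℕ) : ∀ Xs : List ℕ, pkL Xs * m + a * gL Xs.length =
    pkL (Xs.map fun x => x * m + a)
  | [] => by simp [pkL, gL]
  | x :: l => by
    have ih := pkL_map m a l
    simp only [pkL, List.length_cons, gL, List.map_cons]
    rw [← ih]
    ring

lemma pkL_rep (k : ℕ) : ∀ n, k * gL n = pkL (List.replicate n k)
  | 0 => by simp [pkL, gL]
  | n + 1 => by
    have ih := pkL_rep k n
    simp only [gL, List.replicate_succ, pkL]
    rw [← ih]
    ring

lemma cQ_two : cQ = 2 ^ 4096 := by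
  unfold cQ
  rw [Nat.pow_eq]

lemma land_split {x k X K : ℕ} (hx : x < cQ) (hk : k < cQ)
    (h : Nat.land (x + cQ * X) (k + cQ * K) = k + cQ * K) :
    (∀ b, k.testBit b = true → x.testBit b = true) ∧ Nat.land X K = K := by
  have h1 : ∀ b, (x + cQ * X).testBit b = if b < 4096 then x.testBit b else X.testBit (b - 4096) := by
    intro b
    rw [add_comm, cQ_two]
    exact Nat.testBit_two_pow_mul_add _ (by rw [← cQ_two]; exact hx) b
  have h2 : ∀ b, (k + cQ * K).testBit b = if b < 4096 then k.testBit b else K.testBit (b - 4096) := by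
    intro b
    rw [add_comm, cQ_two]
    exact Nat.testBit_two_pow_mul_add _ (by rw [← cQ_two]; exact hk) b
  have h3 : ∀ b, ((x + cQ * X).testBit b && (k + cQ * K).testBit b) = (k + cQ * K).testBit b := by
    intro b
    rw [← Nat.testBit_and]
    exact congrArg (fun z => Nat.testBit z b) h
  constructor
  · intro b hb
    by_cases hb2 : b < 4096
    · have h4 := h3 b
      rw [h1, h2, if_pos hb2, if_pos hb2, hb, Bool.and_true] at h4
      exact h4
    · exfalso
      have : k.testBit b = false := by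
        apply Nat.testBit_lt_two_pow
        refine lt_of_lt_of_le hk ?_
        rw [cQ_two]
        exact Nat.pow_le_pow_right (by norm_num) (by omega)
      rw [this] at hb
      exact absurd hb (by simp)
  · apply Nat.eq_of_testBit_eq
    intro b
    have h4 := h3 (b + 4096)
    rw [h1, h2, if_neg (by omega), if_neg (by omega), Nat.add_sub_cancel] at h4
    show (X &&& K).testBit b = _
    rw [Nat.testBit_and]
    exact h4

/-- each of the numbers has the bits of the mask -/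
lemma land_all {k : ℕ} (hk : k < cQ) (Xs : List ℕ) : (∀ x ∈ Xs, x < cQ) →
    Nat.land (pkL Xs) (pkL (List.replicate Xs.length k)) = pkL (List.replicate Xs.length k) →
    ∀ x ∈ Xs, ∀ b, k.testBit b = true → x.testBit b = true := by
  induction Xs with
  | nil =>
    intro _ _ x hx
    simp at hx
  | cons y l ih =>
    intro hl h x hx
    simp only [List.length_cons, List.replicate_succ, pkL] at h
    obtain ⟨h1, h2⟩ := land_split (hl y (by simp)) hk h
    rcases List.mem_cons.1 hx with hx | hx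
    · rw [hx]
      exact h1
    · exact ih (fun z hz => hl z (by simp [hz])) h2 x hx

/-- the mask of the control `i` without the row -/
def kI : ℕ → ℕ
  | 0 => k0
  | 1 => k1
  | 2 => k2
  | _ => k3

/-- the factor of the row -/
def jm : Bool → ℕ
  | false => 1
  | true => cM

lemma cT_pow (n : ℕ) : Nat.mul cT (Nat.pow cB n) = 2 ^ (256 * n + 255) := by
  unfold cT cB
  rw [Nat.mul_eq, Nat.pow_eq, Nat.pow_eq, Nat.pow_eq, ← pow_mul, ← pow_add, add_comm]

lemma kI_eq {i : ℕ} (hi : i < 4) : kI i = 2 ^ (256 * i + 255) := by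
  rcases i with _ | _ | _ | _ | i
  · exact (by unfold k0; rfl : k0 = Nat.mul cT (Nat.pow cB 0)).trans (cT_pow 0)
  · exact (by unfold k1; rfl : k1 = Nat.mul cT (Nat.pow cB 1)).trans (cT_pow 1)
  · exact (by unfold k2; rfl : k2 = Nat.mul cT (Nat.pow cB 2)).trans (cT_pow 2)
  · exact (by unfold k3; rfl : k3 = Nat.mul cT (Nat.pow cB 3)).trans (cT_pow 3)
  · omega

lemma cM_two : cM = 2 ^ 1024 := by
  unfold cM
  rw [Nat.pow_eq]

lemma kIj_eq {i : ℕ} (hi : i < 4) (j : Bool) :
    Nat.mul (kI i) (jm j) = 2 ^ (256 * (i + 4 * (cond j 1 0)) + 255) := by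
  rw [kI_eq hi]
  cases j
  · simp [jm]
  · simp only [jm]
    rw [cM_two, Nat.mul_eq, ← pow_add]
    congr 1

lemma kI_m0 {i : ℕ} (hi : i < 4) :
    Nat.mul (kI i) m0 = 2 ^ (256 * (i + 4) + 255) + 2 ^ (256 * i + 255) := by
  rw [kI_eq hi]
  unfold m0
  rw [cM_two, Nat.mul_eq, Nat.add_eq, mul_add, mul_one, ← pow_add, add_comm]
  congr 2

/-- soundness of a test for the control `(i, j)` -/
def Snd (T : ℕ → ℕ → Bool) (i : ℕ) (j : Bool) : Prop :=
  ∀ Xs : List (ℕ × (ℕ → ℤ)), (∀ p ∈ Xs, Rep p.1 p.2 cO) →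
    T (gL Xs.length) (pkL (Xs.map Prod.fst)) = true → ∀ p ∈ Xs, 0 ≤ Lam i j p.2

lemma snd_land {i : ℕ} (hi : i < 4) {j : Bool} {k : ℕ} (hk : k < cQ)
    (hb : k.testBit (256 * (i + 4 * (cond j 1 0)) + 255) = true)
    (Xs : List (ℕ × (ℕ → ℤ))) (hX : ∀ p ∈ Xs, Rep p.1 p.2 cO)
    (h : land1 (mI i) (aI i) k (gL Xs.length) (pkL (Xs.map Prod.fst)) =
      Nat.mul k (gL Xs.length)) : ∀ p ∈ Xs, 0 ≤ Lam i j p.2 := by
  unfold land1 at h
  simp only [Nat.mul_eq, Nat.add_eq] at h
  have e1 := pkL_map (mI i) (aI i) (Xs.map Prod.fst)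
  rw [List.length_map] at e1
  rw [e1, pkL_rep] at h
  intro p hp
  have h2 := land_all hk ((Xs.map Prod.fst).map fun x => x * mI i + aI i) (by
      intro x hx
      rw [List.map_map, List.mem_map] at hx
      obtain ⟨q, hq, rfl⟩ := hx
      exact ctl_lt hi (hX q hq)) (by
      rw [List.length_map, List.length_map]
      exact h) (p.1 * mI i + aI i) (by
      rw [List.map_map, List.mem_map]
      exact ⟨p, hp, rfl⟩) _ hb
  exact ctl_sound hi (hX p hp) h2

lemma kIj_lt {i : ℕ} (hi : i < 4) (j : Bool) : Nat.mul (kI i) (jm j) < cQ := by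
  rw [kIj_eq hi, cQ_two]
  refine Nat.pow_lt_pow_right (by norm_num) ?_
  cases j <;> simp only [cond_true, cond_false] <;> omega

lemma snd_tst1 {i : ℕ} (hi : i < 4) (j : Bool) :
    Snd (tst1 (mI i) (aI i) (kI i) (jm j)) i j := by
  intro Xs hX h
  unfold tst1 at h
  have h := Nat.eq_of_beq_eq_true h
  refine snd_land hi (kIj_lt hi j) ?_ Xs hX h
  rw [kIj_eq hi]
  exact Nat.testBit_two_pow_self

lemma kIm_lt {i : ℕ} (hi : i < 4) : Nat.mul (kI i) m0 < cQ := by
  rw [kI_m0 hi, cQ_two]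
  have h1 : (2 : ℕ) ^ (256 * (i + 4) + 255) ≤ 2 ^ 2047 := Nat.pow_le_pow_right (by norm_num) (by omega)
  have h2 : (2 : ℕ) ^ (256 * i + 255) ≤ 2 ^ 2047 := Nat.pow_le_pow_right (by norm_num) (by omega)
  have h3 : (2 : ℕ) ^ 2047 + 2 ^ 2047 = 2 ^ 2048 := by
    rw [← two_mul, ← pow_succ']
  have h4 : (2 : ℕ) ^ 2048 < 2 ^ 4096 := Nat.pow_lt_pow_right (by norm_num) (by norm_num)
  omega

lemma kIm_bit {i : ℕ} (hi : i < 4) (j : Bool) :
    (Nat.mul (kI i) m0).testBit (256 * (i + 4 * (cond j 1 0)) + 255) = true := by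
  rw [kI_m0 hi]
  cases j
  · simp only [cond_false, Nat.mul_zero, Nat.add_zero]
    rw [Nat.testBit_two_pow_add_gt (by omega)]
    exact Nat.testBit_two_pow_self
  · simp only [cond_true, Nat.mul_one]
    rw [Nat.testBit_two_pow_add_eq, Nat.testBit_two_pow_of_ne (by omega)]
    rfl

lemma land1_le (m a k g X : ℕ) : land1 m a k g X ≤ Nat.mul k g := Nat.and_le_right

lemma snd_tst {i : ℕ} (hi : i < 4) (j : Bool) : Snd tst i j := by
  intro Xs hX h
  unfold tst at h
  have h := Nat.eq_of_beq_eq_true h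
  set g := gL Xs.length
  set X := pkL (Xs.map Prod.fst)
  have l0 := land1_le m0 a0 (Nat.mul k0 m0) g X
  have l1 := land1_le m1 a1 (Nat.mul k1 m0) g X
  have l2 := land1_le m2 a2 (Nat.mul k2 m0) g X
  have l3 := land1_le m3 a3 (Nat.mul k3 m0) g X
  have e : Nat.mul (Nat.mul m0 (Nat.add (Nat.add k0 k1) (Nat.add k2 k3))) g =
      Nat.mul (Nat.mul k0 m0) g + Nat.mul (Nat.mul k1 m0) g + (Nat.mul (Nat.mul k2 m0) g +
        Nat.mul (Nat.mul k3 m0) g) := by
    simp only [Nat.mul_eq, Nat.add_eq]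
    ring
  rw [e] at h
  simp only [Nat.add_eq] at h
  have key : land1 (mI i) (aI i) (Nat.mul (kI i) m0) g X = Nat.mul (Nat.mul (kI i) m0) g := by
    rcases i with _ | _ | _ | _ | i
    · show land1 m0 a0 (Nat.mul k0 m0) g X = Nat.mul (Nat.mul k0 m0) g
      omega
    · show land1 m1 a1 (Nat.mul k1 m0) g X = Nat.mul (Nat.mul k1 m0) g
      omega
    · show land1 m2 a2 (Nat.mul k2 m0) g X = Nat.mul (Nat.mul k2 m0) g
      omega
    · show land1 m3 a3 (Nat.mul k3 m0) g X = Nat.mul (Nat.mul k3 m0) g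
      omega
    · omega
  exact snd_land hi (kIm_lt hi) (kIm_bit hi j) Xs hX key

end Pool.Agent.TSC.V3
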