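import Pool.Agent.TSC.V3Form

set_option autoImplicit false

/-!
# From the packed polynomials to the control forms (MP_d27362_co)
-/

namespace Pool.Agent.TSC.V3

open Pool.Agent.TSC
open Polynomial

attribute [local irreducible] cB cM cQ cT m0 m1 m2 m3 a0 a1 a2 a3 k0 k1 k2 k3 HH cH cZh cZh2 cZn
  cZn2 cO cZ0 cZ02 H0

/-- coefficient number `p = a + 4 b` -/
noncomputable def cfs (g : N2) (p : ℕ) : ℕ := (g.coeff (p / 4)).coeff (p % 4)

/-- only the coefficients `lam^a mu^b`, `a < 4`, `b < 2` -/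
def Low (g : N2) : Prop := ∀ a b, (4 ≤ a ∨ 2 ≤ b) → (g.coeff b).coeff a = 0

lemma Low.deg {g : N2} (h : Low g) : g.natDegree < 2 := by
  refine Nat.lt_succ_of_le (natDegree_le_iff_coeff_eq_zero.2 fun b hb => ?_)
  apply Polynomial.ext
  intro a
  rw [coeff_zero]
  exact h a b (Or.inr hb)

lemma Low.deg' {g : N2} (h : Low g) (b : ℕ) : (g.coeff b).natDegree < 4 :=
  Nat.lt_succ_of_le (natDegree_le_iff_coeff_eq_zero.2 fun a ha => h a b (Or.inl ha))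

lemma Low.e2_eq {g : N2} (h : Low g) (B : ℕ) :
    (e2 B (B ^ 4) g : ℕ) = ∑ p ∈ Finset.range 8, cfs g p * B ^ p := by
  have h1 : e2 B (B ^ 4) g = g.eval₂ (evalRingHom B) (B ^ 4) := rfl
  rw [h1, eval₂_eq_sum_range' _ h.deg]
  have h2 : ∀ b, (evalRingHom B) (g.coeff b) = ∑ a ∈ Finset.range 4, (g.coeff b).coeff a * B ^ a :=
    fun b => eval_eq_sum_range' (h.deg' b) B
  simp only [h2, Finset.sum_range_succ, Finset.sum_range_zero, cfs]
  norm_num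
  ring

lemma Low.r2_eq {g : N2} (h : Low g) (x z : ℝ) :
    r2 x z g = ∑ p ∈ Finset.range 8, (cfs g p : ℝ) * (x ^ (p % 4) * z ^ (p / 4)) := by
  have h1 : r2 x z g = g.eval₂ (eval₂RingHom (Nat.castRingHom ℝ) x) z := rfl
  rw [h1, eval₂_eq_sum_range' _ h.deg]
  have h2 : ∀ b, (eval₂RingHom (Nat.castRingHom ℝ) x) (g.coeff b) =
      ∑ a ∈ Finset.range 4, ((g.coeff b).coeff a : ℝ) * x ^ a :=
    fun b => eval₂_eq_sum_range' _ (h.deg' b) x
  simp only [h2, Finset.sum_range_succ, Finset.sum_range_zero, cfs]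
  norm_num
  ring

/-- the bound of the coefficients: `2^179` -/
def H1 : ℕ := Nat.pow 2 179

/-- the conditions for a coefficient -/
structure BD (E : ℕ) (f : DS N2) : Prop where
  e : f.e ≤ E
  p : Low f.p
  n : Low f.n
  pb : ∀ q, cfs f.p q * 10 ^ (E - f.e) ≤ H1
  nb : ∀ q, cfs f.n q * 10 ^ (E - f.e) ≤ H1

/-- the digits -/
noncomputable def ys (E : ℕ) (f : DS N2) (q : ℕ) : ℤ :=
  ((cfs f.p q * 10 ^ (E - f.e) : ℕ) : ℤ) - ((cfs f.n q * 10 ^ (E - f.e) : ℕ) : ℤ)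

lemma H1_le : H1 + 2 ^ 151 ≤ H0 := by
  unfold H1 H0
  rw [Nat.pow_eq, Nat.pow_eq]
  norm_num

lemma BD.abs {E : ℕ} {f : DS N2} (h : BD E f) (q : ℕ) : |ys E f q| ≤ H1 := by
  unfold ys
  rw [abs_le]
  have h1 := h.pb q
  have h2 := h.nb q
  constructor <;> omega

/-- the packed number with an offset of integer digits -/
lemma BD.rep {E : ℕ} {f : DS N2} (h : BD E f) {Z : ℕ} {z : ℕ → ℤ}
    (hZ : (Z : ℤ) = ∑ p ∈ Finset.range 8, (z p + H0) * (cB : ℤ) ^ p)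
    (hz : ∀ p, |z p| ≤ 2 ^ 151) :
    Rep (cf E Z (f.dec (e2 cB cM))) (fun p => ys E f p + z p) H0 := by
  have hH := H1_le
  have hb : ∀ p, |ys E f p + z p| ≤ H0 := by
    intro p
    have h1 := h.abs p
    have h2 := hz p
    have h3 := abs_add_le (ys E f p) (z p)
    have h4 : ((H1 + 2 ^ 151 : ℕ) : ℤ) ≤ (H0 : ℤ) := by exact_mod_cast hH
    push_cast at h4
    linarith
  have e1 : ((e2 cB cM f.p * 10 ^ (E - f.e) : ℕ) : ℤ) =
      ∑ p ∈ Finset.range 8, ((cfs f.p p * 10 ^ (E - f.e) : ℕ) : ℤ) * (cB : ℤ) ^ p := by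
    rw [cM_eq, h.p.e2_eq cB, Finset.sum_mul]
    push_cast
    apply Finset.sum_congr rfl
    intro p _
    ring
  have e3 : ((e2 cB cM f.n * 10 ^ (E - f.e) : ℕ) : ℤ) =
      ∑ p ∈ Finset.range 8, ((cfs f.n p * 10 ^ (E - f.e) : ℕ) : ℤ) * (cB : ℤ) ^ p := by
    rw [cM_eq, h.n.e2_eq cB, Finset.sum_mul]
    push_cast
    apply Finset.sum_congr rfl
    intro p _
    ring
  have e4 : ((e2 cB cM f.p * 10 ^ (E - f.e) : ℕ) : ℤ) + Z - ((e2 cB cM f.n * 10 ^ (E - f.e) : ℕ) : ℤ) =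
      ∑ p ∈ Finset.range 8, (ys E f p + z p + H0) * (cB : ℤ) ^ p := by
    rw [e1, e3, hZ, ← Finset.sum_add_distrib, ← Finset.sum_sub_distrib]
    apply Finset.sum_congr rfl
    intro p _
    unfold ys
    ring
  have hpos : (0 : ℤ) ≤ ∑ p ∈ Finset.range 8, (ys E f p + z p + H0) * (cB : ℤ) ^ p := by
    apply Finset.sum_nonneg
    intro p _
    have := (abs_le.1 (hb p)).1
    exact mul_nonneg (by linarith) (pow_nonneg (Int.natCast_nonneg _) _)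
  have hle : e2 cB cM f.n * 10 ^ (E - f.e) ≤ e2 cB cM f.p * 10 ^ (E - f.e) + Z := by
    have : ((e2 cB cM f.n * 10 ^ (E - f.e) : ℕ) : ℤ) ≤
        ((e2 cB cM f.p * 10 ^ (E - f.e) : ℕ) : ℤ) + Z := by linarith
    exact_mod_cast this
  refine ⟨?_, hb⟩
  have e5 : cf E Z (f.dec (e2 cB cM)) =
      e2 cB cM f.p * 10 ^ (E - f.e) + Z - e2 cB cM f.n * 10 ^ (E - f.e) := rfl
  rw [e5, Nat.cast_sub hle, Nat.cast_add]
  exact e4

/-- the real value -/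
lemma BD.val {E : ℕ} {f : DS N2} (h : BD E f) (x z : ℝ) : (10 : ℝ) ^ E * f.val (r2 x z) =
    ∑ p ∈ Finset.range 8, (ys E f p : ℝ) * (x ^ (p % 4) * z ^ (p / 4)) := by
  have e0 : (10 : ℝ) ^ E = 10 ^ (E - f.e) * 10 ^ f.e := by
    rw [← pow_add, Nat.sub_add_cancel h.e]
  have hne : (10 : ℝ) ^ f.e ≠ 0 := by positivity
  unfold DS.val
  rw [e0, mul_assoc, mul_div_cancel₀ _ hne, h.p.r2_eq, h.n.r2_eq, ← Finset.sum_sub_distrib,
    Finset.mul_sum]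
  apply Finset.sum_congr rfl
  intro p _
  unfold ys
  push_cast
  ring

/-- the weights -/
noncomputable def bw (x : ℝ) : ℕ → ℝ
  | 0 => (1 - x) ^ 3
  | 1 => x * (1 - x) ^ 2
  | 2 => x ^ 2 * (1 - x)
  | _ => x ^ 3

/-- the sum over the controls -/
noncomputable def bsum (x z : ℝ) (F : ℕ → Bool → ℝ) : ℝ :=
  ((1 - z) * (bw x 0 * F 0 false + bw x 1 * F 1 false + bw x 2 * F 2 false + bw x 3 * F 3 false)) +
    z * (bw x 0 * F 0 true + bw x 1 * F 1 true + bw x 2 * F 2 true + bw x 3 * F 3 true)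

lemma bern (y : ℕ → ℤ) (x z : ℝ) :
    ∑ p ∈ Finset.range 8, (y p : ℝ) * (x ^ (p % 4) * z ^ (p / 4)) =
      bsum x z (fun i j => LR i j y) := by
  simp only [Finset.sum_range_succ, Finset.sum_range_zero, bsum, bw, LR, Lam, row, cond_true,
    cond_false]
  norm_num
  ring

lemma bsum_nonneg {x z : ℝ} (hx : 0 ≤ x) (hx1 : x ≤ 1) (hz : 0 ≤ z) (hz1 : z ≤ 1)
    {F : ℕ → Bool → ℝ} (h : ∀ i, i < 4 → ∀ j, 0 ≤ F i j) : 0 ≤ bsum x z F := by
  have hx' : 0 ≤ 1 - x := by linarith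
  have hz' : 0 ≤ 1 - z := by linarith
  unfold bsum
  simp only [bw]
  have a1 := h 0 (by norm_num) false
  have a2 := h 1 (by norm_num) false
  have a3 := h 2 (by norm_num) false
  have a4 := h 3 (by norm_num) false
  have b1 := h 0 (by norm_num) true
  have b2 := h 1 (by norm_num) true
  have b3 := h 2 (by norm_num) true
  have b4 := h 3 (by norm_num) true
  have w0 : 0 ≤ (1 - x) ^ 3 := pow_nonneg hx' 3
  have w1 : 0 ≤ x * (1 - x) ^ 2 := mul_nonneg hx (pow_nonneg hx' 2)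
  have w2 : 0 ≤ x ^ 2 * (1 - x) := mul_nonneg (pow_nonneg hx 2) hx'
  have w3 : 0 ≤ x ^ 3 := pow_nonneg hx 3
  refine add_nonneg (mul_nonneg hz' ?_) (mul_nonneg hz ?_)
  · exact add_nonneg (add_nonneg (add_nonneg (mul_nonneg w0 a1) (mul_nonneg w1 a2))
      (mul_nonneg w2 a3)) (mul_nonneg w3 a4)
  · exact add_nonneg (add_nonneg (add_nonneg (mul_nonneg w0 b1) (mul_nonneg w1 b2))
      (mul_nonneg w2 b3)) (mul_nonneg w3 b4)

/-- the conditions for a form -/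
structure BQ (q : QI (DS N2)) : Prop where
  c : BD 44 q.c
  cu : BD 44 q.cu
  cuu : BD 44 q.cuu
  cv : BD 44 q.cv
  cvv : BD 44 q.cvv
  ca : BD 44 q.ca
  caa : BD 44 q.caa
  l : BD 40 q.l

/-- the digits of a form -/
noncomputable def yq (z : ℕ → ℤ) (q : QI (DS N2)) : CFs :=
  ⟨fun p => ys 44 q.c p + z p, ys 44 q.cu, ys 44 q.cuu, ys 44 q.cv, ys 44 q.cvv, ys 44 q.ca,
    ys 44 q.caa, ys 40 q.l⟩

lemma Z0_sum : (cZ0 : ℤ) = ∑ p ∈ Finset.range 8, ((0 : ℤ) + H0) * (cB : ℤ) ^ p := by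
  rw [cZ0_eq]
  push_cast
  rw [cH_eq, Finset.mul_sum]
  apply Finset.sum_congr rfl
  intro p _
  ring

lemma BD.rep0 {E : ℕ} {f : DS N2} (h : BD E f) :
    Rep (cf E cZ0 (f.dec (e2 cB cM))) (ys E f) H0 := by
  have h1 := h.rep (z := fun _ => 0) Z0_sum (fun _ => by norm_num)
  simp only [add_zero] at h1
  exact h1

lemma BQ.qr {q : QI (DS N2)} (h : BQ q) {Z : ℕ} {z : ℕ → ℤ}
    (hZ : (Z : ℤ) = ∑ p ∈ Finset.range 8, (z p + H0) * (cB : ℤ) ^ p)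
    (hz : ∀ p, |z p| ≤ 2 ^ 151) : QR Z (q.map (DS.dec (e2 cB cM))) (yq z q) :=
  ⟨h.c.rep hZ hz, h.cu.rep0, h.cuu.rep0, h.cv.rep0, h.cvv.rep0, h.ca.rep0, h.caa.rep0, h.l.rep0⟩

/-- the value of the form as a sum over the controls -/
lemma BQ.ev {q : QI (DS N2)} (h : BQ q) (z : ℕ → ℤ) (x m u v a : ℝ) :
    (10 : ℝ) ^ 44 * (q.map (DS.val (r2 x m))).ev u v a +
      bsum x m (fun i j => LR i j z) =
      bsum x m (fun i j => (cq i j (yq z q).C (yq z q).CU (yq z q).CUU (yq z q).CV (yq z q).CVV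
        (yq z q).CA (yq z q).CAA (yq z q).L).ev u v a) := by
  have e1 := h.c.val x m
  have e2' := h.cu.val x m
  have e3 := h.cuu.val x m
  have e4 := h.cv.val x m
  have e5 := h.cvv.val x m
  have e6 := h.ca.val x m
  have e7 := h.caa.val x m
  have e8 := h.l.val x m
  rw [bern] at e1 e2' e3 e4 e5 e6 e7 e8
  have e9 : (10 : ℝ) ^ 44 * q.l.val (r2 x m) = 10000 * ((10 : ℝ) ^ 40 * q.l.val (r2 x m)) := by ring
  have e10 : (10 : ℝ) ^ 44 * (q.map (DS.val (r2 x m))).ev u v a =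
      (10 : ℝ) ^ 44 * q.c.val (r2 x m) + ((10 : ℝ) ^ 44 * q.cu.val (r2 x m)) * u +
      ((10 : ℝ) ^ 44 * q.cuu.val (r2 x m)) * u ^ 2 + ((10 : ℝ) ^ 44 * q.cv.val (r2 x m)) * v +
      ((10 : ℝ) ^ 44 * q.cvv.val (r2 x m)) * v ^ 2 + ((10 : ℝ) ^ 44 * q.ca.val (r2 x m)) * a +
      ((10 : ℝ) ^ 44 * q.caa.val (r2 x m)) * a ^ 2 -
      ((10 : ℝ) ^ 44 * q.l.val (r2 x m)) * Real.sqrt (v ^ 2 + a ^ 2) := by
    unfold QI.ev QI.map
    simp only
    ring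
  rw [e10, e9, e1, e2', e3, e4, e5, e6, e7, e8]
  unfold yq cq QI.ev
  simp only [LR_add, bsum]
  ring

end Pool.Agent.TSC.V3
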