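import Pool.Agent.TSC.Zf

set_option autoImplicit false

/-!
# Forms without a sign condition on the coefficient of `v` (MP_d27362_co)

The form is concave in `v`, so the minimum is at one of the ends `min W (u + θ a)` and
`max 0 (u - θ a)`: four faces.
-/

namespace Pool.Agent.TSC

/-- the upper end -/
lemma faces_hi {k s θ W : ℝ} {q : QI ℝ} (hW : 0 < W)
    (h1 : Cop3 (2 * q.c) (2 * (q.c + (W * (q.cu + q.cv) + W * W * (q.cuu + q.cvv))) -
        2 * (W * (q.l * k)))
      (2 * (q.caa + θ * θ * q.cuu)) (2 * q.c + W * (q.cu + q.cv) - W * (q.l * k))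
      (q.ca - θ * q.cu - q.l * s) (q.ca - θ * q.cu - q.l * s - 2 * (W * (θ * q.cuu))))
    (h2 : Cop3 (2 * (q.c + (W * (q.cu + q.cv) + W * W * (q.cuu + q.cvv))) -
        2 * (W * (q.l * k)))
      (2 * (q.caa + θ * θ * q.cuu)) (2 * (q.caa + θ * θ * q.cuu))
      (q.ca + θ * q.cu - q.l * s + 2 * (W * (θ * q.cuu)))
      (q.ca - θ * q.cu - q.l * s - 2 * (W * (θ * q.cuu)))
      (2 * (q.caa - θ * θ * q.cuu)))
    (hl : 0 ≤ q.l) {u v a : ℝ}
    (hv : 0 ≤ v) (hv2 : v ≤ W) (ha : 0 ≤ a) (hu : |u - v| ≤ θ * a)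
    (hks : Real.sqrt ((min W (u + θ * a)) ^ 2 + a ^ 2) ≤ k * min W (u + θ * a) + s * a) :
    0 ≤ q.ev u (min W (u + θ * a)) a := by
  obtain ⟨hu1, hu2⟩ := abs_le.1 hu
  have hls := mul_le_mul_of_nonneg_left hks hl
  rcases le_total (u + θ * a) W with h2' | h2'
  · have hvle : v ≤ u + θ * a := by linarith
    rw [min_eq_right h2'] at hls ⊢
    set w := u + θ * a with hw
    have hw0 : 0 ≤ w := le_trans hv hvle
    have huw : u = w - θ * a := by rw [hw]; ring
    have hx : 0 ≤ 1 - w / W := by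
      have : w / W ≤ 1 := (div_le_one hW).2 h2'
      linarith
    have key := h1 (1 - w / W) (w / W) a hx (div_nonneg hw0 hW.le) ha
    set r := w / W with hr
    have hwr : w = W * r := by rw [hr]; field_simp
    unfold QI.ev
    rw [huw]
    rw [hwr] at hls ⊢
    nlinarith
  · rw [min_eq_left h2'] at hls ⊢
    rcases eq_or_lt_of_le ha with ha0 | ha0
    · have hu2' : u = W := by rw [← ha0] at hu1 hu2 h2'; linarith
      have key := h2 1 0 0 (by norm_num) le_rfl le_rfl
      unfold QI.ev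
      rw [← ha0, hu2']
      rw [← ha0] at hls
      nlinarith
    · rcases eq_or_lt_of_le (show 0 ≤ θ by
        by_contra hθ
        push Not at hθ
        have := mul_neg_of_neg_of_pos hθ ha0
        have := abs_nonneg (u - v)
        linarith) with hθ | hθ
      · have hu2' : u = W := by rw [← hθ] at hu1 hu2 h2'; linarith
        have key := h2 1 (a / 2) (a / 2) (by norm_num) (by linarith) (by linarith)
        unfold QI.ev
        rw [hu2']
        rw [← hθ] at key
        nlinarith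
      · have hy : 0 ≤ (a + (u - W) / θ) / 2 := by
          have : - a ≤ (u - W) / θ := by
            rw [le_div_iff₀ hθ]; nlinarith
          linarith
        have hz : 0 ≤ (a - (u - W) / θ) / 2 := by
          have : (u - W) / θ ≤ a := by
            rw [div_le_iff₀ hθ]; nlinarith
          linarith
        have key := h2 1 ((a + (u - W) / θ) / 2) ((a - (u - W) / θ) / 2) (by norm_num) hy hz
        unfold QI.ev
        set r := (u - W) / θ with hr
        have hur : u = W + θ * r := by rw [hr]; field_simp; ring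
        rw [hur]
        nlinarith

/-- the lower end -/
lemma faces_lo {k s θ W : ℝ} {q : QI ℝ} (hW : 0 < W)
    (h3 : Cop3 (2 * q.c) (2 * (q.c + (W * (q.cu + q.cv) + W * W * (q.cuu + q.cvv))) -
        2 * (W * (q.l * k)))
      (2 * (q.caa + θ * θ * q.cuu)) (2 * q.c + W * (q.cu + q.cv) - W * (q.l * k))
      (q.ca + θ * q.cu - q.l * s) (q.ca + θ * q.cu - q.l * s + 2 * (W * (θ * q.cuu))))
    (h4 : Cop3 (2 * q.c) (2 * (q.caa + θ * θ * q.cuu)) (2 * (q.caa + θ * θ * q.cuu))
      (q.ca + θ * q.cu - q.l) (q.ca - θ * q.cu - q.l) (2 * (q.caa - θ * θ * q.cuu)))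
    (hl : 0 ≤ q.l) {u v a : ℝ}
    (_hv : 0 ≤ v) (hv2 : v ≤ W) (ha : 0 ≤ a) (hu : |u - v| ≤ θ * a)
    (hks : Real.sqrt ((max 0 (u - θ * a)) ^ 2 + a ^ 2) ≤ k * max 0 (u - θ * a) + s * a) :
    0 ≤ q.ev u (max 0 (u - θ * a)) a := by
  obtain ⟨hu1, hu2⟩ := abs_le.1 hu
  have hls := mul_le_mul_of_nonneg_left hks hl
  rcases le_total 0 (u - θ * a) with h2' | h2'
  · rw [max_eq_right h2'] at hls ⊢
    set w := u - θ * a with hw
    have hwW : w ≤ W := by linarith
    have huw : u = w + θ * a := by rw [hw]; ring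
    have hx : 0 ≤ 1 - w / W := by
      have : w / W ≤ 1 := (div_le_one hW).2 hwW
      linarith
    have key := h3 (1 - w / W) (w / W) a hx (div_nonneg h2' hW.le) ha
    set r := w / W with hr
    have hwr : w = W * r := by rw [hr]; field_simp
    unfold QI.ev
    rw [huw]
    rw [hwr] at hls ⊢
    nlinarith
  · rw [max_eq_left h2']
    have hq : Real.sqrt ((0 : ℝ) ^ 2 + a ^ 2) = a := by
      rw [show (0 : ℝ) ^ 2 + a ^ 2 = a ^ 2 by ring]
      exact Real.sqrt_sq ha
    have hl1 : -(θ * a) ≤ u := by linarith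
    rcases eq_or_lt_of_le ha with ha0 | ha0
    · have hu2' : u = 0 := by rw [← ha0] at hu1 hu2 h2' hl1; linarith
      have key := h4 1 0 0 (by norm_num) le_rfl le_rfl
      unfold QI.ev
      rw [hq, ← ha0, hu2']
      nlinarith
    · rcases eq_or_lt_of_le (show 0 ≤ θ by
        by_contra hθ
        push Not at hθ
        have := mul_neg_of_neg_of_pos hθ ha0
        have := abs_nonneg (u - v)
        linarith) with hθ | hθ
      · have hu2' : u = 0 := by rw [← hθ] at hu1 hu2 h2' hl1; linarith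
        have key := h4 1 (a / 2) (a / 2) (by norm_num) (by linarith) (by linarith)
        unfold QI.ev
        rw [hq, hu2']
        rw [← hθ] at key
        nlinarith
      · have hy : 0 ≤ (a + u / θ) / 2 := by
          have : - a ≤ u / θ := by
            rw [le_div_iff₀ hθ]; nlinarith
          linarith
        have hz : 0 ≤ (a - u / θ) / 2 := by
          have : u / θ ≤ a := by
            rw [div_le_iff₀ hθ]; nlinarith
          linarith
        have key := h4 1 ((a + u / θ) / 2) ((a - u / θ) / 2) (by norm_num) hy hz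
        unfold QI.ev
        rw [hq]
        set r := u / θ with hr
        have hur : u = θ * r := by rw [hr]; field_simp
        rw [hur]
        nlinarith

/-- concavity in `v` -/
lemma ev_concave {q : QI ℝ} (hcvv : q.cvv ≤ 0) (hl : 0 ≤ q.l) {u a x y v : ℝ}
    (hx : x ≤ v) (hy : v ≤ y) (h1 : 0 ≤ q.ev u x a) (h2 : 0 ≤ q.ev u y a) :
    0 ≤ q.ev u v a := by
  rcases eq_or_lt_of_le (hx.trans hy) with h | h
  · have : v = x := le_antisymm (h ▸ hy) hx
    rwa [this]
  · set s := (v - x) / (y - x) with hs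
    have hyx : 0 < y - x := by linarith
    have hs0 : 0 ≤ s := div_nonneg (by linarith) hyx.le
    have hs1 : s ≤ 1 := (div_le_one hyx).2 (by linarith)
    have hv : v = (1 - s) * x + s * y := by
      rw [hs]; field_simp; ring
    have hn : Real.sqrt (v ^ 2 + a ^ 2) ≤
        (1 - s) * Real.sqrt (x ^ 2 + a ^ 2) + s * Real.sqrt (y ^ 2 + a ^ 2) := by
      have a1 := Real.sqrt_nonneg (x ^ 2 + a ^ 2)
      have a2 := Real.sqrt_nonneg (y ^ 2 + a ^ 2)
      have b1 := Real.sq_sqrt (show 0 ≤ x ^ 2 + a ^ 2 by positivity)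
      have b2 := Real.sq_sqrt (show 0 ≤ y ^ 2 + a ^ 2 by positivity)
      set P := Real.sqrt (x ^ 2 + a ^ 2)
      set Q := Real.sqrt (y ^ 2 + a ^ 2)
      have hs1' : 0 ≤ 1 - s := by linarith
      have hPQ : x * y + a ^ 2 ≤ P * Q := by
        have hP : 0 ≤ P * Q := mul_nonneg a1 a2
        by_contra hc
        push Not at hc
        have h3 : (P * Q) ^ 2 < (x * y + a ^ 2) ^ 2 := by nlinarith
        have h4 : (P * Q) ^ 2 = (x ^ 2 + a ^ 2) * (y ^ 2 + a ^ 2) := by
          rw [mul_pow, b1, b2]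
        nlinarith [sq_nonneg (a * (x - y))]
      apply Real.sqrt_le_iff.2
      refine ⟨add_nonneg (mul_nonneg hs1' a1) (mul_nonneg hs0 a2), ?_⟩
      have h5 := mul_le_mul_of_nonneg_left hPQ (mul_nonneg hs1' hs0)
      have h6 : ((1 - s) * P + s * Q) ^ 2 - (((1 - s) * x + s * y) ^ 2 + a ^ 2) =
          2 * ((1 - s) * s * (P * Q) - (1 - s) * s * (x * y + a ^ 2)) := by
        linear_combination (1 - s) ^ 2 * b1 + s ^ 2 * b2
      rw [hv]
      linarith
    have hsq : v ^ 2 ≤ (1 - s) * x ^ 2 + s * y ^ 2 := by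
      rw [hv]
      nlinarith [mul_nonneg (mul_nonneg (sub_nonneg.2 hs1) hs0) (sq_nonneg (x - y))]
    have e1 := mul_le_mul_of_nonneg_left hn hl
    have e2 := mul_le_mul_of_nonpos_left hsq hcvv
    have e3 := mul_nonneg (sub_nonneg.2 hs1) h1
    have e4 := mul_nonneg hs0 h2
    unfold QI.ev at *
    have e5 : q.cv * v = (1 - s) * (q.cv * x) + s * (q.cv * y) := by rw [hv]; ring
    nlinarith

/-- the four faces over the real numbers; the domain is `0 ≤ v ≤ W` -/
lemma faces_real4 {k s k' s' θ W : ℝ} {q : QI ℝ} (hW : 0 < W)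
    (h1 : Cop3 (2 * q.c) (2 * (q.c + (W * (q.cu + q.cv) + W * W * (q.cuu + q.cvv))) -
        2 * (W * (q.l * k)))
      (2 * (q.caa + θ * θ * q.cuu)) (2 * q.c + W * (q.cu + q.cv) - W * (q.l * k))
      (q.ca - θ * q.cu - q.l * s) (q.ca - θ * q.cu - q.l * s - 2 * (W * (θ * q.cuu))))
    (h2 : Cop3 (2 * (q.c + (W * (q.cu + q.cv) + W * W * (q.cuu + q.cvv))) -
        2 * (W * (q.l * k)))
      (2 * (q.caa + θ * θ * q.cuu)) (2 * (q.caa + θ * θ * q.cuu))
      (q.ca + θ * q.cu - q.l * s + 2 * (W * (θ * q.cuu)))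
      (q.ca - θ * q.cu - q.l * s - 2 * (W * (θ * q.cuu)))
      (2 * (q.caa - θ * θ * q.cuu)))
    (h3 : Cop3 (2 * q.c) (2 * (q.c + (W * (q.cu + q.cv) + W * W * (q.cuu + q.cvv))) -
        2 * (W * (q.l * k')))
      (2 * (q.caa + θ * θ * q.cuu)) (2 * q.c + W * (q.cu + q.cv) - W * (q.l * k'))
      (q.ca + θ * q.cu - q.l * s') (q.ca + θ * q.cu - q.l * s' + 2 * (W * (θ * q.cuu))))
    (h4 : Cop3 (2 * q.c) (2 * (q.caa + θ * θ * q.cuu)) (2 * (q.caa + θ * θ * q.cuu))
      (q.ca + θ * q.cu - q.l) (q.ca - θ * q.cu - q.l) (2 * (q.caa - θ * θ * q.cuu)))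
    (hcvv : q.cvv ≤ 0) (hl : 0 ≤ q.l) {u v a : ℝ}
    (hv : 0 ≤ v) (hv2 : v ≤ W) (ha : 0 ≤ a) (hu : |u - v| ≤ θ * a)
    (hks : Real.sqrt ((min W (u + θ * a)) ^ 2 + a ^ 2) ≤ k * min W (u + θ * a) + s * a)
    (hks' : Real.sqrt ((max 0 (u - θ * a)) ^ 2 + a ^ 2) ≤ k' * max 0 (u - θ * a) + s' * a) :
    0 ≤ q.ev u v a := by
  obtain ⟨hu1, hu2⟩ := abs_le.1 hu
  refine ev_concave hcvv hl (x := max 0 (u - θ * a)) (y := min W (u + θ * a)) ?_ ?_
    (faces_lo hW h3 h4 hl hv hv2 ha hu hks') (faces_hi hW h1 h2 hl hv hv2 ha hu hks)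
  · exact max_le hv (by linarith)
  · exact le_min hv2 (by linarith)

end Pool.Agent.TSC
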