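import Pool.Agent.TSC.V3
import Pool.Agent.TSC.Zl

set_option autoImplicit false

/-!
# Packed numbers with an offset (MP_d27362_co)
-/

namespace Pool.Agent.TSC.V3

open Pool.Agent.TSC

/-- `X` is the packed number of the integers `y p + O`, `p < 8`, `|y p| ≤ O` -/
structure Rep (X : ℕ) (y : ℕ → ℤ) (O : ℕ) : Prop where
  eq : (X : ℤ) = ∑ p ∈ Finset.range 8, (y p + O) * (cB : ℤ) ^ p
  bd : ∀ p, |y p| ≤ O

lemma cH_eq : (cH : ℤ) = ∑ p ∈ Finset.range 8, (cB : ℤ) ^ p := by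
  have h : cM = cB ^ 4 := by
    unfold cM cB
    rw [Nat.pow_eq, Nat.pow_eq, ← pow_mul]
  unfold cH
  rw [h]
  simp only [Nat.mul_eq, Nat.add_eq, Nat.pow_eq, Finset.sum_range_succ, Finset.sum_range_zero]
  push_cast
  ring

lemma Rep.add {X X' : ℕ} {y y' : ℕ → ℤ} {O O' : ℕ} (h : Rep X y O) (h' : Rep X' y' O') :
    Rep (Nat.add X X') (fun p => y p + y' p) (O + O') := by
  refine ⟨?_, fun p => ?_⟩
  · rw [Nat.add_eq, Nat.cast_add, h.eq, h'.eq, ← Finset.sum_add_distrib]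
    apply Finset.sum_congr rfl
    intro p _
    push_cast
    ring
  · have h1 := h.bd p
    have h2 := h'.bd p
    push_cast
    exact (abs_add_le _ _).trans (add_le_add h1 h2)

lemma Rep.smul {X : ℕ} {y : ℕ → ℤ} {O : ℕ} (h : Rep X y O) (w : ℕ) :
    Rep (Nat.mul w X) (fun p => w * y p) (w * O) := by
  refine ⟨?_, fun p => ?_⟩
  · rw [Nat.mul_eq, Nat.cast_mul, h.eq, Finset.mul_sum]
    apply Finset.sum_congr rfl
    intro p _
    push_cast
    ring
  · have h1 := h.bd p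
    rw [abs_mul]
    push_cast
    rw [abs_of_nonneg (Int.natCast_nonneg w)]
    exact mul_le_mul_of_nonneg_left h1 (Int.natCast_nonneg w)

lemma Rep.compl {X : ℕ} {y : ℕ → ℤ} {O : ℕ} (h : Rep X y O) {Z : ℕ} (hZ : Z = 2 * (O * cH)) :
    Rep (Nat.sub Z X) (fun p => - y p) O := by
  have hle : X ≤ Z := by
    have : (X : ℤ) ≤ (Z : ℤ) := by
      rw [h.eq, hZ]
      push_cast
      rw [cH_eq, Finset.mul_sum, Finset.mul_sum]
      apply Finset.sum_le_sum
      intro p _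
      have h1 := (abs_le.1 (h.bd p)).2
      have h2 : (0 : ℤ) ≤ (cB : ℤ) ^ p := pow_nonneg (Int.natCast_nonneg _) _
      nlinarith
    exact_mod_cast this
  refine ⟨?_, fun p => by rw [abs_neg]; exact h.bd p⟩
  rw [Nat.sub_eq, Nat.cast_sub hle, h.eq, hZ]
  push_cast
  rw [cH_eq, Finset.mul_sum, Finset.mul_sum, ← Finset.sum_sub_distrib]
  apply Finset.sum_congr rfl
  intro p _
  ring

lemma Rep.norm {X : ℕ} {y : ℕ → ℤ} {O O' : ℕ} (h : Rep X y O) {Z : ℕ} (hO : O ≤ O')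
    (hZ : Z = (O' - O) * cH) : Rep (Nat.add X Z) y O' := by
  refine ⟨?_, fun p => (h.bd p).trans (by exact_mod_cast hO)⟩
  rw [Nat.add_eq, Nat.cast_add, h.eq, hZ]
  rw [Nat.cast_mul, Nat.cast_sub hO, cH_eq, Finset.mul_sum, ← Finset.sum_add_distrib]
  apply Finset.sum_congr rfl
  intro p _
  ring

lemma Rep.zero {Z O : ℕ} (hZ : Z = O * cH) : Rep Z (fun _ => 0) O := by
  refine ⟨?_, fun p => by simp⟩
  rw [hZ]
  push_cast
  rw [cH_eq, Finset.mul_sum]
  apply Finset.sum_congr rfl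
  intro p _
  ring

lemma Rep.cond {b : Bool} {X X' : ℕ} {y y' : ℕ → ℤ} {O : ℕ} (h : Rep X y O) (h' : Rep X' y' O) :
    Rep (cond b X X') (cond b y y') O := by
  cases b
  · exact h'
  · exact h

/-- the row `j` -/
def row (j : Bool) (y : ℕ → ℤ) (k : ℕ) : ℤ := cond j (y k + y (k + 4)) (y k)

/-- the control `(i, j)` -/
def Lam (i : ℕ) (j : Bool) (y : ℕ → ℤ) : ℤ :=
  match i with
  | 0 => row j y 0
  | 1 => 3 * row j y 0 + row j y 1
  | 2 => 3 * row j y 0 + 2 * row j y 1 + row j y 2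
  | _ => row j y 0 + row j y 1 + row j y 2 + row j y 3

lemma Lam_add (i : ℕ) (j : Bool) (y y' : ℕ → ℤ) :
    Lam i j (fun p => y p + y' p) = Lam i j y + Lam i j y' := by
  rcases i with _ | _ | _ | i <;> cases j <;> simp only [Lam, row, cond_true, cond_false] <;> ring

lemma Lam_smul (i : ℕ) (j : Bool) (w : ℤ) (y : ℕ → ℤ) :
    Lam i j (fun p => w * y p) = w * Lam i j y := by
  rcases i with _ | _ | _ | i <;> cases j <;> simp only [Lam, row, cond_true, cond_false] <;> ring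

lemma Lam_neg (i : ℕ) (j : Bool) (y : ℕ → ℤ) :
    Lam i j (fun p => - y p) = - Lam i j y := by
  rcases i with _ | _ | _ | i <;> cases j <;> simp only [Lam, row, cond_true, cond_false] <;> ring

lemma Lam_zero (i : ℕ) (j : Bool) : Lam i j (fun _ => 0) = 0 := by
  rcases i with _ | _ | _ | i <;> cases j <;> simp [Lam, row]

lemma Lam_cond (i : ℕ) (j b : Bool) (y y' : ℕ → ℤ) :
    Lam i j (cond b y y') = cond b (Lam i j y) (Lam i j y') := by
  cases b <;> rfl

/-! ### digits -/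

/-- the number with the digits `l` -/
def ofD (B : ℕ) : List ℕ → ℕ
  | [] => 0
  | d :: l => d + B * ofD B l

lemma ofD_digit {B : ℕ} : ∀ (l : List ℕ) (p : ℕ), (∀ d ∈ l, d < B) →
    ofD B l / B ^ p % B = l.getD p 0
  | [], p, _ => by simp [ofD]
  | d :: l, 0, h => by
    have hd := h d (by simp)
    simp only [ofD, pow_zero, Nat.div_one, List.getD_cons_zero]
    rw [Nat.add_mul_mod_self_left, Nat.mod_eq_of_lt hd]
  | d :: l, p + 1, h => by
    have hd := h d (by simp)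
    have hB : 0 < B := by omega
    have ih := ofD_digit l p (fun e he => h e (by simp [he]))
    simp only [ofD, List.getD_cons_succ]
    rw [pow_succ', ← Nat.div_div_eq_div_mul, Nat.add_mul_div_left _ _ hB, Nat.div_eq_of_lt hd,
      zero_add]
    exact ih

lemma ofD_lt {B : ℕ} : ∀ (l : List ℕ), (∀ d ∈ l, d < B) → ofD B l < B ^ l.length
  | [], _ => by simp [ofD]
  | d :: l, h => by
    have hd := h d (by simp)
    have ih := ofD_lt l (fun e he => h e (by simp [he]))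
    simp only [ofD, List.length_cons, pow_succ']
    calc d + B * ofD B l < B + B * ofD B l := by omega
      _ = B * (ofD B l + 1) := by ring
      _ ≤ B * B ^ l.length := Nat.mul_le_mul_left _ ih

/-- the top bit of a digit -/
lemma top_bit {X p : ℕ} (h : X.testBit (256 * p + 255) = true) :
    2 ^ 255 ≤ X / (2 ^ 256) ^ p % 2 ^ 256 := by
  rw [Nat.testBit_eq_decide_div_mod_eq, decide_eq_true_eq] at h
  rw [← pow_mul]
  rw [pow_add, ← Nat.div_div_eq_div_mul] at h
  set Y := X / 2 ^ (256 * p) with hY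
  by_contra hc
  push Not at hc
  have e1 : Y = 2 ^ 256 * (Y / 2 ^ 256) + Y % 2 ^ 256 := (Nat.div_add_mod _ _).symm
  have e2 : Y / 2 ^ 255 = 2 * (Y / 2 ^ 256) := by
    rw [e1]
    have : 2 ^ 256 * (Y / 2 ^ 256) + Y % 2 ^ 256 = Y % 2 ^ 256 + 2 ^ 255 * (2 * (Y / 2 ^ 256)) := by
      rw [show (2 : ℕ) ^ 256 = 2 ^ 255 * 2 by norm_num]
      ring
    rw [this, Nat.add_mul_div_left _ _ (by positivity), Nat.div_eq_of_lt hc, zero_add]
    have h3 : (Y % 2 ^ 256 + 2 ^ 255 * (2 * (Y / 2 ^ 256))) / 2 ^ 256 = Y / 2 ^ 256 := by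
      rw [← this, ← e1]
    rw [h3]
  rw [e2] at h
  omega

end Pool.Agent.TSC.V3
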