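import Pool.Agent.TSC.V3Rep

set_option autoImplicit false

/-!
# The tests with the masks (MP_d27362_co)
-/

namespace Pool.Agent.TSC.V3

open Pool.Agent.TSC

/-- the multiplier of the control `i` -/
def mI : ℕ → ℕ
  | 0 => m0
  | 1 => m1
  | 2 => m2
  | _ => m3

/-- the constant of the control `i` -/
def aI : ℕ → ℕ
  | 0 => a0
  | 1 => a1
  | 2 => a2
  | _ => a3

lemma cM_eq : cM = cB ^ 4 := by
  unfold cM cB
  rw [Nat.pow_eq, Nat.pow_eq, ← pow_mul]

lemma sum8 (B : ℕ) (D : ℕ → ℕ) : ∑ p ∈ Finset.range 8, (D p : ℤ) * (B : ℤ) ^ p =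
    ((ofD B [D 0, D 1, D 2, D 3, D 4, D 5, D 6, D 7] : ℕ) : ℤ) := by
  simp only [Finset.sum_range_succ, Finset.sum_range_zero, ofD]
  push_cast
  ring

/-- the digits -/
lemma digits_of {X : ℕ} {y : ℕ → ℤ} {O : ℕ} (h : Rep X y O) :
    ∃ D : ℕ → ℕ, (∀ p, (D p : ℤ) = y p + O) ∧ (∀ p, D p ≤ 2 * O) ∧
      X = ofD cB [D 0, D 1, D 2, D 3, D 4, D 5, D 6, D 7] := by
  refine ⟨fun p => (y p + O).toNat, ?_, ?_, ?_⟩
  · intro p
    have h1 := (abs_le.1 (h.bd p)).1
    exact Int.toNat_of_nonneg (by linarith)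
  · intro p
    have h1 := (abs_le.1 (h.bd p)).2
    have h3 := (abs_le.1 (h.bd p)).1
    have h2 : (((y p + O).toNat : ℕ) : ℤ) = y p + O := Int.toNat_of_nonneg (by linarith)
    have : (((y p + O).toNat : ℕ) : ℤ) ≤ ((2 * O : ℕ) : ℤ) := by
      rw [h2]; push_cast; linarith
    exact_mod_cast this
  · have h2 : ∀ p, (((y p + O).toNat : ℕ) : ℤ) = y p + O := by
      intro p
      have h3 := (abs_le.1 (h.bd p)).1
      exact Int.toNat_of_nonneg (by linarith)
    have h3 : (X : ℤ) = ∑ p ∈ Finset.range 8, (((y p + O).toNat : ℕ) : ℤ) * (cB : ℤ) ^ p := by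
      rw [h.eq]
      apply Finset.sum_congr rfl
      intro p _
      rw [h2]
    have h4 := sum8 cB (fun p => (y p + O).toNat)
    rw [← h3] at h4
    exact Int.natCast_inj.1 h4

section exp

variable {B H O : ℕ} (D : ℕ → ℕ)

/-- expansion of the product for the control 0 -/
lemma exp0 (x y : ℕ) : ofD B [D 0, D 1, D 2, D 3, D 4, D 5, D 6, D 7] * (1 + B ^ 4) +
      B ^ 0 * (x + B ^ 4 * y) =
    ofD B [D 0 + x, D 1, D 2, D 3, D 0 + D 4 + y, D 1 + D 5, D 2 + D 6, D 3 + D 7,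
      D 4, D 5, D 6, D 7] := by
  simp only [ofD]
  ring

lemma exp1 (x y : ℕ) : ofD B [D 0, D 1, D 2, D 3, D 4, D 5, D 6, D 7] *
      ((1 + B ^ 4) * (1 + 3 * B)) + B ^ 1 * (x + B ^ 4 * y) =
    ofD B [D 0, 3 * D 0 + D 1 + x, 3 * D 1 + D 2, 3 * D 2 + D 3, 3 * D 3 + (D 0 + D 4),
      3 * (D 0 + D 4) + (D 1 + D 5) + y, 3 * (D 1 + D 5) + (D 2 + D 6),
      3 * (D 2 + D 6) + (D 3 + D 7), 3 * (D 3 + D 7) + D 4, 3 * D 4 + D 5, 3 * D 5 + D 6,
      3 * D 6 + D 7, 3 * D 7] := by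
  simp only [ofD]
  ring

lemma exp2 (x y : ℕ) : ofD B [D 0, D 1, D 2, D 3, D 4, D 5, D 6, D 7] *
      ((1 + B ^ 4) * (1 + B * (2 + 3 * B))) + B ^ 2 * (x + B ^ 4 * y) =
    ofD B [D 0, 2 * D 0 + D 1, 3 * D 0 + 2 * D 1 + D 2 + x, 3 * D 1 + 2 * D 2 + D 3,
      3 * D 2 + 2 * D 3 + (D 0 + D 4), 3 * D 3 + 2 * (D 0 + D 4) + (D 1 + D 5),
      3 * (D 0 + D 4) + 2 * (D 1 + D 5) + (D 2 + D 6) + y,
      3 * (D 1 + D 5) + 2 * (D 2 + D 6) + (D 3 + D 7),
      3 * (D 2 + D 6) + 2 * (D 3 + D 7) + D 4, 3 * (D 3 + D 7) + 2 * D 4 + D 5,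
      3 * D 4 + 2 * D 5 + D 6, 3 * D 5 + 2 * D 6 + D 7, 3 * D 6 + 2 * D 7, 3 * D 7] := by
  simp only [ofD]
  ring

lemma exp3 (x y : ℕ) : ofD B [D 0, D 1, D 2, D 3, D 4, D 5, D 6, D 7] *
      ((1 + B ^ 4) * ((1 + B) * (1 + B * B))) + B ^ 3 * (x + B ^ 4 * y) =
    ofD B [D 0, D 0 + D 1, D 0 + D 1 + D 2, D 0 + D 1 + D 2 + D 3 + x,
      D 1 + D 2 + D 3 + (D 0 + D 4), D 2 + D 3 + (D 0 + D 4) + (D 1 + D 5),
      D 3 + (D 0 + D 4) + (D 1 + D 5) + (D 2 + D 6),
      (D 0 + D 4) + (D 1 + D 5) + (D 2 + D 6) + (D 3 + D 7) + y,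
      (D 1 + D 5) + (D 2 + D 6) + (D 3 + D 7) + D 4,
      (D 2 + D 6) + (D 3 + D 7) + D 4 + D 5, (D 3 + D 7) + D 4 + D 5 + D 6,
      D 4 + D 5 + D 6 + D 7, D 5 + D 6 + D 7, D 6 + D 7, D 7] := by
  simp only [ofD]
  ring

end exp

lemma T_eq (i : ℕ) (hi : i < 4) (D : ℕ → ℕ) : ∃ l : List ℕ,
    ofD cB [D 0, D 1, D 2, D 3, D 4, D 5, D 6, D 7] * mI i + aI i = ofD cB l ∧ l.length ≤ 15 ∧
    (∀ O, (∀ p, D p ≤ 2 * O) → 24 * O < cT → cO = O → (∀ d ∈ l, d < cB)) ∧
    (∀ (O : ℕ) (y : ℕ → ℤ), (∀ p, (D p : ℤ) = y p + O) → 24 * O < cT → cO = O →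
      ∀ j : Bool, cT ≤ l.getD (i + 4 * (cond j 1 0)) 0 → 0 ≤ Lam i j y) := by
  have hBT : cB = 2 * cT := by
    unfold cB cT
    rw [Nat.pow_eq, Nat.pow_eq]
  have e0 : m0 = 1 + cB ^ 4 := by
    unfold m0; rw [cM_eq, Nat.add_eq]
  have e1 : m1 = (1 + cB ^ 4) * (1 + 3 * cB) := by
    unfold m1; rw [e0]; rfl
  have e2 : m2 = (1 + cB ^ 4) * (1 + cB * (2 + 3 * cB)) := by
    unfold m2; rw [e0]; rfl
  have e3 : m3 = (1 + cB ^ 4) * ((1 + cB) * (1 + cB * cB)) := by
    unfold m3; rw [e0]; rfl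
  have f : ∀ c i, aOf c i = cB ^ i * ((cT - c * cO) + cB ^ 4 * (cT - c * (2 * cO))) := by
    intro c i
    unfold aOf
    rw [cM_eq]
    rfl
  rcases i with _ | _ | _ | _ | i
  · show ∃ l, _ * m0 + a0 = _ ∧ _
    rw [e0]
    unfold a0
    rw [f, exp0]
    refine ⟨_, rfl, by simp, ?_, ?_⟩
    · intro O hD hO hc
      have h0 := hD 0; have h1 := hD 1; have h2 := hD 2; have h3 := hD 3
      have h4 := hD 4; have h5 := hD 5; have h6 := hD 6; have h7 := hD 7
      simp only [List.mem_cons, List.not_mem_nil, or_false, forall_eq_or_imp, forall_eq]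
      refine ⟨?_, ?_, ?_, ?_, ?_, ?_, ?_, ?_, ?_, ?_, ?_, ?_⟩ <;> omega
    · intro O y hy hO hc j hj
      have h0 := hy 0; have h1 := hy 1; have h2 := hy 2; have h3 := hy 3
      have h4 := hy 4; have h5 := hy 5; have h6 := hy 6; have h7 := hy 7
      cases j
      · simp only [Lam, row, cond_false]
        simp only [cond_false, Nat.mul_zero, Nat.add_zero, List.getD_cons_zero] at hj
        omega
      · simp only [Lam, row, cond_true, Nat.zero_add, Nat.reduceAdd]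
        simp only [cond_true, Nat.mul_one, Nat.zero_add, List.getD_cons_succ,
          List.getD_cons_zero] at hj
        omega
  · show ∃ l, _ * m1 + a1 = _ ∧ _
    rw [e1]
    unfold a1
    rw [f, exp1]
    refine ⟨_, rfl, by simp, ?_, ?_⟩
    · intro O hD hO hc
      have h0 := hD 0; have h1 := hD 1; have h2 := hD 2; have h3 := hD 3
      have h4 := hD 4; have h5 := hD 5; have h6 := hD 6; have h7 := hD 7
      simp only [List.mem_cons, List.not_mem_nil, or_false, forall_eq_or_imp, forall_eq]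
      refine ⟨?_, ?_, ?_, ?_, ?_, ?_, ?_, ?_, ?_, ?_, ?_, ?_, ?_⟩ <;> omega
    · intro O y hy hO hc j hj
      have h0 := hy 0; have h1 := hy 1; have h2 := hy 2; have h3 := hy 3
      have h4 := hy 4; have h5 := hy 5; have h6 := hy 6; have h7 := hy 7
      cases j
      · simp only [Lam, row, cond_false]
        simp only [cond_false, Nat.mul_zero, Nat.add_zero, List.getD_cons_succ,
          List.getD_cons_zero] at hj
        omega
      · simp only [Lam, row, cond_true, Nat.zero_add, Nat.reduceAdd]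
        simp only [cond_true, Nat.mul_one, List.getD_cons_succ,
          List.getD_cons_zero] at hj
        omega
  · show ∃ l, _ * m2 + a2 = _ ∧ _
    rw [e2]
    unfold a2
    rw [f, exp2]
    refine ⟨_, rfl, by simp, ?_, ?_⟩
    · intro O hD hO hc
      have h0 := hD 0; have h1 := hD 1; have h2 := hD 2; have h3 := hD 3
      have h4 := hD 4; have h5 := hD 5; have h6 := hD 6; have h7 := hD 7
      simp only [List.mem_cons, List.not_mem_nil, or_false, forall_eq_or_imp, forall_eq]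
      refine ⟨?_, ?_, ?_, ?_, ?_, ?_, ?_, ?_, ?_, ?_, ?_, ?_, ?_, ?_⟩ <;> omega
    · intro O y hy hO hc j hj
      have h0 := hy 0; have h1 := hy 1; have h2 := hy 2; have h3 := hy 3
      have h4 := hy 4; have h5 := hy 5; have h6 := hy 6; have h7 := hy 7
      cases j
      · simp only [Lam, row, cond_false]
        simp only [cond_false, Nat.mul_zero, Nat.add_zero, List.getD_cons_succ,
          List.getD_cons_zero] at hj
        omega
      · simp only [Lam, row, cond_true, Nat.zero_add, Nat.reduceAdd]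
        simp only [cond_true, Nat.mul_one, List.getD_cons_succ,
          List.getD_cons_zero] at hj
        omega
  · show ∃ l, _ * m3 + a3 = _ ∧ _
    rw [e3]
    unfold a3
    rw [f, exp3]
    refine ⟨_, rfl, by simp, ?_, ?_⟩
    · intro O hD hO hc
      have h0 := hD 0; have h1 := hD 1; have h2 := hD 2; have h3 := hD 3
      have h4 := hD 4; have h5 := hD 5; have h6 := hD 6; have h7 := hD 7
      simp only [List.mem_cons, List.not_mem_nil, or_false, forall_eq_or_imp, forall_eq]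
      refine ⟨?_, ?_, ?_, ?_, ?_, ?_, ?_, ?_, ?_, ?_, ?_, ?_, ?_, ?_, ?_⟩ <;> omega
    · intro O y hy hO hc j hj
      have h0 := hy 0; have h1 := hy 1; have h2 := hy 2; have h3 := hy 3
      have h4 := hy 4; have h5 := hy 5; have h6 := hy 6; have h7 := hy 7
      cases j
      · simp only [Lam, row, cond_false]
        simp only [cond_false, Nat.mul_zero, Nat.add_zero, List.getD_cons_succ,
          List.getD_cons_zero] at hj
        omega
      · simp only [Lam, row, cond_true, Nat.zero_add, Nat.reduceAdd]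
        simp only [cond_true, Nat.mul_one, List.getD_cons_succ,
          List.getD_cons_zero] at hj
        omega
  · omega

lemma cO_small : 24 * cO < cT := by
  unfold cO cT cG
  rw [Nat.mul_eq, Nat.pow_eq, Nat.pow_eq]
  norm_num

/-- one number -/
lemma ctl_sound {i : ℕ} (hi : i < 4) {j : Bool} {X : ℕ} {y : ℕ → ℤ} (h : Rep X y cO)
    (hb : (X * mI i + aI i).testBit (256 * (i + 4 * (cond j 1 0)) + 255) = true) :
    0 ≤ Lam i j y := by
  obtain ⟨D, hD, hD2, hX⟩ := digits_of h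
  obtain ⟨l, h1, _, h3, h4⟩ := T_eq i hi D
  rw [hX, h1] at hb
  have h5 := top_bit hb
  have h6 := ofD_digit (B := cB) l (i + 4 * (cond j 1 0)) (h3 cO hD2 cO_small rfl)
  have h7 : cB = 2 ^ 256 := rfl
  rw [← h7, h6] at h5
  exact h4 cO y hD cO_small rfl j h5

lemma ctl_lt {i : ℕ} (hi : i < 4) {X : ℕ} {y : ℕ → ℤ} (h : Rep X y cO) :
    X * mI i + aI i < cQ := by
  obtain ⟨D, hD, hD2, hX⟩ := digits_of h
  obtain ⟨l, h1, h2, h3, _⟩ := T_eq i hi D
  rw [hX, h1]
  have h5 := ofD_lt (B := cB) l (h3 cO hD2 cO_small rfl)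
  have hQ : cQ = cB ^ 16 := by
    unfold cQ cB
    rw [Nat.pow_eq, Nat.pow_eq, ← pow_mul]
  rw [hQ]
  refine lt_of_lt_of_le h5 (Nat.pow_le_pow_right ?_ (by omega))
  unfold cB
  rw [Nat.pow_eq]
  positivity

end Pool.Agent.TSC.V3
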