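import Pool.Agent.TSC.Quad

set_option autoImplicit false

/-!
# Fast version of the test: integers `p - n` with a common scale (MP_d27362_co)
-/

namespace Pool.Agent.TSC

/-- the integer `p - n` -/
structure Z2 where
  p : Nat
  n : Nat

namespace Z2

noncomputable def val (x : Z2) : ℝ := (x.p : ℝ) - (x.n : ℝ)

def add (x y : Z2) : Z2 := ⟨Nat.add x.p y.p, Nat.add x.n y.n⟩
def sub (x y : Z2) : Z2 := ⟨Nat.add x.p y.n, Nat.add x.n y.p⟩
def sm (k : Nat) (x : Z2) : Z2 := ⟨Nat.mul k x.p, Nat.mul k x.n⟩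
/-- subtract a natural number -/
def subn (x : Z2) (k : Nat) : Z2 := ⟨x.p, Nat.add x.n k⟩

lemma val_add (x y : Z2) : (add x y).val = x.val + y.val := by
  unfold val add; simp only [Nat.add_eq, Nat.cast_add]; ring
lemma val_sub (x y : Z2) : (sub x y).val = x.val - y.val := by
  unfold val sub; simp only [Nat.add_eq, Nat.cast_add]; ring
lemma val_sm (k : Nat) (x : Z2) : (sm k x).val = k * x.val := by
  unfold val sm; simp only [Nat.mul_eq, Nat.cast_mul]; ring
lemma val_subn (x : Z2) (k : Nat) : (subn x k).val = x.val - k := by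
  unfold val subn; simp only [Nat.add_eq, Nat.cast_add]; ring

/-- nonnegative -/
def nn (x : Z2) : Bool := Nat.ble x.n x.p

lemma nn_true {x : Z2} (h : nn x = true) : 0 ≤ x.val ∧ x.val = ((Nat.sub x.p x.n : ℕ) : ℝ) := by
  unfold nn at h
  have h := Nat.le_of_ble_eq_true h
  unfold val
  rw [Nat.sub_eq, Nat.cast_sub h]
  refine ⟨?_, rfl⟩
  have : (x.n : ℝ) ≤ x.p := by exact_mod_cast h
  linarith

lemma nn_false {x : Z2} (h : nn x = false) : x.val ≤ 0 ∧ x.val = - ((Nat.sub x.n x.p : ℕ) : ℝ) := by
  unfold nn at h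
  have h : ¬ x.n ≤ x.p := by
    intro h'
    rw [Nat.ble_eq_true_of_le h'] at h
    exact absurd h (by simp)
  have h : x.p ≤ x.n := by omega
  unfold val
  rw [Nat.sub_eq, Nat.cast_sub h]
  have : (x.p : ℝ) ≤ x.n := by exact_mod_cast h
  constructor <;> linarith

end Z2

/-- the form is nonnegative on the orthant -/
def Cop3 (a b c d e f : ℝ) : Prop :=
  ∀ x y z : ℝ, 0 ≤ x → 0 ≤ y → 0 ≤ z →
    0 ≤ a * x ^ 2 + b * y ^ 2 + c * z ^ 2 + 2 * d * x * y + 2 * e * x * z + 2 * f * y * z

def Cop2 (a b c : ℝ) : Prop :=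
  ∀ x y : ℝ, 0 ≤ x → 0 ≤ y → 0 ≤ a * x ^ 2 + 2 * b * x * y + c * y ^ 2

lemma cop2R {a b c : ℝ} (ha : 0 ≤ a) (hc : 0 ≤ c) (h : 0 ≤ b ∨ b ^ 2 ≤ a * c) : Cop2 a b c := by
  intro x y hx hy
  have hxy := mul_nonneg hx hy
  rcases h with hb | hb
  · have := mul_nonneg hb hxy
    nlinarith [mul_nonneg ha (sq_nonneg x), mul_nonneg hc (sq_nonneg y)]
  · rcases eq_or_lt_of_le ha with h0 | h0
    · have hb0 : b = 0 := by
        have : b ^ 2 ≤ 0 := by rw [← h0] at hb; linarith
        exact pow_eq_zero_iff (two_ne_zero) |>.1 (le_antisymm this (sq_nonneg _))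
      rw [← h0, hb0]
      nlinarith [mul_nonneg hc (sq_nonneg y)]
    · have h1 : 0 ≤ a * (a * x ^ 2 + 2 * b * x * y + c * y ^ 2) := by
        have e : a * (a * x ^ 2 + 2 * b * x * y + c * y ^ 2) =
            (a * x + b * y) ^ 2 + (a * c - b ^ 2) * y ^ 2 := by ring
        rw [e]
        exact add_nonneg (sq_nonneg _) (mul_nonneg (by linarith) (sq_nonneg _))
      by_contra hneg
      push Not at hneg
      have := mul_neg_of_pos_of_neg h0 hneg
      linarith

lemma schurR {a b c d e f : ℝ} (ha : 0 < a)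
    (h : Cop2 (a * b - d ^ 2) (a * f - d * e) (a * c - e ^ 2)) : Cop3 a b c d e f := by
  intro x y z _ hy hz
  have hc := h y z hy hz
  by_contra hneg
  push Not at hneg
  have h1 := mul_neg_of_pos_of_neg ha hneg
  have e1 : a * (a * x ^ 2 + b * y ^ 2 + c * z ^ 2 + 2 * d * x * y + 2 * e * x * z +
      2 * f * y * z) = (a * x + d * y + e * z) ^ 2 + ((a * b - d ^ 2) * y ^ 2 +
        2 * (a * f - d * e) * y * z + (a * c - e ^ 2) * z ^ 2) := by ring
  rw [e1] at h1
  linarith [sq_nonneg (a * x + d * y + e * z)]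

lemma Cop3.swap12 {a b c d e f : ℝ} (h : Cop3 b a c d f e) : Cop3 a b c d e f := by
  intro x y z hx hy hz
  have := h y x z hy hx hz
  linarith

lemma Cop3.swap13 {a b c d e f : ℝ} (h : Cop3 c b a f e d) : Cop3 a b c d e f := by
  intro x y z hx hy hz
  have := h z y x hz hy hx
  linarith

/-- `a x² + 2 b x y + c y²`, `a, c ≥ 0` given as natural numbers -/
def cop2z (A : Nat) (b : Z2) (C : Nat) : Bool :=
  Nat.ble b.n b.p || Nat.ble (Nat.mul (Nat.sub b.n b.p) (Nat.sub b.n b.p)) (Nat.mul A C)

lemma cop2z_sound {A : Nat} {b : Z2} {C : Nat} (h : cop2z A b C = true) :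
    Cop2 (A : ℝ) b.val (C : ℝ) := by
  refine cop2R (Nat.cast_nonneg _) (Nat.cast_nonneg _) ?_
  unfold cop2z at h
  simp only [Bool.or_eq_true] at h
  by_cases hb : Z2.nn b = true
  · exact Or.inl (Z2.nn_true hb).1
  · rcases h with h | h
    · exact absurd h hb
    · right
      have h := Nat.le_of_ble_eq_true h
      have hb := (Z2.nn_false (by simpa using hb)).2
      rw [hb]
      have h' : (((b.n.sub b.p) * (b.n.sub b.p) : ℕ) : ℝ) ≤ ((A * C : ℕ) : ℝ) := by
        exact_mod_cast h
      rw [Nat.cast_mul, Nat.cast_mul] at h'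
      rw [neg_sq, sq]
      exact h'

/-- pivot `A`; `D, E` are the moduli of the negative entries of the row of the pivot -/
def schurz (A B C D E : Nat) (f : Z2) : Bool :=
  Nat.ble 1 A && (Nat.ble (Nat.mul D D) (Nat.mul A B) && (Nat.ble (Nat.mul E E) (Nat.mul A C) &&
    cop2z (Nat.sub (Nat.mul A B) (Nat.mul D D))
      ⟨Nat.mul A f.p, Nat.add (Nat.mul A f.n) (Nat.mul D E)⟩
      (Nat.sub (Nat.mul A C) (Nat.mul E E))))

lemma schurz_sound {A B C D E : Nat} {f : Z2} (h : schurz A B C D E f = true) :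
    Cop3 (A : ℝ) (B : ℝ) (C : ℝ) (-(D : ℝ)) (-(E : ℝ)) f.val := by
  unfold schurz at h
  simp only [Bool.and_eq_true] at h
  obtain ⟨h1, h2, h3, h4⟩ := h
  have h1 := Nat.le_of_ble_eq_true h1
  have h2 := Nat.le_of_ble_eq_true h2
  have h3 := Nat.le_of_ble_eq_true h3
  have h4 := cop2z_sound h4
  refine schurR (by exact_mod_cast h1) ?_
  have e1 : (Z2.val ⟨A.mul f.p, (A.mul f.n).add (D.mul E)⟩) = A * f.val - D * E := by
    unfold Z2.val
    simp only [Nat.mul_eq, Nat.add_eq, Nat.cast_add, Nat.cast_mul]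
    ring
  rw [e1, Nat.sub_eq, Nat.sub_eq, Nat.cast_sub h2, Nat.cast_sub h3] at h4
  simp only [Nat.mul_eq, Nat.cast_mul] at h4
  intro x y hx hy
  have := h4 x y hx hy
  nlinarith

/-- the test of copositivity; all signs are read off -/
def cop3z (a b c d e f : Z2) : Bool :=
  Z2.nn a && (Z2.nn b && (Z2.nn c &&
    cond (Z2.nn d)
      (cond (Z2.nn e) (cop2z (Nat.sub b.p b.n) f (Nat.sub c.p c.n))
        (cond (Z2.nn f) (cop2z (Nat.sub a.p a.n) e (Nat.sub c.p c.n))
          (schurz (Nat.sub c.p c.n) (Nat.sub a.p a.n) (Nat.sub b.p b.n) (Nat.sub e.n e.p)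
            (Nat.sub f.n f.p) d)))
      (cond (Z2.nn f)
        (cond (Z2.nn e) (cop2z (Nat.sub a.p a.n) d (Nat.sub b.p b.n))
          (schurz (Nat.sub a.p a.n) (Nat.sub b.p b.n) (Nat.sub c.p c.n) (Nat.sub d.n d.p)
            (Nat.sub e.n e.p) f))
        (schurz (Nat.sub b.p b.n) (Nat.sub a.p a.n) (Nat.sub c.p c.n) (Nat.sub d.n d.p)
          (Nat.sub f.n f.p) e))))

lemma cop3z_sound {a b c d e f : Z2} (h : cop3z a b c d e f = true) :
    Cop3 a.val b.val c.val d.val e.val f.val := by
  unfold cop3z at h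
  simp only [Bool.and_eq_true] at h
  obtain ⟨ha, hb, hc, h⟩ := h
  obtain ⟨ha0, ha⟩ := Z2.nn_true ha
  obtain ⟨hb0, hb⟩ := Z2.nn_true hb
  obtain ⟨hc0, hc⟩ := Z2.nn_true hc
  cases hd : Z2.nn d with
  | true =>
    have hd0 := (Z2.nn_true hd).1
    rw [hd] at h
    simp only [cond_true] at h
    cases he : Z2.nn e with
    | true =>
      have he0 := (Z2.nn_true he).1
      rw [he] at h
      simp only [cond_true] at h
      have h := cop2z_sound h
      rw [← hb, ← hc] at h
      intro x y z hx hy hz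
      have h := h y z hy hz
      nlinarith [mul_nonneg ha0 (sq_nonneg x), mul_nonneg hd0 (mul_nonneg hx hy),
        mul_nonneg he0 (mul_nonneg hx hz)]
    | false =>
      rw [he] at h
      simp only [cond_false] at h
      have he' := (Z2.nn_false he).2
      cases hf : Z2.nn f with
      | true =>
        have hf0 := (Z2.nn_true hf).1
        rw [hf] at h
        simp only [cond_true] at h
        have h := cop2z_sound h
        rw [← ha, ← hc] at h
        intro x y z hx hy hz
        have h := h x z hx hz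
        nlinarith [mul_nonneg hb0 (sq_nonneg y), mul_nonneg hd0 (mul_nonneg hx hy),
          mul_nonneg hf0 (mul_nonneg hy hz)]
      | false =>
        rw [hf] at h
        simp only [cond_false] at h
        have hf' := (Z2.nn_false hf).2
        have h := schurz_sound h
        rw [← ha, ← hb, ← hc, ← he', ← hf'] at h
        intro x y z hx hy hz
        have := h z x y hz hx hy
        linarith
  | false =>
    rw [hd] at h
    simp only [cond_false] at h
    have hd' := (Z2.nn_false hd).2
    cases hf : Z2.nn f with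
    | true =>
      have hf0 := (Z2.nn_true hf).1
      rw [hf] at h
      simp only [cond_true] at h
      cases he : Z2.nn e with
      | true =>
        have he0 := (Z2.nn_true he).1
        rw [he] at h
        simp only [cond_true] at h
        have h := cop2z_sound h
        rw [← ha, ← hb] at h
        intro x y z hx hy hz
        have h := h x y hx hy
        nlinarith [mul_nonneg hc0 (sq_nonneg z), mul_nonneg he0 (mul_nonneg hx hz),
          mul_nonneg hf0 (mul_nonneg hy hz)]
      | false =>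
        rw [he] at h
        simp only [cond_false] at h
        have he' := (Z2.nn_false he).2
        have h := schurz_sound h
        rw [← ha, ← hb, ← hc, ← hd', ← he'] at h
        intro x y z hx hy hz
        exact h x y z hx hy hz
    | false =>
      rw [hf] at h
      simp only [cond_false] at h
      have hf' := (Z2.nn_false hf).2
      have h := schurz_sound h
      rw [← ha, ← hb, ← hc, ← hd', ← hf'] at h
      intro x y z hx hy hz
      have := h y x z hy hx hz
      linarith

end Pool.Agent.TSC
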