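import Pool.Agent.TSC.Zc

set_option autoImplicit false

/-!
# The two faces with integers (MP_d27362_co)

The coefficients are integers; `l` has 4 decimals less than the other coefficients, `θ` is
`th / 10^4`, the support lines are `k / 10^4, s / 10^4`.
-/

namespace Pool.Agent.TSC

/-- the two faces over the real numbers; the domain is `0 ≤ v ≤ W` -/
lemma faces_real {k s θ W : ℝ} {q : QI ℝ} (hW : 0 < W)
    (h1 : Cop3 (2 * q.c) (2 * (q.c + (W * (q.cu + q.cv) + W * W * (q.cuu + q.cvv))) -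
        2 * (W * (q.l * k)))
      (2 * (q.caa + θ * θ * q.cuu)) (2 * q.c + W * (q.cu + q.cv) - W * (q.l * k))
      (q.ca - θ * q.cu - q.l * s) (q.ca - θ * q.cu - q.l * s - 2 * (W * (θ * q.cuu))))
    (h2 : Cop3 (2 * (q.c + (W * (q.cu + q.cv) + W * W * (q.cuu + q.cvv))) -
        2 * (W * (q.l * k)))
      (2 * (q.caa + θ * θ * q.cuu)) (2 * (q.caa + θ * θ * q.cuu))
      (q.ca + θ * q.cu - q.l * s + 2 * (W * (θ * q.cuu)))
      (q.ca - θ * q.cu - q.l * s - 2 * (W * (θ * q.cuu)))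
      (2 * (q.caa - θ * θ * q.cuu)))
    (hcv : q.cv ≤ 0) (hcvv : q.cvv ≤ 0) (hl : 0 ≤ q.l) {u v a : ℝ}
    (hv : 0 ≤ v) (hv2 : v ≤ W) (ha : 0 ≤ a) (hu : |u - v| ≤ θ * a)
    (hks : Real.sqrt ((min W (u + θ * a)) ^ 2 + a ^ 2) ≤ k * min W (u + θ * a) + s * a) :
    0 ≤ q.ev u v a := by
  obtain ⟨hu1, hu2⟩ := abs_le.1 hu
  have mono : ∀ v' : ℝ, v ≤ v' → q.ev u v' a ≤ q.ev u v a := by
    intro v' hvv
    unfold QI.ev
    have e1 : Real.sqrt (v ^ 2 + a ^ 2) ≤ Real.sqrt (v' ^ 2 + a ^ 2) :=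
      Real.sqrt_le_sqrt (by nlinarith)
    have e2 := mul_le_mul_of_nonneg_left e1 hl
    have e3 : q.cv * v' ≤ q.cv * v := mul_le_mul_of_nonpos_left hvv hcv
    have e4 : q.cvv * v' ^ 2 ≤ q.cvv * v ^ 2 :=
      mul_le_mul_of_nonpos_left (by nlinarith) hcvv
    linarith
  rcases le_total (u + θ * a) W with h2' | h2'
  · have hvle : v ≤ u + θ * a := by linarith
    refine le_trans ?_ (mono (u + θ * a) hvle)
    have hs := hks
    rw [min_eq_right h2'] at hs
    set w := u + θ * a with hw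
    have hw0 : 0 ≤ w := le_trans hv hvle
    have huw : u = w - θ * a := by rw [hw]; ring
    have hls := mul_le_mul_of_nonneg_left hs hl
    have hx : 0 ≤ 1 - w / W := by
      have : w / W ≤ 1 := (div_le_one hW).2 h2'
      linarith
    have key := h1 (1 - w / W) (w / W) a hx (div_nonneg hw0 hW.le) ha
    set r := w / W with hr
    have hwr : w = W * r := by rw [hr]; field_simp
    unfold QI.ev
    rw [huw]
    rw [hwr] at hls ⊢
    nlinarith
  · refine le_trans ?_ (mono W hv2)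
    have hs := hks
    rw [min_eq_left h2'] at hs
    have hls := mul_le_mul_of_nonneg_left hs hl
    rcases eq_or_lt_of_le ha with ha0 | ha0
    · have hu2' : u = W := by rw [← ha0] at hu1 hu2 h2'; linarith
      have key := h2 1 0 0 (by norm_num) le_rfl le_rfl
      unfold QI.ev
      rw [← ha0, hu2']
      rw [← ha0] at hls
      nlinarith
    · rcases eq_or_lt_of_le (show 0 ≤ θ by
        by_contra hθ
        push Not at hθ
        have := mul_neg_of_neg_of_pos hθ ha0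
        have := abs_nonneg (u - v)
        linarith) with hθ | hθ
      · have hu2' : u = W := by rw [← hθ] at hu1 hu2 h2'; linarith
        have key := h2 1 (a / 2) (a / 2) (by norm_num) (by linarith) (by linarith)
        unfold QI.ev
        rw [hu2']
        rw [← hθ] at key
        nlinarith
      · have hy : 0 ≤ (a + (u - W) / θ) / 2 := by
          have : - a ≤ (u - W) / θ := by
            rw [le_div_iff₀ hθ]; nlinarith
          linarith
        have hz : 0 ≤ (a - (u - W) / θ) / 2 := by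
          have : (u - W) / θ ≤ a := by
            rw [div_le_iff₀ hθ]; nlinarith
          linarith
        have key := h2 1 ((a + (u - W) / θ) / 2) ((a - (u - W) / θ) / 2) (by norm_num) hy hz
        unfold QI.ev
        set r := (u - W) / θ with hr
        have hur : u = W + θ * r := by rw [hr]; field_simp; ring
        rw [hur]
        nlinarith

open Z2

/-- `10 ^ 4` and `10 ^ 8` -/
abbrev S4 : Nat := 10000
abbrev S8 : Nat := 100000000

/-- the two faces for a support line `(k, s)`; base quantities: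
`A0 = 2c`, `A1`, `N = 2(S²caa + θ²cuu)`, `B1 = 2c+W(cu+cv)`, `E = S ca - θ cu`, `Ep = S ca + θ cu`,
`G = 2 W θ cuu`, `PN = 2(S²caa - θ²cuu)` -/
def facesz (W k s l : Nat) (A0 A1 N B1 E Ep G PN : Z2) : Bool :=
  cop3z A0 (subn A1 (Nat.mul 2 (Nat.mul W (Nat.mul l k)))) N (subn B1 (Nat.mul W (Nat.mul l k)))
      (subn E (Nat.mul S4 (Nat.mul l s))) (sub (subn E (Nat.mul S4 (Nat.mul l s))) G) &&
    cop3z (subn A1 (Nat.mul 2 (Nat.mul W (Nat.mul l k)))) N N
      (add (subn Ep (Nat.mul S4 (Nat.mul l s))) G) (sub (subn E (Nat.mul S4 (Nat.mul l s))) G) PN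

/-- all the support lines -/
def lines (W l : Nat) (A0 A1 N B1 E Ep G PN : Z2) : Bool :=
  facesz W 10000 10000 l A0 A1 N B1 E Ep G PN ||
    (facesz W 10000 1327 l A0 A1 N B1 E Ep G PN &&
    (facesz W 9312 3879 l A0 A1 N B1 E Ep G PN &&
    (facesz W 7995 6148 l A0 A1 N B1 E Ep G PN &&
    (facesz W 6148 7995 l A0 A1 N B1 E Ep G PN &&
    (facesz W 3879 9312 l A0 A1 N B1 E Ep G PN &&
    facesz W 1327 10000 l A0 A1 N B1 E Ep G PN)))))

/-- the test, for `0 ≤ v ≤ W` -/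
def chkz (W th : Nat) (q : QI Z2) : Bool :=
  Nat.ble q.cv.p q.cv.n && (Nat.ble q.cvv.p q.cvv.n && (Nat.ble q.l.n q.l.p &&
    lines W (Nat.sub q.l.p q.l.n) (sm 2 q.c)
      (sm 2 (add q.c (add (sm W (add q.cu q.cv)) (sm (Nat.mul W W) (add q.cuu q.cvv)))))
      (sm 2 (add (sm S8 q.caa) (sm (Nat.mul th th) q.cuu)))
      (add (sm 2 q.c) (sm W (add q.cu q.cv)))
      (sub (sm S4 q.ca) (sm th q.cu))
      (add (sm S4 q.ca) (sm th q.cu))
      (sm 2 (sm W (sm th q.cuu)))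
      (sm 2 (sub (sm S8 q.caa) (sm (Nat.mul th th) q.cuu)))))

/-- the real form of an integer form: `l` gets the factor `10^4` -/
noncomputable def QI.realz (q : QI Z2) : QI ℝ :=
  ⟨q.c.val, q.cu.val, q.cuu.val, q.cv.val, q.cvv.val, q.ca.val, q.caa.val, 10000 * q.l.val⟩

lemma cop3_scale {a b c d e f S : ℝ} (hS : 0 < S)
    (h : Cop3 a b (S ^ 2 * c) d (S * e) (S * f)) : Cop3 a b c d e f := by
  intro x y z hx hy hz
  have := h x y (z / S) hx hy (div_nonneg hz hS.le)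
  have e1 : a * x ^ 2 + b * y ^ 2 + S ^ 2 * c * (z / S) ^ 2 + 2 * d * x * y +
      2 * (S * e) * x * (z / S) + 2 * (S * f) * y * (z / S) =
      a * x ^ 2 + b * y ^ 2 + c * z ^ 2 + 2 * d * x * y + 2 * e * x * z + 2 * f * y * z := by
    field_simp
  rw [e1] at this
  exact this

lemma cop3_scale2 {a b c d e f S : ℝ} (hS : 0 < S)
    (h : Cop3 a (S ^ 2 * b) (S ^ 2 * c) (S * d) (S * e) (S ^ 2 * f)) : Cop3 a b c d e f := by
  intro x y z hx hy hz
  have := h x (y / S) (z / S) hx (div_nonneg hy hS.le) (div_nonneg hz hS.le)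
  have e1 : a * x ^ 2 + S ^ 2 * b * (y / S) ^ 2 + S ^ 2 * c * (z / S) ^ 2 +
      2 * (S * d) * x * (y / S) + 2 * (S * e) * x * (z / S) +
      2 * (S ^ 2 * f) * (y / S) * (z / S) =
      a * x ^ 2 + b * y ^ 2 + c * z ^ 2 + 2 * d * x * y + 2 * e * x * z + 2 * f * y * z := by
    field_simp
  rw [e1] at this
  exact this

lemma facesz_sound {W k s th : Nat} (hW : 1 ≤ W) {q : QI Z2}
    (h : facesz W k s (Nat.sub q.l.p q.l.n) (sm 2 q.c)
      (sm 2 (add q.c (add (sm W (add q.cu q.cv)) (sm (Nat.mul W W) (add q.cuu q.cvv)))))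
      (sm 2 (add (sm S8 q.caa) (sm (Nat.mul th th) q.cuu)))
      (add (sm 2 q.c) (sm W (add q.cu q.cv)))
      (sub (sm S4 q.ca) (sm th q.cu))
      (add (sm S4 q.ca) (sm th q.cu))
      (sm 2 (sm W (sm th q.cuu)))
      (sm 2 (sub (sm S8 q.caa) (sm (Nat.mul th th) q.cuu))) = true)
    (hcv : q.cv.val ≤ 0) (hcvv : q.cvv.val ≤ 0) (hl : Z2.nn q.l = true) {u v a : ℝ}
    (hv : 0 ≤ v) (hv2 : v ≤ W) (ha : 0 ≤ a) (hu : |u - v| ≤ (th : ℝ) / 10000 * a)
    (hks : Real.sqrt ((min (W : ℝ) (u + (th : ℝ) / 10000 * a)) ^ 2 + a ^ 2) ≤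
      (k : ℝ) / 10000 * min (W : ℝ) (u + (th : ℝ) / 10000 * a) + (s : ℝ) / 10000 * a) :
    0 ≤ q.realz.ev u v a := by
  obtain ⟨hl0, hl1⟩ := Z2.nn_true hl
  unfold facesz at h
  simp only [Bool.and_eq_true] at h
  have h1 := cop3z_sound h.1
  have h2 := cop3z_sound h.2
  simp only [Z2.val_add, Z2.val_sub, Z2.val_sm, Z2.val_subn, Nat.mul_eq, Nat.cast_mul] at h1 h2
  rw [← hl1] at h1 h2
  push_cast at h1 h2
  refine faces_real (k := (k : ℝ) / 10000) (s := (s : ℝ) / 10000) (θ := (th : ℝ) / 10000)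
    (W := (W : ℝ)) (by exact_mod_cast hW) ?_ ?_
    hcv hcvv (by unfold QI.realz; simp only; linarith) hv hv2 ha hu hks
  · refine cop3_scale (S := 10000) (by norm_num) ?_
    unfold QI.realz
    simp only
    convert h1 using 1 <;> ring
  · refine cop3_scale2 (S := 10000) (by norm_num) ?_
    unfold QI.realz
    simp only
    convert h2 using 1 <;> ring

lemma suppz {v a : ℝ} (hv : 0 ≤ v) (ha : 0 ≤ a) :
    Real.sqrt (v ^ 2 + a ^ 2) ≤ ((10000 : ℕ) : ℝ) / 10000 * v + ((1327 : ℕ) : ℝ) / 10000 * a ∨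
    Real.sqrt (v ^ 2 + a ^ 2) ≤ ((9312 : ℕ) : ℝ) / 10000 * v + ((3879 : ℕ) : ℝ) / 10000 * a ∨
    Real.sqrt (v ^ 2 + a ^ 2) ≤ ((7995 : ℕ) : ℝ) / 10000 * v + ((6148 : ℕ) : ℝ) / 10000 * a ∨
    Real.sqrt (v ^ 2 + a ^ 2) ≤ ((6148 : ℕ) : ℝ) / 10000 * v + ((7995 : ℕ) : ℝ) / 10000 * a ∨
    Real.sqrt (v ^ 2 + a ^ 2) ≤ ((3879 : ℕ) : ℝ) / 10000 * v + ((9312 : ℕ) : ℝ) / 10000 * a ∨
    Real.sqrt (v ^ 2 + a ^ 2) ≤ ((1327 : ℕ) : ℝ) / 10000 * v + ((10000 : ℕ) : ℝ) / 10000 * a := by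
  have h := supp_all hv ha
  unfold Supp L1 L2 L3 L4 L5 L6 Dec.val at h
  norm_num only [Nat.cast_ofNat, Nat.cast_one, Nat.cast_zero] at h ⊢
  exact h

/-- **soundness** -/
theorem chkz_sound {W th : Nat} (hW : 1 ≤ W) {q : QI Z2} (h : chkz W th q = true) {u v a : ℝ}
    (hv : 0 ≤ v) (hv2 : v ≤ W) (ha : 0 ≤ a) (hu : |u - v| ≤ (th : ℝ) / 10000 * a) :
    0 ≤ q.realz.ev u v a := by
  unfold chkz lines at h
  simp only [Bool.and_eq_true, Bool.or_eq_true] at h
  obtain ⟨h1, h2, h3, h⟩ := h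
  have h1 := Nat.le_of_ble_eq_true h1
  have h2 := Nat.le_of_ble_eq_true h2
  have hcv : q.cv.val ≤ 0 := by
    unfold Z2.val
    have : (q.cv.p : ℝ) ≤ q.cv.n := by exact_mod_cast h1
    linarith
  have hcvv : q.cvv.val ≤ 0 := by
    unfold Z2.val
    have : (q.cvv.p : ℝ) ≤ q.cvv.n := by exact_mod_cast h2
    linarith
  have hw : 0 ≤ min (W : ℝ) (u + (th : ℝ) / 10000 * a) := by
    refine le_min (Nat.cast_nonneg _) ?_
    have := (abs_le.1 hu).1
    linarith
  rcases h with h | ⟨f1, f2, f3, f4, f5, f6⟩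
  · refine facesz_sound hW h hcv hcvv h3 hv hv2 ha hu ?_
    have := norm_le_one hw ha
    rw [Dec.val_one] at this
    norm_num only [Nat.cast_ofNat]
    exact this
  · rcases suppz hw ha with s | s | s | s | s | s
    · exact facesz_sound hW f1 hcv hcvv h3 hv hv2 ha hu s
    · exact facesz_sound hW f2 hcv hcvv h3 hv hv2 ha hu s
    · exact facesz_sound hW f3 hcv hcvv h3 hv hv2 ha hu s
    · exact facesz_sound hW f4 hcv hcvv h3 hv hv2 ha hu s
    · exact facesz_sound hW f5 hcv hcvv h3 hv hv2 ha hu s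
    · exact facesz_sound hW f6 hcv hcvv h3 hv hv2 ha hu s

end Pool.Agent.TSC
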